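import Pool.Agent.X281.SE.FGn

/-!
# Many good discrete valuation rings for almost all vectors of coefficients
-/

set_option autoImplicit false

namespace Pool.Agent.X281.SEN

open Polynomial

/-- the proportion of residue classes does not grow when the ideal becomes smaller -/
theorem ncard_mono {R : Type} [CommRing R] (I J : Ideal R) (hJI : J ≤ I) [Finite (R ⧸ I)]
    [Finite (R ⧸ J)] (N : ℕ) (E : Set (Fin N → R)) (ε : ℝ)
    (h : (Set.ncard ((fun (c : Fin N → R) i => Ideal.Quotient.mk I (c i)) '' E) : ℝ) ≤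
      ε * (Nat.card (R ⧸ I) : ℝ) ^ N) :
    (Set.ncard ((fun (c : Fin N → R) i => Ideal.Quotient.mk J (c i)) '' E) : ℝ) ≤
      ε * (Nat.card (R ⧸ J) : ℝ) ^ N := by
  classical
  let G := Fin N → R ⧸ J
  let H := Fin N → R ⧸ I
  let f : G → H := fun g i => Ideal.Quotient.factor hJI (g i)
  have hfsub : ∀ g g' : G, f (g - g') = f g - f g' := fun g g' => by
    funext i
    exact map_sub _ _ _
  have hfadd : ∀ g g' : G, f (g + g') = f g + f g' := fun g g' => by
    funext i
    exact map_add _ _ _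
  have hsurj : Function.Surjective f := by
    intro y
    choose r hr using fun i => Ideal.Quotient.mk_surjective (y i)
    refine ⟨fun i => Ideal.Quotient.mk J (r i), ?_⟩
    funext i
    change Ideal.Quotient.factor hJI (Ideal.Quotient.mk J (r i)) = y i
    rw [Ideal.Quotient.factor_mk, hr]
  let σ : H → G := Function.surjInv hsurj
  have hσ : ∀ y, f (σ y) = y := Function.surjInv_eq hsurj
  set K : Set G := {g | f g = 0} with hK
  set A := (fun (c : Fin N → R) i => Ideal.Quotient.mk I (c i)) '' E with hA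
  set B := (fun (c : Fin N → R) i => Ideal.Quotient.mk J (c i)) '' E with hB
  have hfB : ∀ b ∈ B, f b ∈ A := by
    rintro _ ⟨c, hc, rfl⟩
    refine ⟨c, hc, ?_⟩
    funext i
    exact (Ideal.Quotient.factor_mk hJI (c i)).symm
  -- upper bound
  have h1 : B.ncard ≤ A.ncard * K.ncard := by
    rw [← Set.ncard_prod]
    refine Set.ncard_le_ncard_of_injOn (fun b => (f b, b - σ (f b))) ?_ ?_ (Set.toFinite _)
    · intro b hb
      refine ⟨hfB b hb, ?_⟩
      change f (b - σ (f b)) = 0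
      rw [hfsub, hσ, sub_self]
    · intro b _ b' _ hbb
      simp only [Prod.mk.injEq] at hbb
      obtain ⟨h2, h3⟩ := hbb
      rw [h2] at h3
      exact sub_left_injective h3
  -- lower bound
  have h2 : Nat.card H * K.ncard ≤ Nat.card G := by
    have h3 : ((Set.univ : Set H) ×ˢ K).ncard ≤ (Set.univ : Set G).ncard := by
      refine Set.ncard_le_ncard_of_injOn (fun p => σ p.1 + p.2) (fun _ _ => Set.mem_univ _) ?_
        (Set.toFinite _)
      rintro ⟨y, g⟩ ⟨-, hg⟩ ⟨y', g'⟩ ⟨-, hg'⟩ hgg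
      have h4 : f (σ y + g) = f (σ y' + g') := congrArg f hgg
      rw [hfadd, hfadd, hσ, hσ] at h4
      have hg0 : f g = 0 := hg
      have hg0' : f g' = 0 := hg'
      rw [hg0, hg0', add_zero, add_zero] at h4
      subst h4
      simp only at hgg
      rw [add_right_inj] at hgg
      rw [hgg]
    rwa [Set.ncard_prod, Set.ncard_univ, Set.ncard_univ] at h3
  have hcH : (Nat.card H : ℝ) = (Nat.card (R ⧸ I) : ℝ) ^ N := by
    rw [Nat.card_pi, Finset.prod_const, Finset.card_univ, Fintype.card_fin]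
    push_cast
    rfl
  have hcG : (Nat.card G : ℝ) = (Nat.card (R ⧸ J) : ℝ) ^ N := by
    rw [Nat.card_pi, Finset.prod_const, Finset.card_univ, Fintype.card_fin]
    push_cast
    rfl
  rw [← hcG]
  rw [← hcH] at h
  have h1' : (B.ncard : ℝ) ≤ A.ncard * K.ncard := by exact_mod_cast h1
  have h2' : (Nat.card H : ℝ) * K.ncard ≤ Nat.card G := by exact_mod_cast h2
  have hε : 0 ≤ ε := by
    by_contra hε
    push Not at hε
    have hpos : (0 : ℝ) < Nat.card H := by
      have : 0 < Nat.card H := Nat.card_pos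
      exact_mod_cast this
    have h3 : ε * (Nat.card H : ℝ) < 0 := mul_neg_of_neg_of_pos hε hpos
    have h4 : (0 : ℝ) ≤ A.ncard := Nat.cast_nonneg _
    linarith
  calc (B.ncard : ℝ) ≤ A.ncard * K.ncard := h1'
    _ ≤ (ε * Nat.card H) * K.ncard := by
        refine mul_le_mul_of_nonneg_right h (Nat.cast_nonneg _)
    _ = ε * ((Nat.card H : ℝ) * K.ncard) := by ring
    _ ≤ ε * Nat.card G := mul_le_mul_of_nonneg_left h2' hε

theorem density_n {R k : Type} [CommRing R] [IsDomain R] [CharZero R] [Algebra.FiniteType ℤ R]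
    [Field k] [Algebra R k] [IsFractionRing R k] (n : ℕ) (q : ℕ) (hq : q ≠ 0) (d : ℕ) (hd : 3 ≤ d)
    (ε : ℝ) (hε : 0 < ε) :
    ∃ Q : Fin n → ℕ × ℕ, (∀ j, q ∣ (Q j).1) ∧ (∀ i j, i < j → (Q i).2 ∣ (Q j).1) ∧
      ∃ I : Ideal R, Finite (R ⧸ I) ∧
      (Set.ncard ((fun (c : Fin (d + 2) → R) i => Ideal.Quotient.mk I (c i)) ''
        {c | ¬ ∀ j, GoodC (Q j).1 (Q j).2 k c}) : ℝ) ≤ ε * (Nat.card (R ⧸ I) : ℝ) ^ (d + 2) := by
  classical
  induction n generalizing q ε with
  | zero =>
    refine ⟨fun j => j.elim0, fun j => j.elim0, fun i => i.elim0, ⊤, ?_, ?_⟩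
    · have h0 : Subsingleton (R ⧸ (⊤ : Ideal R)) := Ideal.Quotient.subsingleton_iff.2 rfl
      infer_instance
    · have h1 : {c : Fin (d + 2) → R | ¬ ∀ j : Fin 0, GoodC (Prod.fst ((fun j => j.elim0 :
          Fin 0 → ℕ × ℕ) j)) (Prod.snd ((fun j => j.elim0 : Fin 0 → ℕ × ℕ) j)) k c} = ∅ := by
        ext c
        simp
      rw [h1, Set.image_empty, Set.ncard_empty, Nat.cast_zero]
      exact mul_nonneg hε.le (pow_nonneg (Nat.cast_nonneg _) _)
  | succ n ih =>
    obtain ⟨q', hq'0, I, hI, hIle⟩ := density_all (R := R) (k := k) q hq d hd (ε / 2) (by positivity)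
    obtain ⟨Q, hQ1, hQ2, J, hJ, hJle⟩ := ih (q * q') (mul_ne_zero hq hq'0) (ε / 2) (by positivity)
    have hIJ : Finite (R ⧸ (I ⊓ J)) := by
      let g : R ⧸ (I ⊓ J) → (R ⧸ I) × (R ⧸ J) := fun z =>
        (Ideal.Quotient.factor (inf_le_left : I ⊓ J ≤ I) z,
          Ideal.Quotient.factor (inf_le_right : I ⊓ J ≤ J) z)
      refine Finite.of_injective g ?_
      intro z z' hzz
      obtain ⟨r, rfl⟩ := Ideal.Quotient.mk_surjective z
      obtain ⟨r', rfl⟩ := Ideal.Quotient.mk_surjective z'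
      simp only [g, Prod.mk.injEq, Ideal.Quotient.factor_mk] at hzz
      rw [Ideal.Quotient.eq]
      exact ⟨Ideal.Quotient.eq.1 hzz.1, Ideal.Quotient.eq.1 hzz.2⟩
    refine ⟨Fin.cons (q, q') Q, ?_, ?_, I ⊓ J, hIJ, ?_⟩
    · intro j
      refine Fin.cases ?_ (fun j => ?_) j
      · exact dvd_rfl
      · rw [Fin.cons_succ]
        exact (Dvd.intro _ rfl).trans (hQ1 j)
    · intro i j hij
      obtain ⟨j, rfl⟩ := Fin.exists_succ_eq.2 (Fin.ne_zero_of_lt hij)
      rw [Fin.cons_succ]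
      revert hij
      refine Fin.cases ?_ (fun i => ?_) i
      · intro _
        exact (Dvd.intro_left _ rfl).trans (hQ1 j)
      · intro hij
        rw [Fin.cons_succ]
        exact hQ2 i j (Fin.succ_lt_succ_iff.1 hij)
    · have h1 := ncard_mono I (I ⊓ J) inf_le_left _ _ _ hIle
      have h2 := ncard_mono J (I ⊓ J) inf_le_right _ _ _ hJle
      set F := (fun (c : Fin (d + 2) → R) i => Ideal.Quotient.mk (I ⊓ J) (c i)) with hF
      have h3 : {c : Fin (d + 2) → R | ¬ ∀ j, GoodC ((Fin.cons (q, q') Q : Fin (n + 1) → ℕ × ℕ) j).1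
          ((Fin.cons (q, q') Q : Fin (n + 1) → ℕ × ℕ) j).2 k c} ⊆
          {c | ¬ GoodC q q' k c} ∪ {c | ¬ ∀ j, GoodC (Q j).1 (Q j).2 k c} := by
        intro c hc
        by_contra hno
        rw [Set.mem_union, not_or] at hno
        obtain ⟨h4, h5⟩ := hno
        have h4' : GoodC q q' k c := not_not.1 h4
        have h5' : ∀ j, GoodC (Q j).1 (Q j).2 k c := not_not.1 h5
        apply hc
        intro j
        refine Fin.cases ?_ (fun j => ?_) j
        · exact h4'
        · rw [Fin.cons_succ]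
          exact h5' j
      have h4 : (F '' {c : Fin (d + 2) → R | ¬ ∀ j,
          GoodC ((Fin.cons (q, q') Q : Fin (n + 1) → ℕ × ℕ) j).1
          ((Fin.cons (q, q') Q : Fin (n + 1) → ℕ × ℕ) j).2 k c}).ncard ≤
          (F '' {c | ¬ GoodC q q' k c}).ncard +
          (F '' {c | ¬ ∀ j, GoodC (Q j).1 (Q j).2 k c}).ncard := by
        refine (Set.ncard_le_ncard (Set.image_mono h3) (Set.toFinite _)).trans ?_
        rw [Set.image_union]
        exact Set.ncard_union_le _ _
      have h5 : ((F '' {c : Fin (d + 2) → R | ¬ ∀ j,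
          GoodC ((Fin.cons (q, q') Q : Fin (n + 1) → ℕ × ℕ) j).1
          ((Fin.cons (q, q') Q : Fin (n + 1) → ℕ × ℕ) j).2 k c}).ncard : ℝ) ≤
          (F '' {c | ¬ GoodC q q' k c}).ncard +
          (F '' {c | ¬ ∀ j, GoodC (Q j).1 (Q j).2 k c}).ncard := by
        exact_mod_cast h4
      linarith

end Pool.Agent.X281.SEN
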