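import Pool.Agent.X281.SE.Many

/-!
# Many good places: the general induction
-/

set_option autoImplicit false

namespace Pool.Agent.X281.SEN

open Polynomial

theorem density_iter {R : Type} [CommRing R] {M : ℕ} (G : ℕ → ℕ → (Fin M → R) → Prop)
    (h : ∀ q : ℕ, q ≠ 0 → ∀ ε : ℝ, 0 < ε → ∃ q' : ℕ, q' ≠ 0 ∧ ∃ I : Ideal R, Finite (R ⧸ I) ∧
      (Set.ncard ((fun (c : Fin M → R) i => Ideal.Quotient.mk I (c i)) '' {c | ¬ G q q' c}) : ℝ) ≤
        ε * (Nat.card (R ⧸ I) : ℝ) ^ M)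
    (n : ℕ) (q : ℕ) (hq : q ≠ 0) (ε : ℝ) (hε : 0 < ε) :
    ∃ Q : Fin n → ℕ × ℕ, (∀ j, q ∣ (Q j).1) ∧ (∀ i j, i < j → (Q i).2 ∣ (Q j).1) ∧
      ∃ I : Ideal R, Finite (R ⧸ I) ∧
      (Set.ncard ((fun (c : Fin M → R) i => Ideal.Quotient.mk I (c i)) ''
        {c | ¬ ∀ j, G (Q j).1 (Q j).2 c}) : ℝ) ≤ ε * (Nat.card (R ⧸ I) : ℝ) ^ M := by
  classical
  induction n generalizing q ε with
  | zero =>
    refine ⟨fun j => j.elim0, fun j => j.elim0, fun i => i.elim0, ⊤, ?_, ?_⟩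
    · have h0 : Subsingleton (R ⧸ (⊤ : Ideal R)) := Ideal.Quotient.subsingleton_iff.2 rfl
      infer_instance
    · have h1 : {c : Fin M → R | ¬ ∀ j : Fin 0, G (Prod.fst ((fun j => j.elim0 :
          Fin 0 → ℕ × ℕ) j)) (Prod.snd ((fun j => j.elim0 : Fin 0 → ℕ × ℕ) j)) c} = ∅ := by
        ext c
        simp
      rw [h1, Set.image_empty, Set.ncard_empty, Nat.cast_zero]
      exact mul_nonneg hε.le (pow_nonneg (Nat.cast_nonneg _) _)
  | succ n ih =>
    obtain ⟨q', hq'0, I, hI, hIle⟩ := h q hq (ε / 2) (by positivity)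
    obtain ⟨Q, hQ1, hQ2, J, hJ, hJle⟩ := ih (q * q') (mul_ne_zero hq hq'0) (ε / 2) (by positivity)
    have hIJ : Finite (R ⧸ (I ⊓ J)) := by
      let g : R ⧸ (I ⊓ J) → (R ⧸ I) × (R ⧸ J) := fun z =>
        (Ideal.Quotient.factor (inf_le_left : I ⊓ J ≤ I) z,
          Ideal.Quotient.factor (inf_le_right : I ⊓ J ≤ J) z)
      refine Finite.of_injective g ?_
      intro z z' hzz
      obtain ⟨r, rfl⟩ := Ideal.Quotient.mk_surjective z
      obtain ⟨r', rfl⟩ := Ideal.Quotient.mk_surjective z'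
      simp only [g, Prod.mk.injEq, Ideal.Quotient.factor_mk] at hzz
      rw [Ideal.Quotient.eq]
      exact ⟨Ideal.Quotient.eq.1 hzz.1, Ideal.Quotient.eq.1 hzz.2⟩
    refine ⟨Fin.cons (q, q') Q, ?_, ?_, I ⊓ J, hIJ, ?_⟩
    · intro j
      refine Fin.cases ?_ (fun j => ?_) j
      · exact dvd_rfl
      · rw [Fin.cons_succ]
        exact (Dvd.intro _ rfl).trans (hQ1 j)
    · intro i j hij
      obtain ⟨j, rfl⟩ := Fin.exists_succ_eq.2 (Fin.ne_zero_of_lt hij)
      rw [Fin.cons_succ]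
      revert hij
      refine Fin.cases ?_ (fun i => ?_) i
      · intro _
        exact (Dvd.intro_left _ rfl).trans (hQ1 j)
      · intro hij
        rw [Fin.cons_succ]
        exact hQ2 i j (Fin.succ_lt_succ_iff.1 hij)
    · have h1 := ncard_mono I (I ⊓ J) inf_le_left _ _ _ hIle
      have h2 := ncard_mono J (I ⊓ J) inf_le_right _ _ _ hJle
      set F := (fun (c : Fin M → R) i => Ideal.Quotient.mk (I ⊓ J) (c i)) with hF
      have h3 : {c : Fin M → R | ¬ ∀ j, G ((Fin.cons (q, q') Q : Fin (n + 1) → ℕ × ℕ) j).1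
          ((Fin.cons (q, q') Q : Fin (n + 1) → ℕ × ℕ) j).2 c} ⊆
          {c | ¬ G q q' c} ∪ {c | ¬ ∀ j, G (Q j).1 (Q j).2 c} := by
        intro c hc
        by_contra hno
        rw [Set.mem_union, not_or] at hno
        obtain ⟨h4, h5⟩ := hno
        have h4' : G q q' c := not_not.1 h4
        have h5' : ∀ j, G (Q j).1 (Q j).2 c := not_not.1 h5
        apply hc
        intro j
        refine Fin.cases ?_ (fun j => ?_) j
        · exact h4'
        · rw [Fin.cons_succ]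
          exact h5' j
      have h4 : (F '' {c : Fin M → R | ¬ ∀ j,
          G ((Fin.cons (q, q') Q : Fin (n + 1) → ℕ × ℕ) j).1
          ((Fin.cons (q, q') Q : Fin (n + 1) → ℕ × ℕ) j).2 c}).ncard ≤
          (F '' {c | ¬ G q q' c}).ncard +
          (F '' {c | ¬ ∀ j, G (Q j).1 (Q j).2 c}).ncard := by
        refine (Set.ncard_le_ncard (Set.image_mono h3) (Set.toFinite _)).trans ?_
        rw [Set.image_union]
        exact Set.ncard_union_le _ _
      have h5 : ((F '' {c : Fin M → R | ¬ ∀ j,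
          G ((Fin.cons (q, q') Q : Fin (n + 1) → ℕ × ℕ) j).1
          ((Fin.cons (q, q') Q : Fin (n + 1) → ℕ × ℕ) j).2 c}).ncard : ℝ) ≤
          (F '' {c | ¬ G q q' c}).ncard +
          (F '' {c | ¬ ∀ j, G (Q j).1 (Q j).2 c}).ncard := by
        exact_mod_cast h4
      linarith

end Pool.Agent.X281.SEN
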