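import Pool.Agent.X281.SE.Ext
import Pool.Agent.X281.SE.FG

/-!
# Superelliptic curves over extensions, finitely generated fields
-/

set_option autoImplicit false

namespace Pool.Agent.X281.SE

open Pool.Agent.W620.SC Pool.Agent.W623.SecC Pool.Agent.TH377.LocG
  Pool.Agent.TH377.NC Pool.Agent.TH377.Loc
open Polynomial

universe u v w x y z

theorem extFine_dvr {R : Type z} {k : Type u} [CommRing R] [IsDomain R]
    [IsDiscreteValuationRing R] [Field k] [Algebra R k] [IsFractionRing R k] [CharZero k]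
    (D : ℕ) (hD : D ≠ 0) (P : R[X]) (hlc : IsUnit P.leadingCoeff)
    (hs : (P.map (IsLocalRing.residue R)).Separable)
    (hf : FactorDiv (Nat.gcd 2 D * D) (P.map (IsLocalRing.residue R))) (ϖ t : R)
    (hϖ : Irreducible ϖ) (ht : IsUnit t) (m : ℤ) (a : k)
    (ha : a = algebraMap R k t * algebraMap R k ϖ ^ m)
    {L : Type y} [Field L] [Algebra k L] [FiniteDimensional k L]
    (hm : ¬ (D : ℤ) ∣ m * Module.finrank k L) (n : ℕ) (hDn : D ∣ n) :
    ExtFine.{v, w, y} D n (algebraMap k L a) ((P.map (algebraMap R k)).map (algebraMap k L)) := by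
  classical
  obtain ⟨u, hu⟩ := hlc
  obtain ⟨tu, htu⟩ := ht
  -- the monic polynomial
  set G : R[X] := C ((u⁻¹ : Rˣ) : R) * P with hG
  have hGm : G.Monic := by
    apply monic_C_mul_of_mul_leadingCoeff_eq_one
    rw [← hu, Units.inv_mul]
  have huK : algebraMap R k ((u⁻¹ : Rˣ) : R) ≠ 0 := ((u⁻¹).isUnit.map (algebraMap R k)).ne_zero
  have hur : IsLocalRing.residue R ((u⁻¹ : Rˣ) : R) ≠ 0 :=
    ((u⁻¹).isUnit.map (IsLocalRing.residue R)).ne_zero
  have hGK : G.map (algebraMap R k) = C (algebraMap R k ((u⁻¹ : Rˣ) : R)) *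
      P.map (algebraMap R k) := by
    rw [hG, Polynomial.map_mul, map_C]
  have hGs : (G.map (IsLocalRing.residue R)).Separable := by
    rw [hG, Polynomial.map_mul, map_C]
    exact Separable.unit_mul (isUnit_C.2 hur.isUnit) hs
  have hGf : FactorDiv (Nat.gcd 2 D * D) (G.map (IsLocalRing.residue R)) := by
    intro g hg hgd
    refine hf g hg ?_
    rw [hG, Polynomial.map_mul, map_C] at hgd
    exact ((isUnit_C.2 hur.isUnit).dvd_mul_left).1 hgd
  set t' : R := ((u⁻¹ * tu : Rˣ) : R) with ht'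
  have ht'u : IsUnit t' := (u⁻¹ * tu).isUnit
  have ha' : algebraMap R k ((u⁻¹ : Rˣ) : R) * a =
      algebraMap R k t' * algebraMap R k ϖ ^ m := by
    rw [ha, ht', Units.val_mul, map_mul, htu]
    ring
  -- the place of `L`
  let _ : Algebra R L := ((algebraMap k L).comp (algebraMap R k)).toAlgebra
  have hstR : IsScalarTower R k L := IsScalarTower.of_algebraMap_eq (fun _ => rfl)
  obtain ⟨ℓ, hℓ0, hℓD, B, _, _, _, _, hfr, f, hf, hfK, hfs, hfd, ϖ', s, m', hϖ', hs', hm', hat⟩ :=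
    dvr_data (k := k) (L := L) G hGm hGs D hD hGf ϖ t' hϖ ht'u m hm
  have hczL : CharZero L := charZero_of_injective_algebraMap (algebraMap k L).injective
  set c : L := algebraMap k L (algebraMap R k ((u⁻¹ : Rˣ) : R)) with hcdef
  have hc0 : c ≠ 0 := (_root_.map_ne_zero _).2 huK
  have hfL : f.map (algebraMap B L) = C c * (P.map (algebraMap R k)).map (algebraMap k L) := by
    rw [hfK, IsScalarTower.algebraMap_eq R k L, ← Polynomial.map_map, hGK, Polynomial.map_mul,
      map_C]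
  have haL : c * algebraMap k L a = algebraMap B L s * algebraMap B L ϖ' ^ m' := by
    rw [← hat, hcdef, ← map_mul, ha', map_mul, map_zpow₀]
    rfl
  apply extFine_of_monic D n _ _ c hc0
  rw [← hfL, haL]
  have hℓn : ℓ ∣ n := hℓD.trans hDn
  have e1 : (∏ _i : Unit, f ^ 1).map (algebraMap B L) = f.map (algebraMap B L) := by simp
  have e2 : (∏ _i : Unit, f).map (algebraMap B L) = f.map (algebraMap B L) := by simp
  have hs1 : ((∏ _i : Unit, f).map (IsLocalRing.residue B)).Separable := by simpa using hfs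
  have hd1 : FactorDiv (Nat.gcd 2 ℓ * ℓ) ((∏ _i : Unit, f).map (IsLocalRing.residue B)) := by
    simpa using hfd
  refine ⟨?_, ?_, ?_, ?_⟩
  · intro x y hxy
    refine res_P (IsLocalRing.residue B) IsLocalRing.residue_surjective ℓ hℓ0 (fun _ : Unit => f)
      (fun _ => 1) (fun _ => by rw [hf.leadingCoeff]; exact isUnit_one) hs1 hd1 ϖ' hϖ' _ s hs' m'
      hm' rfl n hℓn x y ?_
    rw [e1]
    exact hxy
  · intro r hr
    refine res_inf (IsLocalRing.residue B) IsLocalRing.residue_surjective ℓ hℓ0 (fun _ : Unit => f)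
      (fun _ => 1) (fun _ => by rw [hf.leadingCoeff]; exact isUnit_one) hs1 hd1 ϖ' hϖ' _ s hs' m'
      hm' rfl n hℓn r ?_
    rw [e1]
    exact hr
  · intro F Ω _ _ _ _ _ _ _ _ M hM x y hxy hroot
    refine res_M (IsLocalRing.residue B) IsLocalRing.residue_surjective ℓ hℓ0 (fun _ : Unit => f)
      (fun _ => 1) (fun _ => by rw [hf.leadingCoeff]; exact isUnit_one) hs1 hd1 ϖ' hϖ' _ s hs' m'
      hm' rfl n hℓn M hM x y ?_ ?_
    · rw [e1]
      exact hxy
    · intro θ θ' hθ hθ'
      rw [e2] at hθ hθ'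
      obtain ⟨z, hz, hzD⟩ := hroot θ θ' hθ hθ'
      obtain ⟨e, rfl⟩ := hℓD
      refine ⟨z ^ e, pow_mem hz e, ?_⟩
      rw [← pow_mul, mul_comm e ℓ]
      exact hzD
  · intro F Ω _ _ _ _ _ _ _ _ U hU x y hxy
    refine res_U (IsLocalRing.residue B) IsLocalRing.residue_surjective ℓ hℓ0 (fun _ : Unit => f)
      (fun _ => 1) (fun _ => by rw [hf.leadingCoeff]; exact isUnit_one) hs1 hd1 ϖ' hϖ' _ s hs' m'
      hm' rfl n hℓn (fun _ => Nat.coprime_one_right ℓ) U hU x y ?_
    rw [e1]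
    exact hxy

theorem zpow_unit {R : Type z} {k : Type u} [CommRing R] [Field k] [Algebra R k] (s : Rˣ)
    (n : ℤ) : algebraMap R k ((s ^ n : Rˣ) : R) = algebraMap R k (s : R) ^ n := by
  have h1 : Units.map (algebraMap R k : R →* k) (s ^ n) =
      (Units.map (algebraMap R k : R →* k) s) ^ n := map_zpow _ _ _
  have h2 := congrArg Units.val h1
  rw [Units.coe_map, Units.val_zpow_eq_zpow_val, Units.coe_map] at h2
  exact h2

theorem factorDiv_of_irreducible {κ : Type*} [Field κ] (N : ℕ) (P : κ[X]) (hP : Irreducible P)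
    (h : N ∣ P.natDegree) : FactorDiv N P := by
  intro g hg hgP
  have h1 : Associated g P := hg.associated_of_dvd hP hgP
  have h2 : g.natDegree = P.natDegree := by
    obtain ⟨u, hu⟩ := h1
    rw [← hu, natDegree_mul hg.ne_zero u.ne_zero, natDegree_eq_zero_of_isUnit u.isUnit, add_zero]
  rw [h2]
  exact h

theorem good_irr {k : Type} [Field k] (a : k) (g : k[X]) (h : GoodDvr a g) : Irreducible g := by
  obtain ⟨A, _, _, _, _, f, ϖ, t, s, hfr, hfin, hfg, hdeg, hlc, hirr, hϖ, ht, hs, ha, h2⟩ := h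
  obtain ⟨u, hu⟩ := hlc
  have hmon : (C ((u⁻¹ : Aˣ) : A) * f).Monic := by
    rw [Monic, leadingCoeff_mul, leadingCoeff_C, ← hu, Units.inv_mul]
  have h4 : Irreducible (C ((u⁻¹ : Aˣ) : A) * f) := by
    refine hmon.irreducible_of_irreducible_map (IsLocalRing.residue A) _ ?_
    rw [Polynomial.map_mul, map_C]
    exact (irreducible_isUnit_mul (isUnit_C.2 ((u⁻¹).isUnit.map _))).2 hirr
  have h5 := (hmon.irreducible_iff_irreducible_map_fraction_map (K := k)).1 h4
  rw [Polynomial.map_mul, map_C, hfg] at h5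
  exact (irreducible_isUnit_mul (isUnit_C.2 ((u⁻¹).isUnit.map _))).1 h5

/-- superelliptic curves over extensions -/
theorem good_ext {k : Type} [Field k] [CharZero k] (a : k) (g : k[X]) (h : GoodDvr a g) (D : ℕ)
    (hD : D ≠ 0) (hDd : Nat.gcd 2 D * D ∣ g.natDegree) {L : Type y} [Field L] [Algebra k L]
    [FiniteDimensional k L] (m : ℤ) (hm : ¬ (D : ℤ) ∣ m * Module.finrank k L) (n : ℕ)
    (hDn : D ∣ n) :
    ExtFine.{v, w, y} D n (algebraMap k L (a ^ m)) (g.map (algebraMap k L)) := by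
  obtain ⟨A, _, _, _, _, f, ϖ, t, s, hfr, hfin, hfg, hdeg, hlc, hirr, hϖ, ht, hs, ha, h2⟩ := h
  obtain ⟨tu, rfl⟩ := ht
  have hdr : (f.map (IsLocalRing.residue A)).natDegree = g.natDegree := by
    rw [← hdeg]
    exact natDegree_map_of_leadingCoeff_ne_zero _ (hlc.map _).ne_zero
  have hsep : (f.map (IsLocalRing.residue A)).Separable :=
    PerfectField.separable_of_irreducible hirr
  rw [← hfg]
  refine extFine_dvr D hD f hlc hsep (factorDiv_of_irreducible _ _ hirr (by rwa [hdr])) ϖ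
    ((tu ^ m : Aˣ) : A) hϖ (tu ^ m).isUnit (s * m) (a ^ m) ?_ ?_ n hDn
  · rw [zpow_unit, ha, mul_zpow, ← zpow_mul]
  · intro h3
    apply hm
    rcases hs with rfl | rfl
    · rwa [one_mul] at h3
    · rw [neg_one_mul, neg_mul, dvd_neg] at h3
      exact h3

end Pool.Agent.X281.SE
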