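import Pool.Agent.X281.SE.Fam3
import Pool.Agent.X281.SE.Ext2
import Pool.Agent.X281.SE.FGq

/-!
# Superelliptic curves over extensions of degree prime to `ℓ`, geometrically pro-`ℓ` groups
-/

set_option autoImplicit false

namespace Pool.Agent.X281.SE

open Pool.Agent.W620.SC Pool.Agent.W623.SecC Pool.Agent.TH120.Sec Pool.Agent.TH377.LocG
  Pool.Agent.TH377.NC
open Polynomial IsDedekindDomain
open Pool.Agent.Y157.PS (S_FUN FineP fineP)

universe u v w x y z

/-- the data at a place of `L`, `ℓ` a prime number -/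
theorem dvr_prime {R : Type u} {k : Type v} {L : Type y} [CommRing R] [IsDomain R]
    [IsDiscreteValuationRing R] [Field k] [Algebra R k] [IsFractionRing R k] [CharZero k]
    [Finite (IsLocalRing.ResidueField R)]
    [Field L] [Algebra k L] [FiniteDimensional k L] [Algebra R L] [IsScalarTower R k L]
    (g : R[X]) (hg : g.Monic) (hs : (g.map (IsLocalRing.residue R)).Separable) (ℓ : ℕ)
    (hℓ : ℓ.Prime) (hℓR : IsUnit (ℓ : R)) (hσ : FactorDiv ℓ (g.map (IsLocalRing.residue R)))
    (ϖ0 t0 : R) (hϖ0 : Irreducible ϖ0) (ht0 : IsUnit t0) (m : ℤ)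
    (hm : ¬ (ℓ : ℤ) ∣ m * Module.finrank k L) :
    ∃ (A : Type y) (_ : CommRing A) (_ : IsDomain A)
      (_ : IsDiscreteValuationRing A) (_ : Algebra A L) (_ : IsFractionRing A L) (f : A[X]),
      Finite (IsLocalRing.ResidueField A) ∧ IsUnit (ℓ : A) ∧
      f.Monic ∧ f.map (algebraMap A L) = g.map (algebraMap R L) ∧
      (f.map (IsLocalRing.residue A)).Separable ∧
      FactorDiv ℓ (f.map (IsLocalRing.residue A)) ∧
      ∃ (ϖ t : A) (m' : ℤ), Irreducible ϖ ∧ IsUnit t ∧ ¬ (ℓ : ℤ) ∣ m' ∧
        algebraMap R L t0 * algebraMap R L ϖ0 ^ m = algebraMap A L t * algebraMap A L ϖ ^ m' := by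
  classical
  have hprimeZ : Prime (ℓ : ℤ) := Nat.prime_iff_prime_int.1 hℓ
  have hm0 : ¬ (ℓ : ℤ) ∣ m := fun h => hm (Dvd.dvd.mul_right h _)
  have hn0 : ¬ ℓ ∣ Module.finrank k L := fun h => hm (Dvd.dvd.mul_left (by exact_mod_cast h) _)
  -- the integral closure
  have hsep : Algebra.IsSeparable k L := inferInstance
  let S := integralClosure R L
  have hfr : IsFractionRing S L := integralClosure.isFractionRing_of_finite_extension k L
  have hded : IsDedekindDomain S := integralClosure.isDedekindDomain R k L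
  have hfinS : Module.Finite R S := IsIntegralClosure.finite R k L S
  have hRL : Function.Injective (algebraMap R L) := by
    rw [IsScalarTower.algebraMap_eq R k L]
    exact (algebraMap k L).injective.comp (IsFractionRing.injective R k)
  have hRS : Function.Injective (algebraMap R S) := by
    intro x y hxy
    apply hRL
    rw [IsScalarTower.algebraMap_apply R S L, hxy, ← IsScalarTower.algebraMap_apply R S L]
  have htf : Module.IsTorsionFree R S :=
    (Module.isTorsionFree_iff_algebraMap_injective (R := R) (A := S)).2 hRS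
  have hflat : Module.Flat R S := inferInstance
  set p : Ideal R := IsLocalRing.maximalIdeal R with hp
  have hp0 : p ≠ ⊥ := IsDiscreteValuationRing.not_a_field R
  have hprime : p.IsPrime := inferInstance
  have hmaxp : p.IsMaximal := inferInstance
  have hrank : Module.finrank R S = Module.finrank k L := (IsFractionRing.finrank_eq R k S L).symm
  have hft : Finite (p.primesOver S) := inferInstance
  let _ : Fintype (p.primesOver S) := Fintype.ofFinite _
  obtain ⟨q, hq⟩ : ∃ q : p.primesOver S,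
      ¬ ℓ ∣ q.1.ramificationIdx R * q.1.inertiaDeg R := by
    by_contra h1
    rw [not_exists] at h1
    apply hn0
    rw [← hrank, ← Ideal.sum_ramification_inertia_eq_finrank p S]
    exact Finset.dvd_sum fun q _ => not_not.1 (h1 q)
  set e := q.1.ramificationIdx R with he
  set fd := q.1.inertiaDeg R with hfd
  have he1 : ¬ ℓ ∣ e := fun h => hq (Dvd.dvd.mul_right h _)
  have hf1 : ¬ ℓ ∣ fd := fun h => hq (Dvd.dvd.mul_left h _)
  have hqp : q.1.IsPrime := q.2.1
  have hlies : q.1.LiesOver p := q.2.2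
  have hq0 : q.1 ≠ ⊥ := by
    intro h
    apply hp0
    have h1 := hlies.over
    rw [h] at h1
    rw [h1]
    exact Ideal.comap_bot_of_injective _ hRS
  have hqm : q.1.IsMaximal := Ideal.IsPrime.isMaximal hqp hq0
  obtain ⟨A, iA1, iA2, iA3, iA4, j, ε, hfrA, hjL, hjr, hbn⟩ := local_ringS (L := L) q.1 hqp hq0
  let _ : Field (R ⧸ p) := Ideal.Quotient.field _
  let _ : Field (S ⧸ q.1) := Ideal.Quotient.field _
  have hfinq : FiniteDimensional (R ⧸ p) (S ⧸ q.1) := inferInstance
  set ι : (R ⧸ p) →+* (S ⧸ q.1) := algebraMap (R ⧸ p) (S ⧸ q.1) with hι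
  have hmap : ((g.map (algebraMap R S)).map j).map (IsLocalRing.residue A) =
      ((g.map (Ideal.Quotient.mk p)).map ι).map
        (ε : (S ⧸ q.1) →+* IsLocalRing.ResidueField A) := by
    rw [Polynomial.map_map, Polynomial.map_map, Polynomial.map_map, Polynomial.map_map]
    congr 1
    rw [hjr]
    rfl
  have hfdeq : fd = Module.finrank (R ⧸ p) (S ⧸ q.1) := Ideal.inertiaDeg_eq_of_isMaximal p q.1
  have hfinR : Finite (R ⧸ p) := ‹Finite (IsLocalRing.ResidueField R)›
  have hfinSq : Finite (S ⧸ q.1) := Module.finite_of_finite (R ⧸ p)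
  have hfinA : Finite (IsLocalRing.ResidueField A) := Finite.of_equiv _ ε.toEquiv
  have hℓA : IsUnit (ℓ : A) := by
    have h1 := (hℓR.map (algebraMap R S)).map j
    rwa [map_natCast, map_natCast] at h1
  refine ⟨A, iA1, iA2, iA3, iA4, hfrA, (g.map (algebraMap R S)).map j, hfinA, hℓA,
    (hg.map _).map _, ?_, ?_, ?_, ?_⟩
  · rw [Polynomial.map_map, Polynomial.map_map, hjL]
    congr 1
  · rw [hmap]
    exact (hs.map (f := ι)).map
  · rw [hmap]
    intro h hirr hdvd
    -- transport along the isomorphism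
    have h1 : Irreducible (h.map (ε.symm : IsLocalRing.ResidueField A →+* (S ⧸ q.1))) :=
      (MulEquiv.irreducible_iff (Polynomial.mapEquiv ε.symm)).2 hirr
    have h2 : h.map (ε.symm : IsLocalRing.ResidueField A →+* (S ⧸ q.1)) ∣
        (g.map (Ideal.Quotient.mk p)).map ι := by
      have h3 := Polynomial.map_dvd (ε.symm : IsLocalRing.ResidueField A →+* (S ⧸ q.1)) hdvd
      rw [Polynomial.map_map (ε : (S ⧸ q.1) →+* IsLocalRing.ResidueField A)] at h3
      have h4 : (ε.symm : IsLocalRing.ResidueField A →+* (S ⧸ q.1)).comp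
          (ε : (S ⧸ q.1) →+* IsLocalRing.ResidueField A) = RingHom.id _ := by
        ext z
        simp
      rwa [h4, Polynomial.map_id] at h3
    have h3 := factor_ext (g.map (Ideal.Quotient.mk p)) _ hσ _ h1 h2
    rw [natDegree_map, ← hfdeq] at h3
    exact (hℓ.dvd_mul.1 h3).resolve_left hf1
  · have hϖS : algebraMap R S ϖ0 ≠ 0 := by
      intro h
      exact hϖ0.ne_zero (hRS (by rw [h, map_zero]))
    obtain ⟨ϖ, t, n, hϖ, ht, hb2, hb3⟩ := hbn (algebraMap R S ϖ0) hϖS
    have hspan : p = Ideal.span {ϖ0} := hϖ0.maximalIdeal_eq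
    have hmp : p.map (algebraMap R S) = Ideal.span {algebraMap R S ϖ0} := by
      rw [hspan, Ideal.map_span, Set.image_singleton]
    have hmapp : ∀ i, p.map (algebraMap R S) ≤ q.1 ^ i ↔ i ≤ n := by
      intro i
      rw [← hb3, hmp, Ideal.span_singleton_le_iff_mem]
    have hen : e = n := by
      have h1 : p.ramificationIdx' q.1 = n :=
        Ideal.ramificationIdx'_spec ((hmapp n).2 le_rfl) (fun h => by
          have := (hmapp (n + 1)).1 h
          omega)
      have h2 : p.ramificationIdx' q.1 = q.1.ramificationIdx R :=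
        Ideal.ramificationIdx'_eq_ramificationIdx _ _ hp0
      rw [he, ← h2, h1]
    have htu : IsUnit (j (algebraMap R S t0)) := (ht0.map _).map j
    have hL0 : algebraMap R L t0 = algebraMap A L (j (algebraMap R S t0)) := by
      rw [IsScalarTower.algebraMap_apply R S L, ← hjL, RingHom.comp_apply]
    obtain ⟨tu, htu'⟩ := ht
    have htinv : ∀ m : ℤ, algebraMap A L t ^ m = algebraMap A L ((tu ^ m : Aˣ) : A) := by
      intro m
      rw [← htu']
      exact (zpow_unit tu m).symm
    refine ⟨ϖ, j (algebraMap R S t0) * ((tu ^ m : Aˣ) : A), e * m, hϖ,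
      htu.mul (Units.isUnit _), ?_, ?_⟩
    · intro h
      rcases hprimeZ.dvd_mul.1 h with h1 | h1
      · exact he1 (by exact_mod_cast h1)
      · exact hm0 h1
    · rw [hL0, map_mul, ← htinv, IsScalarTower.algebraMap_apply R S L ϖ0, hb2, ← hen, mul_zpow,
        mul_assoc, ← zpow_natCast, ← zpow_mul]

/-- scaling the equation by a constant -/
theorem fineP_scale {ℓ : ℕ} {k : Type} [Field k] (a : k) (f : k[X]) (c : k) (hc : c ≠ 0)
    (h : FineP ℓ (c * a) (C c * f)) : FineP ℓ a f := by
  obtain ⟨h1, h2, h3, h4⟩ := h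
  have key : ∀ (F : Type) [Field F] [Algebra k F] (x y : F),
      algebraMap k F a * y ^ ℓ = aeval x f →
      algebraMap k F (c * a) * y ^ ℓ = aeval x (C c * f) := by
    intro F _ _ x y hxy
    rw [map_mul, map_mul, aeval_C, mul_assoc, hxy]
  refine ⟨?_, ?_, ?_, ?_⟩
  · intro F Ω _ _ _ _ _ _ _ _ x y hx hxy hF M hM S hS
    exact h1 F Ω x y hx (key F x y hxy) hF M hM S hS
  · intro F Ω _ _ _ _ _ _ _ _ U hU x y hxy
    exact h2 F Ω U hU x y (key F x y hxy)
  · intro x y hxy
    apply h3 x y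
    rw [eval_mul, eval_C, mul_assoc, hxy]
  · intro r hr
    apply h4 r
    rw [leadingCoeff_mul, leadingCoeff_C, mul_assoc, hr]

/-- a good discrete valuation ring: the geometrically pro-`ℓ` fundamental groups over the extensions of
degree prime to `ℓ` -/
theorem good_pro {k : Type} [Field k] [CharZero k] (q : ℕ) (a : k) (g : k[X])
    (h : Pool.Agent.X281.SEQ.GoodDvr q a g) (h3 : 3 ≤ g.natDegree) (ℓ : ℕ) (hℓ : ℓ.Prime)
    (hℓq : ℓ ∣ q) (hℓd : ℓ ∣ g.natDegree) {L : Type} [Field L] [Algebra k L]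
    [FiniteDimensional k L] (m : ℤ) (hm : ¬ (ℓ : ℤ) ∣ m * Module.finrank k L) :
    FineP ℓ (algebraMap k L (a ^ m)) (g.map (algebraMap k L)) := by
  classical
  have hFUN : S_FUN := Pool.Agent.Y674.PS.funct Pool.Agent.Y157.PS.a_inrt
  have hfact : Fact ℓ.Prime := ⟨hℓ⟩
  obtain ⟨A, _, _, _, _, f, ϖ, t, s, hfr, hfin, hfg, hdeg, hlc, hirr, hϖ, ht, hs, ha, hqA⟩ := h
  have hℓA : IsUnit (ℓ : A) := by
    obtain ⟨r, hr⟩ := hℓq
    rw [hr, Nat.cast_mul] at hqA
    exact isUnit_of_mul_isUnit_left hqA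
  obtain ⟨tu, rfl⟩ := ht
  obtain ⟨u, hu⟩ := hlc
  have hur : IsLocalRing.residue A ((u⁻¹ : Aˣ) : A) ≠ 0 :=
    ((u⁻¹).isUnit.map (IsLocalRing.residue A)).ne_zero
  have hdr : (f.map (IsLocalRing.residue A)).natDegree = g.natDegree := by
    rw [← hdeg]
    exact natDegree_map_of_leadingCoeff_ne_zero _ (by
      rw [← hu]
      exact (u.isUnit.map _).ne_zero)
  have hsep : (f.map (IsLocalRing.residue A)).Separable :=
    PerfectField.separable_of_irreducible hirr
  -- the monic polynomial
  set G : A[X] := C ((u⁻¹ : Aˣ) : A) * f with hG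
  have hGm : G.Monic := by
    rw [hG, Monic, leadingCoeff_mul, leadingCoeff_C, ← hu, Units.inv_mul]
  have hGr : G.map (IsLocalRing.residue A) = C (IsLocalRing.residue A ((u⁻¹ : Aˣ) : A)) *
      f.map (IsLocalRing.residue A) := by
    rw [hG, Polynomial.map_mul, map_C]
  have hGs : (G.map (IsLocalRing.residue A)).Separable := by
    rw [hGr]
    exact Separable.unit_mul (isUnit_C.2 hur.isUnit) hsep
  have hGirr : Irreducible (G.map (IsLocalRing.residue A)) := by
    rw [hGr]
    exact (irreducible_isUnit_mul (isUnit_C.2 hur.isUnit)).2 hirr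
  have hGd : (G.map (IsLocalRing.residue A)).natDegree = g.natDegree := by
    rw [hGr, natDegree_C_mul hur, hdr]
  have hGf : FactorDiv ℓ (G.map (IsLocalRing.residue A)) :=
    factorDiv_of_irreducible _ _ hGirr (by rwa [hGd])
  -- the place of `L`
  let _ : Algebra A L := ((algebraMap k L).comp (algebraMap A k)).toAlgebra
  have hstR : IsScalarTower A k L := IsScalarTower.of_algebraMap_eq (fun _ => rfl)
  have hczL : CharZero L := charZero_of_injective_algebraMap (algebraMap k L).injective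
  obtain ⟨B, _, _, _, _, hfrB, F, hfinB, hℓB, hFm, hFL, hFs, hFd, ϖ', t', m', hϖ', ht', hm', hat⟩ :=
    dvr_prime (k := k) (L := L) G hGm hGs ℓ hℓ hℓA hGf ϖ ((u⁻¹ * tu ^ m : Aˣ) : A) hϖ
      (u⁻¹ * tu ^ m).isUnit (s * m) (by
        intro h4
        apply hm
        rcases hs with rfl | rfl
        · rwa [one_mul] at h4
        · rw [neg_one_mul, neg_mul, dvd_neg] at h4
          exact h4)
  set c : L := algebraMap k L (algebraMap A k ((u⁻¹ : Aˣ) : A)) with hcdef
  have hc0 : c ≠ 0 := (_root_.map_ne_zero _).2 ((u⁻¹).isUnit.map (algebraMap A k)).ne_zero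
  have hgL : g.map (algebraMap k L) = f.map (algebraMap A L) := by
    rw [← hfg, Polynomial.map_map]
    rfl
  have hFL' : F.map (algebraMap B L) = C c * g.map (algebraMap k L) := by
    rw [hFL, hG, Polynomial.map_mul, map_C, hgL]
    rfl
  have hFdeg : F.natDegree = g.natDegree := by
    have h4 : (F.map (algebraMap B L)).natDegree = F.natDegree :=
      natDegree_map_eq_of_injective (IsFractionRing.injective B L) F
    rw [← h4, hFL', natDegree_C_mul hc0, natDegree_map]
  have hcoef : c * algebraMap k L (a ^ m) = algebraMap B L t' * algebraMap B L ϖ' ^ m' := by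
    rw [← hat, hcdef, ← map_mul]
    have h5 : algebraMap A k ((u⁻¹ : Aˣ) : A) * a ^ m =
        algebraMap A k ((u⁻¹ * tu ^ m : Aˣ) : A) * algebraMap A k ϖ ^ (s * m) := by
      rw [ha, mul_zpow, ← zpow_mul, Units.val_mul, map_mul, zpow_unit]
      ring
    rw [h5, map_mul, map_zpow₀]
    rfl
  refine fineP_scale _ _ c hc0 ?_
  rw [hcoef, ← hFL']
  refine fineP hFUN hℓB F (by rw [hFm.leadingCoeff]; exact isUnit_one) hFs (by rwa [hFdeg])
    (by rwa [hFdeg]) ?_ ϖ' hϖ' _ m' hm' t' ht' rfl
  intro b hb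
  have h5 : (F.map (IsLocalRing.residue B)).eval (IsLocalRing.residue B b) = 0 := by
    rw [eval_map, eval₂_at_apply]
    exact (IsLocalRing.residue_eq_zero_iff _).2 hb
  have h6 : X - C (IsLocalRing.residue B b) ∣ F.map (IsLocalRing.residue B) :=
    dvd_iff_isRoot.2 h5
  have h7 := hFd _ (irreducible_X_sub_C _) h6
  rw [natDegree_X_sub_C] at h7
  exact hℓ.one_lt.ne' (Nat.dvd_one.1 h7)

end Pool.Agent.X281.SE
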