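import Pool.Agent.TH377.Sup.SetR

/-!
# Good discrete valuation rings for almost all vectors, with a condition on the reduction
-/

set_option autoImplicit false

namespace Pool.Agent.X281.SEA

open Polynomial WithZero NumberField IsDedekindDomain Pool.Agent.W858.SF Pool.Agent.W858.SG
open Pool.Agent.TH120.Sec (red pr pr_surj finite_sq ker_ncard card_residue)
open Pool.Agent.TH377.Sup (val_eq_of)

universe u v w x y

/-- a condition on vectors over fields -/
abbrev Cond (N : ℕ) : Type 1 := ∀ (κ : Type) [Field κ], (Fin N → κ) → Prop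

/-- the condition descends to subfields -/
def Desc {N : ℕ} (P : Cond N) : Prop :=
  ∀ (κ κ' : Type) [Field κ] [Field κ'] (φ : κ →+* κ') (c : Fin N → κ), P κ' (fun i => φ (c i)) →
    P κ c

/-- a positive proportion of the vectors over large finite fields satisfies the condition -/
def Many {N : ℕ} (P : Cond N) (δ : ℝ) (q₀ : ℕ) : Prop :=
  ∀ (κ : Type) [Field κ] [Finite κ], q₀ ≤ Nat.card κ →
    δ * (Nat.card κ : ℝ) ^ N ≤ ({c | P κ c} : Set (Fin N → κ)).ncard

/-- a good discrete valuation ring for the number `a` and the vector `g` -/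
def GoodDvr {N : ℕ} (P : Cond N) (q q' : ℕ) {k : Type} [Field k] (a : k) (g : Fin N → k) : Prop :=
  ∃ (A : Type) (_ : CommRing A) (_ : IsDomain A) (_ : IsDiscreteValuationRing A)
    (_ : Algebra A k) (c : Fin N → A) (ϖ t : A) (n : ℤ), IsFractionRing A k ∧
    Finite (IsLocalRing.ResidueField A) ∧ (∀ i, algebraMap A k (c i) = g i) ∧
    P (IsLocalRing.ResidueField A) (fun i => IsLocalRing.residue A (c i)) ∧
    Irreducible ϖ ∧ IsUnit t ∧ (n = 1 ∨ n = -1) ∧
    a = algebraMap A k t * algebraMap A k ϖ ^ n ∧ IsUnit ((q : ℕ) : A) ∧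
    ¬ IsUnit ((q' : ℕ) : A)

theorem goodDvr_val {N : ℕ} (P : Cond N) (hP : Desc P) {k : Type} {E : Type} [Field k] [CharZero k]
    [Field E]
    (V : Valuation E ℤᵐ⁰) [Finite (IsLocalRing.ResidueField V.valuationSubring)] (ψ : k →+* E)
    (q q' : ℕ) (h2 : V ((q : ℕ) : E) = 1) (h2' : V ((q' : ℕ) : E) < 1) (g : Fin N → k)
    (gB : Fin N → V.valuationSubring) (hg : ∀ i, (gB i : E) = ψ (g i))
    (hPB : P (IsLocalRing.ResidueField V.valuationSubring)
      (fun i => IsLocalRing.residue V.valuationSubring (gB i)))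
    (a : k) (ha : V (ψ a) = exp (-1)) : GoodDvr P q q' a g := by
  classical
  obtain ⟨hdvr, ϖ, t, n, hϖ, ht, hn, hat⟩ := Pool.Agent.W858.SF.exists_unif (V.comap ψ) a (-1)
    (by decide) ha
  let i : (V.comap ψ).valuationSubring →+* V.valuationSubring :=
    { toFun := fun y => ⟨ψ y, y.2⟩
      map_one' := Subtype.ext (map_one ψ)
      map_mul' := fun y z => Subtype.ext (map_mul ψ _ _)
      map_zero' := Subtype.ext (map_zero ψ)
      map_add' := fun y z => Subtype.ext (map_add ψ _ _) }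
  have hloc : IsLocalHom i := by
    refine ⟨fun y hy => ?_⟩
    have h1 := (Valuation.Integers.isUnit_iff_valuation_eq_one
      (Valuation.valuationSubring.integers V)).1 hy
    exact (Valuation.Integers.isUnit_iff_valuation_eq_one
      (Valuation.valuationSubring.integers (V.comap ψ))).2 h1
  have hfin : Finite (IsLocalRing.ResidueField (V.comap ψ).valuationSubring) :=
    Finite.of_injective _ (IsLocalRing.ResidueField.map i).injective
  let c : Fin N → (V.comap ψ).valuationSubring := fun j => ⟨g j, by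
    change V (ψ (g j)) ≤ 1
    rw [← hg]
    exact (gB j).2⟩
  have hci : ∀ j, i (c j) = gB j := fun j => Subtype.ext (hg j).symm
  have hPA : P (IsLocalRing.ResidueField (V.comap ψ).valuationSubring)
      (fun j => IsLocalRing.residue _ (c j)) := by
    refine hP _ _ (IsLocalRing.ResidueField.map i) _ ?_
    have h1 : (fun j => (IsLocalRing.ResidueField.map i) (IsLocalRing.residue _ (c j))) =
        fun j => IsLocalRing.residue V.valuationSubring (gB j) := by
      funext j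
      rw [IsLocalRing.ResidueField.map_residue, hci]
    rw [h1]
    exact hPB
  have hn1 : n = 1 ∨ n = -1 := by
    have e1 : V (ψ (t : k)) = 1 := (Valuation.Integers.isUnit_iff_valuation_eq_one
      (Valuation.valuationSubring.integers (V.comap ψ))).1 ht
    have e2 : ψ (ϖ : k) ≠ 0 := by
      rw [Ne, map_eq_zero]
      intro h
      exact hϖ.ne_zero (Subtype.ext h)
    have e3 : V (ψ (ϖ : k)) = exp (log (V (ψ (ϖ : k)))) :=
      (exp_log ((Valuation.ne_zero_iff V).2 e2)).symm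
    have e4 : V (ψ a) = exp (n * log (V (ψ (ϖ : k)))) := by
      rw [hat, map_mul, map_mul, map_zpow₀, map_zpow₀, e1, one_mul]
      conv_lhs => rw [e3]
      rw [← exp_zsmul, smul_eq_mul]
    rw [ha, exp_inj] at e4
    have e5 : IsUnit n := by
      refine IsUnit.of_mul_eq_one (-log (V (ψ (ϖ : k)))) ?_
      rw [mul_neg, ← e4]
      norm_num
    exact Int.isUnit_iff.1 e5
  have h2A : IsUnit ((q : ℕ) : (V.comap ψ).valuationSubring) := by
    refine (Valuation.Integers.isUnit_iff_valuation_eq_one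
      (Valuation.valuationSubring.integers (V.comap ψ))).2 ?_
    change V (ψ (algebraMap (V.comap ψ).valuationSubring k ((q : ℕ) : (V.comap ψ).valuationSubring))) = 1
    rw [map_natCast, map_natCast, h2]
  have h2A' : ¬ IsUnit ((q' : ℕ) : (V.comap ψ).valuationSubring) := by
    intro hu
    have h5 := (Valuation.Integers.isUnit_iff_valuation_eq_one
      (Valuation.valuationSubring.integers (V.comap ψ))).1 hu
    change V (ψ (algebraMap (V.comap ψ).valuationSubring k
      ((q' : ℕ) : (V.comap ψ).valuationSubring))) = 1 at h5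
    rw [map_natCast, map_natCast] at h5
    exact h2'.ne h5
  exact ⟨(V.comap ψ).valuationSubring, inferInstance, inferInstance, hdvr, inferInstance, c, ϖ, t,
    n, inferInstance, hfin, fun _ => rfl, hPA, hϖ, ht, hn1, hat, h2A, h2A'⟩

/-- the condition for the reduction of an integral vector -/
def CondMod {N : ℕ} (P : Cond N) {L : Type} [Field L] [NumberField L] (v : HeightOneSpectrum (𝓞 L))
    (y : Fin N → 𝓞 L ⧸ v.asIdeal) : Prop :=
  haveI := v.isMaximal
  letI := Ideal.Quotient.field v.asIdeal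
  P (𝓞 L ⧸ v.asIdeal) y

theorem good_embR {N : ℕ} (P' : Cond N) (hP' : Desc P') {L : Type} [Field L] [NumberField L]
    (v : HeightOneSpectrum (𝓞 L))
    {R : Type} [CommRing R] {k : Type} [Field k] [CharZero k] [Algebra R k]
    (P : R →+* L) (ψ : k →+* v.adicCompletion L)
    (hPint : ∀ r, v.valuation L (P r) ≤ 1)
    (hψ : ∀ r, vv v (ψ (algebraMap R k r) - algebraMap L (v.adicCompletion L) (P r)) ≤ exp (-2))
    (q q' : ℕ) (h2 : ((q : ℕ) : 𝓞 L) ∉ v.asIdeal) (h2' : ((q' : ℕ) : 𝓞 L) ∈ v.asIdeal)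
    (c : Fin (N + 1) → R) (y : Fin (N + 1) → 𝓞 L)
    (hcy : ∀ i, v.valuation L (P (c i) - algebraMap (𝓞 L) L (y i)) ≤ exp (-2))
    (hy : y 0 ∈ v.asIdeal) (hy' : y 0 ∉ v.asIdeal ^ 2)
    (hirr : CondMod P' v fun i => Ideal.Quotient.mk v.asIdeal (y i.succ)) :
    algebraMap R k (c 0) ≠ 0 ∧
    GoodDvr P' q q' (algebraMap R k (c 0)) (fun i => algebraMap R k (c i.succ)) := by
  classical
  have hfinres := finite_residue v
  have hmax : v.asIdeal.IsMaximal := v.isMaximal
  let _ := Ideal.Quotient.field v.asIdeal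
  obtain ⟨θ, hθ, hθr⟩ := exists_residue_map v
  have hθinj : Function.Injective θ := θ.injective
  have hγ2 : (exp (-2) : ℤᵐ⁰) < 1 := by
    rw [← exp_zero, exp_lt_exp]
    omega
  have hPv : ∀ r, vv v (algebraMap L (v.adicCompletion L) (P r)) ≤ 1 := fun r => by
    rw [vv_algebraMap]
    exact hPint r
  have hψ1 : ∀ r, vv v (ψ (algebraMap R k r)) ≤ 1 := by
    intro r
    have h1 : ψ (algebraMap R k r) = (ψ (algebraMap R k r) -
      algebraMap L (v.adicCompletion L) (P r)) + algebraMap L (v.adicCompletion L) (P r) := by ring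
    rw [h1]
    exact (Valuation.map_add _ _ _).trans (max_le ((hψ r).trans hγ2.le) (hPv r))
  have hnear : ∀ i, vv v (ψ (algebraMap R k (c i)) -
      algebraMap L (v.adicCompletion L) (algebraMap (𝓞 L) L (y i))) ≤ exp (-2) := by
    intro i
    have h1 : ψ (algebraMap R k (c i)) -
        algebraMap L (v.adicCompletion L) (algebraMap (𝓞 L) L (y i)) =
        (ψ (algebraMap R k (c i)) - algebraMap L (v.adicCompletion L) (P (c i))) +
        algebraMap L (v.adicCompletion L) (P (c i) - algebraMap (𝓞 L) L (y i)) := by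
      rw [map_sub]
      ring
    rw [h1]
    refine (Valuation.map_add _ _ _).trans (max_le (hψ _) ?_)
    rw [vv_algebraMap]
    exact hcy i
  let cB : Fin N → (vv v).valuationSubring := fun i => ⟨ψ (algebraMap R k (c i.succ)), hψ1 _⟩
  have hres : ∀ i, IsLocalRing.residue _ (cB i) = θ (Ideal.Quotient.mk v.asIdeal (y i.succ)) := by
    intro i
    exact hθr _ _ ((hnear i.succ).trans_lt hγ2)
  have ha : vv v (ψ (algebraMap R k (c 0))) = exp (-1) := by
    have h5 : ψ (algebraMap R k (c 0)) = (ψ (algebraMap R k (c 0)) -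
      algebraMap L (v.adicCompletion L) (algebraMap (𝓞 L) L (y 0))) +
      algebraMap L (v.adicCompletion L) (algebraMap (𝓞 L) L (y 0)) := by ring
    have h7 := val_eq_of v (y 0) hy hy'
    have h6 : vv v (ψ (algebraMap R k (c 0)) - algebraMap L (v.adicCompletion L)
        (algebraMap (𝓞 L) L (y 0))) <
        vv v (algebraMap L (v.adicCompletion L) (algebraMap (𝓞 L) L (y 0))) := by
      rw [vv_algebraMap, h7]
      refine (hnear 0).trans_lt ?_
      rw [exp_lt_exp]
      omega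
    rw [h5, Valuation.map_add_eq_of_lt_right _ h6, vv_algebraMap, h7]
  refine ⟨?_, ?_⟩
  · intro h0
    rw [h0, map_zero, map_zero] at ha
    exact exp_ne_zero ha.symm
  refine goodDvr_val P' hP' (vv v) ψ q q' ?_ ?_ _ cB (fun _ => rfl) ?_ _ ha
  · have h3 : ((q : ℕ) : v.adicCompletion L) =
        algebraMap L (v.adicCompletion L) (algebraMap (𝓞 L) L ((q : ℕ) : 𝓞 L)) := by
      rw [map_natCast, map_natCast]
    rw [h3, vv_algebraMap]
    exact (HeightOneSpectrum.valuation_eq_one_iff_notMem v).2 h2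
  · have h3 : ((q' : ℕ) : v.adicCompletion L) =
        algebraMap L (v.adicCompletion L) (algebraMap (𝓞 L) L ((q' : ℕ) : 𝓞 L)) := by
      rw [map_natCast, map_natCast]
    rw [h3, vv_algebraMap]
    exact (HeightOneSpectrum.valuation_lt_one_iff_mem v _).2 h2'
  · let e := RingEquiv.ofBijective θ ⟨hθinj, hθ⟩
    refine hP' _ (𝓞 L ⧸ v.asIdeal) (e.symm : _ →+* (𝓞 L ⧸ v.asIdeal)) _ ?_
    have h1 : (fun i => (e.symm : _ →+* (𝓞 L ⧸ v.asIdeal)) (IsLocalRing.residue _ (cB i))) =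
        fun i => Ideal.Quotient.mk v.asIdeal (y i.succ) := by
      funext i
      rw [hres]
      exact e.symm_apply_apply _
    rw [h1]
    exact hirr

section count

variable {K : Type} [Field K] [NumberField K] (v : HeightOneSpectrum (𝓞 K))

/-- the good vectors modulo `v ^ 2` -/
def GoodV {N : ℕ} (P : Cond N) : Set (Fin (N + 1) → 𝓞 K ⧸ v.asIdeal ^ 2) :=
  {x | pr v (x 0) = 0 ∧ x 0 ≠ 0 ∧ CondMod P v fun i => pr v (x i.succ)}

lemma good_iff {N : ℕ} (P : Cond N) (y : Fin (N + 1) → 𝓞 K)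
    (hy : red (v.asIdeal ^ 2) (N + 1) y ∈ GoodV v P) :
    y 0 ∈ v.asIdeal ∧ y 0 ∉ v.asIdeal ^ 2 ∧
      CondMod P v fun i => Ideal.Quotient.mk v.asIdeal (y i.succ) := by
  obtain ⟨h1, h2, h3⟩ := hy
  refine ⟨?_, ?_, h3⟩
  · exact Ideal.Quotient.eq_zero_iff_mem.1 h1
  · exact fun h => h2 (Ideal.Quotient.eq_zero_iff_mem.2 h)

lemma goodV_card {N : ℕ} (P : Cond N) :
    (Ideal.absNorm v.asIdeal - 1) * ({c | CondMod P v c} : Set (Fin N → 𝓞 K ⧸ v.asIdeal)).ncard *
      Ideal.absNorm v.asIdeal ^ N ≤ (GoodV v P).ncard := by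
  classical
  have hfin := finite_sq v
  have hmax : v.asIdeal.IsMaximal := v.isMaximal
  have hfin' : Finite (𝓞 K ⧸ v.asIdeal) := Ideal.finiteQuotientOfFreeOfNeBot _ v.ne_bot
  set M := Ideal.absNorm v.asIdeal with hM
  set J : Set (𝓞 K ⧸ v.asIdeal ^ 2) := {x | pr v x = 0} with hJ
  have hJc : J.ncard = M := ker_ncard v
  have hJ0 : (J \ {0}).ncard = M - 1 := by
    rw [Set.ncard_sdiff_singleton_of_mem (show (0 : 𝓞 K ⧸ v.asIdeal ^ 2) ∈ J from map_zero _), hJc]
  have hJp : (Set.pi Set.univ fun _ : Fin N => J).ncard = M ^ N := by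
    rw [← Nat.card_coe_set_eq, Nat.card_congr (Equiv.Set.univPi _), Nat.card_pi]
    simp only [Nat.card_coe_set_eq, hJc, Finset.prod_const, Finset.card_univ, Fintype.card_fin]
  let s := Function.surjInv (pr_surj v)
  have hs : ∀ x, pr v (s x) = x := Function.surjInv_eq (pr_surj v)
  have h1 : (((J \ {0}) ×ˢ ({c | CondMod P v c} : Set (Fin N → 𝓞 K ⧸ v.asIdeal))) ×ˢ
      (Set.pi Set.univ fun _ : Fin N => J)).ncard ≤ (GoodV v P).ncard := by
    refine Set.ncard_le_ncard_of_injOn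
      (fun x => Fin.cons x.1.1 fun i => s (x.1.2 i) + x.2 i) ?_ ?_ (Set.toFinite _)
    · rintro ⟨⟨j, c⟩, t⟩ ⟨⟨hj, hc⟩, ht⟩
      have e1 : ∀ i, pr v (s (c i) + t i) = c i := by
        intro i
        rw [map_add, hs, show pr v (t i) = 0 from ht i (Set.mem_univ i), add_zero]
      refine ⟨hj.1, hj.2, ?_⟩
      change CondMod P v fun i : Fin N => pr v (s (c i) + t i)
      simp only [e1]
      exact hc
    · rintro ⟨⟨j, c⟩, t⟩ ⟨⟨hj, hc⟩, ht⟩ ⟨⟨j', c'⟩, t'⟩ ⟨⟨hj', hc'⟩, ht'⟩ h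
      have h0 : j = j' := congrFun h 0
      have h1 : ∀ i : Fin N, s (c i) + t i = s (c' i) + t' i := fun i => congrFun h i.succ
      have e1 : c = c' := by
        funext i
        have := congrArg (pr v) (h1 i)
        rwa [map_add, map_add, hs, hs, show pr v (t i) = 0 from ht i (Set.mem_univ i),
          show pr v (t' i) = 0 from ht' i (Set.mem_univ i), add_zero, add_zero] at this
      subst h0 e1
      have e2 : t = t' := by
        funext i
        have := h1 i
        rwa [add_right_inj] at this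
      rw [e2]
  rw [Set.ncard_prod, Set.ncard_prod, hJp, hJ0] at h1
  exact h1

/-- the complement of the good vectors -/
lemma badV_card {N : ℕ} (P : Cond N) (δ : ℝ) (q₀ : ℕ) (hPδ : Many P δ q₀)
    (hv : q₀ ≤ Ideal.absNorm v.asIdeal) :
    (((GoodV v P)ᶜ).ncard : ℝ) ≤ (1 - δ * (1 / (Ideal.absNorm v.asIdeal : ℝ) -
      1 / (Ideal.absNorm v.asIdeal : ℝ) ^ 2)) * ((Ideal.absNorm v.asIdeal : ℝ) ^ 2) ^ (N + 1) := by
  classical
  have hfin := finite_sq v
  have hmax : v.asIdeal.IsMaximal := v.isMaximal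
  have hfin' : Finite (𝓞 K ⧸ v.asIdeal) := Ideal.finiteQuotientOfFreeOfNeBot _ v.ne_bot
  have h1 := goodV_card v P
  have h2 : (GoodV v P).ncard + ((GoodV v P)ᶜ).ncard = (Ideal.absNorm v.asIdeal ^ 2) ^ (N + 1) := by
    rw [Set.ncard_add_ncard_compl, Nat.card_fun, Pool.Agent.W417.SecC.D2.card_sq, Nat.card_fin]
  have hcard : Nat.card (𝓞 K ⧸ v.asIdeal) = Ideal.absNorm v.asIdeal := card_residue v
  have hX : δ * (Ideal.absNorm v.asIdeal : ℝ) ^ N ≤
      ({c | CondMod P v c} : Set (Fin N → 𝓞 K ⧸ v.asIdeal)).ncard := by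
    letI := Ideal.Quotient.field v.asIdeal
    have h3 := hPδ (𝓞 K ⧸ v.asIdeal) (by rw [hcard]; exact hv)
    rw [hcard] at h3
    exact h3
  set M := Ideal.absNorm v.asIdeal with hM
  have hN2 : 2 ≤ M := by
    by_contra h
    have h3 : M = 0 ∨ M = 1 := by omega
    rcases h3 with h3 | h3
    · exact absurd h3 (Pool.Agent.W417.SecC.D2.norm_pos v).ne'
    · rw [hM, Ideal.absNorm_eq_one_iff] at h3
      exact v.isPrime.ne_top h3
  have h3 : ((GoodV v P).ncard : ℝ) + (((GoodV v P)ᶜ).ncard : ℝ) = ((M : ℝ) ^ 2) ^ (N + 1) := by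
    exact_mod_cast h2
  have hNr : (2 : ℝ) ≤ M := by exact_mod_cast hN2
  have h4 : ((M : ℝ) - 1) * ({c | CondMod P v c} : Set (Fin N → 𝓞 K ⧸ v.asIdeal)).ncard *
      (M : ℝ) ^ N ≤ ((GoodV v P).ncard : ℝ) := by
    have h5 : ((M - 1 : ℕ) : ℝ) = (M : ℝ) - 1 := by
      rw [Nat.cast_sub (by omega)]
      norm_num
    rw [← h5]
    exact_mod_cast h1
  have h5 : ((M : ℝ) - 1) * (δ * (M : ℝ) ^ N) * (M : ℝ) ^ N ≤ ((GoodV v P).ncard : ℝ) := by
    refine le_trans ?_ h4
    gcongr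
    linarith
  have h6 : (1 - δ * (1 / (M : ℝ) - 1 / (M : ℝ) ^ 2)) * ((M : ℝ) ^ 2) ^ (N + 1) =
      ((M : ℝ) ^ 2) ^ (N + 1) - ((M : ℝ) - 1) * (δ * (M : ℝ) ^ N) * (M : ℝ) ^ N := by
    have hN0 : (M : ℝ) ≠ 0 := by linarith
    have h7 : ((M : ℝ) ^ 2) ^ (N + 1) = (M : ℝ) ^ 2 * ((M : ℝ) ^ N * (M : ℝ) ^ N) := by ring
    rw [h7]
    field_simp
  rw [h6]
  linarith

end count

/-- there is a good discrete valuation ring -/
def GoodC {N : ℕ} (P : Cond N) (q q' : ℕ) {R : Type} [CommRing R] (k : Type) [Field k]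
    [Algebra R k] (c : Fin (N + 1) → R) : Prop :=
  algebraMap R k (c 0) ≠ 0 ∧
    GoodDvr P q q' (algebraMap R k (c 0)) (fun i => algebraMap R k (c i.succ))

theorem density_vec {N : ℕ} (P' : Cond N) (hP' : Desc P') (δ : ℝ) (hδ : 0 < δ) (hδ1 : δ ≤ 1)
    (q₀ : ℕ) (hmany : Many P' δ q₀) {R k : Type} [CommRing R] [Field k] [CharZero k] [Algebra R k]
    {L : Type} [Field L] [NumberField L] (P : R →+* L)
    (hemb : AE fun v : HeightOneSpectrum (𝓞 L) => (∀ r, v.valuation L (P r) ≤ 1) ∧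
      ∃ ψ : k →+* v.adicCompletion L,
        ∀ r, vv v (ψ (algebraMap R k r) - algebraMap L (v.adicCompletion L) (P r)) ≤ exp (-2))
    (hM : ∃ M : ℤ, M ≠ 0 ∧ ∀ y : 𝓞 L, ∃ r : R, (M : L) * algebraMap (𝓞 L) L y = P r)
    (q : ℕ) (hq : q ≠ 0) (ε : ℝ) (hε : 0 < ε) :
    ∃ q' : ℕ, q' ≠ 0 ∧ ∃ I : Ideal R, Finite (R ⧸ I) ∧
      (Set.ncard ((fun (c : Fin (N + 1) → R) i => Ideal.Quotient.mk I (c i)) ''
        {c | ¬ GoodC P' q q' k c}) : ℝ) ≤ ε * (Nat.card (R ⧸ I) : ℝ) ^ (N + 1) := by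
  classical
  obtain ⟨M, hM0, hM⟩ := hM
  obtain ⟨N1, hN1, hemb⟩ := hemb
  have hMO : (M : 𝓞 L) ≠ 0 := by exact_mod_cast hM0
  have hqf : q * q₀.factorial ≠ 0 := mul_ne_zero hq (Nat.factorial_ne_zero _)
  obtain ⟨T, hT, hTε⟩ := Pool.Agent.TH120.Sec.supply_split 2 Nat.prime_two
    (N1 * (M : 𝓞 L) * ((q * q₀.factorial : ℕ) : 𝓞 L))
    (mul_ne_zero (mul_ne_zero hN1 hMO) (Nat.cast_ne_zero.2 hqf)) δ hδ hδ1 ε hε
  have hTN1 : ∀ v ∈ T, N1 ∉ v.asIdeal := fun v hv h => (hT v hv).1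
    (Ideal.mul_mem_right _ _ (Ideal.mul_mem_right _ _ h))
  have hTM : ∀ v ∈ T, (M : 𝓞 L) ∉ v.asIdeal := fun v hv h => (hT v hv).1
    (Ideal.mul_mem_right _ _ (Ideal.mul_mem_left _ _ h))
  have hT2 : ∀ v ∈ T, ((q : ℕ) : 𝓞 L) ∉ v.asIdeal := fun v hv h => (hT v hv).1 (by
    rw [Nat.cast_mul]
    exact Ideal.mul_mem_left _ _ (Ideal.mul_mem_right _ _ h))
  have hTq : ∀ v ∈ T, q₀ ≤ Ideal.absNorm v.asIdeal := fun v hv => by
    by_contra h
    push Not at h
    have h0 : Ideal.absNorm v.asIdeal ≠ 0 := (Pool.Agent.W417.SecC.D2.norm_pos v).ne'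
    obtain ⟨r, hr⟩ := Nat.dvd_factorial (Nat.pos_of_ne_zero h0) h.le
    apply (hT v hv).1
    rw [Nat.cast_mul, hr, Nat.cast_mul]
    exact Ideal.mul_mem_left _ _ (Ideal.mul_mem_left _ _ (Ideal.mul_mem_right _ _
      (Ideal.absNorm_mem _)))
  have hPint : ∀ v ∈ T, ∀ r, v.valuation L (P r) ≤ 1 := fun v hv => (hemb v (hTN1 v hv)).1
  set q' : ℕ := ∏ v ∈ T, Ideal.absNorm v.asIdeal with hq'
  have hq'0 : q' ≠ 0 := Finset.prod_ne_zero_iff.2 fun v _ => by
    rw [Ne, Ideal.absNorm_eq_zero_iff]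
    exact v.ne_bot
  have hq'T : ∀ v ∈ T, ((q' : ℕ) : 𝓞 L) ∈ v.asIdeal := fun v hv => by
    obtain ⟨c, hc⟩ := Finset.dvd_prod_of_mem (fun v : HeightOneSpectrum (𝓞 L) =>
      Ideal.absNorm v.asIdeal) hv
    rw [hq', hc, Nat.cast_mul]
    exact Ideal.mul_mem_right _ _ (Ideal.absNorm_mem _)
  -- the good coefficients
  have hfine : ∀ v ∈ T, ∀ (c : Fin (N + 1) → R) (y : Fin (N + 1) → 𝓞 L),
      (∀ i, v.valuation L (P (c i) - algebraMap (𝓞 L) L (y i)) ≤ exp (-2)) →
      red (v.asIdeal ^ 2) (N + 1) y ∈ GoodV v P' → GoodC P' q q' k c := by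
    intro v hv c y hcy hy
    obtain ⟨hint, ψ, hψ⟩ := hemb v (hTN1 v hv)
    obtain ⟨g1, g2, g3⟩ := good_iff v P' y hy
    exact good_embR P' hP' v P ψ hint hψ q q' (hT2 v hv) (hq'T v hv) c y hcy g1 g2 g3
  set E : Set (Fin (N + 1) → R) := {c | ¬ GoodC P' q q' k c} with hE
  set J := ∏ v ∈ T, v.asIdeal ^ 2 with hJ
  have hJ0 : J ≠ ⊥ := Finset.prod_ne_zero_iff.2 fun v _ => pow_ne_zero _ v.ne_bot
  have hfinJ : Finite (𝓞 L ⧸ J) := Ideal.finiteQuotientOfFreeOfNeBot _ hJ0
  -- the ideal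
  let I : Ideal R :=
    { carrier := {r | ∀ v ∈ T, v.valuation L (P r) ≤ exp (-2)}
      add_mem' := by
        intro r s hr hs v hv
        rw [map_add]
        exact (Valuation.map_add _ _ _).trans (max_le (hr v hv) (hs v hv))
      zero_mem' := by
        intro v hv
        rw [map_zero, map_zero]
        exact zero_le
      smul_mem' := by
        intro r s hs v hv
        rw [smul_eq_mul, map_mul, map_mul, mul_comm]
        exact mul_le_of_le_of_le_one (hs v hv) (hPint v hv r) }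
  have hImem : ∀ r, r ∈ I ↔ ∀ v ∈ T, v.valuation L (P r) ≤ exp (-2) := fun r => Iff.rfl
  have hcl : ∀ r r' : R, ∀ y y' : 𝓞 L,
      (∀ v ∈ T, v.valuation L (P r - algebraMap (𝓞 L) L y) ≤ exp (-2)) →
      (∀ v ∈ T, v.valuation L (P r' - algebraMap (𝓞 L) L y') ≤ exp (-2)) →
      (r - r' ∈ I ↔ y - y' ∈ J) := by
    intro r r' y y' h1 h2
    rw [hImem, hJ, mem_prod_iff]
    refine forall₂_congr fun v hv => ?_
    rw [← val_le_iff]
    constructor
    · intro h3
      have h5 : algebraMap (𝓞 L) L (y - y') = P (r - r') - ((P r - algebraMap (𝓞 L) L y) -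
        (P r' - algebraMap (𝓞 L) L y')) := by
        rw [map_sub, map_sub]
        ring
      rw [h5]
      exact (Valuation.map_sub _ _ _).trans (max_le h3
        ((Valuation.map_sub _ _ _).trans (max_le (h1 v hv) (h2 v hv))))
    · intro h3
      have h5 : P (r - r') = algebraMap (𝓞 L) L (y - y') + ((P r - algebraMap (𝓞 L) L y) -
        (P r' - algebraMap (𝓞 L) L y')) := by
        rw [map_sub, map_sub]
        ring
      rw [h5]
      exact (Valuation.map_add _ _ _).trans (max_le h3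
        ((Valuation.map_sub _ _ _).trans (max_le (h1 v hv) (h2 v hv))))
  have hex : ∀ r : R, ∃ y : 𝓞 L,
      ∀ v ∈ T, v.valuation L (P r - algebraMap (𝓞 L) L y) ≤ exp (-2) := fun r =>
    exists_int_near T (P r) fun v hv => hPint v hv r
  choose Y hY using hex
  have hsurj : ∀ y : 𝓞 L, ∃ r : R,
      ∀ v ∈ T, v.valuation L (P r - algebraMap (𝓞 L) L y) ≤ exp (-2) := by
    intro y
    obtain ⟨r0, hr0⟩ := hM y
    obtain ⟨j, hj⟩ := exists_pow_one T (M : 𝓞 L) hTM
    refine ⟨(M : R) ^ j * r0, fun v hv => ?_⟩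
    have h1 : P ((M : R) ^ j * r0) - algebraMap (𝓞 L) L y =
        algebraMap (𝓞 L) L (((M : 𝓞 L) ^ (j + 1) - 1) * y) := by
      rw [map_mul, ← hr0, map_pow, map_intCast]
      simp only [map_mul, map_sub, map_pow, map_intCast, map_one]
      ring
    rw [h1, val_le_iff]
    exact Ideal.mul_mem_right _ _ ((mem_prod_iff T _).1 hj v hv)
  let b : R ⧸ I → 𝓞 L ⧸ J := fun q => Ideal.Quotient.mk J (Y (Quotient.out q))
  have hout : ∀ q : R ⧸ I, Ideal.Quotient.mk I (Quotient.out q) = q := fun q =>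
    Quotient.out_eq q
  have hbmk : ∀ (r : R) (y : 𝓞 L),
      (∀ v ∈ T, v.valuation L (P r - algebraMap (𝓞 L) L y) ≤ exp (-2)) →
      b (Ideal.Quotient.mk I r) = Ideal.Quotient.mk J y := by
    intro r y hry
    change Ideal.Quotient.mk J _ = _
    rw [Ideal.Quotient.eq]
    refine (hcl _ r _ y (hY _) hry).1 ?_
    rw [← Ideal.Quotient.eq]
    exact hout _
  have hbinj : Function.Injective b := by
    intro q q' hqq
    have h1 := Ideal.Quotient.eq.1 hqq
    rw [← hcl (Quotient.out q) (Quotient.out q') _ _ (hY _) (hY _), ← Ideal.Quotient.eq, hout,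
      hout] at h1
    exact h1
  have hbsurj : Function.Surjective b := by
    intro z
    obtain ⟨y, rfl⟩ := Ideal.Quotient.mk_surjective z
    obtain ⟨r, hr⟩ := hsurj y
    exact ⟨Ideal.Quotient.mk I r, hbmk r y hr⟩
  have hfinI : Finite (R ⧸ I) := Finite.of_injective b hbinj
  have hcard : Nat.card (R ⧸ I) = Nat.card (𝓞 L ⧸ J) :=
    Nat.card_congr (Equiv.ofBijective b ⟨hbinj, hbsurj⟩)
  refine ⟨q', hq'0, I, hfinI, ?_⟩
  -- counting in the number field
  set E' : Set (Fin (N + 1) → 𝓞 L) := {y | ∃ c ∈ E, ∀ v ∈ T, ∀ i,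
    v.valuation L (P (c i) - algebraMap (𝓞 L) L (y i)) ≤ exp (-2)} with hE'
  obtain ⟨e, he⟩ := Pool.Agent.W417.SecC.D2.crt T
  have hfinv : ∀ v : T, Finite (𝓞 L ⧸ v.1.asIdeal ^ 2) := fun v =>
    Pool.Agent.TH120.Sec.finite_sq v.1
  have hcardJ : (Nat.card (𝓞 L ⧸ J) : ℝ) = ∏ v ∈ T, (Ideal.absNorm v.asIdeal : ℝ) ^ 2 := by
    rw [hJ, Nat.card_congr e.toEquiv, Nat.card_pi, ← Finset.prod_coe_sort T]
    push_cast
    refine Finset.prod_congr rfl fun v _ => ?_
    rw [Pool.Agent.W417.SecC.D2.card_sq]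
    push_cast
    rfl
  have hbad : ∀ y ∈ E', ∀ v : T, red (v.1.asIdeal ^ 2) (N + 1) y ∈ (GoodV v.1 P')ᶜ := by
    rintro y ⟨c, hc, hcy⟩ v hy
    exact hc (hfine v.1 v.2 c y (hcy v.1 v.2) hy)
  have h1 := Pool.Agent.TH120.Sec.countd J T (fun v => v.1.asIdeal ^ 2) e he hfinv (N + 1) E'
    (fun v => (GoodV v.1 P')ᶜ) hbad
  have h1' : ((red J (N + 1) '' E').ncard : ℝ) ≤ ∏ v : T, (((GoodV v.1 P')ᶜ).ncard : ℝ) := by
    exact_mod_cast h1
  have h2 := Pool.Agent.TH120.Sec.prod_bound T (fun v : T => (((GoodV v.1 P')ᶜ).ncard : ℝ))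
    (fun v => (1 - δ * (1 / (Ideal.absNorm v.asIdeal : ℝ) -
        1 / (Ideal.absNorm v.asIdeal : ℝ) ^ 2)))
    (fun v => ((Ideal.absNorm v.asIdeal : ℝ) ^ 2) ^ (N + 1)) (fun _ => Nat.cast_nonneg _)
    (fun v => badV_card v.1 P' δ q₀ hmany (hTq v.1 v.2))
  have h3 : ((red J (N + 1) '' E').ncard : ℝ) ≤ ε * (Nat.card (𝓞 L ⧸ J) : ℝ) ^ (N + 1) := by
    refine (h1'.trans h2).trans ?_
    rw [Finset.prod_pow, hcardJ]
    exact mul_le_mul_of_nonneg_right hTε.le
      (pow_nonneg (Finset.prod_nonneg fun _ _ => sq_nonneg _) _)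
  have hle : Set.ncard ((fun (c : Fin (N + 1) → R) i => Ideal.Quotient.mk I (c i)) '' E) ≤
      Set.ncard (red J (N + 1) '' E') := by
    have hfr : Finite (Fin (N + 1) → 𝓞 L ⧸ J) := inferInstance
    refine Set.ncard_le_ncard_of_injOn (fun q i => b (q i)) ?_ ?_ (Set.toFinite _)
    · rintro _ ⟨c, hc, rfl⟩
      refine ⟨fun i => Y (c i), ⟨c, hc, fun v hv i => hY (c i) v hv⟩, ?_⟩
      funext i
      exact (hbmk (c i) _ (hY (c i))).symm
    · intro q _ q' _ h
      funext i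
      exact hbinj (congrFun h i)
  rw [hcard]
  exact le_trans (by exact_mod_cast hle) h3

theorem density_aux {N : ℕ} (P' : Cond N) (hP' : Desc P') (δ : ℝ) (hδ : 0 < δ) (hδ1 : δ ≤ 1)
    (q₀ : ℕ) (hmany : Many P' δ q₀) {R k : Type} [CommRing R] [IsDomain R] [Field k] [CharZero k]
    [Algebra R k] [IsFractionRing R k] (G : Finset R) (hG : Algebra.adjoin ℤ (G : Set R) = ⊤)
    {m : ℕ} {Q : Type} [Field Q] [Algebra (MvPolynomial (Fin m) ℚ) Q]
    [IsFractionRing (MvPolynomial (Fin m) ℚ) Q] [Algebra Q k]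
    [Algebra (MvPolynomial (Fin m) ℚ) k] [IsScalarTower (MvPolynomial (Fin m) ℚ) Q k]
    [Algebra.IsAlgebraic Q k] [Algebra.EssFiniteType ℤ k] (q : ℕ) (hq : q ≠ 0)
    (ε : ℝ) (hε : 0 < ε) :
    ∃ q' : ℕ, q' ≠ 0 ∧ ∃ I : Ideal R, Finite (R ⧸ I) ∧
      (Set.ncard ((fun (c : Fin (N + 1) → R) i => Ideal.Quotient.mk I (c i)) ''
        {c | ¬ GoodC P' q q' k c}) : ℝ) ≤ ε * (Nat.card (R ⧸ I) : ℝ) ^ (N + 1) := by
  classical
  have e4 : Algebra.EssFiniteType Q k := Algebra.EssFiniteType.of_comp ℤ Q k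
  have hfin : FiniteDimensional Q k := Algebra.finite_of_essFiniteType_of_isAlgebraic
  have hinjk : Function.Injective (algebraMap R k) := IsFractionRing.injective R k
  have hczQ : CharZero Q := charZero_of_injective_algebraMap
    (IsFractionRing.injective (MvPolynomial (Fin m) ℚ) Q)
  obtain ⟨α, hgen, hα⟩ := Pool.Agent.H298R2.Kuyk.exists_prim (MvPolynomial (Fin m) ℚ) Q k
  have hDNex : ∀ r : R, ∃ (D : MvPolynomial (Fin m) ℚ) (N : (MvPolynomial (Fin m) ℚ)[X]),
      D ≠ 0 ∧ algebraMap _ k D * algebraMap R k r = aeval α N := by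
    intro r
    obtain ⟨p, -, hp⟩ := H33.V4.exists_rep (Q := Q) α hgen (algebraMap R k r)
    obtain ⟨D, hD, hDp⟩ := IsLocalization.integerNormalization_spec
      (nonZeroDivisors (MvPolynomial (Fin m) ℚ)) p
    refine ⟨D, IsLocalization.integerNormalization (nonZeroDivisors (MvPolynomial (Fin m) ℚ)) p,
      nonZeroDivisors.ne_zero hD, ?_⟩
    rw [← aeval_map_algebraMap Q, hDp, Algebra.smul_def, map_mul, hp]
    congr 1
    rw [IsScalarTower.algebraMap_apply (MvPolynomial (Fin m) ℚ) Q k,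
      IsScalarTower.algebraMap_apply (MvPolynomial (Fin m) ℚ) Q Q[X]]
    simp
  choose D Nn hD hDN using hDNex
  obtain ⟨r0, s0, hs0, hα0⟩ := IsFractionRing.div_surjective (A := R) α
  have hs00 : s0 ≠ 0 := nonZeroDivisors.ne_zero hs0
  have hs0k : algebraMap R k s0 ≠ 0 := by
    rw [Ne, map_eq_zero_iff _ hinjk]
    exact hs00
  have hα1 : algebraMap R k s0 * α = algebraMap R k r0 := by
    rw [← hα0]
    field_simp
  obtain ⟨L, _, _, P, c, β, hβtop, hβ, hβ', hDP, hPα, hU, -, -⟩ :=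
    exists_spec (Q := Q) hinjk α hα hgen G hG D Nn (fun r _ => hDN r) (fun r _ => hD r)
      {s0} (by
        intro u hu
        simp only [Finset.mem_singleton] at hu
        rw [hu]
        exact hs00) (1 : R[X]) (by rw [Polynomial.map_one]; exact separable_one)
        AlgEquiv.refl (fun θ hθ => by
          rw [Polynomial.map_one, map_one] at hθ
          exact absurd hθ one_ne_zero)
  have hemb := exists_emb (Q := Q) α hα hgen P G hG D Nn (fun r _ => hDN r) c β hβ hβ' hDP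
  have hM := exists_mult P β hβtop r0 s0 (hU s0 (by simp)) (hPα r0 s0 hα1)
  exact density_vec P' hP' δ hδ hδ1 q₀ hmany P hemb hM q hq ε hε

theorem density_all {N : ℕ} (P' : Cond N) (hP' : Desc P') (δ : ℝ) (hδ : 0 < δ) (hδ1 : δ ≤ 1)
    (q₀ : ℕ) (hmany : Many P' δ q₀) {R k : Type} [CommRing R] [IsDomain R] [CharZero R]
    [Algebra.FiniteType ℤ R] [Field k] [Algebra R k] [IsFractionRing R k] (q : ℕ) (hq : q ≠ 0)
    (ε : ℝ) (hε : 0 < ε) :
    ∃ q' : ℕ, q' ≠ 0 ∧ ∃ I : Ideal R, Finite (R ⧸ I) ∧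
      (Set.ncard ((fun (c : Fin (N + 1) → R) i => Ideal.Quotient.mk I (c i)) ''
        {c | ¬ GoodC P' q q' k c}) : ℝ) ≤ ε * (Nat.card (R ⧸ I) : ℝ) ^ (N + 1) := by
  classical
  have hcz : CharZero k := charZero_of_injective_algebraMap (IsFractionRing.injective R k)
  obtain ⟨G, hG⟩ := (inferInstance : Algebra.FiniteType ℤ R).out
  have e1 : Algebra.EssFiniteType R k := Algebra.EssFiniteType.of_isLocalization k (nonZeroDivisors R)
  have e2 : Algebra.EssFiniteType ℤ k := Algebra.EssFiniteType.comp ℤ R k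
  have e3 : Algebra.EssFiniteType ℚ k := Algebra.EssFiniteType.of_comp ℤ ℚ k
  obtain ⟨s, hs⟩ := IntermediateField.fg_top ℚ k
  have halg0 : Algebra.IsAlgebraic (Algebra.adjoin ℚ (s : Set k)) k := by
    rw [← IntermediateField.isAlgebraic_adjoin_iff_top, hs, Algebra.isAlgebraic_iff_isIntegral]
    exact Algebra.isIntegral_of_surjective IntermediateField.topEquiv.surjective
  obtain ⟨t, hts, ht⟩ := exists_isTranscendenceBasis_subset (R := ℚ) (s : Set k)
  lift t to Finset k using s.finite_toSet.subset hts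
  let m := t.card
  let e : Fin m ≃ t := t.equivFin.symm
  let x : Fin m → k := fun i => (e i : k)
  have hx : IsTranscendenceBasis ℚ x := (isTranscendenceBasis_equiv e).2 ht
  let _ : Algebra (MvPolynomial (Fin m) ℚ) k := (MvPolynomial.aeval x).toRingHom.toAlgebra
  have hinj : Function.Injective (algebraMap (MvPolynomial (Fin m) ℚ) k) := hx.1
  let _ : Algebra (FractionRing (MvPolynomial (Fin m) ℚ)) k :=
    (IsFractionRing.lift (K := FractionRing (MvPolynomial (Fin m) ℚ)) hinj).toAlgebra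
  have htow : IsScalarTower (MvPolynomial (Fin m) ℚ) (FractionRing (MvPolynomial (Fin m) ℚ)) k :=
    IsScalarTower.of_algebraMap_eq fun p => (IsFractionRing.lift_algebraMap hinj p).symm
  have hta : Algebra.IsAlgebraic (FractionRing (MvPolynomial (Fin m) ℚ)) k := by
    refine ⟨fun y => ?_⟩
    obtain ⟨p, hp, hpy⟩ := hx.isAlgebraic.isAlgebraic y
    have h1 : IsAlgebraic (MvPolynomial (Fin m) ℚ) y := by
      refine ⟨p.map hx.1.aevalEquiv.symm.toRingEquiv.toRingHom, ?_, ?_⟩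
      · exact (Polynomial.map_ne_zero_iff
          hx.1.aevalEquiv.symm.toRingEquiv.injective).2 hp
      · rw [aeval_def, eval₂_map]
        rw [aeval_def] at hpy
        have h2 : (algebraMap (MvPolynomial (Fin m) ℚ) k).comp
            hx.1.aevalEquiv.symm.toRingEquiv.toRingHom =
            algebraMap (Algebra.adjoin ℚ (Set.range x)) k := by
          ext1 z
          obtain ⟨p, rfl⟩ := hx.1.aevalEquiv.surjective z
          rw [hx.1.algebraMap_aevalEquiv]
          change MvPolynomial.aeval x (hx.1.aevalEquiv.symm (hx.1.aevalEquiv p)) = _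
          rw [AlgEquiv.symm_apply_apply]
        rw [h2]
        exact hpy
    exact h1.extendScalars (IsFractionRing.injective _ _)
  exact density_aux P' hP' δ hδ hδ1 q₀ hmany (m := m) (Q := FractionRing (MvPolynomial (Fin m) ℚ))
    G hG q hq ε hε

end Pool.Agent.X281.SEA
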