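import Pool.Agent.X281.SE.Rat
import Pool.Agent.X281.SE.Place

/-!
# Sections near rational branch points: all places above a given one
-/

set_option autoImplicit false

namespace Pool.Agent.X281.SE

open Polynomial
open Pool.Agent.Y157.PS (Dec geomPro numM root_mod non_mul non_mem non_add non_sub nonunits_iff IsU)

/-- all sections of the geometrically pro-`ℓ` group of the curve `a y^ℓ = f(x)` are at the place `B`
the section of a rational branch point, which is at infinity or a zero of `f` in `R₀` -/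
def AtRat (ℓ : ℕ) {k : Type} [Field k] (R₀ : Set k) (B : ValuationSubring k) (a : k) (f : k[X]) :
    Prop :=
  ∀ (F Ω : Type) [Field F] [Field Ω] [Algebra k F] [Algebra F Ω] [Algebra k Ω]
    [IsScalarTower k F Ω] [IsAlgClosed Ω] [Algebra.IsAlgebraic F Ω] (x y : F),
    Transcendental k x → algebraMap k F a * y ^ ℓ = aeval x f →
    IntermediateField.adjoin k {x, y} = (⊤ : IntermediateField k F) →
    ∀ M : IntermediateField F Ω, geomPro ℓ k F Ω ≤ M →
    ∀ S : (algebraicClosure k Ω ≃ₐ[k] algebraicClosure k Ω) →* (M ≃ₐ[F] M), Continuous S →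
    (∀ σ (c : algebraicClosure k Ω) (z : M), (z : Ω) = (c : Ω) → (S σ z : Ω) = (σ c : Ω)) →
    ∃ t : F, ((ℓ ∣ f.natDegree + 1 ∧ t = x⁻¹) ∨ ∃ r ∈ R₀, t = x - algebraMap k F r) ∧
    ∀ V : ValuationSubring (algebraicClosure k Ω),
      V.comap (algebraMap k (algebraicClosure k Ω)) = B →
    ∃ W : ValuationSubring M,
      ((∀ c : k, algebraMap F M (algebraMap k F c) ∈ W) ∧ algebraMap F M t ∈ W.nonunits) ∧
      (∀ σ : algebraicClosure k Ω ≃ₐ[k] algebraicClosure k Ω, Dec V σ →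
        ∀ z : M, (z : Ω) ∈ geomPro ℓ k F Ω → (S σ z ∈ W ↔ z ∈ W)) ∧
      ∀ W' : ValuationSubring M,
        (∀ c : k, algebraMap F M (algebraMap k F c) ∈ W') →
        ((ℓ ∣ f.natDegree + 1 ∧ algebraMap F M x⁻¹ ∈ W'.nonunits) ∨
          algebraMap F M (aeval x f) ∈ W'.nonunits) →
        (∀ σ : algebraicClosure k Ω ≃ₐ[k] algebraicClosure k Ω, Dec V σ →
          ∀ z : M, (z : Ω) ∈ geomPro ℓ k F Ω → (S σ z ∈ W' ↔ z ∈ W')) →
        ∀ z : M, (z : Ω) ∈ geomPro ℓ k F Ω → (z ∈ W' ↔ z ∈ W)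

theorem atRat_scale {ℓ : ℕ} {k : Type} [Field k] (R₀ : Set k) (B : ValuationSubring k) (a : k)
    (f : k[X]) (c : k) (hc0 : c ≠ 0) (h : AtRat ℓ R₀ B (c * a) (C c * f)) : AtRat ℓ R₀ B a f := by
  intro F Ω _ _ _ _ _ _ _ _ x y hx hxy hF M hM S hS hc
  obtain ⟨t, ht, h⟩ := h F Ω x y hx
    (by rw [map_mul, map_mul, aeval_C, mul_assoc, hxy]) hF M hM S hS hc
  rw [natDegree_C_mul hc0] at ht h
  refine ⟨t, ht, fun V hV => ?_⟩
  obtain ⟨W, h1, h2, h3⟩ := h V hV
  refine ⟨W, h1, h2, fun W' b1 b2 b3 => h3 W' b1 ?_ b3⟩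
  rcases b2 with b2 | b2
  · exact Or.inl b2
  · right
    rw [map_mul, aeval_C, map_mul]
    exact non_mul (b1 c) b2

section main

variable {A k F Ω : Type} [CommRing A] [IsDomain A] [IsDiscreteValuationRing A]
    [Finite (IsLocalRing.ResidueField A)] [Field k] [CharZero k] [Algebra A k] [IsFractionRing A k]
    [Field F] [Field Ω] [Algebra k F] [Algebra F Ω] [Algebra k Ω] [IsScalarTower k F Ω]
    [IsAlgClosed Ω] [Algebra.IsAlgebraic F Ω]

/-- one place -/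
theorem rat_V {ℓ : ℕ} [Fact ℓ.Prime] (V : ValuationSubring (algebraicClosure k Ω))
    (hVA : ∀ a : A, algebraMap k (algebraicClosure k Ω) (algebraMap A k a) ∈ V)
    (hVm : ∀ a ∈ IsLocalRing.maximalIdeal A,
      algebraMap k (algebraicClosure k Ω) (algebraMap A k a) ∈ V.nonunits)
    (hℓ : IsUnit (ℓ : A)) {r : ℕ} (E : Fin r → A) (g f : A[X]) (hfg : f = (∏ i, (X - C (E i))) * g)
    (hglc : IsUnit g.leadingCoeff)
    (hs : (f.map (IsLocalRing.residue A)).Separable)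
    (hdeg : (ℓ ∣ f.natDegree ∧ 3 ≤ f.natDegree) ∨
      (ℓ ∣ f.natDegree + 1 ∧ 2 ≤ f.natDegree ∧ IsUnit (f.coeff 0)))
    (hroot : ∀ b : A, g.eval b ∉ IsLocalRing.maximalIdeal A)
    (ϖ : A) (hϖ : Irreducible ϖ) (d : k) (m : ℤ) (hm : ¬ (ℓ : ℤ) ∣ m)
    (t : A) (ht : IsUnit t) (hd : d = algebraMap A k t * algebraMap A k ϖ ^ m)
    (x y : F) (hx : Transcendental k x)
    (hxy : algebraMap k F d * y ^ ℓ = aeval x (f.map (algebraMap A k)))
    (hF : IntermediateField.adjoin k {x, y} = (⊤ : IntermediateField k F))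
    (M : IntermediateField F Ω) (hM : geomPro ℓ k F Ω ≤ M)
    (S : (algebraicClosure k Ω ≃ₐ[k] algebraicClosure k Ω) →* (M ≃ₐ[F] M)) (hcont : Continuous S)
    (hcompat : ∀ σ (c : algebraicClosure k Ω) (z : M), (z : Ω) = (c : Ω) →
      (S σ z : Ω) = (σ c : Ω)) :
    ∃ t : F, ((ℓ ∣ f.natDegree + 1 ∧ t = x⁻¹) ∨
      ∃ r ∈ Set.range (fun i => algebraMap A k (E i)), t = x - algebraMap k F r) ∧
    ∃ W : ValuationSubring M,
      ((∀ c : k, algebraMap F M (algebraMap k F c) ∈ W) ∧ algebraMap F M t ∈ W.nonunits) ∧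
      (∀ σ : algebraicClosure k Ω ≃ₐ[k] algebraicClosure k Ω, Dec V σ →
        ∀ z : M, (z : Ω) ∈ geomPro ℓ k F Ω → (S σ z ∈ W ↔ z ∈ W)) ∧
      ∀ W' : ValuationSubring M,
        (∀ c : k, algebraMap F M (algebraMap k F c) ∈ W') →
        ((ℓ ∣ f.natDegree + 1 ∧ algebraMap F M x⁻¹ ∈ W'.nonunits) ∨
          algebraMap F M (aeval x (f.map (algebraMap A k))) ∈ W'.nonunits) →
        (∀ σ : algebraicClosure k Ω ≃ₐ[k] algebraicClosure k Ω, Dec V σ →
          ∀ z : M, (z : Ω) ∈ geomPro ℓ k F Ω → (S σ z ∈ W' ↔ z ∈ W')) →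
        ∀ z : M, (z : Ω) ∈ geomPro ℓ k F Ω → (z ∈ W' ↔ z ∈ W) := by
  classical
  have hℓp : ℓ.Prime := Fact.out
  -- a root of `f` fixed by the decomposition group is one of the `E i`
  have key : ∀ e : algebraicClosure k Ω, aeval e (f.map (algebraMap A k)) = 0 →
      (∀ σ : algebraicClosure k Ω ≃ₐ[k] algebraicClosure k Ω, Dec V σ → σ e = e) →
      ∃ i, e = algebraMap k (algebraicClosure k Ω) (algebraMap A k (E i)) := by
    intro e he hfix
    rw [hfg, Polynomial.map_mul, map_mul] at he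
    rcases mul_eq_zero.1 he with h1 | h1
    · rw [Polynomial.map_prod, map_prod, Finset.prod_eq_zero_iff] at h1
      obtain ⟨i, -, hi⟩ := h1
      refine ⟨i, ?_⟩
      rw [Polynomial.map_sub, map_X, map_C, map_sub, aeval_X, aeval_C, sub_eq_zero] at hi
      exact hi
    · obtain ⟨a, ha⟩ := root_mod V hVA hVm g hglc e h1 hfix
      exact absurd ha (hroot a)
  have hlcf : IsUnit f.leadingCoeff := by
    have hprod : (∏ i, (X - C (E i)) : A[X]).Monic := monic_prod_X_sub_C _ _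
    rw [hfg, leadingCoeff_mul, hprod.leadingCoeff, one_mul]
    exact hglc
  have trans : ∀ (W : ValuationSubring M) (e : algebraicClosure k Ω) (i : Fin r),
      e = algebraMap k (algebraicClosure k Ω) (algebraMap A k (E i)) → ∀ z' ∈ W.nonunits,
      (z' : Ω) = algebraMap F Ω x - e →
      algebraMap F M (x - algebraMap k F (algebraMap A k (E i))) ∈ W.nonunits := by
    intro W e i he z' hz' hze
    have h6 : algebraMap F M (x - algebraMap k F (algebraMap A k (E i))) = z' := by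
      apply Subtype.ext
      rw [hze, he]
      change algebraMap F Ω (x - algebraMap k F (algebraMap A k (E i))) = _
      rw [map_sub, ← IsScalarTower.algebraMap_apply]
      rfl
    rw [h6]
    exact hz'
  rcases hdeg with ⟨hd1, hd2⟩ | ⟨hd1, hd2, hd3⟩
  · obtain ⟨W, ⟨⟨h1, ⟨e, he, hfix, z', hz', hz'e⟩, -⟩, h5⟩, hun⟩ := numM V hVA hVm hℓ f hlcf hs
      hd1 hd2 ϖ hϖ d m hm t ht hd x y hx hxy hF M hM S hcont hcompat
    obtain ⟨i, hi⟩ := key e he hfix
    refine ⟨x - algebraMap k F (algebraMap A k (E i)), Or.inr ⟨_, ⟨i, rfl⟩, rfl⟩, W,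
      ⟨h1, trans W e i hi z' hz' hz'e⟩, h5, fun W' b1 b2 b3 => hun W' b1 ?_ b3⟩
    rcases b2 with b2 | b2
    · exfalso
      have h7 : ℓ ∣ 1 := (Nat.dvd_add_right hd1).1 b2.1
      exact hℓp.one_lt.ne' (Nat.dvd_one.1 h7)
    · exact b2
  · obtain ⟨W, ⟨h1, hor⟩, h5, hun⟩ := numM_inf V hVA hVm hℓ f hlcf hs hd1 hd2 hd3 ϖ hϖ d m hm t ht
      hd x y hx hxy hF M hM S hcont hcompat
    rcases hor with hor | ⟨e, he, hfix, z', hz', hz'e⟩
    · refine ⟨x⁻¹, Or.inl ⟨hd1, rfl⟩, W, ⟨h1, hor⟩, h5, fun W' b1 b2 b3 => hun W' b1 ?_ b3⟩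
      exact b2.imp (fun h => h.2) id
    · obtain ⟨i, hi⟩ := key e he hfix
      refine ⟨x - algebraMap k F (algebraMap A k (E i)), Or.inr ⟨_, ⟨i, rfl⟩, rfl⟩, W,
        ⟨h1, trans W e i hi z' hz' hz'e⟩, h5, fun W' b1 b2 b3 => hun W' b1 ?_ b3⟩
      exact b2.imp (fun h => h.2) id

end main

theorem rat_dvr {A k : Type} [CommRing A] [IsDomain A] [IsDiscreteValuationRing A]
    [Finite (IsLocalRing.ResidueField A)] [Field k] [CharZero k] [Algebra A k] [IsFractionRing A k]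
    {ℓ : ℕ} (hℓ0 : ℓ.Prime) (hℓ : IsUnit (ℓ : A)) {r : ℕ} (E : Fin r → A) (g f : A[X])
    (hfg : f = (∏ i, (X - C (E i))) * g)
    (hglc : IsUnit g.leadingCoeff)
    (hs : (f.map (IsLocalRing.residue A)).Separable)
    (hdeg : (ℓ ∣ f.natDegree ∧ 3 ≤ f.natDegree) ∨
      (ℓ ∣ f.natDegree + 1 ∧ 2 ≤ f.natDegree ∧ IsUnit (f.coeff 0)))
    (hroot : ∀ b : A, g.eval b ∉ IsLocalRing.maximalIdeal A)
    (ϖ : A) (hϖ : Irreducible ϖ) (d : k) (m : ℤ) (hm : ¬ (ℓ : ℤ) ∣ m)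
    (t : A) (ht : IsUnit t) (hd : d = algebraMap A k t * algebraMap A k ϖ ^ m)
    (B : ValuationSubring k) (hB : ∀ z, z ∈ B ↔ ∃ a : A, algebraMap A k a = z)
    (hBm : ∀ a : A, algebraMap A k a ∈ B.nonunits ↔ a ∈ IsLocalRing.maximalIdeal A) :
    AtRat ℓ (Set.range (fun i => algebraMap A k (E i))) B d (f.map (algebraMap A k)) := by
  classical
  have hfact : Fact ℓ.Prime := ⟨hℓ0⟩
  have hAk : Function.Injective (algebraMap A k) := IsFractionRing.injective A k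
  intro F Ω _ _ _ _ _ _ _ _ x y hx hxy hF M hM S hS hc
  rw [natDegree_map_eq_of_injective hAk]
  have hd0 : d ≠ 0 := by
    rw [hd]
    refine mul_ne_zero ?_ (zpow_ne_zero _ ?_)
    · rw [Ne, map_eq_zero_iff _ hAk]
      exact ht.ne_zero
    · rw [Ne, map_eq_zero_iff _ hAk]
      exact hϖ.ne_zero
  have halg := Pool.Agent.Y157.PS.alg_of_eqn hℓ0.pos (f.map (algebraMap A k)) d hd0 x y hxy hF
  have hloc : ∀ V : ValuationSubring (algebraicClosure k Ω),
      V.comap (algebraMap k (algebraicClosure k Ω)) = B →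
      (∀ a : A, algebraMap k (algebraicClosure k Ω) (algebraMap A k a) ∈ V) ∧
      ∀ a ∈ IsLocalRing.maximalIdeal A,
        algebraMap k (algebraicClosure k Ω) (algebraMap A k a) ∈ V.nonunits := by
    intro V hV
    constructor
    · intro a
      have h1 : algebraMap A k a ∈ B := (hB _).2 ⟨a, rfl⟩
      rw [← hV] at h1
      exact h1
    · intro a ha
      rw [← Pool.Agent.Y157.PS.non_incl, hV]
      exact (hBm a).2 ha
  have hone := fun (V : ValuationSubring (algebraicClosure k Ω))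
    (hV : V.comap (algebraMap k (algebraicClosure k Ω)) = B) =>
    rat_V V (hloc V hV).1 (hloc V hV).2 hℓ E g f hfg hglc hs hdeg hroot ϖ hϖ d m hm t ht hd x y hx
      hxy hF M hM S hS hc
  obtain ⟨V₀, hV₀⟩ := Pool.Agent.Y157.PS.a_extv k (algebraicClosure k Ω) B
  obtain ⟨t₀, ht₀, W₀, ⟨h1, h2⟩, h3, h4⟩ := hone V₀ hV₀
  refine ⟨t₀, ht₀, fun V hV => ?_⟩
  have hnorm : Normal k (algebraicClosure k Ω) := inferInstance
  obtain ⟨γ, hγ⟩ := Pool.Agent.Y157.PS.a_conj k (algebraicClosure k Ω) V₀ V (by rw [hV₀, hV])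
  obtain ⟨T, hTc, hT⟩ := Pool.Agent.Y157.PS.a_ind2 ℓ k F Ω x hx halg M hM _ S hS
  have hgeo : ∀ (σ : algebraicClosure k Ω ≃ₐ[k] algebraicClosure k Ω) (z : M),
      (z : Ω) ∈ geomPro ℓ k F Ω → (S σ z : Ω) ∈ geomPro ℓ k F Ω := by
    intro σ z hz
    rw [← hT σ z ⟨(z : Ω), hz⟩ rfl]
    exact (T σ ⟨(z : Ω), hz⟩).2
  let W : ValuationSubring M := W₀.comap ((S γ : M ≃ₐ[F] M) : M →+* M)
  have hW : ∀ z, z ∈ W ↔ S γ z ∈ W₀ := fun z => Iff.rfl
  have hWn : ∀ z, z ∈ W.nonunits ↔ S γ z ∈ W₀.nonunits := fun z =>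
    Pool.Agent.Y157.PS.non_incl ((S γ : M ≃ₐ[F] M) : M →+* M) W₀ z
  have hcW : ∀ c : k, algebraMap F M (algebraMap k F c) ∈ W := by
    intro c
    rw [hW, AlgEquiv.commutes]
    exact h1 c
  have htW : algebraMap F M t₀ ∈ W.nonunits := by
    rw [hWn, AlgEquiv.commutes]
    exact h2
  have hstab : ∀ σ : algebraicClosure k Ω ≃ₐ[k] algebraicClosure k Ω, Dec V σ →
      ∀ z : M, (z : Ω) ∈ geomPro ℓ k F Ω → (S σ z ∈ W ↔ z ∈ W) := by
    intro σ hσ z hz
    have hdec : Dec V₀ (γ * σ * γ⁻¹) := by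
      intro c
      have e1 : (γ * σ * γ⁻¹) c = γ (σ (γ⁻¹ c)) := rfl
      rw [e1, ← hγ, hσ, hγ]
      have e2 : γ (γ⁻¹ c) = c := by
        change (γ * γ⁻¹) c = c
        rw [mul_inv_cancel]
        rfl
      rw [e2]
    have h5 := h3 _ hdec (S γ z) (hgeo γ z hz)
    have e3 : S (γ * σ * γ⁻¹) (S γ z) = S γ (S σ z) := by
      change (S (γ * σ * γ⁻¹) * S γ) z = (S γ * S σ) z
      rw [← map_mul, ← map_mul, inv_mul_cancel_right]
    rw [e3] at h5
    rw [hW, hW]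
    exact h5
  refine ⟨W, ⟨hcW, htW⟩, hstab, ?_⟩
  obtain ⟨-, -, W₁, -, -, h8⟩ := hone V hV
  have hbr : ((ℓ ∣ f.natDegree + 1 ∧ algebraMap F M x⁻¹ ∈ W.nonunits) ∨
      algebraMap F M (aeval x (f.map (algebraMap A k))) ∈ W.nonunits) := by
    rcases ht₀ with ⟨h5, h6⟩ | ⟨e, ⟨i, rfl⟩, h6⟩
    · left
      rw [h6] at htW
      exact ⟨h5, htW⟩
    · right
      have hroot : (f.map (algebraMap A k)).IsRoot (algebraMap A k (E i)) := by
        rw [IsRoot.def, hfg, Polynomial.map_mul, eval_mul, Polynomial.map_prod, eval_prod,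
          Finset.prod_eq_zero (Finset.mem_univ i), zero_mul]
        rw [Polynomial.map_sub, map_X, map_C, eval_sub, eval_X, eval_C, sub_self]
      obtain ⟨p, hp⟩ := dvd_iff_isRoot.2 hroot
      have hxW : algebraMap F M x ∈ W := by
        have h7 : algebraMap F M x = algebraMap F M t₀ +
            algebraMap F M (algebraMap k F (algebraMap A k (E i))) := by
          rw [← map_add, h6]
          congr 1
          ring
        rw [h7]
        exact add_mem (non_mem htW) (hcW _)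
      rw [hp, map_mul, map_sub, aeval_X, aeval_C, map_mul, mul_comm]
      refine non_mul ?_ ?_
      · rw [aeval_eq_sum_range, map_sum]
        refine sum_mem fun j _ => ?_
        rw [Algebra.smul_def, map_mul, map_pow]
        exact mul_mem (hcW _) (pow_mem hxW j)
      · rw [h6] at htW
        exact htW
  intro W' b1 b2 b3 z hz
  exact (h8 W' b1 b2 b3 z hz).trans (h8 W hcW hbr hstab z hz).symm

end Pool.Agent.X281.SE
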