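import Pool.Agent.X281.SE.Typ4
import Pool.Agent.X281.SE.Ext5
import Pool.Agent.X281.SE.Ext3

/-!
# Superelliptic curves with given factorisation type: geometrically pro-`ℓ` groups
-/

set_option autoImplicit false

namespace Pool.Agent.X281.SE

open Pool.Agent.W620.SC Pool.Agent.W623.SecC Pool.Agent.TH120.Sec Pool.Agent.TH377.LocG
  Pool.Agent.TH377.NC
open Polynomial IsDedekindDomain
open Pool.Agent.TH377.Sup (pol pol_natDegree pol_leadingCoeff pol_map)
open Pool.Agent.Y157.PS (S_FUN FineP fineP)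

/-- a good discrete valuation ring: the geometrically pro-`ℓ` fundamental groups, `L` of degree prime
to `ℓ` -/
theorem typ_pro {I : Type} [Fintype I] (d : I → ℕ) (hd3 : 3 ≤ ∑ i, d i)
    {k : Type} [Field k] [CharZero k] (q q' : ℕ) (a : k) (g : (Σ i, Fin (d i + 1)) → k)
    (h : Pool.Agent.X281.SEI.GoodI (fun κ _ c => TypC d κ c) q q' a g)
    (ℓ : ℕ) (hℓ : ℓ.Prime) (hℓq : ℓ ∣ q) (hℓd : ℓ ∣ ∑ i, d i)
    {L : Type} [Field L] [Algebra k L] [FiniteDimensional k L] (m : ℤ)
    (hm : ¬ (ℓ : ℤ) ∣ m * Module.finrank k L) (hL : ∀ i, ℓ ∣ d i ∨ Module.finrank k L < d i) :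
    FineP ℓ (algebraMap k L (a ^ m)) ((∏ i, pol fun j => g ⟨i, j⟩).map (algebraMap k L)) := by
  classical
  have hFUN : S_FUN := Pool.Agent.Y674.PS.funct Pool.Agent.Y157.PS.a_inrt
  have hfact : Fact ℓ.Prime := ⟨hℓ⟩
  obtain ⟨A, _, _, _, _, c, ϖ, t, s, hfr, hfin, hc, hP, hϖ, ht, hs, ha, hqA, -⟩ := h
  have hA := typA_of d c hP
  have hℓA : IsUnit (ℓ : A) := by
    obtain ⟨r, hr⟩ := hℓq
    rw [hr, Nat.cast_mul] at hqA
    exact isUnit_of_mul_isUnit_left hqA
  obtain ⟨tu, rfl⟩ := ht
  set fA : A[X] := ∏ i, pol fun j => c ⟨i, j⟩ with hfA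
  have hne : ∀ i, (pol fun j => c ⟨i, j⟩ : A[X]) ≠ 0 := fun i h1 => by
    have h2 := hA.lc i
    rw [h1, leadingCoeff_zero] at h2
    exact not_isUnit_zero h2
  have hfAd : fA.natDegree = ∑ i, d i := by
    rw [hfA, natDegree_prod _ _ fun i _ => hne i]
    exact Finset.sum_congr rfl fun i _ => hA.deg i
  have hfAlc : IsUnit fA.leadingCoeff := by
    rw [hfA, leadingCoeff_prod, IsUnit.prod_iff]
    exact fun i _ => hA.lc i
  have hfAs : (fA.map (IsLocalRing.residue A)).Separable := hA.sep'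
  -- the place of `L`
  let _ : Algebra A L := ((algebraMap k L).comp (algebraMap A k)).toAlgebra
  have hstR : IsScalarTower A k L := IsScalarTower.of_algebraMap_eq (fun _ => rfl)
  have hczL : CharZero L := charZero_of_injective_algebraMap (algebraMap k L).injective
  obtain ⟨B, _, _, _, _, hfrB, J, fd, hfdle, hfd0, hfdℓ, hfinB, hℓB, hJL, hJm, hJs, hJf,
    ϖ', t', m', hϖ', ht', hm', hat⟩ :=
    dvr_hom (k := k) (L := L) ℓ hℓ hℓA ϖ ((tu ^ m : Aˣ) : A) hϖ
      (tu ^ m).isUnit (s * m) (by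
        intro h4
        apply hm
        rcases hs with rfl | rfl
        · rwa [one_mul] at h4
        · rw [neg_one_mul, neg_mul, dvd_neg] at h4
          exact h4)
  have hJL' : ∀ z : A, algebraMap B L (J z) = algebraMap k L (algebraMap A k z) := by
    intro z
    rw [← RingHom.comp_apply, hJL]
    rfl
  have hJinj : Function.Injective J := by
    intro z w hzw
    have h4 := congrArg (algebraMap B L) hzw
    rw [hJL', hJL'] at h4
    exact IsFractionRing.injective A k ((algebraMap k L).injective h4)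
  have hcoef : algebraMap k L (a ^ m) = algebraMap B L t' * algebraMap B L ϖ' ^ m' := by
    rw [← hat]
    have h5 : a ^ m = algebraMap A k ((tu ^ m : Aˣ) : A) * algebraMap A k ϖ ^ (s * m) := by
      rw [ha, mul_zpow, ← zpow_mul, zpow_unit]
    rw [h5, map_mul, map_zpow₀]
    rfl
  have hfB : (∏ i, pol fun j => g ⟨i, j⟩).map (algebraMap k L) =
      (fA.map J).map (algebraMap B L) := by
    rw [Polynomial.map_map, hJL, hfA, Polynomial.map_prod, Polynomial.map_prod]
    refine Finset.prod_congr rfl fun i _ => ?_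
    rw [pol_map, pol_map]
    congr 1
    funext j
    rw [← hc]
    rfl
  rw [hcoef, hfB]
  refine fineP hFUN hℓB (fA.map J) ?_ (hJs _ hfAs) ?_ ?_ ?_ ϖ' hϖ' _ m' hm' t' ht' rfl
  · rw [leadingCoeff_map_of_injective hJinj]
    exact hfAlc.map J
  · rw [natDegree_map_eq_of_injective hJinj, hfAd]
    exact hℓd
  · rw [natDegree_map_eq_of_injective hJinj, hfAd]
    exact hd3
  · intro b hb
    have h5 : ((fA.map J).map (IsLocalRing.residue B)).eval (IsLocalRing.residue B b) = 0 := by
      rw [eval_map, eval₂_at_apply]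
      exact (IsLocalRing.residue_eq_zero_iff _).2 hb
    have h6 : X - C (IsLocalRing.residue B b) ∣ (fA.map J).map (IsLocalRing.residue B) :=
      dvd_iff_isRoot.2 h5
    rw [hfA, Polynomial.map_prod, Polynomial.map_prod] at h6
    obtain ⟨i, -, hi⟩ := (irreducible_X_sub_C _).prime.exists_mem_finset_dvd h6
    have h7 := hJf (d i) (pol fun j => c ⟨i, j⟩)
      (factorDiv_of_irreducible _ _ (hA.irr i) (by rw [hA.degr])) _
      (irreducible_X_sub_C _) hi
    rw [natDegree_X_sub_C, one_mul] at h7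
    rcases hL i with hL | hL
    · exact hfdℓ (hL.trans h7)
    · have h8 := Nat.le_of_dvd hfd0 h7
      omega

end Pool.Agent.X281.SE
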