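import Pool.Agent.Y157.PS.Sup

/-!
# Sections of superelliptic curves that are totally ramified at infinity
-/

set_option autoImplicit false

namespace Pool.Agent.X281.SE

open Polynomial
open Pool.Agent.Y157.PS (Dec geomPro numM root_mod non_mul non_mem non_add non_sub nonunits_iff IsU)

/-- `X` times the reversed polynomial is separable -/
theorem sep_reflect {κ : Type} [Field κ] [PerfectField κ] (p : κ[X]) (hp : p.Separable)
    (h0 : p.coeff 0 ≠ 0) : (X * p.reflect p.natDegree : κ[X]).Separable := by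
  classical
  have hp0 : p ≠ 0 := by
    rintro rfl
    exact h0 (coeff_zero 0)
  set D := p.natDegree with hD
  set r := p.reflect D with hr
  have hr0 : r.coeff 0 = p.leadingCoeff := by
    rw [hr, coeff_reflect, revAt_le (Nat.zero_le _), Nat.sub_zero]
    rfl
  have hrD : r.coeff D = p.coeff 0 := by
    rw [hr, coeff_reflect, revAt_le le_rfl, Nat.sub_self]
  have hr0' : r.coeff 0 ≠ 0 := by
    rw [hr0]
    exact leadingCoeff_ne_zero.2 hp0
  have hrne : r ≠ 0 := by
    intro h
    rw [h] at hr0'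
    exact hr0' (coeff_zero 0)
  have hrd : r.natDegree = D := by
    refine le_antisymm ?_ ?_
    · refine (natDegree_reflect_le).trans ?_
      rw [hD]
      simp
    · refine le_natDegree_of_ne_zero ?_
      rw [hrD]
      exact h0
  have hXr : ¬ (X : κ[X]) ∣ r := by
    rw [X_dvd_iff]
    exact hr0'
  have hcop : IsCoprime (X : κ[X]) r := (irreducible_X.coprime_iff_not_dvd).2 hXr
  refine Separable.mul separable_X ?_ hcop
  rw [PerfectField.separable_iff_squarefree]
  have hsq : Squarefree p := hp.squarefree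
  intro q hq
  obtain ⟨s, hs⟩ := hq
  have hq0 : q ≠ 0 := by
    rintro rfl
    apply hrne
    rw [hs]
    simp
  have hs0 : s ≠ 0 := by
    rintro rfl
    apply hrne
    rw [hs]
    simp
  have hdeg : D = q.natDegree + q.natDegree + s.natDegree := by
    rw [← hrd, hs, natDegree_mul (mul_ne_zero hq0 hq0) hs0, natDegree_mul hq0 hq0]
  have h1 : p = (q.reflect q.natDegree * q.reflect q.natDegree) * s.reflect s.natDegree := by
    have h2 : p = r.reflect D := by
      rw [hr, reflect_reflect]
    rw [h2, hs]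
    conv_lhs => rw [hdeg]
    rw [reflect_mul _ _ (by rw [natDegree_mul hq0 hq0]) le_rfl, reflect_mul _ _ le_rfl le_rfl]
  have h2 : IsUnit (q.reflect q.natDegree) := hsq _ ⟨_, h1⟩
  obtain ⟨c, hc, hcq⟩ := Polynomial.isUnit_iff.1 h2
  have h3 : q = C c * X ^ q.natDegree := by
    conv_lhs => rw [← reflect_reflect (N := q.natDegree) (p := q), ← hcq]
    rw [reflect_C]
  by_cases ha : q.natDegree = 0
  · rw [h3, ha, pow_zero, mul_one]
    exact isUnit_C.2 hc
  · exfalso
    apply hXr
    rw [hs]
    refine Dvd.dvd.mul_right (Dvd.dvd.mul_right ?_ _) _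
    rw [h3]
    exact Dvd.dvd.mul_left (dvd_pow_self _ ha) _

section main

variable {A k F Ω : Type} [CommRing A] [IsDomain A] [IsDiscreteValuationRing A]
    [Finite (IsLocalRing.ResidueField A)] [Field k] [CharZero k] [Algebra A k] [IsFractionRing A k]
    [Field F] [Field Ω] [Algebra k F] [Algebra F Ω] [Algebra k Ω] [IsScalarTower k F Ω]
    [IsAlgClosed Ω] [Algebra.IsAlgebraic F Ω]

theorem aeval_reflect {k F : Type} [Field k] [Field F] [Algebra k F] (g : k[X]) (D : ℕ)
    (hD : g.natDegree ≤ D) (x : F) (hx : x ≠ 0) :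
    aeval x⁻¹ (X * g.reflect D) = x⁻¹ ^ (D + 1) * aeval x g := by
  let _ : Invertible x := invertibleOfNonzero hx
  have h1 := eval₂_reflect_mul_pow (algebraMap k F) x D g hD
  rw [invOf_eq_inv] at h1
  rw [map_mul, aeval_X, aeval_def, aeval_def, ← h1]
  have h2 : x⁻¹ ^ (D + 1) * (eval₂ (algebraMap k F) x⁻¹ (g.reflect D) * x ^ D) =
      x⁻¹ * eval₂ (algebraMap k F) x⁻¹ (g.reflect D) * (x⁻¹ ^ D * x ^ D) := by ring
  rw [h2, ← mul_pow, inv_mul_cancel₀ hx, one_pow, mul_one]

/-- at a place where the reduction of `f` has no roots all sections of the geometrically pro-`ℓ`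
group are locally the section at infinity -/
theorem near_inf {ℓ : ℕ} [Fact ℓ.Prime] (V : ValuationSubring (algebraicClosure k Ω))
    (hVA : ∀ a : A, algebraMap k (algebraicClosure k Ω) (algebraMap A k a) ∈ V)
    (hVm : ∀ a ∈ IsLocalRing.maximalIdeal A,
      algebraMap k (algebraicClosure k Ω) (algebraMap A k a) ∈ V.nonunits)
    (hℓ : IsUnit (ℓ : A)) (f : A[X]) (hlc : IsUnit f.leadingCoeff)
    (hs : (f.map (IsLocalRing.residue A)).Separable) (hdvd : ℓ ∣ f.natDegree + 1)
    (h3 : 2 ≤ f.natDegree) (hroot : ∀ b : A, f.eval b ∉ IsLocalRing.maximalIdeal A)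
    (ϖ : A) (hϖ : Irreducible ϖ) (d : k) (m : ℤ) (hm : ¬ (ℓ : ℤ) ∣ m)
    (t : A) (ht : IsUnit t) (hd : d = algebraMap A k t * algebraMap A k ϖ ^ m)
    (x y : F) (hx : Transcendental k x)
    (hxy : algebraMap k F d * y ^ ℓ = aeval x (f.map (algebraMap A k)))
    (hF : IntermediateField.adjoin k {x, y} = (⊤ : IntermediateField k F))
    (M : IntermediateField F Ω) (hM : geomPro ℓ k F Ω ≤ M)
    (S : (algebraicClosure k Ω ≃ₐ[k] algebraicClosure k Ω) →* (M ≃ₐ[F] M)) (hcont : Continuous S)
    (hcompat : ∀ σ (c : algebraicClosure k Ω) (z : M), (z : Ω) = (c : Ω) →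
      (S σ z : Ω) = (σ c : Ω)) :
    ∃ W : ValuationSubring M,
      ((∀ c : k, algebraMap F M (algebraMap k F c) ∈ W) ∧ algebraMap F M x⁻¹ ∈ W.nonunits) ∧
      (∀ σ : algebraicClosure k Ω ≃ₐ[k] algebraicClosure k Ω, Dec V σ →
        ∀ z : M, (z : Ω) ∈ geomPro ℓ k F Ω → (S σ z ∈ W ↔ z ∈ W)) ∧
      ∀ W' : ValuationSubring M,
        (∀ c : k, algebraMap F M (algebraMap k F c) ∈ W') →
        (algebraMap F M x⁻¹ ∈ W'.nonunits ∨
          algebraMap F M (aeval x (f.map (algebraMap A k))) ∈ W'.nonunits) →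
        (∀ σ : algebraicClosure k Ω ≃ₐ[k] algebraicClosure k Ω, Dec V σ →
          ∀ z : M, (z : Ω) ∈ geomPro ℓ k F Ω → (S σ z ∈ W' ↔ z ∈ W')) →
        ∀ z : M, (z : Ω) ∈ geomPro ℓ k F Ω → (z ∈ W' ↔ z ∈ W) := by
  classical
  have hAk : Function.Injective (algebraMap A k) := IsFractionRing.injective A k
  have hx0 : x ≠ 0 := by
    rintro rfl
    exact hx (isAlgebraic_zero)
  have hf0 : f ≠ 0 := by
    rintro rfl
    rw [natDegree_zero] at h3
    omega
  have hc0 : IsUnit (f.coeff 0) := by
    have h4 := hroot 0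
    rw [← coeff_zero_eq_eval_zero] at h4
    by_contra h5
    exact h4 ((IsLocalRing.mem_maximalIdeal _).2 h5)
  set D := f.natDegree with hD
  set r : A[X] := f.reflect D with hr
  have hr0 : r.coeff 0 = f.leadingCoeff := by
    rw [hr, coeff_reflect, revAt_le (Nat.zero_le _), Nat.sub_zero]
    rfl
  have hrD : r.coeff D = f.coeff 0 := by
    rw [hr, coeff_reflect, revAt_le le_rfl, Nat.sub_self]
  have hrd : r.natDegree = D := by
    refine le_antisymm ?_ ?_
    · refine (natDegree_reflect_le).trans ?_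
      rw [hD]
      simp
    · refine le_natDegree_of_ne_zero ?_
      rw [hrD]
      exact hc0.ne_zero
  have hrlc : r.leadingCoeff = f.coeff 0 := by
    rw [leadingCoeff, hrd, hrD]
  have hr1 : r ≠ 0 := by
    intro h4
    rw [h4, leadingCoeff_zero] at hrlc
    exact hc0.ne_zero hrlc.symm
  set h : A[X] := X * r with hh
  have hhd : h.natDegree = D + 1 := by
    rw [hh, natDegree_X_mul hr1, hrd]
  have hhlc : IsUnit h.leadingCoeff := by
    rw [hh, leadingCoeff_mul, leadingCoeff_X, one_mul, hrlc]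
    exact hc0
  have hdr : (f.map (IsLocalRing.residue A)).natDegree = D :=
    natDegree_map_of_leadingCoeff_ne_zero _ (hlc.map _).ne_zero
  have hhs : (h.map (IsLocalRing.residue A)).Separable := by
    have h4 := sep_reflect (f.map (IsLocalRing.residue A)) hs (by
      rw [coeff_map]
      exact (hc0.map _).ne_zero)
    rw [hdr] at h4
    rw [hh, Polynomial.map_mul, map_X, hr, ← reflect_map]
    exact h4
  have hfk : (f.map (algebraMap A k)).natDegree = D := natDegree_map_eq_of_injective hAk f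
  have hhk : h.map (algebraMap A k) = X * (f.map (algebraMap A k)).reflect D := by
    rw [hh, Polynomial.map_mul, map_X, hr, ← reflect_map]
  obtain ⟨j, hj⟩ := hdvd
  have hxu : Transcendental k x⁻¹ := by
    intro h4
    apply hx
    have h5 := h4.inv
    rwa [inv_inv] at h5
  have hxy' : algebraMap k F d * (y * x⁻¹ ^ j) ^ ℓ = aeval x⁻¹ (h.map (algebraMap A k)) := by
    rw [hhk, aeval_reflect _ D hfk.le x hx0, mul_pow, ← mul_assoc, hxy, ← pow_mul, mul_comm j ℓ,
      ← hj, mul_comm]
  have hF' : IntermediateField.adjoin k {x⁻¹, y * x⁻¹ ^ j} = (⊤ : IntermediateField k F) := by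
    rw [eq_top_iff, ← hF, IntermediateField.adjoin_le_iff]
    have h4 : x⁻¹ ∈ IntermediateField.adjoin k {x⁻¹, y * x⁻¹ ^ j} :=
      IntermediateField.subset_adjoin _ _ (by simp)
    have h5 : y * x⁻¹ ^ j ∈ IntermediateField.adjoin k {x⁻¹, y * x⁻¹ ^ j} :=
      IntermediateField.subset_adjoin _ _ (by simp)
    have h6 : x ∈ IntermediateField.adjoin k {x⁻¹, y * x⁻¹ ^ j} := by
      have := inv_mem h4
      rwa [inv_inv] at this
    intro z hz
    rcases hz with rfl | hz
    · exact h6
    · rw [Set.mem_singleton_iff] at hz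
      rw [hz]
      have h7 : y = y * x⁻¹ ^ j * x ^ j := by
        rw [mul_assoc, ← mul_pow, inv_mul_cancel₀ hx0, one_pow, mul_one]
      have h8 := mul_mem h5 (pow_mem h6 j)
      rw [← h7] at h8
      exact h8
  obtain ⟨W, ⟨⟨h1, ⟨e, he, hfix, z', hz', hz'e⟩, -⟩, h5⟩, hun⟩ := numM V hVA hVm hℓ h hhlc hhs
    (by rw [hhd, hj]; exact Dvd.intro j rfl) (by rw [hhd]; omega) ϖ hϖ d m hm t ht hd x⁻¹
    (y * x⁻¹ ^ j) hxu hxy' hF' M hM S hcont hcompat
  have he0 : e = 0 := by
    rw [hhk, map_mul, aeval_X] at he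
    rcases mul_eq_zero.1 he with he | he
    · exact he
    exfalso
    have he' : aeval e (r.map (algebraMap A k)) = 0 := by
      rw [hr, ← reflect_map]
      exact he
    obtain ⟨b, hb⟩ := root_mod V hVA hVm r (by rw [hrlc]; exact hc0) e he' hfix
    by_cases hbu : IsUnit b
    · obtain ⟨c, rfl⟩ := hbu
      let _ : Invertible ((c⁻¹ : Aˣ) : A) := (c⁻¹).invertible
      have h6 := eval₂_reflect_mul_pow (RingHom.id A) ((c⁻¹ : Aˣ) : A) D f le_rfl
      have h7 : ⅟((c⁻¹ : Aˣ) : A) = (c : A) := by
        rw [invOf_units, inv_inv]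
      rw [h7] at h6
      apply hroot ((c⁻¹ : Aˣ) : A)
      change eval₂ (RingHom.id A) _ f ∈ _
      rw [← h6]
      exact Ideal.mul_mem_right _ _ hb
    · have h6 : b ∈ IsLocalRing.maximalIdeal A := (IsLocalRing.mem_maximalIdeal _).2 hbu
      have h7 : r.eval b = r.coeff 0 + b * r.divX.eval b := by
        conv_lhs => rw [← divX_mul_X_add r]
        rw [eval_add, eval_mul, eval_X, eval_C]
        ring
      have h8 : r.coeff 0 ∈ IsLocalRing.maximalIdeal A := by
        have h9 : r.coeff 0 = r.eval b - b * r.divX.eval b := by rw [h7]; ring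
        rw [h9]
        exact sub_mem hb (Ideal.mul_mem_right _ _ h6)
      rw [hr0] at h8
      exact (IsLocalRing.mem_maximalIdeal _).1 h8 hlc
  have hxW : algebraMap F M x⁻¹ ∈ W.nonunits := by
    have h6 : algebraMap F M x⁻¹ = z' := by
      apply Subtype.ext
      rw [hz'e, he0]
      change algebraMap F Ω x⁻¹ = algebraMap F Ω x⁻¹ - ((0 : algebraicClosure k Ω) : Ω)
      rw [ZeroMemClass.coe_zero, sub_zero]
    rw [h6]
    exact hz'
  refine ⟨W, ⟨h1, hxW⟩, h5, fun W' b1 b2 b3 => hun W' b1 ?_ b3⟩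
  -- the value of `h` at `x⁻¹`
  have hcW : ∀ (g : k[X]) (z : F), algebraMap F M z ∈ W' → algebraMap F M (aeval z g) ∈ W' := by
    intro g z hz
    rw [aeval_eq_sum_range, map_sum]
    refine sum_mem fun i _ => ?_
    rw [Algebra.smul_def, map_mul, map_pow]
    exact mul_mem (b1 _) (pow_mem hz i)
  rcases b2 with b2 | b2
  · rw [hhk, map_mul, aeval_X, map_mul, mul_comm]
    exact non_mul (hcW _ _ (non_mem b2)) b2
  · have h6 : algebraMap F M x⁻¹ ∈ W' := by
      by_contra h7
      have h8 : algebraMap F M x ∈ W'.nonunits := by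
        rw [nonunits_iff]
        rw [map_inv₀] at h7
        refine ⟨?_, Or.inr h7⟩
        rcases W'.mem_or_inv_mem (algebraMap F M x) with h9 | h9
        · exact h9
        · exact absurd h9 h7
      have hfne : f.coeff 0 ≠ 0 := hc0.ne_zero
      have h9 : aeval x (f.map (algebraMap A k)) = algebraMap k F (algebraMap A k (f.coeff 0)) +
          aeval x ((f.map (algebraMap A k)).divX) * x := by
        conv_lhs => rw [← divX_mul_X_add (f.map (algebraMap A k))]
        rw [map_add, map_mul, aeval_X, aeval_C, coeff_map, add_comm]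
      have h10 : algebraMap F M (algebraMap k F (algebraMap A k (f.coeff 0))) ∈ W'.nonunits := by
        have h11 : algebraMap F M (algebraMap k F (algebraMap A k (f.coeff 0))) =
            algebraMap F M (aeval x (f.map (algebraMap A k))) -
            algebraMap F M (aeval x ((f.map (algebraMap A k)).divX)) * algebraMap F M x := by
          rw [h9, map_add, map_mul]
          ring
        rw [h11]
        exact non_sub b2 (non_mul (hcW _ _ (non_mem h8)) h8)
      rcases (nonunits_iff.1 h10).2 with h12 | h12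
      · rw [_root_.map_eq_zero, _root_.map_eq_zero, map_eq_zero_iff _ hAk] at h12
        exact hfne h12
      · apply h12
        rw [← map_inv₀, ← map_inv₀]
        exact b1 _
    rw [hhk, aeval_reflect _ D hfk.le x hx0, map_mul, map_pow]
    exact non_mul (pow_mem h6 _) b2

end main

end Pool.Agent.X281.SE
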