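import Pool.Agent.X281.SE.Inf

/-!
# Sections of superelliptic curves with rational branch points
-/

set_option autoImplicit false

namespace Pool.Agent.X281.SE

open Polynomial
open Pool.Agent.Y157.PS (Dec geomPro numM root_mod non_mul non_mem non_add non_sub nonunits_iff IsU)

section main

variable {A k F Ω : Type} [CommRing A] [IsDomain A] [IsDiscreteValuationRing A]
    [Finite (IsLocalRing.ResidueField A)] [Field k] [CharZero k] [Algebra A k] [IsFractionRing A k]
    [Field F] [Field Ω] [Algebra k F] [Algebra F Ω] [Algebra k Ω] [IsScalarTower k F Ω]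
    [IsAlgClosed Ω] [Algebra.IsAlgebraic F Ω]

/-- the local theorem with a branch point at infinity -/
theorem numM_inf {ℓ : ℕ} [Fact ℓ.Prime] (V : ValuationSubring (algebraicClosure k Ω))
    (hVA : ∀ a : A, algebraMap k (algebraicClosure k Ω) (algebraMap A k a) ∈ V)
    (hVm : ∀ a ∈ IsLocalRing.maximalIdeal A,
      algebraMap k (algebraicClosure k Ω) (algebraMap A k a) ∈ V.nonunits)
    (hℓ : IsUnit (ℓ : A)) (f : A[X]) (hlc : IsUnit f.leadingCoeff)
    (hs : (f.map (IsLocalRing.residue A)).Separable) (hdvd : ℓ ∣ f.natDegree + 1)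
    (h3 : 2 ≤ f.natDegree) (hc0 : IsUnit (f.coeff 0))
    (ϖ : A) (hϖ : Irreducible ϖ) (d : k) (m : ℤ) (hm : ¬ (ℓ : ℤ) ∣ m)
    (t : A) (ht : IsUnit t) (hd : d = algebraMap A k t * algebraMap A k ϖ ^ m)
    (x y : F) (hx : Transcendental k x)
    (hxy : algebraMap k F d * y ^ ℓ = aeval x (f.map (algebraMap A k)))
    (hF : IntermediateField.adjoin k {x, y} = (⊤ : IntermediateField k F))
    (M : IntermediateField F Ω) (hM : geomPro ℓ k F Ω ≤ M)
    (S : (algebraicClosure k Ω ≃ₐ[k] algebraicClosure k Ω) →* (M ≃ₐ[F] M)) (hcont : Continuous S)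
    (hcompat : ∀ σ (c : algebraicClosure k Ω) (z : M), (z : Ω) = (c : Ω) →
      (S σ z : Ω) = (σ c : Ω)) :
    ∃ W : ValuationSubring M,
      ((∀ c : k, algebraMap F M (algebraMap k F c) ∈ W) ∧ (algebraMap F M x⁻¹ ∈ W.nonunits ∨
        ∃ e : algebraicClosure k Ω, aeval e (f.map (algebraMap A k)) = 0 ∧
          (∀ σ : algebraicClosure k Ω ≃ₐ[k] algebraicClosure k Ω, Dec V σ → σ e = e) ∧
          ∃ z' ∈ W.nonunits, (z' : Ω) = algebraMap F Ω x - e)) ∧
      (∀ σ : algebraicClosure k Ω ≃ₐ[k] algebraicClosure k Ω, Dec V σ →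
        ∀ z : M, (z : Ω) ∈ geomPro ℓ k F Ω → (S σ z ∈ W ↔ z ∈ W)) ∧
      ∀ W' : ValuationSubring M,
        (∀ c : k, algebraMap F M (algebraMap k F c) ∈ W') →
        (algebraMap F M x⁻¹ ∈ W'.nonunits ∨
          algebraMap F M (aeval x (f.map (algebraMap A k))) ∈ W'.nonunits) →
        (∀ σ : algebraicClosure k Ω ≃ₐ[k] algebraicClosure k Ω, Dec V σ →
          ∀ z : M, (z : Ω) ∈ geomPro ℓ k F Ω → (S σ z ∈ W' ↔ z ∈ W')) →
        ∀ z : M, (z : Ω) ∈ geomPro ℓ k F Ω → (z ∈ W' ↔ z ∈ W) := by
  classical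
  have hAk : Function.Injective (algebraMap A k) := IsFractionRing.injective A k
  have hx0 : x ≠ 0 := by
    rintro rfl
    exact hx (isAlgebraic_zero)
  have hf0 : f ≠ 0 := by
    rintro rfl
    rw [natDegree_zero] at h3
    omega
  set D := f.natDegree with hD
  set r : A[X] := f.reflect D with hr
  have hr0 : r.coeff 0 = f.leadingCoeff := by
    rw [hr, coeff_reflect, revAt_le (Nat.zero_le _), Nat.sub_zero]
    rfl
  have hrD : r.coeff D = f.coeff 0 := by
    rw [hr, coeff_reflect, revAt_le le_rfl, Nat.sub_self]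
  have hrd : r.natDegree = D := by
    refine le_antisymm ?_ ?_
    · refine (natDegree_reflect_le).trans ?_
      rw [hD]
      simp
    · refine le_natDegree_of_ne_zero ?_
      rw [hrD]
      exact hc0.ne_zero
  have hrlc : r.leadingCoeff = f.coeff 0 := by
    rw [leadingCoeff, hrd, hrD]
  have hr1 : r ≠ 0 := by
    intro h4
    rw [h4, leadingCoeff_zero] at hrlc
    exact hc0.ne_zero hrlc.symm
  set h : A[X] := X * r with hh
  have hhd : h.natDegree = D + 1 := by
    rw [hh, natDegree_X_mul hr1, hrd]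
  have hhlc : IsUnit h.leadingCoeff := by
    rw [hh, leadingCoeff_mul, leadingCoeff_X, one_mul, hrlc]
    exact hc0
  have hdr : (f.map (IsLocalRing.residue A)).natDegree = D :=
    natDegree_map_of_leadingCoeff_ne_zero _ (hlc.map _).ne_zero
  have hhs : (h.map (IsLocalRing.residue A)).Separable := by
    have h4 := sep_reflect (f.map (IsLocalRing.residue A)) hs (by
      rw [coeff_map]
      exact (hc0.map _).ne_zero)
    rw [hdr] at h4
    rw [hh, Polynomial.map_mul, map_X, hr, ← reflect_map]
    exact h4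
  have hfk : (f.map (algebraMap A k)).natDegree = D := natDegree_map_eq_of_injective hAk f
  have hhk : h.map (algebraMap A k) = X * (f.map (algebraMap A k)).reflect D := by
    rw [hh, Polynomial.map_mul, map_X, hr, ← reflect_map]
  obtain ⟨j, hj⟩ := hdvd
  have hxu : Transcendental k x⁻¹ := by
    intro h4
    apply hx
    have h5 := h4.inv
    rwa [inv_inv] at h5
  have hxy' : algebraMap k F d * (y * x⁻¹ ^ j) ^ ℓ = aeval x⁻¹ (h.map (algebraMap A k)) := by
    rw [hhk, aeval_reflect _ D hfk.le x hx0, mul_pow, ← mul_assoc, hxy, ← pow_mul, mul_comm j ℓ,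
      ← hj, mul_comm]
  have hF' : IntermediateField.adjoin k {x⁻¹, y * x⁻¹ ^ j} = (⊤ : IntermediateField k F) := by
    rw [eq_top_iff, ← hF, IntermediateField.adjoin_le_iff]
    have h4 : x⁻¹ ∈ IntermediateField.adjoin k {x⁻¹, y * x⁻¹ ^ j} :=
      IntermediateField.subset_adjoin _ _ (by simp)
    have h5 : y * x⁻¹ ^ j ∈ IntermediateField.adjoin k {x⁻¹, y * x⁻¹ ^ j} :=
      IntermediateField.subset_adjoin _ _ (by simp)
    have h6 : x ∈ IntermediateField.adjoin k {x⁻¹, y * x⁻¹ ^ j} := by
      have := inv_mem h4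
      rwa [inv_inv] at this
    intro z hz
    rcases hz with rfl | hz
    · exact h6
    · rw [Set.mem_singleton_iff] at hz
      rw [hz]
      have h7 : y = y * x⁻¹ ^ j * x ^ j := by
        rw [mul_assoc, ← mul_pow, inv_mul_cancel₀ hx0, one_pow, mul_one]
      have h8 := mul_mem h5 (pow_mem h6 j)
      rw [← h7] at h8
      exact h8
  obtain ⟨W, ⟨⟨h1, ⟨e, he, hfix, z', hz', hz'e⟩, -⟩, h5⟩, hun⟩ := numM V hVA hVm hℓ h hhlc hhs
    (by rw [hhd, hj]; exact Dvd.intro j rfl) (by rw [hhd]; omega) ϖ hϖ d m hm t ht hd x⁻¹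
    (y * x⁻¹ ^ j) hxu hxy' hF' M hM S hcont hcompat
  have hxW : algebraMap F M x⁻¹ ∈ W.nonunits ∨
        ∃ e : algebraicClosure k Ω, aeval e (f.map (algebraMap A k)) = 0 ∧
          (∀ σ : algebraicClosure k Ω ≃ₐ[k] algebraicClosure k Ω, Dec V σ → σ e = e) ∧
          ∃ z' ∈ W.nonunits, (z' : Ω) = algebraMap F Ω x - e := by
    by_cases he0 : e = 0
    · left
      have h6 : algebraMap F M x⁻¹ = z' := by
        apply Subtype.ext
        rw [hz'e, he0]
        change algebraMap F Ω x⁻¹ = algebraMap F Ω x⁻¹ - ((0 : algebraicClosure k Ω) : Ω)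
        rw [ZeroMemClass.coe_zero, sub_zero]
      rw [h6]
      exact hz'
    · right
      have hei : (e⁻¹ : algebraicClosure k Ω) ≠ 0 := inv_ne_zero he0
      refine ⟨e⁻¹, ?_, fun σ hσ => by rw [map_inv₀, hfix σ hσ], ?_⟩
      · have h6 := aeval_reflect (F := algebraicClosure k Ω) (f.map (algebraMap A k)) D hfk.le e⁻¹
          hei
        rw [inv_inv, ← hhk, he] at h6
        rcases mul_eq_zero.1 h6.symm with h7 | h7
        · exact absurd h7 (pow_ne_zero _ he0)
        · exact h7
      · -- `e` is a unit constant of `W`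
        have hec : ∀ c : algebraicClosure k Ω, ∀ z : M, (z : Ω) = (c : Ω) → z ∈ W := by
          intro c z hz
          exact Pool.Agent.Y157.PS.const_mem_N M W h1 c z hz
        have heM : ((e : algebraicClosure k Ω) : Ω) ∈ M :=
          hM (Pool.Agent.Y157.PS.const_geomPro ℓ k e)
        have hxu' : algebraMap F M x⁻¹ ∈ W := by
          have h6 : algebraMap F M x⁻¹ = z' + ⟨(e : Ω), heM⟩ := by
            apply Subtype.ext
            change algebraMap F Ω x⁻¹ = (z' : Ω) + (e : Ω)
            rw [hz'e]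
            ring
          rw [h6]
          exact add_mem (non_mem hz') (hec e _ rfl)
        have heM' : ((e⁻¹ : algebraicClosure k Ω) : Ω) ∈ M :=
          hM (Pool.Agent.Y157.PS.const_geomPro ℓ k _)
        -- the function `1/x` is a unit
        have hxne : algebraMap F M x⁻¹ ≠ 0 := by
          rw [_root_.map_ne_zero]
          exact inv_ne_zero hx0
        have hux : IsU W (algebraMap F M x⁻¹) := by
          refine Pool.Agent.Y157.PS.isU_of_not_nonunit hxu' ?_
          intro h6
          have h7 : (⟨(e : Ω), heM⟩ : M) ∈ W.nonunits := by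
            have h8 : (⟨(e : Ω), heM⟩ : M) = algebraMap F M x⁻¹ - z' := by
              apply Subtype.ext
              change (e : Ω) = algebraMap F Ω x⁻¹ - (z' : Ω)
              rw [hz'e]
              ring
            rw [h8]
            exact non_sub h6 hz'
          rcases (nonunits_iff.1 h7).2 with h8 | h8
          · apply he0
            have h9 : ((e : algebraicClosure k Ω) : Ω) = 0 := congrArg Subtype.val h8
            exact Subtype.ext h9
          · apply h8
            refine hec e⁻¹ _ ?_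
            change ((⟨(e : Ω), heM⟩ : M)⁻¹ : M).1 = _
            rfl
        have h9 : (z' * (⟨((e⁻¹ : algebraicClosure k Ω) : Ω), heM'⟩ : M) *
            (algebraMap F M x⁻¹)⁻¹) ∈ W.nonunits := by
          have h10 := non_mul (mul_mem (hec e⁻¹ (⟨((e⁻¹ : algebraicClosure k Ω) : Ω), heM'⟩ : M)
            rfl) hux.2.2) hz'
          convert h10 using 1
          ring
        refine ⟨-(z' * (⟨((e⁻¹ : algebraicClosure k Ω) : Ω), heM'⟩ : M) *
            (algebraMap F M x⁻¹)⁻¹), Pool.Agent.Y157.PS.non_neg h9, ?_⟩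
        have hxΩ : algebraMap F Ω x ≠ 0 := (_root_.map_ne_zero _).2 hx0
        have heΩ : ((e : algebraicClosure k Ω) : Ω) ≠ 0 := fun h10 => he0 (Subtype.ext h10)
        have h11 : ((-(z' * (⟨((e⁻¹ : algebraicClosure k Ω) : Ω), heM'⟩ : M) *
            (algebraMap F M x⁻¹)⁻¹) : M) : Ω) =
            -((z' : Ω) * ((e : algebraicClosure k Ω) : Ω)⁻¹ * (algebraMap F Ω x⁻¹)⁻¹) := rfl
        rw [h11, hz'e]
        have h12 : ((e⁻¹ : algebraicClosure k Ω) : Ω) = ((e : algebraicClosure k Ω) : Ω)⁻¹ := rfl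
        rw [h12, map_inv₀]
        field_simp
        ring
  refine ⟨W, ⟨h1, hxW⟩, h5, fun W' b1 b2 b3 => hun W' b1 ?_ b3⟩
  -- the value of `h` at `x⁻¹`
  have hcW : ∀ (g : k[X]) (z : F), algebraMap F M z ∈ W' → algebraMap F M (aeval z g) ∈ W' := by
    intro g z hz
    rw [aeval_eq_sum_range, map_sum]
    refine sum_mem fun i _ => ?_
    rw [Algebra.smul_def, map_mul, map_pow]
    exact mul_mem (b1 _) (pow_mem hz i)
  rcases b2 with b2 | b2
  · rw [hhk, map_mul, aeval_X, map_mul, mul_comm]
    exact non_mul (hcW _ _ (non_mem b2)) b2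
  · have h6 : algebraMap F M x⁻¹ ∈ W' := by
      by_contra h7
      have h8 : algebraMap F M x ∈ W'.nonunits := by
        rw [nonunits_iff]
        rw [map_inv₀] at h7
        refine ⟨?_, Or.inr h7⟩
        rcases W'.mem_or_inv_mem (algebraMap F M x) with h9 | h9
        · exact h9
        · exact absurd h9 h7
      have hfne : f.coeff 0 ≠ 0 := hc0.ne_zero
      have h9 : aeval x (f.map (algebraMap A k)) = algebraMap k F (algebraMap A k (f.coeff 0)) +
          aeval x ((f.map (algebraMap A k)).divX) * x := by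
        conv_lhs => rw [← divX_mul_X_add (f.map (algebraMap A k))]
        rw [map_add, map_mul, aeval_X, aeval_C, coeff_map, add_comm]
      have h10 : algebraMap F M (algebraMap k F (algebraMap A k (f.coeff 0))) ∈ W'.nonunits := by
        have h11 : algebraMap F M (algebraMap k F (algebraMap A k (f.coeff 0))) =
            algebraMap F M (aeval x (f.map (algebraMap A k))) -
            algebraMap F M (aeval x ((f.map (algebraMap A k)).divX)) * algebraMap F M x := by
          rw [h9, map_add, map_mul]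
          ring
        rw [h11]
        exact non_sub b2 (non_mul (hcW _ _ (non_mem h8)) h8)
      rcases (nonunits_iff.1 h10).2 with h12 | h12
      · rw [_root_.map_eq_zero, _root_.map_eq_zero, map_eq_zero_iff _ hAk] at h12
        exact hfne h12
      · apply h12
        rw [← map_inv₀, ← map_inv₀]
        exact b1 _
    rw [hhk, aeval_reflect _ D hfk.le x hx0, map_mul, map_pow]
    exact non_mul (pow_mem h6 _) b2

end main

end Pool.Agent.X281.SE
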