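import Pool.Agent.X281.SE.Ext5
import Pool.Agent.TH377.Sup.Cnt

/-!
# Superelliptic curves with rational branch points: the condition on the reduction
-/

set_option autoImplicit false

namespace Pool.Agent.X281.SE

open Pool.Agent.TH377.LocG
open Polynomial
open Pool.Agent.TH377.Sup (pol pol_natDegree pol_leadingCoeff pol_map irr_of_map Irr irr_card)
open Pool.Agent.X281.SEA (Cond Desc Many)
open Pool.Agent.Y157.PS (non_mul non_mem nonunits_iff)

/-- different roots `e_1, …, e_r`, not zero, and an irreducible polynomial of degree `D` -/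
def PC (r D : ℕ) : Cond (r + (D + 1)) := fun κ _ c =>
  Function.Injective (fun i : Fin r => c (Fin.castAdd (D + 1) i)) ∧
  (∀ i : Fin r, c (Fin.castAdd (D + 1) i) ≠ 0) ∧ c (Fin.natAdd r (Fin.last D)) ≠ 0 ∧
  Irreducible (pol fun j : Fin (D + 1) => c (Fin.natAdd r j))

theorem pc_desc (r D : ℕ) : Desc (PC r D) := by
  rintro κ κ' _ _ φ c ⟨h1, h2, h3, h4⟩
  refine ⟨?_, ?_, ?_, ?_⟩
  · intro i j hij
    apply h1
    exact congrArg φ hij
  · intro i hi
    apply h2 i
    change φ _ = 0
    rw [hi, map_zero]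
  · intro hi
    apply h3
    change φ _ = 0
    rw [hi, map_zero]
  · refine irr_of_map φ _ ?_
    rw [pol_map]
    exact h4

theorem pc_many (r D : ℕ) (hD : 3 ≤ D) : Many (PC r D) (1 / (2 ^ r * (4 * D))) (2 * r + 2) := by
  classical
  intro κ _ _ hq
  set q := Nat.card κ with hqdef
  have hFκ : Fintype κ := Fintype.ofFinite κ
  set U : Set (Fin r → κ) := {e | Function.Injective e ∧ ∀ i, e i ≠ 0} with hU
  have hcardu : Fintype.card κˣ = q - 1 := by
    rw [← Nat.card_eq_fintype_card, Nat.card_units]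
  have h1 : (q - r) ^ r ≤ U.ncard := by
    have h2 : (q - 1 + 1 - r) ^ r ≤ (q - 1).descFactorial r := Nat.pow_sub_le_descFactorial _ _
    have h3 : Fintype.card (Fin r ↪ κˣ) = (q - 1).descFactorial r := by
      rw [Fintype.card_embedding_eq, Fintype.card_fin, hcardu]
    have h4 : (Set.univ : Set (Fin r ↪ κˣ)).ncard ≤ U.ncard := by
      refine Set.ncard_le_ncard_of_injOn (fun e i => (e i : κ)) ?_ ?_ (Set.toFinite _)
      · intro e _
        refine ⟨?_, fun i => (e i).ne_zero⟩
        intro i j hij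
        exact e.injective (Units.ext hij)
      · intro e _ e' _ hee
        ext i
        exact congrFun hee i
    rw [Set.ncard_univ, Nat.card_eq_fintype_card, h3] at h4
    have h5 : q - 1 + 1 = q := by omega
    rw [h5] at h2
    exact h2.trans h4
  have h2 := irr_card κ D hD
  rw [← hqdef] at h2
  have h3 : (U ×ˢ (Irr κ D)).ncard ≤ ({c | PC r D κ c} : Set (Fin (r + (D + 1)) → κ)).ncard := by
    refine Set.ncard_le_ncard_of_injOn (fun x => Fin.append x.1 x.2) ?_ ?_ (Set.toFinite _)
    · rintro ⟨e, g⟩ ⟨⟨he1, he2⟩, hg1, hg2⟩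
      refine ⟨?_, ?_, ?_, ?_⟩
      · simp only [Fin.append_left]
        exact he1
      · intro i
        simp only [Fin.append_left]
        exact he2 i
      · simp only [Fin.append_right]
        exact hg1
      · simp only [Fin.append_right]
        exact hg2
    · rintro ⟨e, g⟩ - ⟨e', g'⟩ - h
      have h4 : e = e' := by
        funext i
        have := congrFun h (Fin.castAdd (D + 1) i)
        simpa only [Fin.append_left] using this
      have h5 : g = g' := by
        funext i
        have := congrFun h (Fin.natAdd r i)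
        simpa only [Fin.append_right] using this
      rw [h4, h5]
  rw [Set.ncard_prod] at h3
  have hqr : (2 * r + 2 : ℝ) ≤ q := by exact_mod_cast hq
  have hq0 : (0 : ℝ) < q := by
    have : (0 : ℝ) ≤ r := Nat.cast_nonneg r
    linarith
  have hDr : (3 : ℝ) ≤ D := by exact_mod_cast hD
  have h1' : ((q : ℝ) / 2) ^ r ≤ U.ncard := by
    refine le_trans ?_ (show (((q - r : ℕ) : ℝ)) ^ r ≤ U.ncard by exact_mod_cast h1)
    refine pow_le_pow_left₀ (by positivity) ?_ r
    rw [Nat.cast_sub (by omega)]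
    linarith
  have h2' : (q : ℝ) ^ (D + 1) / (4 * D) ≤ (Irr κ D).ncard := by
    have h4 : ((q : ℝ) - 1) * (q : ℝ) ^ D ≤ 2 * D * (Irr κ D).ncard := by
      have h5 : ((q - 1 : ℕ) : ℝ) = (q : ℝ) - 1 := by
        rw [Nat.cast_sub (by omega)]
        norm_num
      rw [← h5]
      exact_mod_cast h2
    rw [div_le_iff₀ (by positivity)]
    have h6 : (q : ℝ) ^ (D + 1) = q * (q : ℝ) ^ D := pow_succ' _ _
    rw [h6]
    have h7 : (q : ℝ) ≤ 2 * (q - 1) := by
      have : (0 : ℝ) ≤ r := Nat.cast_nonneg r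
      linarith
    have h8 : (q : ℝ) * (q : ℝ) ^ D ≤ 2 * (q - 1) * (q : ℝ) ^ D :=
      mul_le_mul_of_nonneg_right h7 (by positivity)
    nlinarith
  have h3' : ((U.ncard : ℝ)) * (Irr κ D).ncard ≤
      ({c | PC r D κ c} : Set (Fin (r + (D + 1)) → κ)).ncard := by exact_mod_cast h3
  refine le_trans ?_ h3'
  refine le_trans (le_of_eq ?_) (mul_le_mul h1' h2' (by positivity) (Nat.cast_nonneg _))
  rw [div_pow, pow_add]
  field_simp

/-- the polynomial `∏ (X - e_i) * g` -/
noncomputable def fpol {R : Type} [CommRing R] {r D : ℕ} (c : Fin (r + (D + 1)) → R) : R[X] :=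
  (∏ i : Fin r, (X - C (c (Fin.castAdd (D + 1) i)))) * pol fun j : Fin (D + 1) => c (Fin.natAdd r j)

theorem fpol_map {R S : Type} [CommRing R] [CommRing S] {r D : ℕ} (φ : R →+* S)
    (c : Fin (r + (D + 1)) → R) : (fpol c).map φ = fpol fun i => φ (c i) := by
  unfold fpol
  rw [Polynomial.map_mul, pol_map, Polynomial.map_prod]
  congr 1
  refine Finset.prod_congr rfl fun i _ => ?_
  rw [Polynomial.map_sub, map_X, map_C]

theorem fpol_natDegree {R : Type} [CommRing R] [IsDomain R] {r D : ℕ} (c : Fin (r + (D + 1)) → R)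
    (h : c (Fin.natAdd r (Fin.last D)) ≠ 0) : (fpol c).natDegree = r + D := by
  have h1 : (∏ i : Fin r, (X - C (c (Fin.castAdd (D + 1) i))) : R[X]).Monic :=
    monic_prod_X_sub_C _ _
  have h2 : (pol fun j : Fin (D + 1) => c (Fin.natAdd r j)).natDegree = D := pol_natDegree _ h
  have h3 : (∏ i : Fin r, (X - C (c (Fin.castAdd (D + 1) i))) : R[X]).natDegree = r := by
    rw [natDegree_prod_of_monic _ _ fun k _ => monic_X_sub_C _,
      Finset.sum_congr rfl fun k _ => natDegree_X_sub_C _]
    simp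
  have h4 : (pol fun j : Fin (D + 1) => c (Fin.natAdd r j)) ≠ 0 := by
    intro h5
    have h6 := pol_leadingCoeff (fun j : Fin (D + 1) => c (Fin.natAdd r j)) h
    rw [h5, leadingCoeff_zero] at h6
    exact h h6.symm
  unfold fpol
  rw [natDegree_mul h1.ne_zero h4, h3, h2]

theorem fpol_sep {κ : Type} [Field κ] [Finite κ] {r D : ℕ} (hD : 2 ≤ D) (c : Fin (r + (D + 1)) → κ)
    (h : PC r D κ c) : (fpol c).Separable := by
  obtain ⟨h1, h2, h3, h4⟩ := h
  have hdeg : (pol fun j : Fin (D + 1) => c (Fin.natAdd r j)).natDegree = D := pol_natDegree _ h3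
  refine Separable.mul ?_ (PerfectField.separable_of_irreducible h4) ?_
  · rw [separable_prod_X_sub_C_iff]
    exact h1
  · refine IsCoprime.prod_left fun i _ => ?_
    rw [(irreducible_X_sub_C _).coprime_iff_not_dvd]
    intro h5
    have h6 := degree_eq_one_of_irreducible_of_root h4 (dvd_iff_isRoot.1 h5)
    have h7 : (pol fun j : Fin (D + 1) => c (Fin.natAdd r j)).natDegree = 1 :=
      natDegree_eq_of_degree_eq_some h6
    omega

theorem rat_ext {k : Type} [Field k] [CharZero k] {r D : ℕ} (hD : 3 ≤ D) (q q' : ℕ) (a : k)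
    (c : Fin (r + (D + 1)) → k) (h : Pool.Agent.X281.SEA.GoodDvr (PC r D) q q' a c) :
    ∃ (p : ℕ) (A : ValuationSubring k), p.Prime ∧ p ∣ q' ∧ ¬ p ∣ q ∧ IsPlace p A ∧
      ∀ ℓ : ℕ, ℓ.Prime → ℓ ∣ q → (ℓ ∣ r + D ∨ ℓ ∣ r + D + 1) →
      ∀ (L : Type) [Field L] [Algebra k L] [FiniteDimensional k L] (m : ℤ),
        (ℓ ∣ D ∨ Module.finrank k L < D) → ¬ (ℓ : ℤ) ∣ m * Module.finrank k L →
        ∃ B : ValuationSubring L, IsPlace p B ∧ B.comap (algebraMap k L) = A ∧
          AtRat ℓ (Set.range fun i : Fin r => algebraMap k L (c (Fin.castAdd (D + 1) i))) B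
            (algebraMap k L (a ^ m)) ((fpol c).map (algebraMap k L)) := by
  classical
  obtain ⟨A, _, _, _, _, cA, ϖ, t, s, hfr, hfin, hcA, hPC, hϖ, ht, hs, ha, hqA, hqA'⟩ := h
  obtain ⟨B0, hB1, hB2, hB3, hB4⟩ := place_of A k
  set p := ringChar (IsLocalRing.ResidueField A) with hp
  have hpp : p.Prime := by
    have hcp : CharP (IsLocalRing.ResidueField A) p := ringChar.charP _
    rcases CharP.char_is_prime_or_zero (IsLocalRing.ResidueField A) p with h4 | h4
    · exact h4
    · exfalso
      rw [h4] at hcp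
      have := CharP.charP_to_charZero (IsLocalRing.ResidueField A)
      exact not_finite (IsLocalRing.ResidueField A)
  have hres : ∀ n : ℕ, ((n : ℕ) : A) ∈ IsLocalRing.maximalIdeal A ↔ p ∣ n := by
    intro n
    rw [← IsLocalRing.residue_eq_zero_iff, map_natCast, ringChar.spec]
  have hpA : ((p : ℕ) : A) ∈ IsLocalRing.maximalIdeal A := (hres p).2 dvd_rfl
  refine ⟨p, B0, hpp, ?_, ?_, ⟨hB1, hB2, ?_⟩, ?_⟩
  · rw [← hres, IsLocalRing.mem_maximalIdeal]
    exact hqA'
  · rw [← hres, IsLocalRing.mem_maximalIdeal, mem_nonunits_iff, not_not]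
    exact hqA
  · rw [← map_natCast (algebraMap A k), hB4]
    exact hpA
  intro ℓ hℓ hℓq hℓd L _ _ _ m hL hm
  have hℓA : IsUnit (ℓ : A) := by
    obtain ⟨r, hr⟩ := hℓq
    rw [hr, Nat.cast_mul] at hqA
    exact isUnit_of_mul_isUnit_left hqA
  obtain ⟨tu, rfl⟩ := ht
  -- the polynomials over `A`
  have unit_of : ∀ z : A, IsLocalRing.residue A z ≠ 0 → IsUnit z := by
    intro z hz
    by_contra h4
    exact hz ((IsLocalRing.residue_eq_zero_iff _).2 ((IsLocalRing.mem_maximalIdeal _).2 h4))
  set gA : A[X] := pol fun j : Fin (D + 1) => cA (Fin.natAdd r j) with hgA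
  have hlast : IsUnit (cA (Fin.natAdd r (Fin.last D))) := unit_of _ hPC.2.2.1
  have hgAd : gA.natDegree = D := pol_natDegree _ hlast.ne_zero
  have hgAlc : gA.leadingCoeff = cA (Fin.natAdd r (Fin.last D)) := pol_leadingCoeff _ hlast.ne_zero
  have hgAr : gA.map (IsLocalRing.residue A) =
      pol fun j : Fin (D + 1) => IsLocalRing.residue A (cA (Fin.natAdd r j)) := by
    rw [hgA, pol_map]
  have hgirr : Irreducible (gA.map (IsLocalRing.residue A)) := by
    rw [hgAr]
    exact hPC.2.2.2
  have hgrd : (gA.map (IsLocalRing.residue A)).natDegree = D := by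
    rw [hgAr]
    exact pol_natDegree _ hPC.2.2.1
  have hfA : fpol cA = (∏ i : Fin r, (X - C (cA (Fin.castAdd (D + 1) i)))) * gA := rfl
  have hfAd : (fpol cA).natDegree = r + D := fpol_natDegree cA hlast.ne_zero
  have hfAs : ((fpol cA).map (IsLocalRing.residue A)).Separable := by
    rw [fpol_map]
    exact fpol_sep (by omega) _ hPC
  have hg0 : IsUnit (gA.coeff 0) := by
    refine unit_of _ ?_
    rw [← coeff_map, coeff_zero_eq_eval_zero]
    intro h4
    have h6 := degree_eq_one_of_irreducible_of_root hgirr h4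
    have h7 : (gA.map (IsLocalRing.residue A)).natDegree = 1 :=
      natDegree_eq_of_degree_eq_some h6
    omega
  have hf0 : IsUnit ((fpol cA).coeff 0) := by
    rw [hfA, mul_coeff_zero]
    refine IsUnit.mul ?_ hg0
    rw [coeff_zero_eq_eval_zero, eval_prod]
    rw [IsUnit.prod_iff]
    intro i _
    rw [eval_sub, eval_X, eval_C, zero_sub, IsUnit.neg_iff]
    exact unit_of _ (hPC.2.1 i)
  -- the place of `L`
  let _ : Algebra A L := ((algebraMap k L).comp (algebraMap A k)).toAlgebra
  have hstR : IsScalarTower A k L := IsScalarTower.of_algebraMap_eq (fun _ => rfl)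
  have hczL : CharZero L := charZero_of_injective_algebraMap (algebraMap k L).injective
  obtain ⟨B, _, _, _, _, hfrB, J, fd, hfdle, hfd0, hfdℓ, hfinB, hℓB, hJL, hJm, hJs, hJf,
    ϖ', t', m', hϖ', ht', hm', hat⟩ :=
    dvr_hom (k := k) (L := L) ℓ hℓ hℓA ϖ ((tu ^ m : Aˣ) : A) hϖ
      (tu ^ m).isUnit (s * m) (by
        intro h4
        apply hm
        rcases hs with rfl | rfl
        · rwa [one_mul] at h4
        · rw [neg_one_mul, neg_mul, dvd_neg] at h4
          exact h4)
  have hJL' : ∀ z : A, algebraMap B L (J z) = algebraMap k L (algebraMap A k z) := by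
    intro z
    rw [← RingHom.comp_apply, hJL]
    rfl
  have hJinj : Function.Injective J := by
    intro z w hzw
    have h4 := congrArg (algebraMap B L) hzw
    rw [hJL', hJL'] at h4
    exact IsFractionRing.injective A k ((algebraMap k L).injective h4)
  obtain ⟨B1, hC1, hC2, hC3, hC4⟩ := place_of B L
  have hdom : ∀ r : A, r ∈ IsLocalRing.maximalIdeal A →
      algebraMap k L (algebraMap A k r) ∈ B1.nonunits := by
    intro r hr
    rw [← hJL', hC4]
    exact hJm r hr
  have hin : ∀ r : A, algebraMap k L (algebraMap A k r) ∈ B1 := by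
    intro r
    rw [← hJL', hC3]
    exact ⟨_, rfl⟩
  refine ⟨B1, ⟨hC1, hC2, ?_⟩, ?_, ?_⟩
  · have h4 := hdom _ hpA
    rwa [map_natCast, map_natCast] at h4
  · ext z
    rw [ValuationSubring.mem_comap]
    constructor
    · intro hz
      by_contra hzB
      rcases B0.mem_or_inv_mem z with h4 | h4
      · exact hzB h4
      · obtain ⟨r, hr⟩ := (hB3 _).1 h4
        have hz0 : z ≠ 0 := by
          rintro rfl
          exact hzB (zero_mem _)
        have h5 : z⁻¹ ∈ B0.nonunits := by
          rw [nonunits_iff, inv_inv]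
          exact ⟨h4, Or.inr hzB⟩
        rw [← hr, hB4] at h5
        have h6 := hdom r h5
        rw [hr, map_inv₀, nonunits_iff, inv_inv] at h6
        rcases h6.2 with h7 | h7
        · rw [inv_eq_zero, _root_.map_eq_zero] at h7
          exact hz0 h7
        · exact h7 hz
    · intro hz
      obtain ⟨r, hr⟩ := (hB3 _).1 hz
      rw [← hr]
      exact hin r
  have hcoef : algebraMap k L (a ^ m) = algebraMap B L t' * algebraMap B L ϖ' ^ m' := by
    rw [← hat]
    have h5 : a ^ m = algebraMap A k ((tu ^ m : Aˣ) : A) * algebraMap A k ϖ ^ (s * m) := by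
      rw [ha, mul_zpow, ← zpow_mul, zpow_unit]
    rw [h5, map_mul, map_zpow₀]
    rfl
  have hfB : (fpol c).map (algebraMap k L) = ((fpol cA).map J).map (algebraMap B L) := by
    rw [Polynomial.map_map, hJL, fpol_map, fpol_map]
    congr 1
    funext i
    rw [← hcA]
    rfl
  have hfBd : ((fpol cA).map J).natDegree = r + D := by
    rw [natDegree_map_eq_of_injective hJinj, hfAd]
  have hrange : (Set.range fun i : Fin r => algebraMap k L (c (Fin.castAdd (D + 1) i))) =
      Set.range fun i : Fin r => algebraMap B L (J (cA (Fin.castAdd (D + 1) i))) := by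
    congr 1
    funext i
    rw [hJL', hcA]
  rw [hrange, hcoef, hfB]
  refine rat_dvr hℓ hℓB (fun i : Fin r => J (cA (Fin.castAdd (D + 1) i))) (gA.map J)
    ((fpol cA).map J) ?_ ?_ (hJs _ hfAs) ?_ ?_ ϖ' hϖ' _ m' hm' t' ht' rfl B1 hC3 hC4
  · rw [hfA, Polynomial.map_mul, Polynomial.map_prod]
    congr 1
    refine Finset.prod_congr rfl fun i _ => ?_
    rw [Polynomial.map_sub, map_X, map_C]
  · rw [leadingCoeff_map_of_injective hJinj, hgAlc]
    exact hlast.map J
  · rw [hfBd]
    rcases hℓd with h4 | h4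
    · exact Or.inl ⟨h4, by omega⟩
    · refine Or.inr ⟨h4, by omega, ?_⟩
      rw [coeff_map]
      exact hf0.map J
  · intro b hb
    have h5 : ((gA.map J).map (IsLocalRing.residue B)).eval (IsLocalRing.residue B b) = 0 := by
      rw [eval_map, eval₂_at_apply]
      exact (IsLocalRing.residue_eq_zero_iff _).2 hb
    have h6 : X - C (IsLocalRing.residue B b) ∣ (gA.map J).map (IsLocalRing.residue B) :=
      dvd_iff_isRoot.2 h5
    have h7 := hJf D gA (factorDiv_of_irreducible _ _ hgirr (by rw [hgrd])) _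
      (irreducible_X_sub_C _) h6
    rw [natDegree_X_sub_C, one_mul] at h7
    rcases hL with hL | hL
    · exact hfdℓ (hL.trans h7)
    · have h8 := Nat.le_of_dvd hfd0 h7
      omega

end Pool.Agent.X281.SE
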