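import Pool.Agent.X281.SE.Abs
import Pool.Agent.X281.SE.Many2

/-!
# Density theorem for vectors with any finite index set
-/

set_option autoImplicit false

namespace Pool.Agent.X281.SEI

open Polynomial
open Pool.Agent.X281.SEA

/-- a condition on vectors over fields -/
abbrev CondI (ι : Type) : Type 1 := ∀ (κ : Type) [Field κ], (ι → κ) → Prop

/-- a good discrete valuation ring for the number `a` and the vector `g` -/
def GoodI {ι : Type} (P : CondI ι) (q q' : ℕ) {k : Type} [Field k] (a : k) (g : ι → k) : Prop :=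
  ∃ (A : Type) (_ : CommRing A) (_ : IsDomain A) (_ : IsDiscreteValuationRing A)
    (_ : Algebra A k) (c : ι → A) (ϖ t : A) (n : ℤ), IsFractionRing A k ∧
    Finite (IsLocalRing.ResidueField A) ∧ (∀ i, algebraMap A k (c i) = g i) ∧
    P (IsLocalRing.ResidueField A) (fun i => IsLocalRing.residue A (c i)) ∧
    Irreducible ϖ ∧ IsUnit t ∧ (n = 1 ∨ n = -1) ∧
    a = algebraMap A k t * algebraMap A k ϖ ^ n ∧ IsUnit ((q : ℕ) : A) ∧
    ¬ IsUnit ((q' : ℕ) : A)

/-- there is a good discrete valuation ring -/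
def GoodV {ι : Type} (P : CondI ι) (q q' : ℕ) {R : Type} [CommRing R] (k : Type) [Field k]
    [Algebra R k] (c : Option ι → R) : Prop :=
  algebraMap R k (c none) ≠ 0 ∧
    GoodI P q q' (algebraMap R k (c none)) (fun i => algebraMap R k (c (some i)))

theorem transport {R : Type} [CommRing R] {ι : Type} [Fintype ι] {M : ℕ} (e : ι ≃ Fin M)
    (I : Ideal R) [Finite (R ⧸ I)] (S : Set (Fin M → R)) (S' : Set (ι → R))
    (h : ∀ c ∈ S', (fun j => c (e.symm j)) ∈ S) :
    ((fun (c : ι → R) i => Ideal.Quotient.mk I (c i)) '' S').ncard ≤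
      ((fun (c : Fin M → R) i => Ideal.Quotient.mk I (c i)) '' S).ncard := by
  refine Set.ncard_le_ncard_of_injOn (fun (z : ι → R ⧸ I) (j : Fin M) => z (e.symm j)) ?_ ?_
    (Set.toFinite _)
  · rintro _ ⟨c, hc, rfl⟩
    exact ⟨fun j => c (e.symm j), h c hc, rfl⟩
  · intro z _ z' _ hz
    funext i
    have := congrFun hz (e i)
    simpa using this

/-- the bijection of index sets -/
noncomputable def idx (ι : Type) [Fintype ι] : Option ι ≃ Fin (Fintype.card ι + 1) :=
  (Equiv.optionCongr (Fintype.equivFin ι)).trans (finSuccEquiv (Fintype.card ι)).symm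

theorem idx_zero (ι : Type) [Fintype ι] : (idx ι).symm 0 = none := by
  rw [Equiv.symm_apply_eq]
  simp [idx]

theorem idx_succ (ι : Type) [Fintype ι] (i : Fin (Fintype.card ι)) :
    (idx ι).symm i.succ = some ((Fintype.equivFin ι).symm i) := by
  rw [Equiv.symm_apply_eq]
  simp [idx]

theorem goodV_of {ι : Type} [Fintype ι] (P : CondI ι) (q q' : ℕ) {R : Type} [CommRing R]
    (k : Type) [Field k] [Algebra R k] (c : Option ι → R)
    (h : GoodC (fun κ _ z => P κ fun i => z (Fintype.equivFin ι i)) q q' k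
      (fun j => c ((idx ι).symm j))) : GoodV P q q' k c := by
  obtain ⟨h1, A, i1, i2, i3, i4, cA, ϖ, t, n, hfr, hfin, hcA, hP, hϖ, ht, hn, ha, hq, hq'⟩ := h
  simp only [idx_zero] at h1 ha
  have h2 : ∀ i, algebraMap A k (cA (Fintype.equivFin ι i)) = algebraMap R k (c (some i)) := by
    intro i
    rw [hcA]
    simp only [idx_succ, Equiv.symm_apply_apply]
  exact ⟨h1, A, i1, i2, i3, i4, fun i => cA (Fintype.equivFin ι i), ϖ, t, n, hfr, hfin, h2, hP, hϖ, ht,
    hn, ha, hq, hq'⟩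

theorem density_idx {ι : Type} [Fintype ι] (P : CondI ι)
    (hP : ∀ (κ κ' : Type) [Field κ] [Field κ'] (φ : κ →+* κ') (c : ι → κ),
      P κ' (fun i => φ (c i)) → P κ c) (δ : ℝ) (hδ : 0 < δ) (hδ1 : δ ≤ 1) (q₀ : ℕ)
    (hmany : ∀ (κ : Type) [Field κ] [Finite κ], q₀ ≤ Nat.card κ →
      δ * (Nat.card κ : ℝ) ^ Fintype.card ι ≤ ({c | P κ c} : Set (ι → κ)).ncard)
    {R k : Type} [CommRing R] [IsDomain R] [CharZero R]
    [Algebra.FiniteType ℤ R] [Field k] [Algebra R k] [IsFractionRing R k] (n : ℕ) (q : ℕ)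
    (hq : q ≠ 0) (ε : ℝ) (hε : 0 < ε) :
    ∃ Q : Fin n → ℕ × ℕ, (∀ j, q ∣ (Q j).1) ∧ (∀ i j, i < j → (Q i).2 ∣ (Q j).1) ∧
      ∃ I : Ideal R, Finite (R ⧸ I) ∧
      (Set.ncard ((fun (c : Option ι → R) i => Ideal.Quotient.mk I (c i)) ''
        {c | ¬ ∀ j, GoodV P (Q j).1 (Q j).2 k c}) : ℝ) ≤
        ε * (Nat.card (R ⧸ I) : ℝ) ^ Fintype.card (Option ι) := by
  classical
  let P' : Cond (Fintype.card ι) := fun κ _ z => P κ fun i => z (Fintype.equivFin ι i)
  have hP' : Desc P' := fun κ κ' _ _ φ c h => hP κ κ' φ _ h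
  have hmany' : Many P' δ q₀ := by
    intro κ _ _ hκ
    refine (hmany κ hκ).trans ?_
    have h1 : ({c | P κ c} : Set (ι → κ)).ncard ≤
        ({c | P' κ c} : Set (Fin (Fintype.card ι) → κ)).ncard := by
      refine Set.ncard_le_ncard_of_injOn
        (fun (c : ι → κ) (j : Fin (Fintype.card ι)) => c ((Fintype.equivFin ι).symm j)) ?_ ?_
        (Set.toFinite _)
      · intro c hc
        change P κ fun i => c ((Fintype.equivFin ι).symm (Fintype.equivFin ι i))
        simp only [Equiv.symm_apply_apply]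
        exact hc
      · intro z _ z' _ hz
        funext i
        have := congrFun hz (Fintype.equivFin ι i)
        simpa using this
    exact_mod_cast h1
  obtain ⟨Q, hQ1, hQ2, I, hI, hle⟩ := Pool.Agent.X281.SEN.density_iter (R := R)
    (M := Fintype.card ι + 1) (fun q q' c => GoodC P' q q' k c)
    (fun q hq ε hε => density_all P' hP' δ hδ hδ1 q₀ hmany' q hq ε hε) n q hq ε hε
  refine ⟨Q, hQ1, hQ2, I, hI, ?_⟩
  rw [Fintype.card_option]
  refine le_trans ?_ hle
  have h1 := transport (idx ι) I {c | ¬ ∀ j, GoodC P' (Q j).1 (Q j).2 k c}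
    {c | ¬ ∀ j, GoodV P (Q j).1 (Q j).2 k c} (by
      intro c hc hall
      exact hc fun j => goodV_of P _ _ k c (hall j))
  exact_mod_cast h1

end Pool.Agent.X281.SEI
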