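import Pool.Agent.X281.SE.Cnt2
import Pool.Agent.X281.SE.Abs

/-!
# Polynomials of given factorisation type: the condition on the reduction
-/

set_option autoImplicit false

namespace Pool.Agent.X281.SE

open Polynomial
open Pool.Agent.TH377.Sup (pol pol_natDegree pol_leadingCoeff pol_map pol_coeff irr_of_map Irr)

/-- irreducible polynomials of degrees `d i`, coprime to each other and to `X` -/
def TypC {I : Type} [Fintype I] (d : I → ℕ) (κ : Type) [Field κ]
    (c : (Σ i, Fin (d i + 1)) → κ) : Prop :=
  (∀ i, c ⟨i, Fin.last (d i)⟩ ≠ 0 ∧ Irreducible (pol fun j => c ⟨i, j⟩)) ∧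
  (X * ∏ i, pol fun j => c ⟨i, j⟩).Separable

theorem typ_desc {I : Type} [Fintype I] (d : I → ℕ) (κ κ' : Type) [Field κ] [Field κ']
    (φ : κ →+* κ') (c : (Σ i, Fin (d i + 1)) → κ) (h : TypC d κ' fun i => φ (c i)) :
    TypC d κ c := by
  obtain ⟨h1, h2⟩ := h
  refine ⟨fun i => ⟨?_, ?_⟩, ?_⟩
  · intro h3
    apply (h1 i).1
    change φ _ = 0
    rw [h3, map_zero]
  · refine irr_of_map φ _ ?_
    rw [pol_map]
    exact (h1 i).2
  · rw [← separable_map φ, Polynomial.map_mul, map_X, Polynomial.map_prod]
    simpa only [pol_map] using h2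

section count

variable {I : Type} [Fintype I] (d : I → ℕ) (κ : Type) [Field κ] [Finite κ]

/-- the polynomial `X` and the given ones -/
noncomputable def ext (c : ∀ i, Fin (d i + 1) → κ) : Option I → κ[X]
  | none => X
  | some i => pol (c i)

theorem typ_many (hd : ∀ i, 1 ≤ d i)
    (hq : 4 * (Fintype.card I + 1) * ∑ i, d i + 2 ≤ Nat.card κ) :
    (1 / 2 * ∏ i, (1 / (4 * (d i : ℝ)))) *
      (Nat.card κ : ℝ) ^ Fintype.card (Σ i, Fin (d i + 1)) ≤
      ({c | TypC d κ c} : Set ((Σ i, Fin (d i + 1)) → κ)).ncard := by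
  classical
  have hFκ : Fintype κ := Fintype.ofFinite κ
  set q := Nat.card κ with hqdef
  let t : ∀ i, Finset (Fin (d i + 1) → κ) := fun i => (Set.toFinite (Irr κ (d i))).toFinset
  have ht : ∀ i, (t i).card = (Irr κ (d i)).ncard := fun i =>
    (Set.ncard_eq_toFinset_card _ _).symm
  have hmt : ∀ i (c : Fin (d i + 1) → κ), c ∈ t i ↔ c (Fin.last (d i)) ≠ 0 ∧
      Irreducible (pol c) := by
    intro i c
    rw [Set.Finite.mem_toFinset]
    rfl
  let T : Finset (∀ i, Fin (d i + 1) → κ) := Fintype.piFinset t
  have hT : T.card = ∏ i, (t i).card := Fintype.card_piFinset t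
  have hpolinj : ∀ {n : ℕ} (c c' : Fin (n + 1) → κ), pol c = pol c' → c = c' := by
    intro n c c' h
    funext i
    rw [← pol_coeff c i, h, pol_coeff]
  -- the pairs of associated polynomials
  let Bad : Option I → I → Finset (∀ i, Fin (d i + 1) → κ) := fun i j =>
    T.filter fun c => i ≠ some j ∧ ∃ u : κˣ, pol (c j) = C (u : κ) * ext d κ c i
  have hirrq : ∀ j, (q - 1) * q ≤ 2 * d j * (t j).card := by
    intro j
    rw [ht]
    refine le_trans ?_ (irr_card1 κ (d j) (hd j))
    refine Nat.mul_le_mul_left _ ?_
    calc q = q ^ 1 := (pow_one q).symm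
      _ ≤ q ^ d j := Nat.pow_le_pow_right (by omega) (hd j)
  have hbad : ∀ i j, (Bad i j).card * q ≤ 2 * d j * T.card := by
    intro i j
    have h1 : (Bad i j).card * (t j).card ≤ (q - 1) * T.card := by
      have hcu : (Finset.univ : Finset κˣ).card = q - 1 := by
        rw [Finset.card_univ, ← Nat.card_eq_fintype_card, Nat.card_units]
      rw [← Finset.card_product, ← hcu, ← Finset.card_product]
      let U : (∀ i, Fin (d i + 1) → κ) → κˣ := fun c =>
        if h : ∃ u : κˣ, pol (c j) = C (u : κ) * ext d κ c i then h.choose else 1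
      have hU : ∀ c ∈ Bad i j, pol (c j) = C ((U c : κˣ) : κ) * ext d κ c i := by
        intro c hc
        have h := (Finset.mem_filter.1 hc).2.2
        have h2 : U c = h.choose := dif_pos h
        rw [h2]
        exact h.choose_spec
      refine Finset.card_le_card_of_injOn
        (fun x => (U x.1, Function.update x.1 j x.2)) ?_ ?_
      · intro x hx
        obtain ⟨hx1, hx2⟩ := Finset.mem_product.1 (Finset.mem_coe.1 hx)
        rw [Finset.mem_coe, Finset.mem_product]
        refine ⟨Finset.mem_univ _, ?_⟩
        rw [Fintype.mem_piFinset]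
        intro l
        have h3 := Fintype.mem_piFinset.1 (Finset.mem_filter.1 hx1).1 l
        change Function.update x.1 j x.2 l ∈ t l
        by_cases hl : l = j
        · subst hl
          rw [Function.update_self]
          exact hx2
        · rw [Function.update_of_ne hl]
          exact h3
      · intro x hx y hy hxy
        obtain ⟨hx1, hx2⟩ := Finset.mem_product.1 (Finset.mem_coe.1 hx)
        obtain ⟨hy1, hy2⟩ := Finset.mem_product.1 (Finset.mem_coe.1 hy)
        have h3 : U x.1 = U y.1 := congrArg Prod.fst hxy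
        have h4 : Function.update x.1 j x.2 = Function.update y.1 j y.2 := congrArg Prod.snd hxy
        have h5 : x.2 = y.2 := by
          have := congrFun h4 j
          rwa [Function.update_self, Function.update_self] at this
        have h6 : ∀ l, l ≠ j → x.1 l = y.1 l := by
          intro l hl
          have := congrFun h4 l
          rwa [Function.update_of_ne hl, Function.update_of_ne hl] at this
        have hij : i ≠ some j := (Finset.mem_filter.1 hx1).2.1
        have h7 : ext d κ x.1 i = ext d κ y.1 i := by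
          rcases i with _ | i
          · rfl
          · change pol (x.1 i) = pol (y.1 i)
            rw [h6 i fun h => hij (by rw [h])]
        have h8 : x.1 j = y.1 j := by
          apply hpolinj
          rw [hU x.1 hx1, hU y.1 hy1, h3, h7]
        refine Prod.ext ?_ h5
        funext l
        by_cases hl : l = j
        · rw [hl]
          exact h8
        · exact h6 l hl
    have h2 := hirrq j
    have hq1 : 0 < q - 1 := by omega
    refine Nat.le_of_mul_le_mul_left ?_ hq1
    calc (q - 1) * ((Bad i j).card * q) = (Bad i j).card * ((q - 1) * q) := by ring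
      _ ≤ (Bad i j).card * (2 * d j * (t j).card) := Nat.mul_le_mul_left _ h2
      _ = 2 * d j * ((Bad i j).card * (t j).card) := by ring
      _ ≤ 2 * d j * ((q - 1) * T.card) := Nat.mul_le_mul_left _ h1
      _ = (q - 1) * (2 * d j * T.card) := by ring
  let BadU : Finset (∀ i, Fin (d i + 1) → κ) :=
    (Finset.univ : Finset (Option I × I)).biUnion fun x => Bad x.1 x.2
  have hBU : 2 * BadU.card ≤ T.card := by
    have h1 : BadU.card ≤ ∑ x : Option I × I, (Bad x.1 x.2).card := Finset.card_biUnion_le
    have h2 : (∑ x : Option I × I, (Bad x.1 x.2).card) * q ≤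
        ∑ x : Option I × I, 2 * d x.2 * T.card := by
      rw [Finset.sum_mul]
      exact Finset.sum_le_sum fun x _ => hbad x.1 x.2
    have h3 : ∑ x : Option I × I, 2 * d x.2 * T.card =
        2 * (Fintype.card I + 1) * (∑ i, d i) * T.card := by
      rw [Fintype.sum_prod_type]
      change (∑ _x : Option I, ∑ y : I, 2 * d y * T.card) = _
      rw [Finset.sum_const, Finset.card_univ, Fintype.card_option,
        smul_eq_mul, ← Finset.sum_mul, ← Finset.mul_sum]
      ring
    rw [h3] at h2
    have hq0 : 0 < q := by omega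
    refine Nat.le_of_mul_le_mul_right ?_ hq0
    calc 2 * BadU.card * q ≤ 2 * ((∑ x : Option I × I, (Bad x.1 x.2).card) * q) := by
          rw [mul_assoc]
          exact Nat.mul_le_mul_left _ (Nat.mul_le_mul_right _ h1)
      _ ≤ 2 * (2 * (Fintype.card I + 1) * (∑ i, d i) * T.card) := Nat.mul_le_mul_left _ h2
      _ = (4 * (Fintype.card I + 1) * ∑ i, d i) * T.card := by ring
      _ ≤ q * T.card := Nat.mul_le_mul_right _ (by omega)
      _ = T.card * q := mul_comm _ _
  have hgood : T.card ≤ 2 * (T \ BadU).card := by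
    have h1 : T.card ≤ (T \ BadU).card + BadU.card := by
      have := Finset.card_le_card_sdiff_add_card (s := T) (t := BadU)
      omega
    omega
  have hfin : (T \ BadU).card ≤ ({c | TypC d κ c} : Set ((Σ i, Fin (d i + 1)) → κ)).ncard := by
    rw [← Set.ncard_coe_finset]
    refine Set.ncard_le_ncard_of_injOn (fun c x => c x.1 x.2) ?_ ?_ (Set.toFinite _)
    · intro c hc
      obtain ⟨hcT, hcB⟩ := Finset.mem_sdiff.1 (Finset.mem_coe.1 hc)
      have hcI : ∀ i, c i (Fin.last (d i)) ≠ 0 ∧ Irreducible (pol (c i)) := fun i =>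
        (hmt i _).1 (Fintype.mem_piFinset.1 hcT i)
      have hext : ∀ i, Irreducible (ext d κ c i) := by
        intro i
        rcases i with _ | i
        · exact irreducible_X
        · exact (hcI i).2
      have hcop : ∀ i j, i ≠ some j → IsCoprime (ext d κ c i) (pol (c j)) := by
        intro i j hij
        rw [(hext i).coprime_iff_not_dvd]
        intro hdvd
        apply hcB
        rw [Finset.mem_biUnion]
        refine ⟨(i, j), Finset.mem_univ _, ?_⟩
        refine Finset.mem_filter.2 ⟨hcT, hij, ?_⟩
        obtain ⟨u, hu⟩ := (hext i).associated_of_dvd (hcI j).2 hdvd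
        obtain ⟨r, hr, hru⟩ := Polynomial.isUnit_iff.1 u.isUnit
        refine ⟨hr.unit, ?_⟩
        rw [IsUnit.unit_spec, hru, mul_comm]
        exact hu.symm
      refine ⟨hcI, ?_⟩
      change (X * ∏ i, pol (c i)).Separable
      refine Separable.mul separable_X ?_ ?_
      · refine separable_prod' ?_ ?_
        · intro i _ j _ hij
          exact hcop (some i) j fun h => hij (Option.some_injective _ h)
        · intro i _
          exact PerfectField.separable_of_irreducible (hcI i).2
      · exact IsCoprime.prod_right fun i _ => hcop none i (by simp)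
    · intro c _ c' _ h
      funext i j
      exact congrFun h ⟨i, j⟩
  -- the real numbers
  have hq2 : (2 : ℝ) ≤ q := by
    have : 2 ≤ q := by omega
    exact_mod_cast this
  have hti : ∀ i, 1 / (4 * (d i : ℝ)) * (q : ℝ) ^ (d i + 1) ≤ (t i).card := by
    intro i
    have hdi : (1 : ℝ) ≤ d i := by exact_mod_cast hd i
    have h1 : ((q : ℝ) - 1) * (q : ℝ) ^ d i ≤ 2 * d i * (t i).card := by
      have h5 : ((q - 1 : ℕ) : ℝ) = (q : ℝ) - 1 := by
        rw [Nat.cast_sub (by omega)]
        norm_num
      rw [← h5, ht]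
      exact_mod_cast irr_card1 κ (d i) (hd i)
    have h6 : (q : ℝ) ^ (d i + 1) = q * (q : ℝ) ^ d i := pow_succ' _ _
    have h8 : (q : ℝ) * (q : ℝ) ^ d i ≤ 2 * (q - 1) * (q : ℝ) ^ d i :=
      mul_le_mul_of_nonneg_right (by linarith) (by positivity)
    rw [one_div, inv_mul_le_iff₀ (by positivity), h6]
    nlinarith
  have hprod : ∏ i, (1 / (4 * (d i : ℝ)) * (q : ℝ) ^ (d i + 1)) ≤ (T.card : ℝ) := by
    rw [hT, Nat.cast_prod]
    exact Finset.prod_le_prod (fun i _ => by positivity) fun i _ => hti i
  have hcard : Fintype.card (Σ i, Fin (d i + 1)) = ∑ i, (d i + 1) := by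
    rw [Fintype.card_sigma]
    simp
  have h9 : (T.card : ℝ) ≤ 2 * ({c | TypC d κ c} : Set ((Σ i, Fin (d i + 1)) → κ)).ncard := by
    exact_mod_cast hgood.trans (Nat.mul_le_mul_left _ hfin)
  rw [hcard, ← Finset.prod_pow_eq_pow_sum, mul_assoc, ← Finset.prod_mul_distrib]
  linarith

end count

end Pool.Agent.X281.SE
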