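import Pool.Agent.X281.SE.Bir
import Pool.Agent.X281.SE.Ext2
import Pool.Agent.X281.SE.Typ
import Pool.Agent.X281.SE.Idx

/-!
# Superelliptic curves with given factorisation type over extensions
-/

set_option autoImplicit false

namespace Pool.Agent.X281.SE

open Pool.Agent.W620.SC Pool.Agent.W623.SecC Pool.Agent.TH377.LocG
  Pool.Agent.TH377.NC Pool.Agent.TH377.Loc
open Polynomial
open Pool.Agent.TH377.Sup (pol pol_natDegree pol_leadingCoeff pol_map pol_coeff irr_of_map Irr)

universe u v w x y z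

/-- no sections of the fundamental group of the curve `a yⁿ = r(x)` over `L` -/
def EtFine {L : Type y} [Field L] (n : ℕ) (a : L) (r : L[X]) : Prop :=
  ∀ (F : Type v) (Ω : Type w) [Field F] [Field Ω] [Algebra L F] [Algebra F Ω] [Algebra L Ω]
    [IsScalarTower L F Ω] [IsAlgClosed Ω] [Algebra.IsAlgebraic F Ω]
    (U : Set (ValuationSubring F)), (∀ O ∈ U, ∀ c : L, algebraMap L F c ∈ O) →
    ∀ x y : F, algebraMap L F a * y ^ n = aeval x r → IsEmpty (GSection L F Ω U)

theorem prod_dvr {R : Type z} {k : Type u} [CommRing R] [IsDomain R]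
    [IsDiscreteValuationRing R] [Field k] [Algebra R k] [IsFractionRing R k] [CharZero k]
    {I : Type} [Fintype I] (D : ℕ) (hD : D ≠ 0) (P : I → R[X]) (e : I → ℕ)
    (hlc : ∀ i, IsUnit (P i).leadingCoeff)
    (hs : ((∏ i, P i).map (IsLocalRing.residue R)).Separable)
    (hf : FactorDiv (Nat.gcd 2 D * D) ((∏ i, P i).map (IsLocalRing.residue R))) (ϖ t : R)
    (hϖ : Irreducible ϖ) (ht : IsUnit t) (m : ℤ) (a : k)
    (ha : a = algebraMap R k t * algebraMap R k ϖ ^ m)
    {L : Type y} [Field L] [Algebra k L] [FiniteDimensional k L]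
    (hm : ¬ (D : ℤ) ∣ m * Module.finrank k L) (n : ℕ) (hDn : D ∣ n) :
    BirFine.{v, w, y} D n (algebraMap k L a)
      ((∏ i, (P i).map (algebraMap R k)).map (algebraMap k L))
      ((∏ i, (P i).map (algebraMap R k) ^ e i).map (algebraMap k L)) ∧
    ((∀ i, Nat.Coprime D (e i)) → EtFine.{v, w, y} n (algebraMap k L a)
      ((∏ i, (P i).map (algebraMap R k) ^ e i).map (algebraMap k L))) := by
  classical
  choose u hu using hlc
  obtain ⟨tu, htu⟩ := ht
  -- the monic polynomials
  set g : I → R[X] := fun i => C (((u i)⁻¹ : Rˣ) : R) * P i with hg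
  have hgm : ∀ i, (g i).Monic := by
    intro i
    apply monic_C_mul_of_mul_leadingCoeff_eq_one
    rw [← hu i, Units.inv_mul]
  set G : R[X] := ∏ i, g i with hG
  have hGm : G.Monic := monic_prod_of_monic _ _ fun i _ => hgm i
  set U0 : Rˣ := ∏ i, (u i)⁻¹ with hU0
  have hGP : G = C (U0 : R) * ∏ i, P i := by
    rw [hG, hg, Finset.prod_mul_distrib, hU0, Units.coe_prod, map_prod]
  have hUr : IsUnit (IsLocalRing.residue R (U0 : R)) := U0.isUnit.map _
  have hGs : (G.map (IsLocalRing.residue R)).Separable := by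
    rw [hGP, Polynomial.map_mul, map_C]
    exact Separable.unit_mul (isUnit_C.2 hUr) hs
  have hGf : FactorDiv (Nat.gcd 2 D * D) (G.map (IsLocalRing.residue R)) := by
    intro p hp hpd
    refine hf p hp ?_
    rw [hGP, Polynomial.map_mul, map_C] at hpd
    exact ((isUnit_C.2 hUr).dvd_mul_left).1 hpd
  -- the coefficient
  set U1 : Rˣ := ∏ i, (u i)⁻¹ ^ e i with hU1
  set t' : R := ((U1 * tu : Rˣ) : R) with ht'
  have ht'u : IsUnit t' := (U1 * tu).isUnit
  have ha' : algebraMap R k (U1 : R) * a = algebraMap R k t' * algebraMap R k ϖ ^ m := by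
    rw [ha, ht', Units.val_mul, map_mul, htu]
    ring
  have hU1k : algebraMap R k (U1 : R) ≠ 0 := (U1.isUnit.map (algebraMap R k)).ne_zero
  have hU0k : algebraMap R k (U0 : R) ≠ 0 := (U0.isUnit.map (algebraMap R k)).ne_zero
  -- the place of `L`
  let _ : Algebra R L := ((algebraMap k L).comp (algebraMap R k)).toAlgebra
  have hstR : IsScalarTower R k L := IsScalarTower.of_algebraMap_eq (fun _ => rfl)
  obtain ⟨ℓ, hℓ0, hℓD, B, _, _, _, _, hfr, f, hf, hfK, hfs, hfd, ϖ', s, m', hϖ', hs', hm', hat⟩ :=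
    dvr_data (k := k) (L := L) G hGm hGs D hD hGf ϖ t' hϖ ht'u m hm
  have hczL : CharZero L := charZero_of_injective_algebraMap (algebraMap k L).injective
  have hinjB : Function.Injective (algebraMap B L) := IsFractionRing.injective B L
  have hfL : f.map (algebraMap B L) = ∏ i, (g i).map (algebraMap R L) := by
    rw [hfK, hG, Polynomial.map_prod]
  have hfi : ∀ i, ∃ h : B[X], h.map (algebraMap B L) = (g i).map (algebraMap R L) ∧ h.Monic := by
    intro i
    obtain ⟨h, hh⟩ := IsIntegrallyClosed.eq_map_mul_C_of_dvd L hf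
      (g := (g i).map (algebraMap R L)) (by
        rw [hfL]
        exact Finset.dvd_prod_of_mem _ (Finset.mem_univ i))
    rw [((hgm i).map _).leadingCoeff, C_1, mul_one] at hh
    refine ⟨h, hh, ?_⟩
    have h5 := ((hgm i).map (algebraMap R L)).leadingCoeff
    rw [← hh, leadingCoeff_map_of_injective hinjB] at h5
    exact hinjB (by rw [h5, map_one])
  choose fi hfi hfim using hfi
  have hfprod : ∏ i, fi i = f := by
    apply Polynomial.map_injective _ hinjB
    rw [Polynomial.map_prod, hfL]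
    exact Finset.prod_congr rfl fun i _ => hfi i
  set c : L := algebraMap k L (algebraMap R k (U1 : R)) with hcdef
  have hc0 : c ≠ 0 := (_root_.map_ne_zero _).2 hU1k
  have haL : c * algebraMap k L a = algebraMap B L s * algebraMap B L ϖ' ^ m' := by
    rw [← hat, hcdef, ← map_mul, ha', map_mul, map_zpow₀]
    rfl
  have hgk : ∀ i, (g i).map (algebraMap R k) =
      C (algebraMap R k (((u i)⁻¹ : Rˣ) : R)) * (P i).map (algebraMap R k) := by
    intro i
    rw [hg, Polynomial.map_mul, map_C]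
  have hrL : (∏ i, fi i ^ e i).map (algebraMap B L) =
      C c * (∏ i, (P i).map (algebraMap R k) ^ e i).map (algebraMap k L) := by
    have h1 : (C (algebraMap R k (U1 : R)) : k[X]) =
        ∏ i, C (algebraMap R k (((u i)⁻¹ : Rˣ) : R)) ^ e i := by
      rw [hU1, Units.coe_prod, map_prod, map_prod]
      refine Finset.prod_congr rfl fun i _ => ?_
      rw [Units.val_pow_eq_pow_val, map_pow, map_pow]
    rw [Polynomial.map_prod, hcdef, ← map_C, ← Polynomial.map_mul, h1, ← Finset.prod_mul_distrib,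
      Polynomial.map_prod]
    refine Finset.prod_congr rfl fun i _ => ?_
    rw [Polynomial.map_pow, hfi, IsScalarTower.algebraMap_eq R k L, ← Polynomial.map_map, hgk,
      ← mul_pow, Polynomial.map_pow]
  have hpL : (∏ i, fi i).map (algebraMap B L) =
      C (algebraMap k L (algebraMap R k (U0 : R))) *
        (∏ i, (P i).map (algebraMap R k)).map (algebraMap k L) := by
    have h1 : (C (algebraMap R k (U0 : R)) : k[X]) =
        ∏ i, C (algebraMap R k (((u i)⁻¹ : Rˣ) : R)) := by
      rw [hU0, Units.coe_prod, map_prod, map_prod]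
    rw [Polynomial.map_prod, ← map_C, ← Polynomial.map_mul, h1, ← Finset.prod_mul_distrib,
      Polynomial.map_prod]
    refine Finset.prod_congr rfl fun i _ => ?_
    rw [hfi, IsScalarTower.algebraMap_eq R k L, ← Polynomial.map_map, hgk]
  have hcp : algebraMap k L (algebraMap R k (U0 : R)) ≠ 0 := (_root_.map_ne_zero _).2 hU0k
  have hℓn : ℓ ∣ n := hℓD.trans hDn
  have hs1 : ((∏ i, fi i).map (IsLocalRing.residue B)).Separable := by rwa [hfprod]
  have hd1 : FactorDiv (Nat.gcd 2 ℓ * ℓ) ((∏ i, fi i).map (IsLocalRing.residue B)) := by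
    rwa [hfprod]
  have hlcf : ∀ i, IsUnit (fi i).leadingCoeff := fun i => by
    rw [(hfim i).leadingCoeff]
    exact isUnit_one
  refine ⟨?_, ?_⟩
  · refine birFine_of D n _ _ _ ((∏ i, fi i).map (algebraMap B L)) c hc0 ?_ ?_ ?_
    · intro Ω _ _ θ hθ
      rw [hpL, map_mul, aeval_C] at hθ
      exact (mul_eq_zero.1 hθ).resolve_left ((_root_.map_ne_zero _).2 hcp)
    · rw [← hrL, haL]
      refine ⟨?_, ?_, ?_⟩
      · intro x y hxy
        exact res_P (IsLocalRing.residue B) IsLocalRing.residue_surjective ℓ hℓ0 fi e hlcf hs1 hd1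
          ϖ' hϖ' _ s hs' m' hm' rfl n hℓn x y hxy
      · intro r hr
        exact res_inf (IsLocalRing.residue B) IsLocalRing.residue_surjective ℓ hℓ0 fi e hlcf hs1 hd1
          ϖ' hϖ' _ s hs' m' hm' rfl n hℓn r hr
      · intro F Ω _ _ _ _ _ _ _ _ M hM x y hxy hroot
        refine res_M (IsLocalRing.residue B) IsLocalRing.residue_surjective ℓ hℓ0 fi e hlcf hs1 hd1
          ϖ' hϖ' _ s hs' m' hm' rfl n hℓn M hM x y hxy ?_
        intro θ θ' hθ hθ'
        obtain ⟨z, hz, hzD⟩ := hroot θ θ' hθ hθ'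
        obtain ⟨e, rfl⟩ := hℓD
        refine ⟨z ^ e, pow_mem hz e, ?_⟩
        rw [← pow_mul, mul_comm e ℓ]
        exact hzD
    · intro Ω _ _ θ hθ
      rw [hpL, map_mul, aeval_C, hθ, mul_zero]
  · intro hcop F Ω _ _ _ _ _ _ _ _ U hU x y hxy
    refine res_U (IsLocalRing.residue B) IsLocalRing.residue_surjective ℓ hℓ0 fi e hlcf hs1 hd1
      ϖ' hϖ' _ s hs' m' hm' rfl n hℓn (fun i => Nat.Coprime.coprime_dvd_left hℓD (hcop i)) U hU
      x y ?_
    rw [hrL, ← haL, map_mul, map_mul, aeval_C, mul_assoc, hxy]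

end Pool.Agent.X281.SE
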