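import Pool.Agent.X281.SE.Many2

/-!
# Finite unions of sets of density zero
-/

set_option autoImplicit false

namespace Pool.Agent.X281.SEN

theorem finite_inf {R : Type} [CommRing R] (I J : Ideal R) [Finite (R ⧸ I)] [Finite (R ⧸ J)] :
    Finite (R ⧸ (I ⊓ J)) := by
  let g : R ⧸ (I ⊓ J) → (R ⧸ I) × (R ⧸ J) := fun z =>
    (Ideal.Quotient.factor (inf_le_left : I ⊓ J ≤ I) z,
      Ideal.Quotient.factor (inf_le_right : I ⊓ J ≤ J) z)
  refine Finite.of_injective g ?_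
  intro z z' hzz
  obtain ⟨r, rfl⟩ := Ideal.Quotient.mk_surjective z
  obtain ⟨r', rfl⟩ := Ideal.Quotient.mk_surjective z'
  simp only [g, Prod.mk.injEq, Ideal.Quotient.factor_mk] at hzz
  rw [Ideal.Quotient.eq]
  exact ⟨Ideal.Quotient.eq.1 hzz.1, Ideal.Quotient.eq.1 hzz.2⟩

theorem density_union {R : Type} [CommRing R] {M : ℕ} {α : Type} (s : Finset α)
    (E : α → Set (Fin M → R))
    (h : ∀ a ∈ s, ∀ ε : ℝ, 0 < ε → ∃ I : Ideal R, Finite (R ⧸ I) ∧
      (Set.ncard ((fun (c : Fin M → R) i => Ideal.Quotient.mk I (c i)) '' E a) : ℝ) ≤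
        ε * (Nat.card (R ⧸ I) : ℝ) ^ M) (ε : ℝ) (hε : 0 < ε) :
    ∃ I : Ideal R, Finite (R ⧸ I) ∧
      (Set.ncard ((fun (c : Fin M → R) i => Ideal.Quotient.mk I (c i)) '' ⋃ a ∈ s, E a) : ℝ) ≤
        ε * (Nat.card (R ⧸ I) : ℝ) ^ M := by
  classical
  induction s using Finset.induction_on generalizing ε with
  | empty =>
    refine ⟨⊤, ?_, ?_⟩
    · have h0 : Subsingleton (R ⧸ (⊤ : Ideal R)) := Ideal.Quotient.subsingleton_iff.2 rfl
      infer_instance
    · simp only [Finset.notMem_empty, Set.iUnion_of_empty, Set.iUnion_empty, Set.image_empty,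
        Set.ncard_empty, Nat.cast_zero]
      exact mul_nonneg hε.le (pow_nonneg (Nat.cast_nonneg _) _)
  | insert a s ha ih =>
    obtain ⟨I, hI, hIle⟩ := h a (Finset.mem_insert_self _ _) (ε / 2) (by positivity)
    obtain ⟨J, hJ, hJle⟩ := ih (fun b hb => h b (Finset.mem_insert_of_mem hb)) (ε / 2)
      (by positivity)
    have hIJ : Finite (R ⧸ (I ⊓ J)) := finite_inf I J
    refine ⟨I ⊓ J, hIJ, ?_⟩
    have h1 := ncard_mono I (I ⊓ J) inf_le_left _ _ _ hIle
    have h2 := ncard_mono J (I ⊓ J) inf_le_right _ _ _ hJle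
    set F := (fun (c : Fin M → R) i => Ideal.Quotient.mk (I ⊓ J) (c i)) with hF
    have h4 : (F '' ⋃ b ∈ insert a s, E b).ncard ≤ (F '' E a).ncard +
        (F '' ⋃ b ∈ s, E b).ncard := by
      rw [Finset.set_biUnion_insert, Set.image_union]
      exact Set.ncard_union_le _ _
    have h5 : ((F '' ⋃ b ∈ insert a s, E b).ncard : ℝ) ≤ (F '' E a).ncard +
        (F '' ⋃ b ∈ s, E b).ncard := by
      exact_mod_cast h4
    linarith

end Pool.Agent.X281.SEN
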