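import Pool.Agent.X281.SE.DensM
import Pool.Agent.X281.SE.Typ2
import Pool.Agent.X281.SE.Ext3
import Pool.Agent.X281.SE.Uni

/-!
# Binomials: the condition on the reduction
-/

set_option autoImplicit false

namespace Pool.Agent.X281.SE

open Polynomial
open Pool.Agent.TH377.LocG

/-- the binomial `c 1 * X ^ ℓ + c 0` has no root -/
def BinC (ℓ : ℕ) (κ : Type) [Field κ] (c : Fin 2 → κ) : Prop :=
  c 0 ≠ 0 ∧ c 1 ≠ 0 ∧ ∀ z : κ, c 1 * z ^ ℓ + c 0 ≠ 0

theorem bin_desc (ℓ : ℕ) : Pool.Agent.X281.SEA.Desc (BinC ℓ) := by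
  intro κ κ' _ _ φ c h
  obtain ⟨h1, h2, h3⟩ := h
  refine ⟨fun h => h1 ?_, fun h => h2 ?_, fun z hz => ?_⟩
  · change φ (c 0) = 0
    rw [h, map_zero]
  · change φ (c 1) = 0
    rw [h, map_zero]
  · apply h3 (φ z)
    change φ (c 1) * φ z ^ ℓ + φ (c 0) = 0
    rw [← map_pow, ← map_mul, ← map_add, hz, map_zero]

theorem bin_many (ℓ : ℕ) (hℓ : ℓ.Prime) : Pool.Agent.X281.SEA.ManyM ℓ (BinC ℓ) (1 / 8) 2 := by
  classical
  intro κ _ _ hq hdiv
  have hFκ : Fintype κ := Fintype.ofFinite κ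
  have hfact : Fact ℓ.Prime := ⟨hℓ⟩
  set q := Nat.card κ with hqdef
  have hunits : Nat.card κˣ = q - 1 := by
    rw [Nat.card_units]
  set H : Subgroup κˣ := (powMonoidHom ℓ : κˣ →* κˣ).range with hH
  -- the number of the powers
  have h1 : Nat.card H * 2 ≤ q - 1 := by
    have h2 : Nat.card H * Nat.card (powMonoidHom ℓ : κˣ →* κˣ).ker = q - 1 := by
      have h3 := (powMonoidHom ℓ : κˣ →* κˣ).ker.card_mul_index
      have h4 : (powMonoidHom ℓ : κˣ →* κˣ).ker.index = Nat.card H := Subgroup.index_ker _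
      rw [h4, hunits] at h3
      rw [mul_comm]
      exact h3
    have h5 : 2 ≤ Nat.card (powMonoidHom ℓ : κˣ →* κˣ).ker := by
      obtain ⟨z, hz⟩ := exists_prime_orderOf_dvd_card' (G := κˣ) ℓ (by rw [hunits]; exact hdiv)
      have hz1 : z ≠ 1 := by
        rintro rfl
        rw [orderOf_one] at hz
        exact hℓ.one_lt.ne hz
      have hzk : z ∈ (powMonoidHom ℓ : κˣ →* κˣ).ker := by
        rw [MonoidHom.mem_ker, powMonoidHom_apply, ← hz, pow_orderOf_eq_one]
      have hnt : Nontrivial (powMonoidHom ℓ : κˣ →* κˣ).ker :=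
        ⟨⟨z, hzk⟩, 1, fun h => hz1 (congrArg Subtype.val h)⟩
      exact Finite.one_lt_card_iff_nontrivial.2 hnt
    rw [← h2]
    exact Nat.mul_le_mul_left _ h5
  -- the nonpowers
  set T : Set κˣ := {u | u ∉ H} with hT
  have hTc : T.ncard + Nat.card H = q - 1 := by
    have h2 := Set.ncard_add_ncard_compl (H : Set κˣ)
    rw [hunits] at h2
    have h3 : ((H : Set κˣ)ᶜ) = T := rfl
    rw [h3] at h2
    have h4 : (H : Set κˣ).ncard = Nat.card H := (Nat.card_coe_set_eq _).symm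
    omega
  have hT2 : q - 1 ≤ 2 * T.ncard := by omega
  have h3 : ((Set.univ : Set κˣ) ×ˢ T).ncard ≤ ({c | BinC ℓ κ c} : Set (Fin 2 → κ)).ncard := by
    refine Set.ncard_le_ncard_of_injOn
      (fun x => ![-((x.1 : κ) * (x.2 : κ)), (x.1 : κ)]) ?_ ?_ (Set.toFinite _)
    · rintro ⟨b, u⟩ ⟨-, hu⟩
      refine ⟨?_, ?_, ?_⟩
      · change -((b : κ) * (u : κ)) ≠ 0
        exact neg_ne_zero.2 (mul_ne_zero b.ne_zero u.ne_zero)
      · exact b.ne_zero
      · intro z
        change (b : κ) * z ^ ℓ + -((b : κ) * (u : κ)) ≠ 0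
        intro hz
        have h4 : (b : κ) * (z ^ ℓ - u) = 0 := by linear_combination hz
        rcases mul_eq_zero.1 h4 with h5 | h5
        · exact b.ne_zero h5
        · have h6 : z ^ ℓ = u := sub_eq_zero.1 h5
          have hz0 : z ≠ 0 := by
            rintro rfl
            rw [zero_pow hℓ.ne_zero] at h6
            exact u.ne_zero h6.symm
          apply hu
          refine ⟨Units.mk0 z hz0, ?_⟩
          rw [powMonoidHom_apply]
          ext
          rw [Units.val_pow_eq_pow_val, Units.val_mk0, h6]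
    · rintro ⟨b, u⟩ - ⟨b', u'⟩ - h
      have h4 : (b : κ) = b' := congrFun h 1
      have h5 : -((b : κ) * (u : κ)) = -((b' : κ) * (u' : κ)) := congrFun h 0
      have h6 : b = b' := Units.ext h4
      subst h6
      have h7 : (u : κ) = u' := mul_left_cancel₀ b.ne_zero (neg_injective h5)
      rw [Units.ext h7]
  rw [Set.ncard_prod, Set.ncard_univ, hunits] at h3
  have h4 : ((q - 1 : ℕ) : ℝ) = (q : ℝ) - 1 := by
    rw [Nat.cast_sub (by omega)]
    norm_num
  have h5 : ((q : ℝ) - 1) ≤ 2 * T.ncard := by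
    rw [← h4]
    exact_mod_cast hT2
  have h6 : ((q : ℝ) - 1) * T.ncard ≤ ({c | BinC ℓ κ c} : Set (Fin 2 → κ)).ncard := by
    rw [← h4]
    exact_mod_cast h3
  have hq2 : (2 : ℝ) ≤ q := by exact_mod_cast hq
  nlinarith

section factor

variable {κ : Type*} [Field κ]

/-- the degrees of the irreducible factors of binomials -/
theorem bin_factor (ℓ s n : ℕ) (hℓ : ℓ.Prime) (hs : ℓ = 2 → s ≤ 1) (hn : ℓ ^ s ∣ n) (b c : κ)
    (hb : b ≠ 0) (h : ∀ z : κ, b * z ^ ℓ + c ≠ 0) :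
    FactorDiv (ℓ ^ s) (C b * X ^ n + C c) := by
  intro g hg hgd
  by_cases hs0 : s = 0
  · rw [hs0, pow_zero]
    exact one_dvd _
  have hfact : Fact (Irreducible g) := ⟨hg⟩
  have hg0 : g ≠ 0 := hg.ne_zero
  obtain ⟨n', rfl⟩ := hn
  set u : κ := -c / b with hu
  have hpow : ∀ z : κ, z ^ ℓ ≠ u := by
    intro z hz
    apply h z
    rw [hz, hu]
    field_simp
    ring
  have hirr : Irreducible (X ^ (ℓ ^ s) - C u : κ[X]) := by
    by_cases hℓ2 : ℓ = 2
    · have h1 : s = 1 := by have := hs hℓ2; omega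
      rw [h1, pow_one]
      exact X_pow_sub_C_irreducible_of_prime hℓ hpow
    · exact X_pow_sub_C_irreducible_of_prime_pow hℓ hℓ2 s hpow
  -- the root
  set α : AdjoinRoot g := AdjoinRoot.root g with hα
  have hroot : aeval α (C b * X ^ (ℓ ^ s * n') + C c) = 0 := by
    obtain ⟨r, hr⟩ := hgd
    rw [hr, map_mul, AdjoinRoot.aeval_eq, AdjoinRoot.mk_self, zero_mul]
  set β : AdjoinRoot g := α ^ n' with hβ
  have hβu : aeval β (X ^ (ℓ ^ s) - C u : κ[X]) = 0 := by
    rw [map_add, map_mul, aeval_C, map_pow, aeval_X, aeval_C] at hroot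
    rw [map_sub, map_pow, aeval_X, aeval_C, hβ, ← pow_mul, mul_comm n', hu, map_div₀, map_neg]
    have hb' : algebraMap κ (AdjoinRoot g) b ≠ 0 := (_root_.map_ne_zero _).2 hb
    field_simp
    linear_combination hroot
  have hmon : (X ^ (ℓ ^ s) - C u : κ[X]).Monic :=
    monic_X_pow_sub_C u (pow_ne_zero _ hℓ.ne_zero)
  have hmin : (X ^ (ℓ ^ s) - C u : κ[X]) = minpoly κ β :=
    minpoly.eq_of_irreducible_of_monic hirr hβu hmon
  have hfin : FiniteDimensional κ (AdjoinRoot g) := (AdjoinRoot.powerBasis hg0).finite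
  have h1 : (minpoly κ β).natDegree ∣ Module.finrank κ (AdjoinRoot g) :=
    minpoly.degree_dvd (IsIntegral.of_finite κ β)
  rw [← hmin, natDegree_X_pow_sub_C, (AdjoinRoot.powerBasis hg0).finrank,
    AdjoinRoot.powerBasis_dim] at h1
  exact h1

/-- binomials are separable -/
theorem bin_sep (n : ℕ) (hn : (n : κ) ≠ 0) (b c : κ) (hb : b ≠ 0) (hc : c ≠ 0) :
    (C b * X ^ n + C c).Separable := by
  have h1 : C b * X ^ n + C c = C b * (X ^ n - C (-c / b)) := by
    rw [mul_sub, ← C_mul]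
    have h2 : b * (-c / b) = -c := by field_simp
    rw [h2, C_neg, sub_neg_eq_add]
  rw [h1]
  refine Separable.unit_mul (isUnit_C.2 hb.isUnit) ?_
  exact separable_X_pow_sub_C _ hn (div_ne_zero (neg_ne_zero.2 hc) hb)

end factor

end Pool.Agent.X281.SE
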