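import Pool.Agent.X281.SE.Bin
import Pool.Agent.X281.SE.Ext5

/-!
# Superelliptic curves given by binomials
-/

set_option autoImplicit false

namespace Pool.Agent.X281.SE

open Pool.Agent.W620.SC Pool.Agent.W623.SecC Pool.Agent.TH120.Sec Pool.Agent.TH377.LocG
  Pool.Agent.TH377.NC
open Polynomial IsDedekindDomain
open Pool.Agent.Y157.PS (S_FUN FineP fineP)

/-- the data of a good discrete valuation ring -/
theorem bin_data {ℓ n : ℕ} (hn0 : n ≠ 0) {A : Type} [CommRing A] [IsDomain A]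
    [IsDiscreteValuationRing A] (hnA : IsUnit (n : A)) (c : Fin 2 → A)
    (h : BinC ℓ (IsLocalRing.ResidueField A) fun i => IsLocalRing.residue A (c i)) :
    IsUnit (c 0) ∧ IsUnit (c 1) ∧ (C (c 1) * X ^ n + C (c 0)).leadingCoeff = c 1 ∧
      (C (c 1) * X ^ n + C (c 0)).natDegree = n ∧
      ((C (c 1) * X ^ n + C (c 0)).map (IsLocalRing.residue A)).Separable ∧
      ∀ s : ℕ, ℓ.Prime → (ℓ = 2 → s ≤ 1) → ℓ ^ s ∣ n →
        FactorDiv (ℓ ^ s) ((C (c 1) * X ^ n + C (c 0)).map (IsLocalRing.residue A)) := by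
  obtain ⟨h1, h2, h3⟩ := h
  have unit_of : ∀ z : A, IsLocalRing.residue A z ≠ 0 → IsUnit z := by
    intro z hz
    by_contra h4
    exact hz ((IsLocalRing.residue_eq_zero_iff _).2 ((IsLocalRing.mem_maximalIdeal _).2 h4))
  have hc0 : IsUnit (c 0) := unit_of _ h1
  have hc1 : IsUnit (c 1) := unit_of _ h2
  have hmap : (C (c 1) * X ^ n + C (c 0)).map (IsLocalRing.residue A) =
      C (IsLocalRing.residue A (c 1)) * X ^ n + C (IsLocalRing.residue A (c 0)) := by
    simp only [Polynomial.map_add, Polynomial.map_mul, Polynomial.map_pow, map_X, map_C]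
  have hdeg0 : (C (c 0) : A[X]).degree < (n : WithBot ℕ) := by
    refine degree_C_le.trans_lt ?_
    exact_mod_cast Nat.pos_of_ne_zero hn0
  have hdeg1 : (C (c 1) * X ^ n : A[X]).degree = n := degree_C_mul_X_pow n hc1.ne_zero
  have hnr : ((n : ℕ) : IsLocalRing.ResidueField A) ≠ 0 := by
    rw [← map_natCast (IsLocalRing.residue A)]
    exact (hnA.map (IsLocalRing.residue A)).ne_zero
  refine ⟨hc0, hc1, ?_, ?_, ?_, ?_⟩
  · rw [leadingCoeff_add_of_degree_lt' (by rw [hdeg1]; exact hdeg0), leadingCoeff_C_mul_X_pow]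
  · apply natDegree_eq_of_degree_eq_some
    rw [degree_add_eq_left_of_degree_lt (by rw [hdeg1]; exact hdeg0), hdeg1]
  · rw [hmap]
    exact bin_sep n hnr _ _ h2 h1
  · intro s hℓ hs hsn
    rw [hmap]
    exact bin_factor ℓ s n hℓ hs hsn _ _ h2 h3

/-- the fundamental groups -/
theorem bin_et {ℓ n : ℕ} (hn0 : n ≠ 0) {k : Type} [Field k] [CharZero k] (q q' : ℕ) (hnq : n ∣ q)
    (a : k) (g : Fin 2 → k) (h : Pool.Agent.X281.SEA.GoodDvr (BinC ℓ) q q' a g) (hℓ : ℓ.Prime)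
    (hℓ2 : ℓ ≠ 2) (s : ℕ) (hsn : ℓ ^ s ∣ n) {L : Type} [Field L] [Algebra k L]
    [FiniteDimensional k L] (m : ℤ) (hm : ¬ ((ℓ ^ s : ℕ) : ℤ) ∣ m * Module.finrank k L) (N : ℕ)
    (hN : ℓ ^ s ∣ N) :
    BirFine.{0, 0, 0} (ℓ ^ s) N (algebraMap k L (a ^ m))
      ((C (g 1) * X ^ n + C (g 0)).map (algebraMap k L))
      ((C (g 1) * X ^ n + C (g 0)).map (algebraMap k L)) ∧
    EtFine.{0, 0, 0} N (algebraMap k L (a ^ m))
      ((C (g 1) * X ^ n + C (g 0)).map (algebraMap k L)) := by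
  obtain ⟨A, _, _, _, _, c, ϖ, t, σ, hfr, hfin, hc, hP, hϖ, ht, hs, ha, hqA, -⟩ := h
  have hnA : IsUnit ((n : ℕ) : A) := by
    obtain ⟨r, hr⟩ := hnq
    rw [hr, Nat.cast_mul] at hqA
    exact isUnit_of_mul_isUnit_left hqA
  obtain ⟨h0, h1, h2, h3, h4, h5⟩ := bin_data hn0 hnA c hP
  obtain ⟨tu, rfl⟩ := ht
  have hD : ℓ ^ s ≠ 0 := pow_ne_zero _ hℓ.ne_zero
  have hgcd : Nat.gcd 2 (ℓ ^ s) = 1 := by
    refine Nat.Coprime.pow_right s ?_
    exact (Nat.coprime_primes Nat.prime_two hℓ).2 (Ne.symm hℓ2)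
  have key := prod_dvr.{0, 0, 0, 0, 0} (k := k) (L := L) (I := Unit) (ℓ ^ s) hD
    (fun _ => C (c 1) * X ^ n + C (c 0)) (fun _ => 1)
    (fun _ => by rw [h2]; exact h1)
    (by simpa only [Finset.univ_unique, Finset.prod_singleton] using h4)
    (by
      rw [hgcd, one_mul]
      simpa only [Finset.univ_unique, Finset.prod_singleton] using
        h5 s hℓ (fun h => absurd h hℓ2) hsn)
    ϖ ((tu ^ m : Aˣ) : A) hϖ (tu ^ m).isUnit (σ * m) (a ^ m)
    (by rw [zpow_unit, ha, mul_zpow, ← zpow_mul])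
    (by
      intro h6
      apply hm
      rcases hs with rfl | rfl
      · rwa [one_mul] at h6
      · rw [neg_one_mul, neg_mul, dvd_neg] at h6
        exact h6) N hN
  have hk : (C (c 1) * X ^ n + C (c 0)).map (algebraMap A k) = C (g 1) * X ^ n + C (g 0) := by
    simp only [Polynomial.map_add, Polynomial.map_mul, Polynomial.map_pow, map_X, map_C, hc]
  simp only [Finset.univ_unique, Finset.prod_singleton, pow_one, hk] at key
  exact ⟨key.1, key.2 fun _ => Nat.coprime_one_right _⟩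

/-- the geometrically pro-`ℓ` fundamental groups -/
theorem bin_pro {ℓ n : ℕ} (hn3 : 3 ≤ n) {k : Type} [Field k] [CharZero k] (q q' : ℕ) (hnq : n ∣ q)
    (a : k) (g : Fin 2 → k) (h : Pool.Agent.X281.SEA.GoodDvr (BinC ℓ) q q' a g) (hℓ : ℓ.Prime)
    (hℓn : ℓ ∣ n) {L : Type} [Field L] [Algebra k L] [FiniteDimensional k L] (m : ℤ)
    (hm : ¬ (ℓ : ℤ) ∣ m * Module.finrank k L) :
    FineP ℓ (algebraMap k L (a ^ m)) ((C (g 1) * X ^ n + C (g 0)).map (algebraMap k L)) := by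
  classical
  have hFUN : S_FUN := Pool.Agent.Y674.PS.funct Pool.Agent.Y157.PS.a_inrt
  have hfact : Fact ℓ.Prime := ⟨hℓ⟩
  obtain ⟨A, _, _, _, _, c, ϖ, t, s, hfr, hfin, hc, hP, hϖ, ht, hs, ha, hqA, -⟩ := h
  have hnA : IsUnit ((n : ℕ) : A) := by
    obtain ⟨r, hr⟩ := hnq
    rw [hr, Nat.cast_mul] at hqA
    exact isUnit_of_mul_isUnit_left hqA
  have hℓA : IsUnit (ℓ : A) := by
    obtain ⟨r, hr⟩ := hℓn
    rw [hr, Nat.cast_mul] at hnA
    exact isUnit_of_mul_isUnit_left hnA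
  obtain ⟨h0, h1, h2, h3, h4, h5⟩ := bin_data (by omega) hnA c hP
  obtain ⟨tu, rfl⟩ := ht
  set fA : A[X] := C (c 1) * X ^ n + C (c 0) with hfA
  -- the place of `L`
  let _ : Algebra A L := ((algebraMap k L).comp (algebraMap A k)).toAlgebra
  have hstR : IsScalarTower A k L := IsScalarTower.of_algebraMap_eq (fun _ => rfl)
  have hczL : CharZero L := charZero_of_injective_algebraMap (algebraMap k L).injective
  obtain ⟨B, _, _, _, _, hfrB, J, fd, hfdle, hfd0, hfdℓ, hfinB, hℓB, hJL, hJm, hJs, hJf,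
    ϖ', t', m', hϖ', ht', hm', hat⟩ :=
    dvr_hom (k := k) (L := L) ℓ hℓ hℓA ϖ ((tu ^ m : Aˣ) : A) hϖ
      (tu ^ m).isUnit (s * m) (by
        intro h4
        apply hm
        rcases hs with rfl | rfl
        · rwa [one_mul] at h4
        · rw [neg_one_mul, neg_mul, dvd_neg] at h4
          exact h4)
  have hJL' : ∀ z : A, algebraMap B L (J z) = algebraMap k L (algebraMap A k z) := by
    intro z
    rw [← RingHom.comp_apply, hJL]
    rfl
  have hJinj : Function.Injective J := by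
    intro z w hzw
    have h4 := congrArg (algebraMap B L) hzw
    rw [hJL', hJL'] at h4
    exact IsFractionRing.injective A k ((algebraMap k L).injective h4)
  have hcoef : algebraMap k L (a ^ m) = algebraMap B L t' * algebraMap B L ϖ' ^ m' := by
    rw [← hat]
    have h5 : a ^ m = algebraMap A k ((tu ^ m : Aˣ) : A) * algebraMap A k ϖ ^ (s * m) := by
      rw [ha, mul_zpow, ← zpow_mul, zpow_unit]
    rw [h5, map_mul, map_zpow₀]
    rfl
  have hfB : (C (g 1) * X ^ n + C (g 0)).map (algebraMap k L) =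
      (fA.map J).map (algebraMap B L) := by
    rw [Polynomial.map_map, hJL, hfA]
    simp only [Polynomial.map_add, Polynomial.map_mul, Polynomial.map_pow, map_X, map_C, ← hc]
    rfl
  rw [hcoef, hfB]
  refine fineP hFUN hℓB (fA.map J) ?_ (hJs _ h4) ?_ ?_ ?_ ϖ' hϖ' _ m' hm' t' ht' rfl
  · rw [leadingCoeff_map_of_injective hJinj, h2]
    exact h1.map J
  · rw [natDegree_map_eq_of_injective hJinj, h3]
    exact hℓn
  · rw [natDegree_map_eq_of_injective hJinj, h3]
    exact hn3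
  · intro b hb
    have h6 : ((fA.map J).map (IsLocalRing.residue B)).eval (IsLocalRing.residue B b) = 0 := by
      rw [eval_map, eval₂_at_apply]
      exact (IsLocalRing.residue_eq_zero_iff _).2 hb
    have h7 : X - C (IsLocalRing.residue B b) ∣ (fA.map J).map (IsLocalRing.residue B) :=
      dvd_iff_isRoot.2 h6
    have h8 := hJf (ℓ ^ 1) fA (h5 1 hℓ (fun _ => le_rfl) (by rwa [pow_one])) _
      (irreducible_X_sub_C _) h7
    rw [natDegree_X_sub_C, one_mul, pow_one] at h8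
    exact hfdℓ h8

end Pool.Agent.X281.SE
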