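import Pool.Agent.X281.SE.Ext

/-!
# Birational sections in families, with multiplicities
-/

set_option autoImplicit false

namespace Pool.Agent.X281.SE

open Pool.Agent.W620.SC Pool.Agent.W623.SecC Pool.Agent.TH120.Sec Pool.Agent.TH377.LocG
  Pool.Agent.TH377.NC Pool.Agent.TH377.Loc
open Polynomial NumberField IsDedekindDomain

universe u v w x y z

/-- no points and no birational sections of the curve `a yⁿ = r(x)` over `L`, where `p` is a
polynomial with the same roots -/
def BirFine {L : Type y} [Field L] (D n : ℕ) (a : L) (p r : L[X]) : Prop :=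
  (∀ x y : L, a * y ^ n ≠ r.eval x) ∧ (∀ s : L, a * s ^ Nat.gcd n r.natDegree ≠ r.leadingCoeff) ∧
  (∀ (F : Type v) (Ω : Type w) [Field F] [Field Ω] [Algebra L F] [Algebra F Ω] [Algebra L Ω]
    [IsScalarTower L F Ω] [IsAlgClosed Ω] [Algebra.IsAlgebraic F Ω] (M : IntermediateField F Ω),
    (∀ c : algebraicClosure L Ω, (c : Ω) ∈ M) → ∀ x y : F, algebraMap L F a * y ^ n = aeval x r →
    (∀ θ θ' : Ω, aeval θ p = 0 → aeval θ' p = 0 →
      ∃ z ∈ M, z ^ D = (algebraMap F Ω x - θ) / (algebraMap F Ω x - θ')) →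
    IsEmpty (MSection L F Ω M))

theorem birFine_of {L : Type y} [Field L] (D n : ℕ) (a : L) (p r p' : L[X]) (c : L) (hc : c ≠ 0)
    (hp : ∀ (Ω : Type w) [Field Ω] [Algebra L Ω] (θ : Ω), aeval θ p' = 0 → aeval θ p = 0)
    (h : BirFine.{v, w, y} D n (c * a) p' (C c * r)) (hp' : ∀ (Ω : Type w) [Field Ω] [Algebra L Ω]
      (θ : Ω), aeval θ p = 0 → aeval θ p' = 0) : BirFine.{v, w, y} D n a p r := by
  obtain ⟨h1, h2, h3⟩ := h
  refine ⟨?_, ?_, ?_⟩
  · intro x y hxy
    apply h1 x y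
    rw [mul_assoc, hxy, eval_mul, eval_C]
  · intro s hs
    apply h2 s
    rw [natDegree_C_mul hc, mul_assoc, hs, leadingCoeff_mul, leadingCoeff_C]
  · intro F Ω _ _ _ _ _ _ _ _ M hM x y hxy hroot
    refine h3 F Ω M hM x y ?_ ?_
    · rw [map_mul, map_mul, aeval_C, mul_assoc, hxy]
    · exact fun θ θ' hθ hθ' => hroot θ θ' (hp Ω θ hθ) (hp Ω θ' hθ')

section

variable {K : Type u} [Field K] [NumberField K] (v : HeightOneSpectrum (𝓞 K)) (D : ℕ)
  (hD : 2 ≤ D) (P : (𝓞 K)[X]) (hL : Loc v (Nat.gcd 2 D * D) P.natDegree P) (g N : 𝓞 K)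
  (hg : g ∈ v.asIdeal) (hg' : g ∉ v.asIdeal ^ 2) (hN : N ∉ v.asIdeal) (k m : ℤ)
  {I : Type} [Fintype I] (p : I → K[X]) (e : I → ℕ)
  (hP : P.map (algebraMap (𝓞 K) K) = C (algebraMap (𝓞 K) K N ^ 2) * ∏ i, p i)
  (q : 𝓞 K) (hq : q ∉ v.asIdeal)
  (hint : ∀ i, ∃ Q : (𝓞 K)[X], Q.map (algebraMap (𝓞 K) K) = C (algebraMap (𝓞 K) K q) * p i)
  {L : Type y} [Field L] [Algebra K L] [FiniteDimensional K L]
  (hm : ¬ (D : ℤ) ∣ m * Module.finrank K L) (n : ℕ) (hDn : D ∣ n)

include hD hL hg hg' hN hP hq hint hm hDn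

theorem bir_loc : BirFine.{v, w, y} D n
    (algebraMap K L (algebraMap (𝓞 K) K N ^ k * algebraMap (𝓞 K) K g ^ m))
    ((∏ i, p i).map (algebraMap K L)) ((∏ i, p i ^ e i).map (algebraMap K L)) := by
  classical
  obtain ⟨-, hlc, hs, -, hodd⟩ := hL
  have hvm : v.asIdeal.IsMaximal := v.isMaximal
  obtain ⟨A', _, _, _, _, j, ε, hfin, hfr, hjK, hjr, hju, hbn⟩ := local_ring v
  obtain ⟨ϖ, t, hϖ, ht, hgt⟩ := hbn g 1 (by rwa [pow_one]) (by simpa using hg')
  have hinjA : Function.Injective (algebraMap A' K) := IsFractionRing.injective A' K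
  have hinjO : Function.Injective (algebraMap (𝓞 K) K) := IsFractionRing.injective (𝓞 K) K
  have hmap : (P.map j).map (IsLocalRing.residue A') =
      (P.map (Ideal.Quotient.mk v.asIdeal)).map
        (ε : (𝓞 K ⧸ v.asIdeal) →+* IsLocalRing.ResidueField A') := by
    rw [Polynomial.map_map, hjr, ← Polynomial.map_map]
  obtain ⟨u, hu⟩ := hju _ hlc
  have hlc0 : j P.leadingCoeff ≠ 0 := (hju _ hlc).ne_zero
  have hdeg : (P.map j).natDegree = P.natDegree := natDegree_map_of_leadingCoeff_ne_zero _ hlc0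
  have hPK : P.map (algebraMap (𝓞 K) K) = (P.map j).map (algebraMap A' K) := by
    rw [Polynomial.map_map, hjK]
  have hsA : ((P.map j).map (IsLocalRing.residue A')).Separable := by
    rw [hmap]
    exact hs.map
  -- the monic polynomial
  set G : A'[X] := C ((u⁻¹ : A'ˣ) : A') * P.map j with hG
  have hGm : G.Monic := by
    apply monic_C_mul_of_mul_leadingCoeff_eq_one
    rw [leadingCoeff_map_of_leadingCoeff_ne_zero _ hlc0, ← hu, Units.inv_mul]
  have huK : algebraMap A' K ((u⁻¹ : A'ˣ) : A') ≠ 0 :=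
    ((u⁻¹).isUnit.map (algebraMap A' K)).ne_zero
  have hur : IsLocalRing.residue A' ((u⁻¹ : A'ˣ) : A') ≠ 0 :=
    ((u⁻¹).isUnit.map (IsLocalRing.residue A')).ne_zero
  have hGK : G.map (algebraMap A' K) = C (algebraMap A' K ((u⁻¹ : A'ˣ) : A')) *
      P.map (algebraMap (𝓞 K) K) := by
    rw [hG, Polynomial.map_mul, map_C, hPK]
  have hGs : (G.map (IsLocalRing.residue A')).Separable := by
    rw [hG, Polynomial.map_mul, map_C]
    exact Separable.unit_mul (isUnit_C.2 hur.isUnit) hsA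
  have hcard : Nat.card (IsLocalRing.ResidueField A') = Ideal.absNorm v.asIdeal := by
    rw [Ideal.absNorm_apply, Submodule.cardQuot_apply]
    exact (Nat.card_congr ε.toEquiv).symm
  have hN2 : Nat.gcd 2 D * D ≠ 2 := by
    intro h
    rcases Nat.even_or_odd D with h2 | h2
    · rw [Nat.gcd_eq_left h2.two_dvd] at h
      omega
    · have h3 : Nat.gcd 2 D = 1 := (Nat.coprime_two_left.2 h2)
      rw [h3, one_mul] at h
      rw [h] at h2
      exact absurd h2 (by decide)
  have hGf : FactorDiv (Nat.gcd 2 D * D) (G.map (IsLocalRing.residue A')) := by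
    apply factorDiv_of_coprime
    intro n hn
    have h1 := (hodd hN2 n hn).map (Polynomial.mapRingHom
      (ε : (𝓞 K ⧸ v.asIdeal) →+* IsLocalRing.ResidueField A'))
    rw [coe_mapRingHom, Polynomial.map_sub, Polynomial.map_pow, map_X, ← hmap] at h1
    rw [hcard, hG, Polynomial.map_mul, map_C]
    refine IsCoprime.mul_right ?_ h1
    obtain ⟨b, hb⟩ := (isUnit_C.2 hur.isUnit).exists_left_inv
    exact ⟨0, b, by rw [zero_mul, zero_add]; exact hb⟩
  -- the leading coefficients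
  obtain ⟨tN, htN⟩ := hju N hN
  obtain ⟨tg, htg⟩ := ht
  obtain ⟨tq, htq⟩ := hju q hq
  have hNK : algebraMap (𝓞 K) K N = algebraMap A' K tN := by
    rw [← hjK, RingHom.comp_apply, htN]
  have hNK0 : algebraMap (𝓞 K) K N ≠ 0 := by
    rw [hNK]
    exact (tN.isUnit.map (algebraMap A' K)).ne_zero
  have hqK : algebraMap (𝓞 K) K q = algebraMap A' K tq := by
    rw [← hjK, RingHom.comp_apply, htq]
  have hqK0 : algebraMap (𝓞 K) K q ≠ 0 := by
    rw [hqK]
    exact (tq.isUnit.map (algebraMap A' K)).ne_zero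
  have hP0 : P ≠ 0 := by
    rintro rfl
    rw [leadingCoeff_zero] at hlc
    exact hlc (zero_mem _)
  have hprod0 : ∏ i, p i ≠ 0 := by
    intro h0
    rw [h0, mul_zero] at hP
    exact hP0 ((Polynomial.map_eq_zero_iff hinjO).1 hP)
  have hp0 : ∀ i, p i ≠ 0 := fun i => Finset.prod_ne_zero_iff.1 hprod0 i (Finset.mem_univ i)
  have hlci : ∀ i, ∃ r : A', algebraMap A' K r = (p i).leadingCoeff := by
    intro i
    obtain ⟨Q, hQ⟩ := hint i
    have h1 : algebraMap (𝓞 K) K Q.leadingCoeff =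
        algebraMap (𝓞 K) K q * (p i).leadingCoeff := by
      rw [← leadingCoeff_map_of_injective hinjO, hQ, leadingCoeff_mul, leadingCoeff_C]
    refine ⟨j Q.leadingCoeff * ((tq⁻¹ : A'ˣ) : A'), ?_⟩
    have h2 : algebraMap A' K (j Q.leadingCoeff) =
        algebraMap A' K (tq : A') * (p i).leadingCoeff := by
      rw [← hqK, ← h1, ← hjK]
      rfl
    rw [map_mul, h2, mul_right_comm, ← map_mul, Units.mul_inv, map_one, one_mul]
  choose r hr using hlci
  have hrprod : IsUnit (∏ i, r i) := by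
    have h1 : algebraMap A' K ((tN : A') ^ 2 * ∏ i, r i) = algebraMap A' K (u : A') := by
      have h2 := congrArg leadingCoeff hP
      rw [leadingCoeff_map_of_injective hinjO, leadingCoeff_mul, leadingCoeff_C,
        leadingCoeff_prod] at h2
      rw [map_mul, map_pow, map_prod, ← hNK]
      simp only [hr]
      rw [← h2, hu, ← hjK]
      rfl
    have h3 := hinjA h1
    have h4 : IsUnit ((tN : A') ^ 2 * ∏ i, r i) := by
      rw [h3]
      exact u.isUnit
    exact isUnit_of_mul_isUnit_right h4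
  have hru : ∀ i, IsUnit (r i) := fun i =>
    isUnit_of_dvd_unit (Finset.dvd_prod_of_mem r (Finset.mem_univ i)) hrprod
  choose ru hrru using hru
  have hlck0 : ∀ i, (p i).leadingCoeff ≠ 0 := fun i => leadingCoeff_ne_zero.2 (hp0 i)
  -- the coefficient
  set t' : A' := (((∏ i, (ru i)⁻¹ ^ e i) * (tN ^ k * tg ^ m) : A'ˣ) : A') with ht'
  have ht'u : IsUnit t' := ((∏ i, (ru i)⁻¹ ^ e i) * (tN ^ k * tg ^ m)).isUnit
  have hunit : ∀ (s : A'ˣ) (n : ℤ), algebraMap A' K ((s ^ n : A'ˣ) : A') =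
      algebraMap A' K (s : A') ^ n := by
    intro s n
    have h1 : Units.map (algebraMap A' K : A' →* K) (s ^ n) =
        (Units.map (algebraMap A' K : A' →* K) s) ^ n := map_zpow _ _ _
    have h2 := congrArg Units.val h1
    rw [Units.coe_map, Units.val_zpow_eq_zpow_val, Units.coe_map] at h2
    exact h2
  have hinvK : ∀ i, algebraMap A' K (((ru i)⁻¹ : A'ˣ) : A') = ((p i).leadingCoeff)⁻¹ := by
    intro i
    refine eq_inv_of_mul_eq_one_left ?_
    rw [← hr i, ← hrru i, ← map_mul, Units.inv_mul, map_one]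
  set c0 : K := ∏ i, ((p i).leadingCoeff)⁻¹ ^ e i with hc0def
  have hc00 : c0 ≠ 0 := Finset.prod_ne_zero_iff.2 fun i _ => pow_ne_zero _ (inv_ne_zero (hlck0 i))
  have hc0K : algebraMap A' K ((∏ i, (ru i)⁻¹ ^ e i : A'ˣ) : A') = c0 := by
    rw [Units.coe_prod, map_prod, hc0def]
    refine Finset.prod_congr rfl fun i _ => ?_
    rw [Units.val_pow_eq_pow_val, map_pow, hinvK]
  have ha : c0 * (algebraMap (𝓞 K) K N ^ k * algebraMap (𝓞 K) K g ^ m) =
      algebraMap A' K t' * algebraMap A' K ϖ ^ m := by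
    rw [hNK, hgt, ht', Units.val_mul, Units.val_mul, map_mul, map_mul, hunit, hunit, hc0K, ← htg]
    have h3 : algebraMap A' K ϖ ^ ((1 : ℕ) : ℤ) = algebraMap A' K ϖ := by simp
    rw [h3, mul_zpow]
    ring
  -- the place of `L`
  let _ : Algebra A' L := ((algebraMap K L).comp (algebraMap A' K)).toAlgebra
  have hstR : IsScalarTower A' K L := IsScalarTower.of_algebraMap_eq (fun _ => rfl)
  obtain ⟨ℓ, hℓ0, hℓD, B, _, _, _, _, hfr, f, hf, hfK, hfs, hfd, ϖ', s, m', hϖ', hs', hm', hat⟩ :=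
    dvr_data (k := K) (L := L) G hGm hGs D (by omega) hGf ϖ t' hϖ ht'u m hm
  have hczL : CharZero L := charZero_of_injective_algebraMap (algebraMap K L).injective
  have hinjB : Function.Injective (algebraMap B L) := IsFractionRing.injective B L
  -- the monic factors over `K`
  set p' : I → K[X] := fun i => C ((p i).leadingCoeff)⁻¹ * p i with hp'
  have hp'm : ∀ i, (p' i).Monic := fun i => by
    apply monic_C_mul_of_mul_leadingCoeff_eq_one
    exact inv_mul_cancel₀ (hlck0 i)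
  have hGprod : G.map (algebraMap A' K) = ∏ i, p' i := by
    have h1 : (∏ i, p' i) = C (∏ i, ((p i).leadingCoeff)⁻¹) * ∏ i, p i := by
      rw [hp', Finset.prod_mul_distrib, map_prod]
    have h2 : G.map (algebraMap A' K) = C (algebraMap A' K ((u⁻¹ : A'ˣ) : A') *
        algebraMap (𝓞 K) K N ^ 2) * ∏ i, p i := by
      rw [hGK, hP, ← mul_assoc, ← C_mul]
    have h3 := (hGm.map (algebraMap A' K)).leadingCoeff
    rw [h2, leadingCoeff_mul, leadingCoeff_C, leadingCoeff_prod] at h3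
    rw [h2, h1]
    congr 2
    rw [Finset.prod_inv_distrib]
    exact eq_inv_of_mul_eq_one_left h3
  have hfL : f.map (algebraMap B L) = ∏ i, (p' i).map (algebraMap K L) := by
    rw [hfK, IsScalarTower.algebraMap_eq A' K L, ← Polynomial.map_map, hGprod,
      Polynomial.map_prod]
  have hfi : ∀ i, ∃ h : B[X], h.map (algebraMap B L) = (p' i).map (algebraMap K L) ∧ h.Monic := by
    intro i
    obtain ⟨h, hh⟩ := IsIntegrallyClosed.eq_map_mul_C_of_dvd L hf
      (g := (p' i).map (algebraMap K L)) (by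
        rw [hfL]
        exact Finset.dvd_prod_of_mem _ (Finset.mem_univ i))
    rw [((hp'm i).map _).leadingCoeff, C_1, mul_one] at hh
    refine ⟨h, hh, ?_⟩
    have h5 := ((hp'm i).map (algebraMap K L)).leadingCoeff
    rw [← hh, leadingCoeff_map_of_injective hinjB] at h5
    exact hinjB (by rw [h5, map_one])
  choose fi hfi hfim using hfi
  have hfprod : ∏ i, fi i = f := by
    apply Polynomial.map_injective _ hinjB
    rw [Polynomial.map_prod, hfL]
    exact Finset.prod_congr rfl fun i _ => hfi i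
  set c : L := algebraMap K L c0 with hcdef
  have hcc : c ≠ 0 := (_root_.map_ne_zero _).2 hc00
  have haL : c * algebraMap K L (algebraMap (𝓞 K) K N ^ k * algebraMap (𝓞 K) K g ^ m) =
      algebraMap B L s * algebraMap B L ϖ' ^ m' := by
    rw [← hat, hcdef, ← map_mul, ha, map_mul, map_zpow₀]
    rfl
  have hrL : (∏ i, fi i ^ e i).map (algebraMap B L) =
      C c * (∏ i, p i ^ e i).map (algebraMap K L) := by
    rw [Polynomial.map_prod, hcdef, ← map_C, ← Polynomial.map_mul, hc0def, map_prod,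
      ← Finset.prod_mul_distrib, Polynomial.map_prod]
    refine Finset.prod_congr rfl fun i _ => ?_
    rw [Polynomial.map_pow, hfi, map_pow, ← mul_pow, Polynomial.map_pow]
  have hpL : (∏ i, fi i).map (algebraMap B L) =
      C (algebraMap K L (∏ i, ((p i).leadingCoeff)⁻¹)) * (∏ i, p i).map (algebraMap K L) := by
    rw [hfprod, hfL, ← Polynomial.map_prod, hp', Finset.prod_mul_distrib, ← map_prod,
      Polynomial.map_mul, map_C]
  have hcp : algebraMap K L (∏ i, ((p i).leadingCoeff)⁻¹) ≠ 0 :=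
    (_root_.map_ne_zero _).2 (Finset.prod_ne_zero_iff.2 fun i _ => inv_ne_zero (hlck0 i))
  refine birFine_of D n _ _ _ ((∏ i, fi i).map (algebraMap B L)) c hcc ?_ ?_ ?_
  · intro Ω _ _ θ hθ
    rw [hpL, map_mul, aeval_C] at hθ
    exact (mul_eq_zero.1 hθ).resolve_left ((_root_.map_ne_zero _).2 hcp)
  · rw [← hrL, haL]
    have hℓn : ℓ ∣ n := hℓD.trans hDn
    have hs1 : ((∏ i, fi i).map (IsLocalRing.residue B)).Separable := by rwa [hfprod]
    have hd1 : FactorDiv (Nat.gcd 2 ℓ * ℓ) ((∏ i, fi i).map (IsLocalRing.residue B)) := by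
      rwa [hfprod]
    have hlcf : ∀ i, IsUnit (fi i).leadingCoeff := fun i => by
      rw [(hfim i).leadingCoeff]
      exact isUnit_one
    refine ⟨?_, ?_, ?_⟩
    · intro x y hxy
      exact res_P (IsLocalRing.residue B) IsLocalRing.residue_surjective ℓ hℓ0 fi e hlcf hs1 hd1
        ϖ' hϖ' _ s hs' m' hm' rfl n hℓn x y hxy
    · intro r hr
      exact res_inf (IsLocalRing.residue B) IsLocalRing.residue_surjective ℓ hℓ0 fi e hlcf hs1 hd1
        ϖ' hϖ' _ s hs' m' hm' rfl n hℓn r hr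
    · intro F Ω _ _ _ _ _ _ _ _ M hM x y hxy hroot
      refine res_M (IsLocalRing.residue B) IsLocalRing.residue_surjective ℓ hℓ0 fi e hlcf hs1 hd1
        ϖ' hϖ' _ s hs' m' hm' rfl n hℓn M hM x y hxy ?_
      intro θ θ' hθ hθ'
      obtain ⟨z, hz, hzD⟩ := hroot θ θ' hθ hθ'
      obtain ⟨e, rfl⟩ := hℓD
      refine ⟨z ^ e, pow_mem hz e, ?_⟩
      rw [← pow_mul, mul_comm e ℓ]
      exact hzD
  · intro Ω _ _ θ hθ
    rw [hpL, map_mul, aeval_C, hθ, mul_zero]

end

end Pool.Agent.X281.SE
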