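import Pool.Agent.X281.SE.Bir

/-!
# Birational sections in families: density
-/

set_option autoImplicit false

namespace Pool.Agent.X281.SE

open Pool.Agent.W620.SC Pool.Agent.W623.SecC Pool.Agent.TH120.Sec Pool.Agent.TH377.LocG
  Pool.Agent.TH377.NC Pool.Agent.TH377.Loc
open Polynomial NumberField IsDedekindDomain

universe u v w x y z

theorem fibre_int {K : Type u} [Field K] [NumberField K] (f : K[X][X]) :
    ∃ N : 𝓞 K, N ≠ 0 ∧ ∀ (t : 𝓞 K) (q : 𝓞 K), N ∣ q → ∃ Q : (𝓞 K)[X],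
      Q.map (algebraMap (𝓞 K) K) =
        C (algebraMap (𝓞 K) K q) * fibre f (algebraMap (𝓞 K) K t) := by
  obtain ⟨N, g, H, hN, -, hH⟩ := clear (0 : K[X]) f
  refine ⟨N, hN, ?_⟩
  rintro t q ⟨r, rfl⟩
  refine ⟨C r * H.map (evalRingHom t), ?_⟩
  have h1 : (algebraMap (𝓞 K) K).comp (evalRingHom t) =
      (eval₂RingHom (algebraMap K K) (algebraMap (𝓞 K) K t)).comp
        (mapRingHom (algebraMap (𝓞 K) K)) := by
    apply Polynomial.ringHom_ext
    · intro a
      simp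
    · simp
  have h2 : eval₂RingHom (algebraMap K K) (algebraMap (𝓞 K) K t) (C (algebraMap (𝓞 K) K N)) =
      algebraMap (𝓞 K) K N := by
    rw [coe_eval₂RingHom, eval₂_C]
    rfl
  rw [Polynomial.map_mul, map_C, Polynomial.map_map, h1, ← Polynomial.map_map, hH,
    Polynomial.map_mul, map_C, fibre, ← mul_assoc, h2, ← C_mul, ← map_mul, mul_comm r N]

theorem bir_density {K : Type u} [Field K] [NumberField K] (D : ℕ) (hD : 2 ≤ D) (c : K[X])
    {I : Type} [Fintype I] (f : I → K[X][X]) (e : I → ℕ) (θ : AlgebraicClosure K)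
    (hc : aeval θ c = 0) (hc' : aeval θ (derivative c) ≠ 0)
    (hdeg : (fibre (∏ i, f i) θ).natDegree = (∏ i, f i).natDegree)
    (hsep : (fibre (∏ i, f i) θ).Separable)
    (hadm : Adm (Nat.gcd 2 D * D) (∏ i, f i) θ) (ε : ℝ) (hε : 0 < ε) :
    ∃ J : Ideal (𝓞 K), J ≠ ⊥ ∧ (Set.ncard ((Ideal.Quotient.mk J) ''
      {t : 𝓞 K | ¬ ∀ (L : Type y) [Field L] [Algebra K L] [FiniteDimensional K L] (m : ℤ),
          ¬ (D : ℤ) ∣ m * Module.finrank K L → ∀ n : ℕ, D ∣ n →
          BirFine.{v, w, y} D n (algebraMap K L (c.eval (algebraMap (𝓞 K) K t) ^ m))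
            ((∏ i, fibre (f i) (algebraMap (𝓞 K) K t)).map (algebraMap K L))
            ((∏ i, fibre (f i) (algebraMap (𝓞 K) K t) ^ e i).map (algebraMap K L))}) : ℝ) ≤
      ε * Nat.card (𝓞 K ⧸ J) := by
  classical
  choose N0 hN0 hN0i using fun i => fibre_int (f i)
  refine dz_avoid (Nat.gcd 2 D * D) (∏ i, N0 i) (Finset.prod_ne_zero_iff.2 fun i _ => hN0 i) c
    (∏ i, f i) θ hc hc' hdeg hsep hadm _ ?_ ε hε
  intro t ht v P g N hqv hat
  apply ht
  obtain ⟨hloc, hPd, hg, hg', hN, hmap, hval⟩ := hat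
  have hinj : Function.Injective (algebraMap (𝓞 K) K) := IsFractionRing.injective (𝓞 K) K
  have hNK : algebraMap (𝓞 K) K N ≠ 0 := by
    rw [Ne, map_eq_zero_iff _ hinj]
    rintro rfl
    exact hN (zero_mem _)
  have hfp : fibre (∏ i, f i) (algebraMap (𝓞 K) K t) =
      ∏ i, fibre (f i) (algebraMap (𝓞 K) K t) := by
    unfold fibre
    rw [Polynomial.map_prod]
  intro L _ _ _ m hm n hDn
  have key := bir_loc.{u, v, w, y} v D hD P hloc g N hg hg' hN (-m) m
    (fun i => fibre (f i) (algebraMap (𝓞 K) K t)) e (by rw [hmap, hfp]) (∏ i, N0 i) hqv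
    (fun i => hN0i i t _ (Finset.dvd_prod_of_mem N0 (Finset.mem_univ i))) (L := L) hm n hDn
  have hcoef : algebraMap (𝓞 K) K N ^ (-m) * algebraMap (𝓞 K) K g ^ m =
      c.eval (algebraMap (𝓞 K) K t) ^ m := by
    rw [hval, mul_zpow, ← mul_assoc, ← zpow_add₀ hNK, neg_add_cancel, zpow_zero, one_mul]
  rw [hcoef] at key
  exact key

end Pool.Agent.X281.SE
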