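import Pool.Agent.TH377.Sup.Cnt

/-!
# Counting irreducible polynomials of any degree
-/

set_option autoImplicit false

namespace Pool.Agent.X281.SE

open Polynomial
open Pool.Agent.TH377.Sup

universe u v

variable (κ : Type u) [Field κ] [Finite κ]

lemma few1 (E : Type v) [Field E] [Algebra κ E] [Finite E] (d : ℕ) (hd : 1 ≤ d)
    (hE : Module.finrank κ E = d) :
    4 * {z : E | (minpoly κ z).natDegree ≠ d}.ncard ≤ 2 * Nat.card E := by
  classical
  by_cases h3 : 3 ≤ d
  · exact few κ E d h3 hE
  set q := Nat.card κ with hq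
  have hq2 : 2 ≤ q := Finite.one_lt_card
  have hfd : FiniteDimensional κ E := Module.finite_of_finrank_pos (by omega)
  have hcardE : Nat.card E = q ^ d := by rw [← hE, Module.natCard_eq_pow_finrank (K := κ)]
  have hdvd : ∀ z : E, (minpoly κ z).natDegree ∣ d := by
    intro z
    rw [← hE]
    exact minpoly.degree_dvd (Algebra.IsIntegral.isIntegral z)
  rcases (show d = 1 ∨ d = 2 by omega) with rfl | rfl
  · have h1 : {z : E | (minpoly κ z).natDegree ≠ 1} = ∅ := by
      ext z
      simp only [Set.mem_setOf_eq, Set.mem_empty_iff_false, iff_false, not_not]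
      exact Nat.dvd_one.1 (hdvd z)
    rw [h1, Set.ncard_empty]
    omega
  · have h1 : {z : E | (minpoly κ z).natDegree ≠ 2} ⊆ Set.range (algebraMap κ E) := by
      intro z hz
      have h2 : (minpoly κ z).natDegree = 1 := by
        rcases (Nat.dvd_prime Nat.prime_two).1 (hdvd z) with h3 | h3
        · exact h3
        · exact absurd h3 hz
      exact minpoly.natDegree_eq_one_iff.1 h2
    have h2 : (Set.range (algebraMap κ E)).ncard = q := by
      rw [← Set.image_univ, Set.ncard_image_of_injective _ (algebraMap κ E).injective,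
        Set.ncard_univ]
    have h4 := Set.ncard_le_ncard h1 (Set.toFinite _)
    rw [h2] at h4
    rw [hcardE]
    nlinarith

theorem irr_card1 (d : ℕ) (hd : 1 ≤ d) :
    (Nat.card κ - 1) * Nat.card κ ^ d ≤ 2 * d * (Irr κ d).ncard := by
  classical
  obtain ⟨p, hp⟩ := CharP.exists κ
  have hpp : Fact p.Prime := ⟨CharP.char_is_prime κ p⟩
  have hnz : NeZero d := ⟨by omega⟩
  let E := FiniteField.Extension κ p d
  have hE : Module.finrank κ E = d := FiniteField.finrank_extension κ p d
  have hcard : Nat.card E = Nat.card κ ^ d := FiniteField.natCard_extension κ p d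
  have hfe := few1 κ E d hd hE
  have hFE : Fintype E := Fintype.ofFinite E
  have hFκ : Fintype κ := Fintype.ofFinite κ
  set B : Set E := {z : E | (minpoly κ z).natDegree ≠ d} with hB
  set G : Finset E := Finset.univ.filter fun z => (minpoly κ z).natDegree = d with hG
  have hGB : G.card + B.ncard = Nat.card E := by
    have h1 : (G : Set E) = Bᶜ := by
      ext z
      simp [hG, hB]
    rw [← Set.ncard_coe_finset, h1, add_comm, Set.ncard_add_ncard_compl]
  let T : Finset (Fin (d + 1) → κ) := (Set.toFinite (Irr κ d)).toFinset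
  have hT : T.card = (Irr κ d).ncard := (Set.ncard_eq_toFinset_card _ _).symm
  let Φ : κˣ × E → (Fin (d + 1) → κ) := fun x i => (C (x.1 : κ) * minpoly κ x.2).coeff i
  have hΦ : ∀ x : κˣ × E, x.2 ∈ G → pol (Φ x) = C (x.1 : κ) * minpoly κ x.2 := by
    intro x hx
    refine pol_of _ ?_
    rw [natDegree_C_mul x.1.ne_zero]
    exact le_of_eq (Finset.mem_filter.1 hx).2
  have hlast : ∀ x : κˣ × E, x.2 ∈ G → Φ x (Fin.last d) = x.1 := by
    intro x hx
    have h1 : (minpoly κ x.2).natDegree = d := (Finset.mem_filter.1 hx).2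
    have hmon : (minpoly κ x.2).Monic := minpoly.monic (Algebra.IsIntegral.isIntegral x.2)
    change (C (x.1 : κ) * minpoly κ x.2).coeff ((Fin.last d : Fin (d + 1)) : ℕ) = _
    rw [Fin.val_last, coeff_C_mul]
    have h2 : (minpoly κ x.2).coeff d = 1 := by
      have := hmon.coeff_natDegree
      rwa [h1] at this
    rw [h2, mul_one]
  have key := Finset.card_le_mul_card_image_of_maps_to (f := Φ)
    (s := (Finset.univ : Finset κˣ) ×ˢ G) (t := T) (by
      intro x hx
      have hx2 : x.2 ∈ G := (Finset.mem_product.1 hx).2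
      rw [Set.Finite.mem_toFinset]
      refine ⟨?_, ?_⟩
      · rw [hlast x hx2]
        exact x.1.ne_zero
      · rw [hΦ x hx2]
        have hirr := minpoly.irreducible (Algebra.IsIntegral.isIntegral (R := κ) x.2)
        exact (irreducible_isUnit_mul (isUnit_C.2 x.1.isUnit)).2 hirr) d (by
      intro c hc
      rw [Set.Finite.mem_toFinset] at hc
      have h0 : (pol c).map (algebraMap κ E) ≠ 0 :=
        (Polynomial.map_ne_zero_iff (algebraMap κ E).injective).2 hc.2.ne_zero
      have h1 : ((((Finset.univ : Finset κˣ) ×ˢ G).filter fun x => Φ x = c).image Prod.snd).card ≤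
          d := by
        have h2 : (((Finset.univ : Finset κˣ) ×ˢ G).filter fun x => Φ x = c).image Prod.snd ⊆
            ((pol c).map (algebraMap κ E)).roots.toFinset := by
          intro z hz
          obtain ⟨x, hx, rfl⟩ := Finset.mem_image.1 hz
          obtain ⟨hx1, hx2⟩ := Finset.mem_filter.1 hx
          rw [Multiset.mem_toFinset, mem_roots h0, IsRoot.def, ← hx2,
            hΦ x (Finset.mem_product.1 hx1).2, eval_map_algebraMap, map_mul, minpoly.aeval,
            mul_zero]
        refine (Finset.card_le_card h2).trans ((Multiset.toFinset_card_le _).trans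
          ((card_roots' _).trans ?_))
        exact natDegree_map_le.trans (pol_natDegree_le c)
      rwa [Finset.card_image_of_injOn] at h1
      intro x hx y hy hxy
      obtain ⟨hx1, hx2⟩ := Finset.mem_filter.1 (Finset.mem_coe.1 hx)
      obtain ⟨hy1, hy2⟩ := Finset.mem_filter.1 (Finset.mem_coe.1 hy)
      refine Prod.ext ?_ hxy
      apply Units.ext
      rw [← hlast x (Finset.mem_product.1 hx1).2, ← hlast y (Finset.mem_product.1 hy1).2, hx2,
        hy2])
  rw [Finset.card_product, hT, Finset.card_univ, ← Nat.card_eq_fintype_card, Nat.card_units] at key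
  have h6 : Nat.card κ ^ d ≤ 2 * G.card := by
    rw [← hcard]
    omega
  calc (Nat.card κ - 1) * Nat.card κ ^ d ≤ (Nat.card κ - 1) * (2 * G.card) :=
        Nat.mul_le_mul_left _ h6
    _ = 2 * ((Nat.card κ - 1) * G.card) := by ring
    _ ≤ 2 * (d * (Irr κ d).ncard) := Nat.mul_le_mul_left _ key
    _ = 2 * d * (Irr κ d).ncard := by ring

end Pool.Agent.X281.SE
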