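import Pool.Agent.X281.SE.Idx

/-!
# Density theorem with residue fields whose orders are `1` modulo a prime number
-/

set_option autoImplicit false

namespace Pool.Agent.X281.SEA

open Polynomial WithZero NumberField IsDedekindDomain Pool.Agent.W858.SF Pool.Agent.W858.SG
open Pool.Agent.TH120.Sec (red pr pr_surj finite_sq ker_ncard card_residue)
open Pool.Agent.TH377.Sup (val_eq_of)

universe u v w x y

/-- a positive proportion of the vectors over large finite fields with `q ≡ 1` modulo `M` elements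
satisfies the condition -/
def ManyM (M : ℕ) {N : ℕ} (P : Cond N) (δ : ℝ) (q₀ : ℕ) : Prop :=
  ∀ (κ : Type) [Field κ] [Finite κ], q₀ ≤ Nat.card κ → M ∣ Nat.card κ - 1 →
    δ * (Nat.card κ : ℝ) ^ N ≤ ({c | P κ c} : Set (Fin N → κ)).ncard

section count

variable {K : Type} [Field K] [NumberField K] (v : HeightOneSpectrum (𝓞 K))

/-- the complement of the good vectors -/
lemma badV_cardM {N : ℕ} (P : Cond N) (M : ℕ) (δ : ℝ) (q₀ : ℕ) (hPδ : ManyM M P δ q₀)
    (hv : q₀ ≤ Ideal.absNorm v.asIdeal) (hvM : M ∣ Ideal.absNorm v.asIdeal - 1) :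
    (((GoodV v P)ᶜ).ncard : ℝ) ≤ (1 - δ * (1 / (Ideal.absNorm v.asIdeal : ℝ) -
      1 / (Ideal.absNorm v.asIdeal : ℝ) ^ 2)) * ((Ideal.absNorm v.asIdeal : ℝ) ^ 2) ^ (N + 1) := by
  classical
  have hfin := finite_sq v
  have hmax : v.asIdeal.IsMaximal := v.isMaximal
  have hfin' : Finite (𝓞 K ⧸ v.asIdeal) := Ideal.finiteQuotientOfFreeOfNeBot _ v.ne_bot
  have h1 := goodV_card v P
  have h2 : (GoodV v P).ncard + ((GoodV v P)ᶜ).ncard = (Ideal.absNorm v.asIdeal ^ 2) ^ (N + 1) := by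
    rw [Set.ncard_add_ncard_compl, Nat.card_fun, Pool.Agent.W417.SecC.D2.card_sq, Nat.card_fin]
  have hcard : Nat.card (𝓞 K ⧸ v.asIdeal) = Ideal.absNorm v.asIdeal := card_residue v
  have hX : δ * (Ideal.absNorm v.asIdeal : ℝ) ^ N ≤
      ({c | CondMod P v c} : Set (Fin N → 𝓞 K ⧸ v.asIdeal)).ncard := by
    letI := Ideal.Quotient.field v.asIdeal
    have h3 := hPδ (𝓞 K ⧸ v.asIdeal) (by rw [hcard]; exact hv) (by rw [hcard]; exact hvM)
    rw [hcard] at h3
    exact h3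
  set M' := Ideal.absNorm v.asIdeal with hM'
  have hN2 : 2 ≤ M' := by
    by_contra h
    have h3 : M' = 0 ∨ M' = 1 := by omega
    rcases h3 with h3 | h3
    · exact absurd h3 (Pool.Agent.W417.SecC.D2.norm_pos v).ne'
    · rw [hM', Ideal.absNorm_eq_one_iff] at h3
      exact v.isPrime.ne_top h3
  have h3 : ((GoodV v P).ncard : ℝ) + (((GoodV v P)ᶜ).ncard : ℝ) = ((M' : ℝ) ^ 2) ^ (N + 1) := by
    exact_mod_cast h2
  have hNr : (2 : ℝ) ≤ M' := by exact_mod_cast hN2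
  have h4 : ((M' : ℝ) - 1) * ({c | CondMod P v c} : Set (Fin N → 𝓞 K ⧸ v.asIdeal)).ncard *
      (M' : ℝ) ^ N ≤ ((GoodV v P).ncard : ℝ) := by
    have h5 : ((M' - 1 : ℕ) : ℝ) = (M' : ℝ) - 1 := by
      rw [Nat.cast_sub (by omega)]
      norm_num
    rw [← h5]
    exact_mod_cast h1
  have h5 : ((M' : ℝ) - 1) * (δ * (M' : ℝ) ^ N) * (M' : ℝ) ^ N ≤ ((GoodV v P).ncard : ℝ) := by
    refine le_trans ?_ h4
    gcongr
    linarith
  have h6 : (1 - δ * (1 / (M' : ℝ) - 1 / (M' : ℝ) ^ 2)) * ((M' : ℝ) ^ 2) ^ (N + 1) =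
      ((M' : ℝ) ^ 2) ^ (N + 1) - ((M' : ℝ) - 1) * (δ * (M' : ℝ) ^ N) * (M' : ℝ) ^ N := by
    have hN0 : (M' : ℝ) ≠ 0 := by linarith
    have h7 : ((M' : ℝ) ^ 2) ^ (N + 1) = (M' : ℝ) ^ 2 * ((M' : ℝ) ^ N * (M' : ℝ) ^ N) := by ring
    rw [h7]
    field_simp
  rw [h6]
  linarith


end count

theorem density_vecM {N : ℕ} (P' : Cond N) (hP' : Desc P') (δ : ℝ) (hδ : 0 < δ) (hδ1 : δ ≤ 1)
    (q₀ : ℕ) (M₀ : ℕ) (hM₀ : M₀.Prime) (hmany : ManyM M₀ P' δ q₀) {R k : Type} [CommRing R] [Field k] [CharZero k] [Algebra R k]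
    {L : Type} [Field L] [NumberField L] (P : R →+* L)
    (hemb : AE fun v : HeightOneSpectrum (𝓞 L) => (∀ r, v.valuation L (P r) ≤ 1) ∧
      ∃ ψ : k →+* v.adicCompletion L,
        ∀ r, vv v (ψ (algebraMap R k r) - algebraMap L (v.adicCompletion L) (P r)) ≤ exp (-2))
    (hM : ∃ M : ℤ, M ≠ 0 ∧ ∀ y : 𝓞 L, ∃ r : R, (M : L) * algebraMap (𝓞 L) L y = P r)
    (q : ℕ) (hq : q ≠ 0) (ε : ℝ) (hε : 0 < ε) :
    ∃ q' : ℕ, q' ≠ 0 ∧ ∃ I : Ideal R, Finite (R ⧸ I) ∧
      (Set.ncard ((fun (c : Fin (N + 1) → R) i => Ideal.Quotient.mk I (c i)) ''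
        {c | ¬ GoodC P' q q' k c}) : ℝ) ≤ ε * (Nat.card (R ⧸ I) : ℝ) ^ (N + 1) := by
  classical
  obtain ⟨M, hM0, hM⟩ := hM
  obtain ⟨N1, hN1, hemb⟩ := hemb
  have hMO : (M : 𝓞 L) ≠ 0 := by exact_mod_cast hM0
  have hqf : q * q₀.factorial ≠ 0 := mul_ne_zero hq (Nat.factorial_ne_zero _)
  obtain ⟨T, hT, hTε⟩ := Pool.Agent.TH120.Sec.supply_split M₀ hM₀
    (N1 * (M : 𝓞 L) * ((q * q₀.factorial : ℕ) : 𝓞 L))
    (mul_ne_zero (mul_ne_zero hN1 hMO) (Nat.cast_ne_zero.2 hqf)) δ hδ hδ1 ε hε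
  have hTN1 : ∀ v ∈ T, N1 ∉ v.asIdeal := fun v hv h => (hT v hv).1
    (Ideal.mul_mem_right _ _ (Ideal.mul_mem_right _ _ h))
  have hTM : ∀ v ∈ T, (M : 𝓞 L) ∉ v.asIdeal := fun v hv h => (hT v hv).1
    (Ideal.mul_mem_right _ _ (Ideal.mul_mem_left _ _ h))
  have hT2 : ∀ v ∈ T, ((q : ℕ) : 𝓞 L) ∉ v.asIdeal := fun v hv h => (hT v hv).1 (by
    rw [Nat.cast_mul]
    exact Ideal.mul_mem_left _ _ (Ideal.mul_mem_right _ _ h))
  have hTq : ∀ v ∈ T, q₀ ≤ Ideal.absNorm v.asIdeal := fun v hv => by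
    by_contra h
    push Not at h
    have h0 : Ideal.absNorm v.asIdeal ≠ 0 := (Pool.Agent.W417.SecC.D2.norm_pos v).ne'
    obtain ⟨r, hr⟩ := Nat.dvd_factorial (Nat.pos_of_ne_zero h0) h.le
    apply (hT v hv).1
    rw [Nat.cast_mul, hr, Nat.cast_mul]
    exact Ideal.mul_mem_left _ _ (Ideal.mul_mem_left _ _ (Ideal.mul_mem_right _ _
      (Ideal.absNorm_mem _)))
  have hPint : ∀ v ∈ T, ∀ r, v.valuation L (P r) ≤ 1 := fun v hv => (hemb v (hTN1 v hv)).1
  set q' : ℕ := ∏ v ∈ T, Ideal.absNorm v.asIdeal with hq'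
  have hq'0 : q' ≠ 0 := Finset.prod_ne_zero_iff.2 fun v _ => by
    rw [Ne, Ideal.absNorm_eq_zero_iff]
    exact v.ne_bot
  have hq'T : ∀ v ∈ T, ((q' : ℕ) : 𝓞 L) ∈ v.asIdeal := fun v hv => by
    obtain ⟨c, hc⟩ := Finset.dvd_prod_of_mem (fun v : HeightOneSpectrum (𝓞 L) =>
      Ideal.absNorm v.asIdeal) hv
    rw [hq', hc, Nat.cast_mul]
    exact Ideal.mul_mem_right _ _ (Ideal.absNorm_mem _)
  -- the good coefficients
  have hfine : ∀ v ∈ T, ∀ (c : Fin (N + 1) → R) (y : Fin (N + 1) → 𝓞 L),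
      (∀ i, v.valuation L (P (c i) - algebraMap (𝓞 L) L (y i)) ≤ exp (-2)) →
      red (v.asIdeal ^ 2) (N + 1) y ∈ GoodV v P' → GoodC P' q q' k c := by
    intro v hv c y hcy hy
    obtain ⟨hint, ψ, hψ⟩ := hemb v (hTN1 v hv)
    obtain ⟨g1, g2, g3⟩ := good_iff v P' y hy
    exact good_embR P' hP' v P ψ hint hψ q q' (hT2 v hv) (hq'T v hv) c y hcy g1 g2 g3
  set E : Set (Fin (N + 1) → R) := {c | ¬ GoodC P' q q' k c} with hE
  set J := ∏ v ∈ T, v.asIdeal ^ 2 with hJ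
  have hJ0 : J ≠ ⊥ := Finset.prod_ne_zero_iff.2 fun v _ => pow_ne_zero _ v.ne_bot
  have hfinJ : Finite (𝓞 L ⧸ J) := Ideal.finiteQuotientOfFreeOfNeBot _ hJ0
  -- the ideal
  let I : Ideal R :=
    { carrier := {r | ∀ v ∈ T, v.valuation L (P r) ≤ exp (-2)}
      add_mem' := by
        intro r s hr hs v hv
        rw [map_add]
        exact (Valuation.map_add _ _ _).trans (max_le (hr v hv) (hs v hv))
      zero_mem' := by
        intro v hv
        rw [map_zero, map_zero]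
        exact zero_le
      smul_mem' := by
        intro r s hs v hv
        rw [smul_eq_mul, map_mul, map_mul, mul_comm]
        exact mul_le_of_le_of_le_one (hs v hv) (hPint v hv r) }
  have hImem : ∀ r, r ∈ I ↔ ∀ v ∈ T, v.valuation L (P r) ≤ exp (-2) := fun r => Iff.rfl
  have hcl : ∀ r r' : R, ∀ y y' : 𝓞 L,
      (∀ v ∈ T, v.valuation L (P r - algebraMap (𝓞 L) L y) ≤ exp (-2)) →
      (∀ v ∈ T, v.valuation L (P r' - algebraMap (𝓞 L) L y') ≤ exp (-2)) →
      (r - r' ∈ I ↔ y - y' ∈ J) := by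
    intro r r' y y' h1 h2
    rw [hImem, hJ, mem_prod_iff]
    refine forall₂_congr fun v hv => ?_
    rw [← val_le_iff]
    constructor
    · intro h3
      have h5 : algebraMap (𝓞 L) L (y - y') = P (r - r') - ((P r - algebraMap (𝓞 L) L y) -
        (P r' - algebraMap (𝓞 L) L y')) := by
        rw [map_sub, map_sub]
        ring
      rw [h5]
      exact (Valuation.map_sub _ _ _).trans (max_le h3
        ((Valuation.map_sub _ _ _).trans (max_le (h1 v hv) (h2 v hv))))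
    · intro h3
      have h5 : P (r - r') = algebraMap (𝓞 L) L (y - y') + ((P r - algebraMap (𝓞 L) L y) -
        (P r' - algebraMap (𝓞 L) L y')) := by
        rw [map_sub, map_sub]
        ring
      rw [h5]
      exact (Valuation.map_add _ _ _).trans (max_le h3
        ((Valuation.map_sub _ _ _).trans (max_le (h1 v hv) (h2 v hv))))
  have hex : ∀ r : R, ∃ y : 𝓞 L,
      ∀ v ∈ T, v.valuation L (P r - algebraMap (𝓞 L) L y) ≤ exp (-2) := fun r =>
    exists_int_near T (P r) fun v hv => hPint v hv r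
  choose Y hY using hex
  have hsurj : ∀ y : 𝓞 L, ∃ r : R,
      ∀ v ∈ T, v.valuation L (P r - algebraMap (𝓞 L) L y) ≤ exp (-2) := by
    intro y
    obtain ⟨r0, hr0⟩ := hM y
    obtain ⟨j, hj⟩ := exists_pow_one T (M : 𝓞 L) hTM
    refine ⟨(M : R) ^ j * r0, fun v hv => ?_⟩
    have h1 : P ((M : R) ^ j * r0) - algebraMap (𝓞 L) L y =
        algebraMap (𝓞 L) L (((M : 𝓞 L) ^ (j + 1) - 1) * y) := by
      rw [map_mul, ← hr0, map_pow, map_intCast]
      simp only [map_mul, map_sub, map_pow, map_intCast, map_one]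
      ring
    rw [h1, val_le_iff]
    exact Ideal.mul_mem_right _ _ ((mem_prod_iff T _).1 hj v hv)
  let b : R ⧸ I → 𝓞 L ⧸ J := fun q => Ideal.Quotient.mk J (Y (Quotient.out q))
  have hout : ∀ q : R ⧸ I, Ideal.Quotient.mk I (Quotient.out q) = q := fun q =>
    Quotient.out_eq q
  have hbmk : ∀ (r : R) (y : 𝓞 L),
      (∀ v ∈ T, v.valuation L (P r - algebraMap (𝓞 L) L y) ≤ exp (-2)) →
      b (Ideal.Quotient.mk I r) = Ideal.Quotient.mk J y := by
    intro r y hry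
    change Ideal.Quotient.mk J _ = _
    rw [Ideal.Quotient.eq]
    refine (hcl _ r _ y (hY _) hry).1 ?_
    rw [← Ideal.Quotient.eq]
    exact hout _
  have hbinj : Function.Injective b := by
    intro q q' hqq
    have h1 := Ideal.Quotient.eq.1 hqq
    rw [← hcl (Quotient.out q) (Quotient.out q') _ _ (hY _) (hY _), ← Ideal.Quotient.eq, hout,
      hout] at h1
    exact h1
  have hbsurj : Function.Surjective b := by
    intro z
    obtain ⟨y, rfl⟩ := Ideal.Quotient.mk_surjective z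
    obtain ⟨r, hr⟩ := hsurj y
    exact ⟨Ideal.Quotient.mk I r, hbmk r y hr⟩
  have hfinI : Finite (R ⧸ I) := Finite.of_injective b hbinj
  have hcard : Nat.card (R ⧸ I) = Nat.card (𝓞 L ⧸ J) :=
    Nat.card_congr (Equiv.ofBijective b ⟨hbinj, hbsurj⟩)
  refine ⟨q', hq'0, I, hfinI, ?_⟩
  -- counting in the number field
  set E' : Set (Fin (N + 1) → 𝓞 L) := {y | ∃ c ∈ E, ∀ v ∈ T, ∀ i,
    v.valuation L (P (c i) - algebraMap (𝓞 L) L (y i)) ≤ exp (-2)} with hE'
  obtain ⟨e, he⟩ := Pool.Agent.W417.SecC.D2.crt T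
  have hfinv : ∀ v : T, Finite (𝓞 L ⧸ v.1.asIdeal ^ 2) := fun v =>
    Pool.Agent.TH120.Sec.finite_sq v.1
  have hcardJ : (Nat.card (𝓞 L ⧸ J) : ℝ) = ∏ v ∈ T, (Ideal.absNorm v.asIdeal : ℝ) ^ 2 := by
    rw [hJ, Nat.card_congr e.toEquiv, Nat.card_pi, ← Finset.prod_coe_sort T]
    push_cast
    refine Finset.prod_congr rfl fun v _ => ?_
    rw [Pool.Agent.W417.SecC.D2.card_sq]
    push_cast
    rfl
  have hbad : ∀ y ∈ E', ∀ v : T, red (v.1.asIdeal ^ 2) (N + 1) y ∈ (GoodV v.1 P')ᶜ := by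
    rintro y ⟨c, hc, hcy⟩ v hy
    exact hc (hfine v.1 v.2 c y (hcy v.1 v.2) hy)
  have h1 := Pool.Agent.TH120.Sec.countd J T (fun v => v.1.asIdeal ^ 2) e he hfinv (N + 1) E'
    (fun v => (GoodV v.1 P')ᶜ) hbad
  have h1' : ((red J (N + 1) '' E').ncard : ℝ) ≤ ∏ v : T, (((GoodV v.1 P')ᶜ).ncard : ℝ) := by
    exact_mod_cast h1
  have h2 := Pool.Agent.TH120.Sec.prod_bound T (fun v : T => (((GoodV v.1 P')ᶜ).ncard : ℝ))
    (fun v => (1 - δ * (1 / (Ideal.absNorm v.asIdeal : ℝ) -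
        1 / (Ideal.absNorm v.asIdeal : ℝ) ^ 2)))
    (fun v => ((Ideal.absNorm v.asIdeal : ℝ) ^ 2) ^ (N + 1)) (fun _ => Nat.cast_nonneg _)
    (fun v => badV_cardM v.1 P' M₀ δ q₀ hmany (hTq v.1 v.2) (hT v.1 v.2).2)
  have h3 : ((red J (N + 1) '' E').ncard : ℝ) ≤ ε * (Nat.card (𝓞 L ⧸ J) : ℝ) ^ (N + 1) := by
    refine (h1'.trans h2).trans ?_
    rw [Finset.prod_pow, hcardJ]
    exact mul_le_mul_of_nonneg_right hTε.le
      (pow_nonneg (Finset.prod_nonneg fun _ _ => sq_nonneg _) _)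
  have hle : Set.ncard ((fun (c : Fin (N + 1) → R) i => Ideal.Quotient.mk I (c i)) '' E) ≤
      Set.ncard (red J (N + 1) '' E') := by
    have hfr : Finite (Fin (N + 1) → 𝓞 L ⧸ J) := inferInstance
    refine Set.ncard_le_ncard_of_injOn (fun q i => b (q i)) ?_ ?_ (Set.toFinite _)
    · rintro _ ⟨c, hc, rfl⟩
      refine ⟨fun i => Y (c i), ⟨c, hc, fun v hv i => hY (c i) v hv⟩, ?_⟩
      funext i
      exact (hbmk (c i) _ (hY (c i))).symm
    · intro q _ q' _ h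
      funext i
      exact hbinj (congrFun h i)
  rw [hcard]
  exact le_trans (by exact_mod_cast hle) h3

theorem density_auxM {N : ℕ} (P' : Cond N) (hP' : Desc P') (δ : ℝ) (hδ : 0 < δ) (hδ1 : δ ≤ 1)
    (q₀ : ℕ) (M₀ : ℕ) (hM₀ : M₀.Prime) (hmany : ManyM M₀ P' δ q₀) {R k : Type} [CommRing R] [IsDomain R] [Field k] [CharZero k]
    [Algebra R k] [IsFractionRing R k] (G : Finset R) (hG : Algebra.adjoin ℤ (G : Set R) = ⊤)
    {m : ℕ} {Q : Type} [Field Q] [Algebra (MvPolynomial (Fin m) ℚ) Q]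
    [IsFractionRing (MvPolynomial (Fin m) ℚ) Q] [Algebra Q k]
    [Algebra (MvPolynomial (Fin m) ℚ) k] [IsScalarTower (MvPolynomial (Fin m) ℚ) Q k]
    [Algebra.IsAlgebraic Q k] [Algebra.EssFiniteType ℤ k] (q : ℕ) (hq : q ≠ 0)
    (ε : ℝ) (hε : 0 < ε) :
    ∃ q' : ℕ, q' ≠ 0 ∧ ∃ I : Ideal R, Finite (R ⧸ I) ∧
      (Set.ncard ((fun (c : Fin (N + 1) → R) i => Ideal.Quotient.mk I (c i)) ''
        {c | ¬ GoodC P' q q' k c}) : ℝ) ≤ ε * (Nat.card (R ⧸ I) : ℝ) ^ (N + 1) := by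
  classical
  have e4 : Algebra.EssFiniteType Q k := Algebra.EssFiniteType.of_comp ℤ Q k
  have hfin : FiniteDimensional Q k := Algebra.finite_of_essFiniteType_of_isAlgebraic
  have hinjk : Function.Injective (algebraMap R k) := IsFractionRing.injective R k
  have hczQ : CharZero Q := charZero_of_injective_algebraMap
    (IsFractionRing.injective (MvPolynomial (Fin m) ℚ) Q)
  obtain ⟨α, hgen, hα⟩ := Pool.Agent.H298R2.Kuyk.exists_prim (MvPolynomial (Fin m) ℚ) Q k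
  have hDNex : ∀ r : R, ∃ (D : MvPolynomial (Fin m) ℚ) (N : (MvPolynomial (Fin m) ℚ)[X]),
      D ≠ 0 ∧ algebraMap _ k D * algebraMap R k r = aeval α N := by
    intro r
    obtain ⟨p, -, hp⟩ := H33.V4.exists_rep (Q := Q) α hgen (algebraMap R k r)
    obtain ⟨D, hD, hDp⟩ := IsLocalization.integerNormalization_spec
      (nonZeroDivisors (MvPolynomial (Fin m) ℚ)) p
    refine ⟨D, IsLocalization.integerNormalization (nonZeroDivisors (MvPolynomial (Fin m) ℚ)) p,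
      nonZeroDivisors.ne_zero hD, ?_⟩
    rw [← aeval_map_algebraMap Q, hDp, Algebra.smul_def, map_mul, hp]
    congr 1
    rw [IsScalarTower.algebraMap_apply (MvPolynomial (Fin m) ℚ) Q k,
      IsScalarTower.algebraMap_apply (MvPolynomial (Fin m) ℚ) Q Q[X]]
    simp
  choose D Nn hD hDN using hDNex
  obtain ⟨r0, s0, hs0, hα0⟩ := IsFractionRing.div_surjective (A := R) α
  have hs00 : s0 ≠ 0 := nonZeroDivisors.ne_zero hs0
  have hs0k : algebraMap R k s0 ≠ 0 := by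
    rw [Ne, map_eq_zero_iff _ hinjk]
    exact hs00
  have hα1 : algebraMap R k s0 * α = algebraMap R k r0 := by
    rw [← hα0]
    field_simp
  obtain ⟨L, _, _, P, c, β, hβtop, hβ, hβ', hDP, hPα, hU, -, -⟩ :=
    exists_spec (Q := Q) hinjk α hα hgen G hG D Nn (fun r _ => hDN r) (fun r _ => hD r)
      {s0} (by
        intro u hu
        simp only [Finset.mem_singleton] at hu
        rw [hu]
        exact hs00) (1 : R[X]) (by rw [Polynomial.map_one]; exact separable_one)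
        AlgEquiv.refl (fun θ hθ => by
          rw [Polynomial.map_one, map_one] at hθ
          exact absurd hθ one_ne_zero)
  have hemb := exists_emb (Q := Q) α hα hgen P G hG D Nn (fun r _ => hDN r) c β hβ hβ' hDP
  have hM := exists_mult P β hβtop r0 s0 (hU s0 (by simp)) (hPα r0 s0 hα1)
  exact density_vecM P' hP' δ hδ hδ1 q₀ M₀ hM₀ hmany P hemb hM q hq ε hε

theorem density_allM {N : ℕ} (P' : Cond N) (hP' : Desc P') (δ : ℝ) (hδ : 0 < δ) (hδ1 : δ ≤ 1)
    (q₀ : ℕ) (M₀ : ℕ) (hM₀ : M₀.Prime) (hmany : ManyM M₀ P' δ q₀) {R k : Type} [CommRing R] [IsDomain R] [CharZero R]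
    [Algebra.FiniteType ℤ R] [Field k] [Algebra R k] [IsFractionRing R k] (q : ℕ) (hq : q ≠ 0)
    (ε : ℝ) (hε : 0 < ε) :
    ∃ q' : ℕ, q' ≠ 0 ∧ ∃ I : Ideal R, Finite (R ⧸ I) ∧
      (Set.ncard ((fun (c : Fin (N + 1) → R) i => Ideal.Quotient.mk I (c i)) ''
        {c | ¬ GoodC P' q q' k c}) : ℝ) ≤ ε * (Nat.card (R ⧸ I) : ℝ) ^ (N + 1) := by
  classical
  have hcz : CharZero k := charZero_of_injective_algebraMap (IsFractionRing.injective R k)
  obtain ⟨G, hG⟩ := (inferInstance : Algebra.FiniteType ℤ R).out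
  have e1 : Algebra.EssFiniteType R k := Algebra.EssFiniteType.of_isLocalization k (nonZeroDivisors R)
  have e2 : Algebra.EssFiniteType ℤ k := Algebra.EssFiniteType.comp ℤ R k
  have e3 : Algebra.EssFiniteType ℚ k := Algebra.EssFiniteType.of_comp ℤ ℚ k
  obtain ⟨s, hs⟩ := IntermediateField.fg_top ℚ k
  have halg0 : Algebra.IsAlgebraic (Algebra.adjoin ℚ (s : Set k)) k := by
    rw [← IntermediateField.isAlgebraic_adjoin_iff_top, hs, Algebra.isAlgebraic_iff_isIntegral]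
    exact Algebra.isIntegral_of_surjective IntermediateField.topEquiv.surjective
  obtain ⟨t, hts, ht⟩ := exists_isTranscendenceBasis_subset (R := ℚ) (s : Set k)
  lift t to Finset k using s.finite_toSet.subset hts
  let m := t.card
  let e : Fin m ≃ t := t.equivFin.symm
  let x : Fin m → k := fun i => (e i : k)
  have hx : IsTranscendenceBasis ℚ x := (isTranscendenceBasis_equiv e).2 ht
  let _ : Algebra (MvPolynomial (Fin m) ℚ) k := (MvPolynomial.aeval x).toRingHom.toAlgebra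
  have hinj : Function.Injective (algebraMap (MvPolynomial (Fin m) ℚ) k) := hx.1
  let _ : Algebra (FractionRing (MvPolynomial (Fin m) ℚ)) k :=
    (IsFractionRing.lift (K := FractionRing (MvPolynomial (Fin m) ℚ)) hinj).toAlgebra
  have htow : IsScalarTower (MvPolynomial (Fin m) ℚ) (FractionRing (MvPolynomial (Fin m) ℚ)) k :=
    IsScalarTower.of_algebraMap_eq fun p => (IsFractionRing.lift_algebraMap hinj p).symm
  have hta : Algebra.IsAlgebraic (FractionRing (MvPolynomial (Fin m) ℚ)) k := by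
    refine ⟨fun y => ?_⟩
    obtain ⟨p, hp, hpy⟩ := hx.isAlgebraic.isAlgebraic y
    have h1 : IsAlgebraic (MvPolynomial (Fin m) ℚ) y := by
      refine ⟨p.map hx.1.aevalEquiv.symm.toRingEquiv.toRingHom, ?_, ?_⟩
      · exact (Polynomial.map_ne_zero_iff
          hx.1.aevalEquiv.symm.toRingEquiv.injective).2 hp
      · rw [aeval_def, eval₂_map]
        rw [aeval_def] at hpy
        have h2 : (algebraMap (MvPolynomial (Fin m) ℚ) k).comp
            hx.1.aevalEquiv.symm.toRingEquiv.toRingHom =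
            algebraMap (Algebra.adjoin ℚ (Set.range x)) k := by
          ext1 z
          obtain ⟨p, rfl⟩ := hx.1.aevalEquiv.surjective z
          rw [hx.1.algebraMap_aevalEquiv]
          change MvPolynomial.aeval x (hx.1.aevalEquiv.symm (hx.1.aevalEquiv p)) = _
          rw [AlgEquiv.symm_apply_apply]
        rw [h2]
        exact hpy
    exact h1.extendScalars (IsFractionRing.injective _ _)
  exact density_auxM P' hP' δ hδ hδ1 q₀ M₀ hM₀ hmany (m := m) (Q := FractionRing (MvPolynomial (Fin m) ℚ))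
    G hG q hq ε hε

end Pool.Agent.X281.SEA

namespace Pool.Agent.X281.SEI

open Polynomial
open Pool.Agent.X281.SEA

theorem density_idxM {ι : Type} [Fintype ι] (P : CondI ι)
    (hP : ∀ (κ κ' : Type) [Field κ] [Field κ'] (φ : κ →+* κ') (c : ι → κ),
      P κ' (fun i => φ (c i)) → P κ c) (δ : ℝ) (hδ : 0 < δ) (hδ1 : δ ≤ 1) (q₀ : ℕ)
    (M₀ : ℕ) (hM₀ : M₀.Prime)
    (hmany : ∀ (κ : Type) [Field κ] [Finite κ], q₀ ≤ Nat.card κ → M₀ ∣ Nat.card κ - 1 →
      δ * (Nat.card κ : ℝ) ^ Fintype.card ι ≤ ({c | P κ c} : Set (ι → κ)).ncard)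
    {R k : Type} [CommRing R] [IsDomain R] [CharZero R]
    [Algebra.FiniteType ℤ R] [Field k] [Algebra R k] [IsFractionRing R k] (n : ℕ) (q : ℕ)
    (hq : q ≠ 0) (ε : ℝ) (hε : 0 < ε) :
    ∃ Q : Fin n → ℕ × ℕ, (∀ j, q ∣ (Q j).1) ∧ (∀ i j, i < j → (Q i).2 ∣ (Q j).1) ∧
      ∃ I : Ideal R, Finite (R ⧸ I) ∧
      (Set.ncard ((fun (c : Option ι → R) i => Ideal.Quotient.mk I (c i)) ''
        {c | ¬ ∀ j, GoodV P (Q j).1 (Q j).2 k c}) : ℝ) ≤
        ε * (Nat.card (R ⧸ I) : ℝ) ^ Fintype.card (Option ι) := by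
  classical
  let P' : Cond (Fintype.card ι) := fun κ _ z => P κ fun i => z (Fintype.equivFin ι i)
  have hP' : Desc P' := fun κ κ' _ _ φ c h => hP κ κ' φ _ h
  have hmany' : ManyM M₀ P' δ q₀ := by
    intro κ _ _ hκ hκM
    refine (hmany κ hκ hκM).trans ?_
    have h1 : ({c | P κ c} : Set (ι → κ)).ncard ≤
        ({c | P' κ c} : Set (Fin (Fintype.card ι) → κ)).ncard := by
      refine Set.ncard_le_ncard_of_injOn
        (fun (c : ι → κ) (j : Fin (Fintype.card ι)) => c ((Fintype.equivFin ι).symm j)) ?_ ?_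
        (Set.toFinite _)
      · intro c hc
        change P κ fun i => c ((Fintype.equivFin ι).symm (Fintype.equivFin ι i))
        simp only [Equiv.symm_apply_apply]
        exact hc
      · intro z _ z' _ hz
        funext i
        have := congrFun hz (Fintype.equivFin ι i)
        simpa using this
    exact_mod_cast h1
  obtain ⟨Q, hQ1, hQ2, I, hI, hle⟩ := Pool.Agent.X281.SEN.density_iter (R := R)
    (M := Fintype.card ι + 1) (fun q q' c => GoodC P' q q' k c)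
    (fun q hq ε hε => density_allM P' hP' δ hδ hδ1 q₀ M₀ hM₀ hmany' q hq ε hε) n q hq ε hε
  refine ⟨Q, hQ1, hQ2, I, hI, ?_⟩
  rw [Fintype.card_option]
  refine le_trans ?_ hle
  have h1 := transport (idx ι) I {c | ¬ ∀ j, GoodC P' (Q j).1 (Q j).2 k c}
    {c | ¬ ∀ j, GoodV P (Q j).1 (Q j).2 k c} (by
      intro c hc hall
      exact hc fun j => goodV_of P _ _ k c (hall j))
  exact_mod_cast h1

end Pool.Agent.X281.SEI
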