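import Pool.Agent.X281.SE.Fam2
import Pool.Agent.TH377.NC.Gen

/-!
# Norm-form curves in one-parameter families
-/

set_option autoImplicit false

namespace Pool.Agent.X281.SE

open Pool.Agent.W620.SC Pool.Agent.W623.SecC Pool.Agent.TH120.Sec Pool.Agent.TH377.LocG
  Pool.Agent.TH377.NC
open Polynomial NumberField IsDedekindDomain

universe u v w x y z

theorem factorDiv_of_coprime {κ : Type*} [Field κ] [Finite κ] (N : ℕ) (P : κ[X])
    (h : ∀ n : ℕ, ¬ N ∣ n → IsCoprime (X ^ (Nat.card κ ^ n) - X) P) : FactorDiv N P := by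
  intro g hg hgP
  by_contra hN
  have hfact : Fact (Irreducible g) := ⟨hg⟩
  let M := AdjoinRoot g
  have hM : FiniteDimensional κ M := (AdjoinRoot.powerBasis hg.ne_zero).finite
  have hMf : Finite M := Module.finite_of_finite κ
  obtain ⟨a, b, hab⟩ := h g.natDegree hN
  have h1 := congrArg (aeval (AdjoinRoot.root g)) hab
  have hP0 : aeval (AdjoinRoot.root g) P = 0 := by
    obtain ⟨q, rfl⟩ := hgP
    rw [map_mul, AdjoinRoot.aeval_eq, AdjoinRoot.mk_self, zero_mul]
  have hcard : Nat.card M = Nat.card κ ^ g.natDegree := by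
    rw [Module.natCard_eq_pow_finrank (K := κ), (AdjoinRoot.powerBasis hg.ne_zero).finrank,
      AdjoinRoot.powerBasis_dim]
  have hX : aeval (AdjoinRoot.root g) (X ^ (Nat.card κ ^ g.natDegree) - X : κ[X]) = 0 := by
    have : Fintype M := Fintype.ofFinite M
    rw [map_sub, map_pow, aeval_X, ← hcard, Nat.card_eq_fintype_card, FiniteField.pow_card,
      sub_self]
  rw [map_add, map_mul, map_mul, hP0, hX, mul_zero, mul_zero, add_zero, map_one] at h1
  exact zero_ne_one h1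

section

variable {K : Type u} [Field K] [NumberField K] (v : HeightOneSpectrum (𝓞 K)) (D : ℕ)
  (hD : 2 ≤ D) (P : (𝓞 K)[X]) (hL : Loc v (Nat.gcd 2 D * D) P.natDegree P) (g N : 𝓞 K)
  (hg : g ∈ v.asIdeal) (hg' : g ∉ v.asIdeal ^ 2) (hN : N ∉ v.asIdeal) (k m : ℤ)
  {E : Type x} [Field E] [Algebra K E] [FiniteDimensional K E] (η : E)
  (hirr : Irreducible (P.map (algebraMap (𝓞 K) K))) (hadj : Algebra.adjoin K {η} = ⊤)
  (hη : aeval η (P.map (algebraMap (𝓞 K) K)) = 0)
  {L : Type y} [Field L] [Algebra K L] [FiniteDimensional K L]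
  (hm : ¬ (D : ℤ) ∣ m * Module.finrank K L) (n q : ℕ) (hDn : D ∣ n)
  (hnq : n * q = P.natDegree) (A : Fin 3 → E) (Q : MvPolynomial (Fin 3) K)
  (hQ : Q.IsHomogeneous q)
  (htr : ∀ σ τ : E →ₐ[K] AlgebraicClosure K, σ ≠ τ →
    MvPolynomial.aeval (crossProduct (fun j => σ (A j)) (fun j => τ (A j))) Q ≠ 0)

include hD hL hg hg' hN hirr hadj hη hm hDn hnq hQ htr

theorem norm_loc :
    (∀ x : Fin 3 → L, x ≠ 0 → ∏ σ : E →ₐ[K] AlgebraicClosure L,
        ∑ j, σ (A j) * algebraMap L (AlgebraicClosure L) (x j) ≠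
      algebraMap K (AlgebraicClosure L)
        (algebraMap (𝓞 K) K N ^ k * algebraMap (𝓞 K) K g ^ m) *
        MvPolynomial.aeval (fun j => algebraMap L (AlgebraicClosure L) (x j)) Q ^ n) ∧
    ∀ (F : Type v) (Ω : Type w) [Field F] [Field Ω] [Algebra L F] [Algebra F Ω] [Algebra L Ω]
      [Algebra K Ω] [IsScalarTower L F Ω] [IsScalarTower K L Ω] [IsAlgClosure F Ω]
      (x : Fin 3 → F) (U : Set (ValuationSubring F)), x ≠ 0 →
      ∏ σ : E →ₐ[K] Ω, ∑ j, σ (A j) * algebraMap F Ω (x j) =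
        algebraMap K Ω (algebraMap (𝓞 K) K N ^ k * algebraMap (𝓞 K) K g ^ m) *
          MvPolynomial.aeval (fun j => algebraMap F Ω (x j)) Q ^ n →
      (∀ O ∈ U, ∀ c : L, algebraMap L F c ∈ O) → IsEmpty (GSection L F Ω U) := by
  classical
  obtain ⟨-, hlc, hs, -, hodd⟩ := hL
  have hvm : v.asIdeal.IsMaximal := v.isMaximal
  obtain ⟨A', _, _, _, _, j, ε, hfin, hfr, hjK, hjr, hju, hbn⟩ := local_ring v
  obtain ⟨ϖ, t, hϖ, ht, hgt⟩ := hbn g 1 (by rwa [pow_one]) (by simpa using hg')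
  have hmap : (P.map j).map (IsLocalRing.residue A') =
      (P.map (Ideal.Quotient.mk v.asIdeal)).map
        (ε : (𝓞 K ⧸ v.asIdeal) →+* IsLocalRing.ResidueField A') := by
    rw [Polynomial.map_map, hjr, ← Polynomial.map_map]
  obtain ⟨u, hu⟩ := hju _ hlc
  have hlc0 : j P.leadingCoeff ≠ 0 := (hju _ hlc).ne_zero
  have hdeg : (P.map j).natDegree = P.natDegree := natDegree_map_of_leadingCoeff_ne_zero _ hlc0
  have hPK : P.map (algebraMap (𝓞 K) K) = (P.map j).map (algebraMap A' K) := by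
    rw [Polynomial.map_map, hjK]
  have hsA : ((P.map j).map (IsLocalRing.residue A')).Separable := by
    rw [hmap]
    exact hs.map
  -- the monic polynomial
  set G : A'[X] := C ((u⁻¹ : A'ˣ) : A') * P.map j with hG
  have hGm : G.Monic := by
    apply monic_C_mul_of_mul_leadingCoeff_eq_one
    rw [leadingCoeff_map_of_leadingCoeff_ne_zero _ hlc0, ← hu, Units.inv_mul]
  have huK : algebraMap A' K ((u⁻¹ : A'ˣ) : A') ≠ 0 :=
    ((u⁻¹).isUnit.map (algebraMap A' K)).ne_zero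
  have hur : IsLocalRing.residue A' ((u⁻¹ : A'ˣ) : A') ≠ 0 :=
    ((u⁻¹).isUnit.map (IsLocalRing.residue A')).ne_zero
  have hGK : G.map (algebraMap A' K) = C (algebraMap A' K ((u⁻¹ : A'ˣ) : A')) *
      P.map (algebraMap (𝓞 K) K) := by
    rw [hG, Polynomial.map_mul, map_C, hPK]
  have hint : IsIntegral K η := Algebra.IsIntegral.isIntegral η
  have hGmin : G.map (algebraMap A' K) = minpoly K η := by
    refine minpoly.eq_of_irreducible_of_monic ?_ ?_ (hGm.map _)
    · rw [hGK, irreducible_isUnit_mul (isUnit_C.2 huK.isUnit)]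
      exact hirr
    · rw [hGK, map_mul, hη, mul_zero]
  set pb : PowerBasis K E := PowerBasis.ofAdjoinEqTop hint hadj with hpb
  have hgen : pb.gen = η := PowerBasis.ofAdjoinEqTop_gen _ _
  have hGpb : G.map (algebraMap A' K) = minpoly K pb.gen := by rw [hgen, hGmin]
  have hGd : G.natDegree = P.natDegree := by
    rw [hG, natDegree_C_mul (u⁻¹).isUnit.ne_zero, hdeg]
  have hfinE : Module.finrank K E = P.natDegree := by
    rw [pb.finrank, ← pb.natDegree_minpoly, ← hGpb, hGm.natDegree_map, hGd]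
  have hGs : (G.map (IsLocalRing.residue A')).Separable := by
    rw [hG, Polynomial.map_mul, map_C]
    exact Separable.unit_mul (isUnit_C.2 hur.isUnit) hsA
  have hcard : Nat.card (IsLocalRing.ResidueField A') = Ideal.absNorm v.asIdeal := by
    rw [Ideal.absNorm_apply, Submodule.cardQuot_apply]
    exact (Nat.card_congr ε.toEquiv).symm
  have hN2 : Nat.gcd 2 D * D ≠ 2 := by
    intro h
    rcases Nat.even_or_odd D with h2 | h2
    · rw [Nat.gcd_eq_left h2.two_dvd] at h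
      omega
    · have h3 : Nat.gcd 2 D = 1 := (Nat.coprime_two_left.2 h2)
      rw [h3, one_mul] at h
      rw [h] at h2
      exact absurd h2 (by decide)
  have hGf : FactorDiv (Nat.gcd 2 D * D) (G.map (IsLocalRing.residue A')) := by
    apply factorDiv_of_coprime
    intro n hn
    have h1 := (hodd hN2 n hn).map (Polynomial.mapRingHom
      (ε : (𝓞 K ⧸ v.asIdeal) →+* IsLocalRing.ResidueField A'))
    rw [coe_mapRingHom, Polynomial.map_sub, Polynomial.map_pow, map_X, ← hmap] at h1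
    rw [hcard, hG, Polynomial.map_mul, map_C]
    refine IsCoprime.mul_right ?_ h1
    obtain ⟨b, hb⟩ := (isUnit_C.2 hur.isUnit).exists_left_inv
    exact ⟨0, b, by rw [zero_mul, zero_add]; exact hb⟩
  -- the coefficient
  obtain ⟨tN, htN⟩ := hju N hN
  obtain ⟨tg, htg⟩ := ht
  set t' : A' := ((tN ^ k * tg ^ m : A'ˣ) : A') with ht'
  have ht'u : IsUnit t' := (tN ^ k * tg ^ m).isUnit
  have hunit : ∀ (s : A'ˣ) (n : ℤ), algebraMap A' K ((s ^ n : A'ˣ) : A') =
      algebraMap A' K (s : A') ^ n := by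
    intro s n
    have h1 : Units.map (algebraMap A' K : A' →* K) (s ^ n) =
        (Units.map (algebraMap A' K : A' →* K) s) ^ n := map_zpow _ _ _
    have h2 := congrArg Units.val h1
    rw [Units.coe_map, Units.val_zpow_eq_zpow_val, Units.coe_map] at h2
    exact h2
  have hNK : algebraMap (𝓞 K) K N = algebraMap A' K tN := by
    rw [← hjK, RingHom.comp_apply, htN]
  have ha : algebraMap (𝓞 K) K N ^ k * algebraMap (𝓞 K) K g ^ m =
      algebraMap A' K t' * algebraMap A' K ϖ ^ m := by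
    rw [hNK, hgt, ht', Units.val_mul, map_mul, hunit, hunit, ← htg]
    have h3 : algebraMap A' K ϖ ^ ((1 : ℕ) : ℤ) = algebraMap A' K ϖ := by simp
    rw [h3, mul_zpow]
    ring
  exact gen_both (K := K) (L := L) D (by omega) pb G hGm hGpb hGs hGf ϖ t' hϖ ht'u m hm _ ha n q
    hDn (by rw [hnq, hfinE]) A Q hQ htr

end

/-- the assertion for the member of the family at `t` -/
def NormFine {K : Type u} [Field K] (D : ℕ) (a : K) (p : K[X]) : Prop :=
  ∀ (E : Type x) [Field E] [Algebra K E] [FiniteDimensional K E] (η : E), Irreducible p →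
    Algebra.adjoin K {η} = ⊤ → aeval η p = 0 → ∀ (L : Type y) [Field L] [Algebra K L]
    [FiniteDimensional K L] (m : ℤ), ¬ (D : ℤ) ∣ m * Module.finrank K L → ∀ n q : ℕ, D ∣ n →
    n * q = p.natDegree → ∀ (A : Fin 3 → E) (Q : MvPolynomial (Fin 3) K), Q.IsHomogeneous q →
    (∀ σ τ : E →ₐ[K] AlgebraicClosure K, σ ≠ τ →
      MvPolynomial.aeval (crossProduct (fun j => σ (A j)) (fun j => τ (A j))) Q ≠ 0) →
    (∀ x : Fin 3 → L, x ≠ 0 → ∏ σ : E →ₐ[K] AlgebraicClosure L,
        ∑ j, σ (A j) * algebraMap L (AlgebraicClosure L) (x j) ≠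
      algebraMap K (AlgebraicClosure L) (a ^ m) *
        MvPolynomial.aeval (fun j => algebraMap L (AlgebraicClosure L) (x j)) Q ^ n) ∧
    ∀ (F : Type v) (Ω : Type w) [Field F] [Field Ω] [Algebra L F] [Algebra F Ω] [Algebra L Ω]
      [Algebra K Ω] [IsScalarTower L F Ω] [IsScalarTower K L Ω] [IsAlgClosure F Ω]
      (x : Fin 3 → F) (U : Set (ValuationSubring F)), x ≠ 0 →
      ∏ σ : E →ₐ[K] Ω, ∑ j, σ (A j) * algebraMap F Ω (x j) =
        algebraMap K Ω (a ^ m) * MvPolynomial.aeval (fun j => algebraMap F Ω (x j)) Q ^ n →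
      (∀ O ∈ U, ∀ c : L, algebraMap L F c ∈ O) → IsEmpty (GSection L F Ω U)

theorem norm_density {K : Type u} [Field K] [NumberField K] (D : ℕ) (hD : 2 ≤ D) (c : K[X])
    (f : K[X][X]) (θ : AlgebraicClosure K) (hc : aeval θ c = 0)
    (hc' : aeval θ (derivative c) ≠ 0) (hdeg : (fibre f θ).natDegree = f.natDegree)
    (hsep : (fibre f θ).Separable)
    (hadm : Adm (Nat.gcd 2 D * D) f θ) (ε : ℝ) (hε : 0 < ε) :
    ∃ I : Ideal (𝓞 K), I ≠ ⊥ ∧ (Set.ncard ((Ideal.Quotient.mk I) ''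
      {t : 𝓞 K | ¬ ((fibre f (algebraMap (𝓞 K) K t)).natDegree = f.natDegree ∧
        NormFine.{u, v, w, x, y} D (c.eval (algebraMap (𝓞 K) K t))
          (fibre f (algebraMap (𝓞 K) K t)))}) : ℝ) ≤ ε * Nat.card (𝓞 K ⧸ I) := by
  refine dz_of (Nat.gcd 2 D * D) c f θ hc hc' hdeg hsep hadm _ ?_ ε hε
  intro t ht v P g N hat
  apply ht
  obtain ⟨hloc, hPd, hg, hg', hN, hmap, hval⟩ := hat
  have hinj : Function.Injective (algebraMap (𝓞 K) K) := IsFractionRing.injective (𝓞 K) K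
  have hNK : algebraMap (𝓞 K) K N ≠ 0 := by
    rw [Ne, map_eq_zero_iff _ hinj]
    rintro rfl
    exact hN (zero_mem _)
  have hN2 : algebraMap (𝓞 K) K N ^ 2 ≠ 0 := pow_ne_zero _ hNK
  have hPd' : (P.map (algebraMap (𝓞 K) K)).natDegree = P.natDegree :=
    natDegree_map_eq_of_injective hinj P
  have hfd : (fibre f (algebraMap (𝓞 K) K t)).natDegree = P.natDegree := by
    rw [← hPd', hmap, natDegree_C_mul hN2]
  refine ⟨by rw [hfd, hPd], ?_⟩
  intro E _ _ _ η hirr hadj hη L _ _ _ m hm n q hDn hnq A Q hQ htr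
  have key := norm_loc.{u, v, w, x, y} v D hD P hloc g N hg hg' hN (-m) m η
    (by rw [hmap, irreducible_isUnit_mul (isUnit_C.2 hN2.isUnit)]; exact hirr) hadj
    (by rw [hmap, map_mul, hη, mul_zero]) (L := L) hm n q hDn (by rw [hnq, hfd]) A Q hQ htr
  have hcoef : algebraMap (𝓞 K) K N ^ (-m) * algebraMap (𝓞 K) K g ^ m =
      c.eval (algebraMap (𝓞 K) K t) ^ m := by
    rw [hval, mul_zpow, ← mul_assoc, ← zpow_add₀ hNK, neg_add_cancel, zpow_zero, one_mul]
  rw [hcoef] at key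
  exact key

end Pool.Agent.X281.SE
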