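import Pool.Agent.X281.SE.Avoid
import Pool.Agent.X281.SE.Norm
import Pool.Agent.TH377.LocG.Res

/-!
# Superelliptic families over extensions
-/

set_option autoImplicit false

namespace Pool.Agent.X281.SE

open Pool.Agent.W620.SC Pool.Agent.W623.SecC Pool.Agent.TH120.Sec Pool.Agent.TH377.LocG
  Pool.Agent.TH377.NC Pool.Agent.TH377.Loc
open Polynomial NumberField IsDedekindDomain

universe u v w x y z

/-- no points and no sections of the curve `a yⁿ = p(x)` over `L` -/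
def ExtFine {L : Type y} [Field L] (D n : ℕ) (a : L) (p : L[X]) : Prop :=
  (∀ x y : L, a * y ^ n ≠ p.eval x) ∧ (∀ r : L, a * r ^ Nat.gcd n p.natDegree ≠ p.leadingCoeff) ∧
  (∀ (F : Type v) (Ω : Type w) [Field F] [Field Ω] [Algebra L F] [Algebra F Ω] [Algebra L Ω]
    [IsScalarTower L F Ω] [IsAlgClosed Ω] [Algebra.IsAlgebraic F Ω] (M : IntermediateField F Ω),
    (∀ c : algebraicClosure L Ω, (c : Ω) ∈ M) → ∀ x y : F, algebraMap L F a * y ^ n = aeval x p →
    (∀ θ θ' : Ω, aeval θ p = 0 → aeval θ' p = 0 →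
      ∃ z ∈ M, z ^ D = (algebraMap F Ω x - θ) / (algebraMap F Ω x - θ')) →
    IsEmpty (MSection L F Ω M)) ∧
  ∀ (F : Type v) (Ω : Type w) [Field F] [Field Ω] [Algebra L F] [Algebra F Ω] [Algebra L Ω]
    [IsScalarTower L F Ω] [IsAlgClosed Ω] [Algebra.IsAlgebraic F Ω]
    (U : Set (ValuationSubring F)), (∀ O ∈ U, ∀ c : L, algebraMap L F c ∈ O) →
    ∀ x y : F, algebraMap L F a * y ^ n = aeval x p → IsEmpty (GSection L F Ω U)

theorem extFine_of_monic {L : Type y} [Field L] (D n : ℕ) (a : L) (p : L[X]) (c : L) (hc : c ≠ 0)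
    (h : ExtFine.{v, w, y} D n (c * a) (C c * p)) : ExtFine.{v, w, y} D n a p := by
  obtain ⟨h1, h2, h3, h4⟩ := h
  refine ⟨?_, ?_, ?_, ?_⟩
  · intro x y hxy
    apply h1 x y
    rw [mul_assoc, hxy, eval_mul, eval_C]
  · intro r hr
    apply h2 r
    rw [natDegree_C_mul hc, mul_assoc, hr, leadingCoeff_mul, leadingCoeff_C]
  · intro F Ω _ _ _ _ _ _ _ _ M hM x y hxy hroot
    refine h3 F Ω M hM x y ?_ ?_
    · rw [map_mul, map_mul, aeval_C, mul_assoc, hxy]
    · have h5 : ∀ θ : Ω, aeval θ (C c * p) = 0 → aeval θ p = 0 := by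
        intro θ hθ
        rw [map_mul, aeval_C] at hθ
        exact (mul_eq_zero.1 hθ).resolve_left ((_root_.map_ne_zero _).2 hc)
      exact fun θ θ' hθ hθ' => hroot θ θ' (h5 θ hθ) (h5 θ' hθ')
  · intro F Ω _ _ _ _ _ _ _ _ U hU x y hxy
    refine h4 F Ω U hU x y ?_
    rw [map_mul, map_mul, aeval_C, mul_assoc, hxy]

section

variable {K : Type u} [Field K] [NumberField K] (v : HeightOneSpectrum (𝓞 K)) (D : ℕ)
  (hD : 2 ≤ D) (P : (𝓞 K)[X]) (hL : Loc v (Nat.gcd 2 D * D) P.natDegree P) (g N : 𝓞 K)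
  (hg : g ∈ v.asIdeal) (hg' : g ∉ v.asIdeal ^ 2) (hN : N ∉ v.asIdeal) (k m : ℤ)
  {L : Type y} [Field L] [Algebra K L] [FiniteDimensional K L]
  (hm : ¬ (D : ℤ) ∣ m * Module.finrank K L) (n : ℕ) (hDn : D ∣ n)

include hD hL hg hg' hN hm hDn

theorem ext_loc : ExtFine.{v, w, y} D n
    (algebraMap K L (algebraMap (𝓞 K) K N ^ k * algebraMap (𝓞 K) K g ^ m))
    ((P.map (algebraMap (𝓞 K) K)).map (algebraMap K L)) := by
  classical
  obtain ⟨-, hlc, hs, -, hodd⟩ := hL
  have hvm : v.asIdeal.IsMaximal := v.isMaximal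
  obtain ⟨A', _, _, _, _, j, ε, hfin, hfr, hjK, hjr, hju, hbn⟩ := local_ring v
  obtain ⟨ϖ, t, hϖ, ht, hgt⟩ := hbn g 1 (by rwa [pow_one]) (by simpa using hg')
  have hmap : (P.map j).map (IsLocalRing.residue A') =
      (P.map (Ideal.Quotient.mk v.asIdeal)).map
        (ε : (𝓞 K ⧸ v.asIdeal) →+* IsLocalRing.ResidueField A') := by
    rw [Polynomial.map_map, hjr, ← Polynomial.map_map]
  obtain ⟨u, hu⟩ := hju _ hlc
  have hlc0 : j P.leadingCoeff ≠ 0 := (hju _ hlc).ne_zero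
  have hdeg : (P.map j).natDegree = P.natDegree := natDegree_map_of_leadingCoeff_ne_zero _ hlc0
  have hPK : P.map (algebraMap (𝓞 K) K) = (P.map j).map (algebraMap A' K) := by
    rw [Polynomial.map_map, hjK]
  have hsA : ((P.map j).map (IsLocalRing.residue A')).Separable := by
    rw [hmap]
    exact hs.map
  -- the monic polynomial
  set G : A'[X] := C ((u⁻¹ : A'ˣ) : A') * P.map j with hG
  have hGm : G.Monic := by
    apply monic_C_mul_of_mul_leadingCoeff_eq_one
    rw [leadingCoeff_map_of_leadingCoeff_ne_zero _ hlc0, ← hu, Units.inv_mul]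
  have huK : algebraMap A' K ((u⁻¹ : A'ˣ) : A') ≠ 0 :=
    ((u⁻¹).isUnit.map (algebraMap A' K)).ne_zero
  have hur : IsLocalRing.residue A' ((u⁻¹ : A'ˣ) : A') ≠ 0 :=
    ((u⁻¹).isUnit.map (IsLocalRing.residue A')).ne_zero
  have hGK : G.map (algebraMap A' K) = C (algebraMap A' K ((u⁻¹ : A'ˣ) : A')) *
      P.map (algebraMap (𝓞 K) K) := by
    rw [hG, Polynomial.map_mul, map_C, hPK]
  have hGs : (G.map (IsLocalRing.residue A')).Separable := by
    rw [hG, Polynomial.map_mul, map_C]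
    exact Separable.unit_mul (isUnit_C.2 hur.isUnit) hsA
  have hcard : Nat.card (IsLocalRing.ResidueField A') = Ideal.absNorm v.asIdeal := by
    rw [Ideal.absNorm_apply, Submodule.cardQuot_apply]
    exact (Nat.card_congr ε.toEquiv).symm
  have hN2 : Nat.gcd 2 D * D ≠ 2 := by
    intro h
    rcases Nat.even_or_odd D with h2 | h2
    · rw [Nat.gcd_eq_left h2.two_dvd] at h
      omega
    · have h3 : Nat.gcd 2 D = 1 := (Nat.coprime_two_left.2 h2)
      rw [h3, one_mul] at h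
      rw [h] at h2
      exact absurd h2 (by decide)
  have hGf : FactorDiv (Nat.gcd 2 D * D) (G.map (IsLocalRing.residue A')) := by
    apply factorDiv_of_coprime
    intro n hn
    have h1 := (hodd hN2 n hn).map (Polynomial.mapRingHom
      (ε : (𝓞 K ⧸ v.asIdeal) →+* IsLocalRing.ResidueField A'))
    rw [coe_mapRingHom, Polynomial.map_sub, Polynomial.map_pow, map_X, ← hmap] at h1
    rw [hcard, hG, Polynomial.map_mul, map_C]
    refine IsCoprime.mul_right ?_ h1
    obtain ⟨b, hb⟩ := (isUnit_C.2 hur.isUnit).exists_left_inv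
    exact ⟨0, b, by rw [zero_mul, zero_add]; exact hb⟩
  -- the coefficient
  obtain ⟨tN, htN⟩ := hju N hN
  obtain ⟨tg, htg⟩ := ht
  set t' : A' := ((u⁻¹ * (tN ^ k * tg ^ m) : A'ˣ) : A') with ht'
  have ht'u : IsUnit t' := (u⁻¹ * (tN ^ k * tg ^ m)).isUnit
  have hunit : ∀ (s : A'ˣ) (n : ℤ), algebraMap A' K ((s ^ n : A'ˣ) : A') =
      algebraMap A' K (s : A') ^ n := by
    intro s n
    have h1 : Units.map (algebraMap A' K : A' →* K) (s ^ n) =
        (Units.map (algebraMap A' K : A' →* K) s) ^ n := map_zpow _ _ _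
    have h2 := congrArg Units.val h1
    rw [Units.coe_map, Units.val_zpow_eq_zpow_val, Units.coe_map] at h2
    exact h2
  have hNK : algebraMap (𝓞 K) K N = algebraMap A' K tN := by
    rw [← hjK, RingHom.comp_apply, htN]
  have ha : algebraMap A' K ((u⁻¹ : A'ˣ) : A') *
      (algebraMap (𝓞 K) K N ^ k * algebraMap (𝓞 K) K g ^ m) =
      algebraMap A' K t' * algebraMap A' K ϖ ^ m := by
    rw [hNK, hgt, ht', Units.val_mul, Units.val_mul, map_mul, map_mul, hunit, hunit, ← htg]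
    have h3 : algebraMap A' K ϖ ^ ((1 : ℕ) : ℤ) = algebraMap A' K ϖ := by simp
    rw [h3, mul_zpow]
    ring
  -- the place of `L`
  let _ : Algebra A' L := ((algebraMap K L).comp (algebraMap A' K)).toAlgebra
  have hstR : IsScalarTower A' K L := IsScalarTower.of_algebraMap_eq (fun _ => rfl)
  obtain ⟨ℓ, hℓ0, hℓD, B, _, _, _, _, hfr, f, hf, hfK, hfs, hfd, ϖ', s, m', hϖ', hs', hm', hat⟩ :=
    dvr_data (k := K) (L := L) G hGm hGs D (by omega) hGf ϖ t' hϖ ht'u m hm
  have hczL : CharZero L := charZero_of_injective_algebraMap (algebraMap K L).injective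
  set c : L := algebraMap K L (algebraMap A' K ((u⁻¹ : A'ˣ) : A')) with hcdef
  have hc0 : c ≠ 0 := (_root_.map_ne_zero _).2 huK
  have hfL : f.map (algebraMap B L) = C c * (P.map (algebraMap (𝓞 K) K)).map (algebraMap K L) := by
    rw [hfK, IsScalarTower.algebraMap_eq A' K L, ← Polynomial.map_map, hGK, Polynomial.map_mul,
      map_C]
  have haL : c * algebraMap K L (algebraMap (𝓞 K) K N ^ k * algebraMap (𝓞 K) K g ^ m) =
      algebraMap B L s * algebraMap B L ϖ' ^ m' := by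
    rw [← hat, hcdef, ← map_mul, ha, map_mul, map_zpow₀]
    rfl
  apply extFine_of_monic D n _ _ c hc0
  rw [← hfL, haL]
  have hℓn : ℓ ∣ n := hℓD.trans hDn
  have e1 : (∏ _i : Unit, f ^ 1).map (algebraMap B L) = f.map (algebraMap B L) := by simp
  have e2 : (∏ _i : Unit, f).map (algebraMap B L) = f.map (algebraMap B L) := by simp
  have hs1 : ((∏ _i : Unit, f).map (IsLocalRing.residue B)).Separable := by simpa using hfs
  have hd1 : FactorDiv (Nat.gcd 2 ℓ * ℓ) ((∏ _i : Unit, f).map (IsLocalRing.residue B)) := by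
    simpa using hfd
  refine ⟨?_, ?_, ?_, ?_⟩
  · intro x y hxy
    refine res_P (IsLocalRing.residue B) IsLocalRing.residue_surjective ℓ hℓ0 (fun _ : Unit => f)
      (fun _ => 1) (fun _ => by rw [hf.leadingCoeff]; exact isUnit_one) hs1 hd1 ϖ' hϖ' _ s hs' m'
      hm' rfl n hℓn x y ?_
    rw [e1]
    exact hxy
  · intro r hr
    refine res_inf (IsLocalRing.residue B) IsLocalRing.residue_surjective ℓ hℓ0 (fun _ : Unit => f)
      (fun _ => 1) (fun _ => by rw [hf.leadingCoeff]; exact isUnit_one) hs1 hd1 ϖ' hϖ' _ s hs' m'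
      hm' rfl n hℓn r ?_
    rw [e1]
    exact hr
  · intro F Ω _ _ _ _ _ _ _ _ M hM x y hxy hroot
    refine res_M (IsLocalRing.residue B) IsLocalRing.residue_surjective ℓ hℓ0 (fun _ : Unit => f)
      (fun _ => 1) (fun _ => by rw [hf.leadingCoeff]; exact isUnit_one) hs1 hd1 ϖ' hϖ' _ s hs' m'
      hm' rfl n hℓn M hM x y ?_ ?_
    · rw [e1]
      exact hxy
    · intro θ θ' hθ hθ'
      rw [e2] at hθ hθ'
      obtain ⟨z, hz, hzD⟩ := hroot θ θ' hθ hθ'
      obtain ⟨e, rfl⟩ := hℓD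
      refine ⟨z ^ e, pow_mem hz e, ?_⟩
      rw [← pow_mul, mul_comm e ℓ]
      exact hzD
  · intro F Ω _ _ _ _ _ _ _ _ U hU x y hxy
    refine res_U (IsLocalRing.residue B) IsLocalRing.residue_surjective ℓ hℓ0 (fun _ : Unit => f)
      (fun _ => 1) (fun _ => by rw [hf.leadingCoeff]; exact isUnit_one) hs1 hd1 ϖ' hϖ' _ s hs' m'
      hm' rfl n hℓn (fun _ => Nat.coprime_one_right ℓ) U hU x y ?_
    rw [e1]
    exact hxy

end

theorem ext_density {K : Type u} [Field K] [NumberField K] (D : ℕ) (hD : 2 ≤ D) (c : K[X])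
    (f : K[X][X]) (θ : AlgebraicClosure K) (hc : aeval θ c = 0)
    (hc' : aeval θ (derivative c) ≠ 0) (hdeg : (fibre f θ).natDegree = f.natDegree)
    (hsep : (fibre f θ).Separable)
    (hadm : Adm (Nat.gcd 2 D * D) f θ) (ε : ℝ) (hε : 0 < ε) :
    ∃ I : Ideal (𝓞 K), I ≠ ⊥ ∧ (Set.ncard ((Ideal.Quotient.mk I) ''
      {t : 𝓞 K | ¬ ((fibre f (algebraMap (𝓞 K) K t)).natDegree = f.natDegree ∧
        ∀ (L : Type y) [Field L] [Algebra K L] [FiniteDimensional K L] (m : ℤ),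
          ¬ (D : ℤ) ∣ m * Module.finrank K L → ∀ n : ℕ, D ∣ n →
          ExtFine.{v, w, y} D n (algebraMap K L (c.eval (algebraMap (𝓞 K) K t) ^ m))
            ((fibre f (algebraMap (𝓞 K) K t)).map (algebraMap K L)))}) : ℝ) ≤
      ε * Nat.card (𝓞 K ⧸ I) := by
  refine dz_of (Nat.gcd 2 D * D) c f θ hc hc' hdeg hsep hadm _ ?_ ε hε
  intro t ht v P g N hat
  apply ht
  obtain ⟨hloc, hPd, hg, hg', hN, hmap, hval⟩ := hat
  have hinj : Function.Injective (algebraMap (𝓞 K) K) := IsFractionRing.injective (𝓞 K) K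
  have hNK : algebraMap (𝓞 K) K N ≠ 0 := by
    rw [Ne, map_eq_zero_iff _ hinj]
    rintro rfl
    exact hN (zero_mem _)
  have hN2 : algebraMap (𝓞 K) K N ^ 2 ≠ 0 := pow_ne_zero _ hNK
  have hPd' : (P.map (algebraMap (𝓞 K) K)).natDegree = P.natDegree :=
    natDegree_map_eq_of_injective hinj P
  have hfd : (fibre f (algebraMap (𝓞 K) K t)).natDegree = P.natDegree := by
    rw [← hPd', hmap, natDegree_C_mul hN2]
  refine ⟨by rw [hfd, hPd], ?_⟩
  intro L _ _ _ m hm n hDn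
  have key := ext_loc.{u, v, w, y} v D hD P hloc g N hg hg' hN (2 - m) m (L := L) hm n hDn
  have hcoef : algebraMap (𝓞 K) K N ^ (2 - m) * algebraMap (𝓞 K) K g ^ m =
      algebraMap (𝓞 K) K N ^ 2 * c.eval (algebraMap (𝓞 K) K t) ^ m := by
    rw [hval, mul_zpow, ← mul_assoc, ← zpow_add₀ hNK]
    congr 1
    have h5 : (2 - m + m : ℤ) = ((2 : ℕ) : ℤ) := by push_cast; ring
    rw [h5, zpow_natCast]
  rw [hcoef, hmap, map_mul, Polynomial.map_mul, map_C] at key
  exact extFine_of_monic D n _ _ _ ((_root_.map_ne_zero _).2 hN2) key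

end Pool.Agent.X281.SE
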