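import Pool.Agent.X281.SE.Ext3
import Pool.Agent.X281.SE.FGn
import Pool.Agent.X281.SE.Inf

/-!
# Places of extensions of small degree
-/

set_option autoImplicit false

namespace Pool.Agent.X281.SE

open Pool.Agent.W620.SC Pool.Agent.W623.SecC Pool.Agent.TH120.Sec Pool.Agent.TH377.LocG
  Pool.Agent.TH377.NC
open Polynomial IsDedekindDomain

universe u v w x y z

/-- the data at a place of `L`, `ℓ` a prime number, with the residue degree -/
theorem dvr_gen {R : Type u} {k : Type v} {L : Type y} [CommRing R] [IsDomain R]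
    [IsDiscreteValuationRing R] [Field k] [Algebra R k] [IsFractionRing R k] [CharZero k]
    [Finite (IsLocalRing.ResidueField R)]
    [Field L] [Algebra k L] [FiniteDimensional k L] [Algebra R L] [IsScalarTower R k L]
    (g : R[X]) (hg : g.Monic) (hs : (g.map (IsLocalRing.residue R)).Separable) (D ℓ : ℕ)
    (hℓ : ℓ.Prime) (hℓR : IsUnit (ℓ : R)) (hσ : FactorDiv D (g.map (IsLocalRing.residue R)))
    (ϖ0 t0 : R) (hϖ0 : Irreducible ϖ0) (ht0 : IsUnit t0) (m : ℤ)
    (hm : ¬ (ℓ : ℤ) ∣ m * Module.finrank k L) :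
    ∃ (A : Type y) (_ : CommRing A) (_ : IsDomain A)
      (_ : IsDiscreteValuationRing A) (_ : Algebra A L) (_ : IsFractionRing A L) (f : A[X]) (fd : ℕ),
      fd ≤ Module.finrank k L ∧ 0 < fd ∧
      Finite (IsLocalRing.ResidueField A) ∧ IsUnit (ℓ : A) ∧
      f.Monic ∧ f.map (algebraMap A L) = g.map (algebraMap R L) ∧
      (f.map (IsLocalRing.residue A)).Separable ∧
      (∀ h : (IsLocalRing.ResidueField A)[X], Irreducible h → h ∣ f.map (IsLocalRing.residue A) →
        D ∣ h.natDegree * fd) ∧
      (∀ r : R, ∃ b : A, algebraMap A L b = algebraMap R L r ∧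
        (r ∈ IsLocalRing.maximalIdeal R → b ∈ IsLocalRing.maximalIdeal A)) ∧
      ∃ (ϖ t : A) (m' : ℤ), Irreducible ϖ ∧ IsUnit t ∧ ¬ (ℓ : ℤ) ∣ m' ∧
        algebraMap R L t0 * algebraMap R L ϖ0 ^ m = algebraMap A L t * algebraMap A L ϖ ^ m' := by
  classical
  have hprimeZ : Prime (ℓ : ℤ) := Nat.prime_iff_prime_int.1 hℓ
  have hm0 : ¬ (ℓ : ℤ) ∣ m := fun h => hm (Dvd.dvd.mul_right h _)
  have hn0 : ¬ ℓ ∣ Module.finrank k L := fun h => hm (Dvd.dvd.mul_left (by exact_mod_cast h) _)
  -- the integral closure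
  have hsep : Algebra.IsSeparable k L := inferInstance
  let S := integralClosure R L
  have hfr : IsFractionRing S L := integralClosure.isFractionRing_of_finite_extension k L
  have hded : IsDedekindDomain S := integralClosure.isDedekindDomain R k L
  have hfinS : Module.Finite R S := IsIntegralClosure.finite R k L S
  have hRL : Function.Injective (algebraMap R L) := by
    rw [IsScalarTower.algebraMap_eq R k L]
    exact (algebraMap k L).injective.comp (IsFractionRing.injective R k)
  have hRS : Function.Injective (algebraMap R S) := by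
    intro x y hxy
    apply hRL
    rw [IsScalarTower.algebraMap_apply R S L, hxy, ← IsScalarTower.algebraMap_apply R S L]
  have htf : Module.IsTorsionFree R S :=
    (Module.isTorsionFree_iff_algebraMap_injective (R := R) (A := S)).2 hRS
  have hflat : Module.Flat R S := inferInstance
  set p : Ideal R := IsLocalRing.maximalIdeal R with hp
  have hp0 : p ≠ ⊥ := IsDiscreteValuationRing.not_a_field R
  have hprime : p.IsPrime := inferInstance
  have hmaxp : p.IsMaximal := inferInstance
  have hrank : Module.finrank R S = Module.finrank k L := (IsFractionRing.finrank_eq R k S L).symm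
  have hft : Finite (p.primesOver S) := inferInstance
  let _ : Fintype (p.primesOver S) := Fintype.ofFinite _
  obtain ⟨q, hq⟩ : ∃ q : p.primesOver S,
      ¬ ℓ ∣ q.1.ramificationIdx R * q.1.inertiaDeg R := by
    by_contra h1
    rw [not_exists] at h1
    apply hn0
    rw [← hrank, ← Ideal.sum_ramification_inertia_eq_finrank p S]
    exact Finset.dvd_sum fun q _ => not_not.1 (h1 q)
  set e := q.1.ramificationIdx R with he
  set fd := q.1.inertiaDeg R with hfd
  have he1 : ¬ ℓ ∣ e := fun h => hq (Dvd.dvd.mul_right h _)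
  have hf1 : ¬ ℓ ∣ fd := fun h => hq (Dvd.dvd.mul_left h _)
  have hqp : q.1.IsPrime := q.2.1
  have hlies : q.1.LiesOver p := q.2.2
  have hq0 : q.1 ≠ ⊥ := by
    intro h
    apply hp0
    have h1 := hlies.over
    rw [h] at h1
    rw [h1]
    exact Ideal.comap_bot_of_injective _ hRS
  have hqm : q.1.IsMaximal := Ideal.IsPrime.isMaximal hqp hq0
  obtain ⟨A, iA1, iA2, iA3, iA4, j, ε, hfrA, hjL, hjr, hbn⟩ := local_ringS (L := L) q.1 hqp hq0
  let _ : Field (R ⧸ p) := Ideal.Quotient.field _
  let _ : Field (S ⧸ q.1) := Ideal.Quotient.field _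
  have hfinq : FiniteDimensional (R ⧸ p) (S ⧸ q.1) := inferInstance
  set ι : (R ⧸ p) →+* (S ⧸ q.1) := algebraMap (R ⧸ p) (S ⧸ q.1) with hι
  have hmap : ((g.map (algebraMap R S)).map j).map (IsLocalRing.residue A) =
      ((g.map (Ideal.Quotient.mk p)).map ι).map
        (ε : (S ⧸ q.1) →+* IsLocalRing.ResidueField A) := by
    rw [Polynomial.map_map, Polynomial.map_map, Polynomial.map_map, Polynomial.map_map]
    congr 1
    rw [hjr]
    rfl
  have hfdeq : fd = Module.finrank (R ⧸ p) (S ⧸ q.1) := Ideal.inertiaDeg_eq_of_isMaximal p q.1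
  have hfinR : Finite (R ⧸ p) := ‹Finite (IsLocalRing.ResidueField R)›
  have hfinSq : Finite (S ⧸ q.1) := Module.finite_of_finite (R ⧸ p)
  have hfinA : Finite (IsLocalRing.ResidueField A) := Finite.of_equiv _ ε.toEquiv
  have hℓA : IsUnit (ℓ : A) := by
    have h1 := (hℓR.map (algebraMap R S)).map j
    rwa [map_natCast, map_natCast] at h1
  have hfd0 : 0 < fd := Nat.pos_of_ne_zero fun h => hf1 (h ▸ dvd_zero ℓ)
  have he0 : 0 < e := Nat.pos_of_ne_zero fun h => he1 (h ▸ dvd_zero ℓ)
  have hfdle : fd ≤ Module.finrank k L := by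
    rw [← hrank, ← Ideal.sum_ramification_inertia_eq_finrank p S]
    refine le_trans ?_ (Finset.single_le_sum (f := fun q : p.primesOver S =>
      q.1.ramificationIdx R * q.1.inertiaDeg R) (fun _ _ => Nat.zero_le _) (Finset.mem_univ q))
    exact Nat.le_mul_of_pos_left _ he0
  refine ⟨A, iA1, iA2, iA3, iA4, hfrA, (g.map (algebraMap R S)).map j, fd, hfdle, hfd0, hfinA, hℓA,
    (hg.map _).map _, ?_, ?_, ?_, ?_, ?_⟩
  · rw [Polynomial.map_map, Polynomial.map_map, hjL]
    congr 1
  · rw [hmap]
    exact (hs.map (f := ι)).map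
  · rw [hmap]
    intro h hirr hdvd
    -- transport along the isomorphism
    have h1 : Irreducible (h.map (ε.symm : IsLocalRing.ResidueField A →+* (S ⧸ q.1))) :=
      (MulEquiv.irreducible_iff (Polynomial.mapEquiv ε.symm)).2 hirr
    have h2 : h.map (ε.symm : IsLocalRing.ResidueField A →+* (S ⧸ q.1)) ∣
        (g.map (Ideal.Quotient.mk p)).map ι := by
      have h3 := Polynomial.map_dvd (ε.symm : IsLocalRing.ResidueField A →+* (S ⧸ q.1)) hdvd
      rw [Polynomial.map_map (ε : (S ⧸ q.1) →+* IsLocalRing.ResidueField A)] at h3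
      have h4 : (ε.symm : IsLocalRing.ResidueField A →+* (S ⧸ q.1)).comp
          (ε : (S ⧸ q.1) →+* IsLocalRing.ResidueField A) = RingHom.id _ := by
        ext z
        simp
      rwa [h4, Polynomial.map_id] at h3
    have h3 := factor_ext (g.map (Ideal.Quotient.mk p)) _ hσ _ h1 h2
    rw [natDegree_map, ← hfdeq] at h3
    rwa [mul_comm] at h3
  · intro r
    refine ⟨j (algebraMap R S r), ?_, fun hr => ?_⟩
    · rw [IsScalarTower.algebraMap_apply R S L, ← hjL, RingHom.comp_apply]
    · have h1 : algebraMap R S r ∈ q.1 := by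
        have h2 := hlies.over
        have h3 : r ∈ p := hr
        rw [h2] at h3
        exact h3
      have h4 := congrArg (fun φ : S →+* IsLocalRing.ResidueField A => φ (algebraMap R S r)) hjr
      simp only [RingHom.comp_apply] at h4
      rw [Ideal.Quotient.eq_zero_iff_mem.2 h1, map_zero] at h4
      exact (IsLocalRing.residue_eq_zero_iff _).1 h4
  · have hϖS : algebraMap R S ϖ0 ≠ 0 := by
      intro h
      exact hϖ0.ne_zero (hRS (by rw [h, map_zero]))
    obtain ⟨ϖ, t, n, hϖ, ht, hb2, hb3⟩ := hbn (algebraMap R S ϖ0) hϖS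
    have hspan : p = Ideal.span {ϖ0} := hϖ0.maximalIdeal_eq
    have hmp : p.map (algebraMap R S) = Ideal.span {algebraMap R S ϖ0} := by
      rw [hspan, Ideal.map_span, Set.image_singleton]
    have hmapp : ∀ i, p.map (algebraMap R S) ≤ q.1 ^ i ↔ i ≤ n := by
      intro i
      rw [← hb3, hmp, Ideal.span_singleton_le_iff_mem]
    have hen : e = n := by
      have h1 : p.ramificationIdx' q.1 = n :=
        Ideal.ramificationIdx'_spec ((hmapp n).2 le_rfl) (fun h => by
          have := (hmapp (n + 1)).1 h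
          omega)
      have h2 : p.ramificationIdx' q.1 = q.1.ramificationIdx R :=
        Ideal.ramificationIdx'_eq_ramificationIdx _ _ hp0
      rw [he, ← h2, h1]
    have htu : IsUnit (j (algebraMap R S t0)) := (ht0.map _).map j
    have hL0 : algebraMap R L t0 = algebraMap A L (j (algebraMap R S t0)) := by
      rw [IsScalarTower.algebraMap_apply R S L, ← hjL, RingHom.comp_apply]
    obtain ⟨tu, htu'⟩ := ht
    have htinv : ∀ m : ℤ, algebraMap A L t ^ m = algebraMap A L ((tu ^ m : Aˣ) : A) := by
      intro m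
      rw [← htu']
      exact (zpow_unit tu m).symm
    refine ⟨ϖ, j (algebraMap R S t0) * ((tu ^ m : Aˣ) : A), e * m, hϖ,
      htu.mul (Units.isUnit _), ?_, ?_⟩
    · intro h
      rcases hprimeZ.dvd_mul.1 h with h1 | h1
      · exact he1 (by exact_mod_cast h1)
      · exact hm0 h1
    · rw [hL0, map_mul, ← htinv, IsScalarTower.algebraMap_apply R S L ϖ0, hb2, ← hen, mul_zpow,
        mul_assoc, ← zpow_natCast, ← zpow_mul]


end Pool.Agent.X281.SE
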