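import Pool.Agent.X281.SE.FineLoc
import Pool.Agent.W52.SecC.D3

/-!
# One-parameter families
-/

set_option autoImplicit false

namespace Pool.Agent.X281.SE

open Pool.Agent.W620.SC Pool.Agent.W623.SecC Pool.Agent.TH120.Sec
open Polynomial NumberField IsDedekindDomain

universe u v w

/-- the polynomial `f(t, x)` in `x` -/
noncomputable def fibre {K : Type u} [Field K] (f : K[X][X]) {B : Type*} [Field B] [Algebra K B]
    (t : B) : B[X] :=
  f.map (eval₂RingHom (algebraMap K B) t)

theorem fibre_map {K : Type u} [Field K] (f : K[X][X]) {B B' : Type*} [Field B] [Algebra K B]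
    [Field B'] [Algebra K B'] [Algebra B B'] [IsScalarTower K B B'] (t : B) :
    (fibre f t).map (algebraMap B B') = fibre f (algebraMap B B' t) := by
  unfold fibre
  rw [Polynomial.map_map]
  congr 1
  apply Polynomial.ringHom_ext
  · intro a
    simp only [RingHom.comp_apply, coe_eval₂RingHom, eval₂_C]
    exact (IsScalarTower.algebraMap_apply K B B' a).symm
  · simp only [RingHom.comp_apply, coe_eval₂RingHom, eval₂_X]

/-- some automorphism fixes `θ` and no root of `f(θ, x)`, and, for odd `ℓ`, permutes the roots of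
`f(θ, x)` in cycles of lengths divisible by `ℓ` -/
def Adm {K : Type u} [Field K] (ℓ : ℕ) (f : K[X][X]) (θ : AlgebraicClosure K) : Prop :=
  ∃ σ : AlgebraicClosure K ≃ₐ[K] AlgebraicClosure K, σ θ = θ ∧
    (∀ ρ, (fibre f θ).eval ρ = 0 → σ ρ ≠ ρ) ∧
    (ℓ ≠ 2 → ∀ n : ℕ, ¬ ℓ ∣ n → ∀ ρ, (fibre f θ).eval ρ = 0 → (σ ^ n) ρ ≠ ρ)

theorem adm_of_irreducible {K : Type u} [Field K] [CharZero K] (f : K[X][X])
    (θ : AlgebraicClosure K)
    (h : Irreducible (fibre f (IntermediateField.AdjoinSimple.gen K θ)))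
    (h2 : 2 ≤ (fibre f θ).natDegree) : Adm 2 f θ := by
  have hmap : (fibre f (IntermediateField.AdjoinSimple.gen K θ)).map
      (algebraMap (IntermediateField.adjoin K {θ}) (AlgebraicClosure K)) = fibre f θ := by
    rw [fibre_map]
    rw [IntermediateField.AdjoinSimple.algebraMap_gen]
  have hdeg : (fibre f (IntermediateField.AdjoinSimple.gen K θ)).natDegree =
      (fibre f θ).natDegree := by
    rw [← hmap, natDegree_map]
  obtain ⟨σ, hσ⟩ := Pool.Agent.W52.SecC.D3.partD3 (IntermediateField.adjoin K {θ})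
    (fibre f (IntermediateField.AdjoinSimple.gen K θ)) h (by rw [hdeg]; exact h2)
  have halg : Algebra.IsAlgebraic (IntermediateField.adjoin K {θ}) (AlgebraicClosure K) :=
    Algebra.IsAlgebraic.tower_top (K := K) _
  have hcl : IsAlgClosure (IntermediateField.adjoin K {θ}) (AlgebraicClosure K) :=
    ⟨inferInstance, halg⟩
  let e : AlgebraicClosure (IntermediateField.adjoin K {θ}) ≃ₐ[IntermediateField.adjoin K {θ}]
      AlgebraicClosure K := IsAlgClosure.equiv _ _ _
  let σ' : AlgebraicClosure K ≃ₐ[IntermediateField.adjoin K {θ}] AlgebraicClosure K :=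
    (e.symm.trans σ).trans e
  refine ⟨σ'.restrictScalars K, ?_, ?_, fun h => absurd rfl h⟩
  · have h1 : σ' (algebraMap (IntermediateField.adjoin K {θ}) (AlgebraicClosure K)
        (IntermediateField.AdjoinSimple.gen K θ)) = algebraMap (IntermediateField.adjoin K {θ})
        (AlgebraicClosure K) (IntermediateField.AdjoinSimple.gen K θ) := σ'.commutes _
    rw [IntermediateField.AdjoinSimple.algebraMap_gen] at h1
    exact h1
  · intro ρ hρ h1
    have h2 : aeval ρ (fibre f (IntermediateField.AdjoinSimple.gen K θ)) = 0 := by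
      rw [← hmap, eval_map_algebraMap] at hρ
      exact hρ
    have h3 : aeval (e.symm ρ) (fibre f (IntermediateField.AdjoinSimple.gen K θ)) = 0 := by
      have h5 := aeval_algHom_apply (e.symm : AlgebraicClosure K →ₐ[IntermediateField.adjoin K {θ}]
        AlgebraicClosure (IntermediateField.adjoin K {θ})) ρ
        (fibre f (IntermediateField.AdjoinSimple.gen K θ))
      rw [h2, map_zero] at h5
      exact h5
    apply hσ _ h3
    have h4 : e (σ (e.symm ρ)) = ρ := h1
    rw [← e.symm_apply_apply (σ (e.symm ρ)), h4]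

/-- clearing denominators -/
theorem clear {K : Type u} [Field K] [NumberField K] (c : K[X]) (f : K[X][X]) :
    ∃ (N : 𝓞 K) (g : (𝓞 K)[X]) (H : (𝓞 K)[X][X]), N ≠ 0 ∧
      g.map (algebraMap (𝓞 K) K) = C (algebraMap (𝓞 K) K N) * c ∧
      H.map (mapRingHom (algebraMap (𝓞 K) K)) = C (C (algebraMap (𝓞 K) K N)) * f := by
  classical
  let S : Finset K := (c.support.image fun i => c.coeff i) ∪
    f.support.biUnion fun i => (f.coeff i).support.image fun j => (f.coeff i).coeff j
  obtain ⟨b, hb⟩ := IsLocalization.exist_integer_multiples_of_finset (nonZeroDivisors (𝓞 K)) S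
  have hbs : ∀ a : K, a = 0 ∨ a ∈ S → algebraMap (𝓞 K) K (b : 𝓞 K) * a ∈
      Set.range (algebraMap (𝓞 K) K) := by
    rintro a (rfl | ha)
    · exact ⟨0, by simp⟩
    · obtain ⟨y, hy⟩ := hb a ha
      exact ⟨y, by rw [hy, Algebra.smul_def]⟩
  have h1 : C (algebraMap (𝓞 K) K (b : 𝓞 K)) * c ∈ Polynomial.lifts (algebraMap (𝓞 K) K) := by
    rw [lifts_iff_coeff_lifts]
    intro n
    rw [coeff_C_mul]
    apply hbs
    by_cases h : c.coeff n = 0
    · exact Or.inl h
    · right
      refine Finset.mem_union_left _ (Finset.mem_image_of_mem _ (mem_support_iff.2 h))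
  have h2 : C (C (algebraMap (𝓞 K) K (b : 𝓞 K))) * f ∈
      Polynomial.lifts (mapRingHom (algebraMap (𝓞 K) K)) := by
    rw [lifts_iff_coeff_lifts]
    intro n
    rw [coeff_C_mul]
    have h3 : C (algebraMap (𝓞 K) K (b : 𝓞 K)) * f.coeff n ∈
        Polynomial.lifts (algebraMap (𝓞 K) K) := by
      rw [lifts_iff_coeff_lifts]
      intro i
      rw [coeff_C_mul]
      apply hbs
      by_cases h : (f.coeff n).coeff i = 0
      · exact Or.inl h
      · right
        refine Finset.mem_union_right _ (Finset.mem_biUnion.2 ⟨n, ?_, ?_⟩)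
        · rw [mem_support_iff]
          intro h4
          rw [h4, coeff_zero] at h
          exact h rfl
        · exact Finset.mem_image_of_mem _ (mem_support_iff.2 h)
    exact (mem_lifts _).1 h3
  obtain ⟨g, hg⟩ := (mem_lifts _).1 h1
  obtain ⟨H, hH⟩ := (mem_lifts _).1 h2
  exact ⟨b, g, H, nonZeroDivisors.ne_zero b.2, hg, hH⟩

theorem density {K : Type u} [Field K] [NumberField K] (ℓ : ℕ) (hℓ : ℓ.Prime) (c : K[X])
    (f : K[X][X]) (θ : AlgebraicClosure K) (hc : aeval θ c = 0)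
    (hc' : aeval θ (derivative c) ≠ 0) (hdeg : (fibre f θ).natDegree = f.natDegree)
    (hsep : (fibre f θ).Separable) (hd : ℓ = 2 → Even f.natDegree ∧ 4 ≤ f.natDegree)
    (hadm : Adm ℓ f θ) (ε : ℝ) (hε : 0 < ε) :
    ∃ I : Ideal (𝓞 K), I ≠ ⊥ ∧ (Set.ncard ((Ideal.Quotient.mk I) ''
      {t : 𝓞 K | ¬ ((fibre f (algebraMap (𝓞 K) K t)).natDegree = f.natDegree ∧
        ∀ m : ℤ, ¬ (ℓ : ℤ) ∣ m → FineL.{u, v, w} ℓ (c.eval (algebraMap (𝓞 K) K t) ^ m)
          (fibre f (algebraMap (𝓞 K) K t)))}) : ℝ) ≤ ε * Nat.card (𝓞 K ⧸ I) := by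
  classical
  obtain ⟨σ, hσθ, hσ1, hσ2⟩ := hadm
  obtain ⟨N, g, H0, hN, hg, hH0⟩ := clear c f
  have hinj : Function.Injective (algebraMap (𝓞 K) K) := IsFractionRing.injective (𝓞 K) K
  have hinj2 : Function.Injective (mapRingHom (algebraMap (𝓞 K) K)) :=
    Polynomial.map_injective _ hinj
  have hNK : algebraMap (𝓞 K) K N ≠ 0 := by
    rw [Ne, map_eq_zero_iff _ hinj]
    exact hN
  have hNC : algebraMap K (AlgebraicClosure K) (algebraMap (𝓞 K) K N) ≠ 0 :=
    (_root_.map_ne_zero _).2 hNK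
  set H : (𝓞 K)[X][X] := C (C N) * H0 with hHdef
  have hCN : (C N : (𝓞 K)[X]) ≠ 0 := C_ne_zero.2 hN
  have hH : H.map (mapRingHom (algebraMap (𝓞 K) K)) =
      C (C (algebraMap (𝓞 K) K N ^ 2)) * f := by
    rw [hHdef, Polynomial.map_mul, hH0, map_C, coe_mapRingHom, map_C, ← mul_assoc, ← C_mul,
      ← C_mul, sq]
  have hHdeg : H.natDegree = f.natDegree := by
    rw [← natDegree_map_eq_of_injective hinj2 H, hH, natDegree_C_mul]
    exact C_ne_zero.2 (pow_ne_zero _ hNK)
  -- evaluation at `θ`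
  have hev : evC θ = (eval₂RingHom (algebraMap K (AlgebraicClosure K)) θ).comp
      (mapRingHom (algebraMap (𝓞 K) K)) := by
    apply Polynomial.ringHom_ext
    · intro a
      simp [evC]
    · simp [evC]
  have hevg : ∀ p : (𝓞 K)[X], evC θ p = aeval θ (p.map (algebraMap (𝓞 K) K)) := by
    intro p
    rw [hev, RingHom.comp_apply, coe_mapRingHom]
    rfl
  have hHθ : H.map (evC θ) =
      C (algebraMap K (AlgebraicClosure K) (algebraMap (𝓞 K) K N) ^ 2) * fibre f θ := by
    rw [hev, ← Polynomial.map_map, hH, Polynomial.map_mul, map_C, fibre]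
    congr 2
    rw [coe_eval₂RingHom, eval₂_C, map_pow]
  have hfib0 : fibre f θ ≠ 0 := hsep.ne_zero
  have hNC2 : algebraMap K (AlgebraicClosure K) (algebraMap (𝓞 K) K N) ^ 2 ≠ 0 :=
    pow_ne_zero _ hNC
  have hroot : ∀ ρ, (H.map (evC θ)).eval ρ = 0 → (fibre f θ).eval ρ = 0 := by
    intro ρ hρ
    rw [hHθ, eval_mul, eval_C] at hρ
    exact (mul_eq_zero.1 hρ).resolve_left hNC2
  have hspc : Spc ℓ g H θ σ := by
    refine ⟨?_, ?_, ?_, ?_, hσθ, fun ρ hρ => hσ1 ρ (hroot ρ hρ), ?_⟩
    · rw [hevg, hg, map_mul, hc, mul_zero]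
    · rw [hevg, ← derivative_map, hg, derivative_C_mul, map_mul, aeval_C]
      exact mul_ne_zero hNC hc'
    · have h1 : evC θ H.leadingCoeff = (H.map (evC θ)).coeff f.natDegree := by
        rw [coeff_map, leadingCoeff, hHdeg]
      rw [h1, hHθ, coeff_C_mul]
      refine mul_ne_zero hNC2 ?_
      rw [← hdeg]
      exact leadingCoeff_ne_zero.2 hfib0
    · rw [hHθ]
      exact Separable.unit_mul (isUnit_C.2 hNC2.isUnit) hsep
    · intro h2 n hn ρ hρ h3
      refine hσ2 h2 n hn ρ (hroot ρ hρ) ?_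
      have h4 : ∀ k : ℕ, (σ ^ k) ρ = (σ^[k]) ρ := by
        intro k
        induction k with
        | zero => simp
        | succ k ih => rw [pow_succ', AlgEquiv.mul_apply, ih, Function.iterate_succ_apply']
      rw [h4 n]
      exact h3
  refine fam_dz ℓ g H θ σ hspc _ ?_ ε hε
  intro t ht v hv
  apply ht
  clear ht
  obtain ⟨hgt, hgt', hloc⟩ := hv
  set P := H.map (evalRingHom t) with hP
  have hPd : P.natDegree = H.natDegree := hloc.1
  have hlcP : P.leadingCoeff ∉ v.asIdeal := hloc.2.1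
  have hPf : P = C N * H0.map (evalRingHom t) := by
    rw [hP, hHdef, Polynomial.map_mul, map_C, coe_evalRingHom, eval_C]
  have hNv : N ∉ v.asIdeal := by
    intro h
    apply hlcP
    rw [hPf, leadingCoeff_mul, leadingCoeff_C]
    exact Ideal.mul_mem_right _ _ h
  have hPK : P.map (algebraMap (𝓞 K) K) =
      C (algebraMap (𝓞 K) K N ^ 2) * fibre f (algebraMap (𝓞 K) K t) := by
    have h1 : (algebraMap (𝓞 K) K).comp (evalRingHom t) =
        (eval₂RingHom (algebraMap K K) (algebraMap (𝓞 K) K t)).comp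
          (mapRingHom (algebraMap (𝓞 K) K)) := by
      apply Polynomial.ringHom_ext
      · intro a
        simp
      · simp
    rw [hP, Polynomial.map_map, h1, ← Polynomial.map_map, hH, Polynomial.map_mul, map_C, fibre]
    congr 2
    rw [coe_eval₂RingHom, eval₂_C]
    rfl
  have hgK : algebraMap (𝓞 K) K (g.eval t) =
      algebraMap (𝓞 K) K N * c.eval (algebraMap (𝓞 K) K t) := by
    have h1 := congrArg (fun p => p.eval (algebraMap (𝓞 K) K t)) hg
    simp only [eval_mul, eval_C] at h1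
    rw [← h1, eval_map_apply]
  refine ⟨?_, ?_⟩
  · have h5 := congrArg natDegree hPK
    rw [natDegree_map_eq_of_injective hinj, hPd, hHdeg,
      natDegree_C_mul (pow_ne_zero _ hNK)] at h5
    exact h5.symm
  intro m hm
  have hfin := fine_loc.{u, v, w} v ℓ hℓ P (by rw [hPd]; exact hloc)
    (fun h => by rw [hPd, hHdeg]; exact hd h) (g.eval t) N hgt hgt' hNv (2 - m) m hm
  have hcoef : algebraMap (𝓞 K) K N ^ (2 - m) * algebraMap (𝓞 K) K (g.eval t) ^ m =
      algebraMap (𝓞 K) K N ^ 2 * c.eval (algebraMap (𝓞 K) K t) ^ m := by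
    rw [hgK, mul_zpow, ← mul_assoc, ← zpow_add₀ hNK]
    congr 1
    have h5 : (2 - m + m : ℤ) = ((2 : ℕ) : ℤ) := by push_cast; ring
    rw [h5, zpow_natCast]
  rw [hcoef, hPK] at hfin
  have hN2 : algebraMap (𝓞 K) K N ^ 2 ≠ 0 := pow_ne_zero _ hNK
  obtain ⟨h1, h2, h3⟩ := hfin
  refine ⟨?_, ?_, ?_⟩
  · intro F Ω _ _ _ _ _ _ _ _ U hU x y hxy
    refine h1 F Ω U hU x y ?_
    rw [map_mul, map_mul, aeval_C, mul_assoc, hxy]
  · intro x y hxy
    apply h2 x y
    rw [mul_assoc, hxy, eval_mul, eval_C]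
  · intro r hr
    apply h3 r
    rw [mul_assoc, hr, leadingCoeff_mul, leadingCoeff_C]

end Pool.Agent.X281.SE
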