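import Pool.Agent.X281.SE.Fam

/-!
# One-parameter families, general form
-/

set_option autoImplicit false

namespace Pool.Agent.X281.SE

open Pool.Agent.W620.SC Pool.Agent.W623.SecC Pool.Agent.TH120.Sec
open Polynomial NumberField IsDedekindDomain

universe u v w

/-- the data at a prime `v` for the member of the family at `t` -/
structure At {K : Type u} [Field K] [NumberField K] (ℓ : ℕ) (c : K[X]) (f : K[X][X]) (t : 𝓞 K)
    (v : HeightOneSpectrum (𝓞 K)) (P : (𝓞 K)[X]) (g N : 𝓞 K) : Prop where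
  loc : Loc v ℓ P.natDegree P
  deg : P.natDegree = f.natDegree
  mem : g ∈ v.asIdeal
  nmem : g ∉ v.asIdeal ^ 2
  hN : N ∉ v.asIdeal
  map : P.map (algebraMap (𝓞 K) K) = C (algebraMap (𝓞 K) K N ^ 2) * fibre f (algebraMap (𝓞 K) K t)
  val : algebraMap (𝓞 K) K g = algebraMap (𝓞 K) K N * c.eval (algebraMap (𝓞 K) K t)

theorem dz_of {K : Type u} [Field K] [NumberField K] (ℓ : ℕ) (c : K[X])
    (f : K[X][X]) (θ : AlgebraicClosure K) (hc : aeval θ c = 0)
    (hc' : aeval θ (derivative c) ≠ 0) (hdeg : (fibre f θ).natDegree = f.natDegree)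
    (hsep : (fibre f θ).Separable) (hadm : Adm ℓ f θ) (S : Set (𝓞 K))
    (hS : ∀ t ∈ S, ∀ v P g N, ¬ At ℓ c f t v P g N) (ε : ℝ) (hε : 0 < ε) :
    ∃ I : Ideal (𝓞 K), I ≠ ⊥ ∧ (Set.ncard ((Ideal.Quotient.mk I) '' S) : ℝ) ≤
      ε * Nat.card (𝓞 K ⧸ I) := by
  classical
  obtain ⟨σ, hσθ, hσ1, hσ2⟩ := hadm
  obtain ⟨N, g, H0, hN, hg, hH0⟩ := clear c f
  have hinj : Function.Injective (algebraMap (𝓞 K) K) := IsFractionRing.injective (𝓞 K) K
  have hinj2 : Function.Injective (mapRingHom (algebraMap (𝓞 K) K)) :=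
    Polynomial.map_injective _ hinj
  have hNK : algebraMap (𝓞 K) K N ≠ 0 := by
    rw [Ne, map_eq_zero_iff _ hinj]
    exact hN
  have hNC : algebraMap K (AlgebraicClosure K) (algebraMap (𝓞 K) K N) ≠ 0 :=
    (_root_.map_ne_zero _).2 hNK
  set H : (𝓞 K)[X][X] := C (C N) * H0 with hHdef
  have hCN : (C N : (𝓞 K)[X]) ≠ 0 := C_ne_zero.2 hN
  have hH : H.map (mapRingHom (algebraMap (𝓞 K) K)) =
      C (C (algebraMap (𝓞 K) K N ^ 2)) * f := by
    rw [hHdef, Polynomial.map_mul, hH0, map_C, coe_mapRingHom, map_C, ← mul_assoc, ← C_mul,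
      ← C_mul, sq]
  have hHdeg : H.natDegree = f.natDegree := by
    rw [← natDegree_map_eq_of_injective hinj2 H, hH, natDegree_C_mul]
    exact C_ne_zero.2 (pow_ne_zero _ hNK)
  -- evaluation at `θ`
  have hev : evC θ = (eval₂RingHom (algebraMap K (AlgebraicClosure K)) θ).comp
      (mapRingHom (algebraMap (𝓞 K) K)) := by
    apply Polynomial.ringHom_ext
    · intro a
      simp [evC]
    · simp [evC]
  have hevg : ∀ p : (𝓞 K)[X], evC θ p = aeval θ (p.map (algebraMap (𝓞 K) K)) := by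
    intro p
    rw [hev, RingHom.comp_apply, coe_mapRingHom]
    rfl
  have hHθ : H.map (evC θ) =
      C (algebraMap K (AlgebraicClosure K) (algebraMap (𝓞 K) K N) ^ 2) * fibre f θ := by
    rw [hev, ← Polynomial.map_map, hH, Polynomial.map_mul, map_C, fibre]
    congr 2
    rw [coe_eval₂RingHom, eval₂_C, map_pow]
  have hfib0 : fibre f θ ≠ 0 := hsep.ne_zero
  have hNC2 : algebraMap K (AlgebraicClosure K) (algebraMap (𝓞 K) K N) ^ 2 ≠ 0 :=
    pow_ne_zero _ hNC
  have hroot : ∀ ρ, (H.map (evC θ)).eval ρ = 0 → (fibre f θ).eval ρ = 0 := by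
    intro ρ hρ
    rw [hHθ, eval_mul, eval_C] at hρ
    exact (mul_eq_zero.1 hρ).resolve_left hNC2
  have hspc : Spc ℓ g H θ σ := by
    refine ⟨?_, ?_, ?_, ?_, hσθ, fun ρ hρ => hσ1 ρ (hroot ρ hρ), ?_⟩
    · rw [hevg, hg, map_mul, hc, mul_zero]
    · rw [hevg, ← derivative_map, hg, derivative_C_mul, map_mul, aeval_C]
      exact mul_ne_zero hNC hc'
    · have h1 : evC θ H.leadingCoeff = (H.map (evC θ)).coeff f.natDegree := by
        rw [coeff_map, leadingCoeff, hHdeg]
      rw [h1, hHθ, coeff_C_mul]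
      refine mul_ne_zero hNC2 ?_
      rw [← hdeg]
      exact leadingCoeff_ne_zero.2 hfib0
    · rw [hHθ]
      exact Separable.unit_mul (isUnit_C.2 hNC2.isUnit) hsep
    · intro h2 n hn ρ hρ h3
      refine hσ2 h2 n hn ρ (hroot ρ hρ) ?_
      have h4 : ∀ k : ℕ, (σ ^ k) ρ = (σ^[k]) ρ := by
        intro k
        induction k with
        | zero => simp
        | succ k ih => rw [pow_succ', AlgEquiv.mul_apply, ih, Function.iterate_succ_apply']
      rw [h4 n]
      exact h3
  refine fam_dz ℓ g H θ σ hspc _ ?_ ε hε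
  intro t ht v hv
  obtain ⟨hgt, hgt', hloc⟩ := hv
  set P := H.map (evalRingHom t) with hP
  have hPd : P.natDegree = H.natDegree := hloc.1
  have hlcP : P.leadingCoeff ∉ v.asIdeal := hloc.2.1
  have hPf : P = C N * H0.map (evalRingHom t) := by
    rw [hP, hHdef, Polynomial.map_mul, map_C, coe_evalRingHom, eval_C]
  have hNv : N ∉ v.asIdeal := by
    intro h
    apply hlcP
    rw [hPf, leadingCoeff_mul, leadingCoeff_C]
    exact Ideal.mul_mem_right _ _ h
  have hPK : P.map (algebraMap (𝓞 K) K) =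
      C (algebraMap (𝓞 K) K N ^ 2) * fibre f (algebraMap (𝓞 K) K t) := by
    have h1 : (algebraMap (𝓞 K) K).comp (evalRingHom t) =
        (eval₂RingHom (algebraMap K K) (algebraMap (𝓞 K) K t)).comp
          (mapRingHom (algebraMap (𝓞 K) K)) := by
      apply Polynomial.ringHom_ext
      · intro a
        simp
      · simp
    rw [hP, Polynomial.map_map, h1, ← Polynomial.map_map, hH, Polynomial.map_mul, map_C, fibre]
    congr 2
    rw [coe_eval₂RingHom, eval₂_C]
    rfl
  have hgK : algebraMap (𝓞 K) K (g.eval t) =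
      algebraMap (𝓞 K) K N * c.eval (algebraMap (𝓞 K) K t) := by
    have h1 := congrArg (fun p => p.eval (algebraMap (𝓞 K) K t)) hg
    simp only [eval_mul, eval_C] at h1
    rw [← h1, eval_map_apply]
  exact hS t ht v P (g.eval t) N ⟨by rw [hPd]; exact hloc, by rw [hPd, hHdeg], hgt, hgt', hNv,
    hPK, hgK⟩

end Pool.Agent.X281.SE
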