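import Pool.Agent.X281.SE.Avoid
import Pool.Agent.Y157.PS.Sup2
import Pool.Agent.Y157.PS.All
import Pool.Agent.Y674.PS.Fun

/-!
# One-parameter families, the geometrically pro-`ℓ` fundamental group
-/

set_option autoImplicit false

namespace Pool.Agent.X281.SE

open Pool.Agent.W620.SC Pool.Agent.W623.SecC Pool.Agent.TH120.Sec
open Polynomial NumberField IsDedekindDomain
open Pool.Agent.Y157.PS (S_FUN FineP fineP)

universe u v w

theorem fineP_at {K : Type} [Field K] [NumberField K] (c : K[X]) (f : K[X][X]) (t : 𝓞 K)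
    (v : HeightOneSpectrum (𝓞 K)) (P : (𝓞 K)[X]) (g N : 𝓞 K) (hat : At 2 c f t v P g N)
    (ℓ : ℕ) (hℓ : ℓ.Prime) (hℓd : ℓ ∣ f.natDegree) (h3 : 3 ≤ f.natDegree)
    (hdv : (f.natDegree : 𝓞 K) ∉ v.asIdeal) (m : ℤ) (hm : ¬ (ℓ : ℤ) ∣ m) :
    FineP ℓ (c.eval (algebraMap (𝓞 K) K t) ^ m) (fibre f (algebraMap (𝓞 K) K t)) := by
  classical
  have hFUN : S_FUN := Pool.Agent.Y674.PS.funct Pool.Agent.Y157.PS.a_inrt
  have hfact : Fact ℓ.Prime := ⟨hℓ⟩
  obtain ⟨⟨-, hlc, hs, h2, -⟩, hPd, hg, hg', hN, hmapP, hval⟩ := hat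
  obtain ⟨h2v, hroot⟩ := h2 rfl
  have hvm : v.asIdeal.IsMaximal := v.isMaximal
  obtain ⟨A, _, _, _, _, j, ε, hfin, hfr, hjK, hjr, hju, hbn⟩ := local_ring v
  obtain ⟨ϖ, s, hϖ, hs', hgt⟩ := hbn g 1 (by rwa [pow_one]) (by simpa using hg')
  have hmap : (P.map j).map (IsLocalRing.residue A) =
      (P.map (Ideal.Quotient.mk v.asIdeal)).map
        (ε : (𝓞 K ⧸ v.asIdeal) →+* IsLocalRing.ResidueField A) := by
    rw [Polynomial.map_map, hjr, ← Polynomial.map_map]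
  have hlc0 : j P.leadingCoeff ≠ 0 := (hju _ hlc).ne_zero
  have hdeg : (P.map j).natDegree = P.natDegree := natDegree_map_of_leadingCoeff_ne_zero _ hlc0
  have hlcA : IsUnit (P.map j).leadingCoeff := by
    rw [leadingCoeff_map_of_leadingCoeff_ne_zero _ hlc0]
    exact hju _ hlc
  have hPK : P.map (algebraMap (𝓞 K) K) = (P.map j).map (algebraMap A K) := by
    rw [Polynomial.map_map, hjK]
  have hsA : ((P.map j).map (IsLocalRing.residue A)).Separable := by
    rw [hmap]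
    exact hs.map
  have hrA : ∀ b : A, (P.map j).eval b ∉ IsLocalRing.maximalIdeal A := by
    intro c hc
    have h3 : IsLocalRing.residue A ((P.map j).eval c) = 0 :=
      (IsLocalRing.residue_eq_zero_iff _).2 hc
    rw [← eval₂_at_apply, ← eval_map, hmap, eval_map] at h3
    obtain ⟨r, hr⟩ := ε.surjective (IsLocalRing.residue A c)
    apply hroot r
    apply ε.injective
    rw [map_zero, ← h3, ← hr]
    exact (eval₂_at_apply (ε : (𝓞 K ⧸ v.asIdeal) →+* IsLocalRing.ResidueField A) r).symm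
  have hℓA : IsUnit (ℓ : A) := by
    have h4 : (ℓ : 𝓞 K) ∉ v.asIdeal := by
      intro h
      apply hdv
      obtain ⟨r, hr⟩ := hℓd
      rw [hr, Nat.cast_mul]
      exact Ideal.mul_mem_right _ _ h
    have h5 := hju _ h4
    rwa [map_natCast] at h5
  -- the coefficient
  obtain ⟨tN, htN⟩ := hju N hN
  obtain ⟨tg, htg⟩ := hs'
  set t' : A := ((tN ^ (-m) * tg ^ m : Aˣ) : A) with ht'
  have ht'u : IsUnit t' := (tN ^ (-m) * tg ^ m).isUnit
  have hunit : ∀ (s : Aˣ) (n : ℤ), algebraMap A K ((s ^ n : Aˣ) : A) = algebraMap A K (s : A) ^ n := by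
    intro s n
    have h1 : Units.map (algebraMap A K : A →* K) (s ^ n) =
        (Units.map (algebraMap A K : A →* K) s) ^ n := map_zpow _ _ _
    have h2 := congrArg Units.val h1
    rw [Units.coe_map, Units.val_zpow_eq_zpow_val, Units.coe_map] at h2
    exact h2
  have hNK : algebraMap (𝓞 K) K N = algebraMap A K tN := by
    rw [← hjK, RingHom.comp_apply, htN]
  have hNK0 : algebraMap (𝓞 K) K N ≠ 0 := by
    rw [hNK]
    exact (tN.isUnit.map (algebraMap A K)).ne_zero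
  have ha : c.eval (algebraMap (𝓞 K) K t) ^ m = algebraMap A K t' * algebraMap A K ϖ ^ m := by
    have h5 : c.eval (algebraMap (𝓞 K) K t) ^ m =
        algebraMap (𝓞 K) K N ^ (-m) * algebraMap (𝓞 K) K g ^ m := by
      rw [hval, mul_zpow, ← mul_assoc, ← zpow_add₀ hNK0, neg_add_cancel, zpow_zero, one_mul]
    rw [h5, hNK, hgt, ht', Units.val_mul, map_mul, hunit, hunit, ← htg]
    have h3 : algebraMap A K ϖ ^ ((1 : ℕ) : ℤ) = algebraMap A K ϖ := by simp
    rw [h3, mul_zpow]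
    ring
  -- the polynomial
  have htN2 : algebraMap A K ((tN ^ (-2 : ℤ) : Aˣ) : A) = (algebraMap (𝓞 K) K N ^ 2)⁻¹ := by
    rw [hunit, hNK, zpow_neg]
    norm_cast
  set G : A[X] := C ((tN ^ (-2 : ℤ) : Aˣ) : A) * P.map j with hG
  have hu2 : IsUnit (((tN ^ (-2 : ℤ) : Aˣ) : A)) := (tN ^ (-2 : ℤ)).isUnit
  have hGK : G.map (algebraMap A K) = fibre f (algebraMap (𝓞 K) K t) := by
    rw [hG, Polynomial.map_mul, map_C, ← hPK, hmapP, htN2, ← mul_assoc, ← C_mul,
      inv_mul_cancel₀ (pow_ne_zero _ hNK0), C_1, one_mul]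
  have hGd : G.natDegree = f.natDegree := by
    rw [hG, natDegree_C_mul hu2.ne_zero, hdeg, hPd]
  have key := fineP hFUN hℓA G (by
      rw [hG, leadingCoeff_mul, leadingCoeff_C]
      exact hu2.mul hlcA) (by
      rw [hG, Polynomial.map_mul, map_C]
      exact Separable.unit_mul (isUnit_C.2 (hu2.map _)) hsA) (by rwa [hGd]) (by rwa [hGd]) (by
      intro b hb
      rw [hG, eval_mul, eval_C] at hb
      rcases (IsLocalRing.maximalIdeal.isMaximal A).isPrime.mem_or_mem hb with h5 | h5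
      · exact (IsLocalRing.mem_maximalIdeal _).1 h5 hu2
      · exact hrA b h5) ϖ hϖ _ m hm t' ht'u ha
  rwa [hGK] at key

theorem densityP {K : Type} [Field K] [NumberField K] (c : K[X])
    (f : K[X][X]) (θ : AlgebraicClosure K) (hc : aeval θ c = 0)
    (hc' : aeval θ (derivative c) ≠ 0) (hdeg : (fibre f θ).natDegree = f.natDegree)
    (hsep : (fibre f θ).Separable) (h3 : 3 ≤ f.natDegree)
    (hadm : Adm 2 f θ) (ε : ℝ) (hε : 0 < ε) :
    ∃ I : Ideal (𝓞 K), I ≠ ⊥ ∧ (Set.ncard ((Ideal.Quotient.mk I) ''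
      {t : 𝓞 K | ¬ ((fibre f (algebraMap (𝓞 K) K t)).natDegree = f.natDegree ∧
        ∀ ℓ : ℕ, ℓ.Prime → ℓ ∣ f.natDegree → ∀ m : ℤ, ¬ (ℓ : ℤ) ∣ m →
          FineP ℓ (c.eval (algebraMap (𝓞 K) K t) ^ m)
          (fibre f (algebraMap (𝓞 K) K t)))}) : ℝ) ≤ ε * Nat.card (𝓞 K ⧸ I) := by
  refine dz_avoid 2 (f.natDegree : 𝓞 K) (by
    rw [Ne, Nat.cast_eq_zero]
    omega) c f θ hc hc' hdeg hsep hadm _ ?_ ε hε
  intro t ht v P g N hdv hat
  apply ht
  refine ⟨?_, fun ℓ hℓ hℓd m hm => fineP_at c f t v P g N hat ℓ hℓ hℓd h3 hdv m hm⟩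
  obtain ⟨hloc, hPd, hg, hg', hN, hmap, hval⟩ := hat
  have hinj : Function.Injective (algebraMap (𝓞 K) K) := IsFractionRing.injective (𝓞 K) K
  have hNK : algebraMap (𝓞 K) K N ≠ 0 := by
    rw [Ne, map_eq_zero_iff _ hinj]
    rintro rfl
    exact hN (zero_mem _)
  have hPd' : (P.map (algebraMap (𝓞 K) K)).natDegree = P.natDegree :=
    natDegree_map_eq_of_injective hinj P
  rw [← hPd, ← hPd', hmap, natDegree_C_mul (pow_ne_zero _ hNK)]

end Pool.Agent.X281.SE
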