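import Pool.Agent.TH120.Sec.FamSupply
import Pool.Agent.TH120.Sec.Prime
import Pool.Agent.W623.SecC.Prime

/-!
# The local theorem for members of families
-/

set_option autoImplicit false

namespace Pool.Agent.X281.SE

open Pool.Agent.W620.SC Pool.Agent.W623.SecC Pool.Agent.TH120.Sec
open Polynomial NumberField IsDedekindDomain

universe u v w

/-- the curve `a yˡ = f(x)` has neither points nor sections -/
def FineL {k : Type u} [Field k] (l : ℕ) (a : k) (f : k[X]) : Prop :=
  (∀ (F : Type v) (Ω : Type w) [Field F] [Field Ω] [Algebra k F] [Algebra F Ω] [Algebra k Ω]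
    [IsScalarTower k F Ω] [IsAlgClosed Ω] [Algebra.IsAlgebraic F Ω]
    (U : Set (ValuationSubring F)), (∀ O ∈ U, ∀ c : k, algebraMap k F c ∈ O) →
    ∀ x y : F, algebraMap k F a * y ^ l = aeval x f → IsEmpty (GSection k F Ω U)) ∧
  (∀ x y : k, a * y ^ l ≠ f.eval x) ∧ ∀ r : k, a * r ^ l ≠ f.leadingCoeff

theorem fine_loc {K : Type u} [Field K] [NumberField K] (v : HeightOneSpectrum (𝓞 K))
    (ℓ : ℕ) (hℓ : ℓ.Prime) (P : (𝓞 K)[X]) (hL : Loc v ℓ P.natDegree P)
    (hd : ℓ = 2 → Even P.natDegree ∧ 4 ≤ P.natDegree) (g N : 𝓞 K) (hg : g ∈ v.asIdeal)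
    (hg' : g ∉ v.asIdeal ^ 2) (hN : N ∉ v.asIdeal) (k m : ℤ) (hm : ¬ (ℓ : ℤ) ∣ m) :
    FineL.{u, v, w} ℓ (algebraMap (𝓞 K) K N ^ k * algebraMap (𝓞 K) K g ^ m)
      (P.map (algebraMap (𝓞 K) K)) := by
  classical
  obtain ⟨-, hlc, hs, h2, hodd⟩ := hL
  have hvm : v.asIdeal.IsMaximal := v.isMaximal
  obtain ⟨A, _, _, _, _, j, ε, hfin, hfr, hjK, hjr, hju, hbn⟩ := local_ring v
  obtain ⟨ϖ, t, hϖ, ht, hgt⟩ := hbn g 1 (by rwa [pow_one]) (by simpa using hg')
  have hmap : (P.map j).map (IsLocalRing.residue A) =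
      (P.map (Ideal.Quotient.mk v.asIdeal)).map
        (ε : (𝓞 K ⧸ v.asIdeal) →+* IsLocalRing.ResidueField A) := by
    rw [Polynomial.map_map, hjr, ← Polynomial.map_map]
  have hlc0 : j P.leadingCoeff ≠ 0 := (hju _ hlc).ne_zero
  have hdeg : (P.map j).natDegree = P.natDegree := natDegree_map_of_leadingCoeff_ne_zero _ hlc0
  have hlcA : IsUnit (P.map j).leadingCoeff := by
    rw [leadingCoeff_map_of_leadingCoeff_ne_zero _ hlc0]
    exact hju _ hlc
  have hPK : P.map (algebraMap (𝓞 K) K) = (P.map j).map (algebraMap A K) := by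
    rw [Polynomial.map_map, hjK]
  have hlcK : (P.map (algebraMap (𝓞 K) K)).leadingCoeff =
      algebraMap A K (P.map j).leadingCoeff := by
    rw [hPK, leadingCoeff_map_of_injective (IsFractionRing.injective A K)]
  have hsA : ((P.map j).map (IsLocalRing.residue A)).Separable := by
    rw [hmap]
    exact hs.map
  -- the coefficient
  obtain ⟨tN, htN⟩ := hju N hN
  obtain ⟨tg, htg⟩ := ht
  set t' : A := ((tN ^ k * tg ^ m : Aˣ) : A) with ht'
  have ht'u : IsUnit t' := (tN ^ k * tg ^ m).isUnit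
  have hunit : ∀ (s : Aˣ) (n : ℤ), algebraMap A K ((s ^ n : Aˣ) : A) = algebraMap A K (s : A) ^ n := by
    intro s n
    have h1 : Units.map (algebraMap A K : A →* K) (s ^ n) =
        (Units.map (algebraMap A K : A →* K) s) ^ n := map_zpow _ _ _
    have h2 := congrArg Units.val h1
    rw [Units.coe_map, Units.val_zpow_eq_zpow_val, Units.coe_map] at h2
    exact h2
  have hNK : algebraMap (𝓞 K) K N = algebraMap A K tN := by
    rw [← hjK, RingHom.comp_apply, htN]
  have ha : algebraMap (𝓞 K) K N ^ k * algebraMap (𝓞 K) K g ^ m =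
      algebraMap A K t' * algebraMap A K ϖ ^ m := by
    rw [hNK, hgt, ht', Units.val_mul, map_mul, hunit, hunit, ← htg]
    have h3 : algebraMap A K ϖ ^ ((1 : ℕ) : ℤ) = algebraMap A K ϖ := by simp
    rw [h3, mul_zpow]
    ring
  by_cases hl2 : ℓ = 2
  · subst hl2
    obtain ⟨h2v, hroot⟩ := h2 rfl
    obtain ⟨hev, h4⟩ := hd rfl
    have h2A : IsUnit (2 : A) := by
      have h3 := hju 2 h2v
      rwa [map_ofNat] at h3
    have hrA : ∀ b : A, (P.map j).eval b ∉ IsLocalRing.maximalIdeal A := by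
      intro c hc
      have h3 : IsLocalRing.residue A ((P.map j).eval c) = 0 :=
        (IsLocalRing.residue_eq_zero_iff _).2 hc
      rw [← eval₂_at_apply, ← eval_map, hmap, eval_map] at h3
      obtain ⟨r, hr⟩ := ε.surjective (IsLocalRing.residue A c)
      apply hroot r
      apply ε.injective
      rw [map_zero, ← h3, ← hr]
      exact (eval₂_at_apply (ε : (𝓞 K ⧸ v.asIdeal) →+* IsLocalRing.ResidueField A) r).symm
    have hmo : Odd m := by
      rw [← Int.not_even_iff_odd, even_iff_two_dvd]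
      exact_mod_cast hm
    refine ⟨?_, ?_, ?_⟩
    · intro F Ω _ _ _ _ _ _ _ _ U hU x y hxy
      refine local_no_section h2A (P.map j) hlcA hsA (by rwa [hdeg]) (by rwa [hdeg]) hrA ϖ hϖ _ t'
        ht'u m hmo ha U hU x y ?_
      rw [hxy, hPK]
    · intro x y
      rw [hPK]
      exact no_affine_point ϖ hϖ (P.map j) hlcA (by rwa [hdeg]) hrA _ t' ht'u m hmo ha x y
    · intro r
      rw [hlcK]
      exact no_infinite_point ϖ hϖ (P.map j) hlcA _ t' ht'u m hmo ha r
  · have hcyc := hodd hl2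
    have hcard : Nat.card (IsLocalRing.ResidueField A) = Ideal.absNorm v.asIdeal := by
      rw [Ideal.absNorm_apply, Submodule.cardQuot_apply]
      exact (Nat.card_congr ε.toEquiv).symm
    have hcA : ∀ n : ℕ, ¬ ℓ ∣ n → IsCoprime (X ^ (Nat.card (IsLocalRing.ResidueField A) ^ n) - X)
          ((P.map j).map (IsLocalRing.residue A)) := by
      intro n hn
      rw [hmap, hcard]
      have h1 := (hcyc n hn).map (Polynomial.mapRingHom
        (ε : (𝓞 K ⧸ v.asIdeal) →+* IsLocalRing.ResidueField A))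
      rw [coe_mapRingHom, Polynomial.map_sub, Polynomial.map_pow, map_X] at h1
      exact h1
    have h1ℓ : ¬ ℓ ∣ 1 := hℓ.one_lt.not_ge ∘ Nat.le_of_dvd one_pos
    refine ⟨?_, ?_, ?_⟩
    · intro F Ω _ _ _ _ _ _ _ _ U hU x y hxy
      refine local_odd ℓ hℓ hl2 (fun _ : Unit => P.map j) (fun _ => 1) (fun _ => h1ℓ)
        (fun _ => hlcA) (by simpa using hsA) (by simpa using hcA) ϖ hϖ _ t' ht'u m hm ha U hU
        x y ?_
      rw [hxy, hPK]
      simp
    · intro x y
      have h3 := local_odd_pt ℓ hℓ hl2 (fun _ : Unit => P.map j) (fun _ => 1) (fun _ => h1ℓ)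
        (fun _ => hlcA) (by simpa using hsA) (by simpa using hcA) ϖ hϖ _ t' ht'u m hm ha x y
      rw [hPK]
      simpa using h3
    · intro r
      have hlcr : IsUnit (IsLocalRing.residue A (P.map j).leadingCoeff) := hlcA.map _
      have h3 := local_odd_pt ℓ hℓ hl2 (fun _ : Unit => (C (P.map j).leadingCoeff : A[X]))
        (fun _ => 1) (fun _ => h1ℓ) (fun _ => by rwa [leadingCoeff_C])
        (by simpa using (separable_C _).2 hlcr)
        (fun n _ => by
          simp only [Finset.univ_unique, Finset.prod_const, Finset.card_singleton, pow_one, map_C]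
          obtain ⟨b, hb⟩ := (isUnit_C.2 hlcr).exists_left_inv
          exact ⟨0, b, by rw [zero_mul, zero_add]; exact hb⟩) ϖ hϖ _ t' ht'u m hm ha 0 r
      rw [hlcK]
      simpa using h3

end Pool.Agent.X281.SE
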