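import Pool.Agent.X281.SE.Norm
import Pool.Agent.X281.SE.Ext2

/-!
# Norm-form curves, finitely generated fields
-/

set_option autoImplicit false

namespace Pool.Agent.X281.SE

open Pool.Agent.W620.SC Pool.Agent.W623.SecC Pool.Agent.TH377.LocG Pool.Agent.TH377.NC
open Polynomial

universe u v w x y z

theorem norm_dvr {R : Type z} {K : Type u} [CommRing R] [IsDomain R]
    [IsDiscreteValuationRing R] [Field K] [Algebra R K] [IsFractionRing R K] [CharZero K]
    (D : ℕ) (hD : D ≠ 0) (P : R[X]) (hlc : IsUnit P.leadingCoeff)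
    (hs : (P.map (IsLocalRing.residue R)).Separable)
    (hf : FactorDiv (Nat.gcd 2 D * D) (P.map (IsLocalRing.residue R))) (ϖ t : R)
    (hϖ : Irreducible ϖ) (ht : IsUnit t) (m : ℤ) (a : K)
    (ha : a = algebraMap R K t * algebraMap R K ϖ ^ m)
    {E : Type x} [Field E] [Algebra K E] [FiniteDimensional K E] (η : E)
    (hirr : Irreducible (P.map (algebraMap R K))) (hadj : Algebra.adjoin K {η} = ⊤)
    (hη : aeval η (P.map (algebraMap R K)) = 0)
    {L : Type y} [Field L] [Algebra K L] [FiniteDimensional K L]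
    (hm : ¬ (D : ℤ) ∣ m * Module.finrank K L) (n q : ℕ) (hDn : D ∣ n)
    (hnq : n * q = P.natDegree) (A : Fin 3 → E) (Q : MvPolynomial (Fin 3) K)
    (hQ : Q.IsHomogeneous q)
    (htr : ∀ σ τ : E →ₐ[K] AlgebraicClosure K, σ ≠ τ →
      MvPolynomial.aeval (crossProduct (fun j => σ (A j)) (fun j => τ (A j))) Q ≠ 0) :
    (∀ x : Fin 3 → L, x ≠ 0 → ∏ σ : E →ₐ[K] AlgebraicClosure L,
        ∑ j, σ (A j) * algebraMap L (AlgebraicClosure L) (x j) ≠
      algebraMap K (AlgebraicClosure L) a *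
        MvPolynomial.aeval (fun j => algebraMap L (AlgebraicClosure L) (x j)) Q ^ n) ∧
    ∀ (F : Type v) (Ω : Type w) [Field F] [Field Ω] [Algebra L F] [Algebra F Ω] [Algebra L Ω]
      [Algebra K Ω] [IsScalarTower L F Ω] [IsScalarTower K L Ω] [IsAlgClosure F Ω]
      (x : Fin 3 → F) (U : Set (ValuationSubring F)), x ≠ 0 →
      ∏ σ : E →ₐ[K] Ω, ∑ j, σ (A j) * algebraMap F Ω (x j) =
        algebraMap K Ω a * MvPolynomial.aeval (fun j => algebraMap F Ω (x j)) Q ^ n →
      (∀ O ∈ U, ∀ c : L, algebraMap L F c ∈ O) → IsEmpty (GSection L F Ω U) := by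
  classical
  obtain ⟨u, hu⟩ := hlc
  -- the monic polynomial
  set G : R[X] := C ((u⁻¹ : Rˣ) : R) * P with hG
  have hGm : G.Monic := by
    apply monic_C_mul_of_mul_leadingCoeff_eq_one
    rw [← hu, Units.inv_mul]
  have huK : algebraMap R K ((u⁻¹ : Rˣ) : R) ≠ 0 := ((u⁻¹).isUnit.map (algebraMap R K)).ne_zero
  have hur : IsLocalRing.residue R ((u⁻¹ : Rˣ) : R) ≠ 0 :=
    ((u⁻¹).isUnit.map (IsLocalRing.residue R)).ne_zero
  have hGK : G.map (algebraMap R K) = C (algebraMap R K ((u⁻¹ : Rˣ) : R)) *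
      P.map (algebraMap R K) := by
    rw [hG, Polynomial.map_mul, map_C]
  have hGs : (G.map (IsLocalRing.residue R)).Separable := by
    rw [hG, Polynomial.map_mul, map_C]
    exact Separable.unit_mul (isUnit_C.2 hur.isUnit) hs
  have hGf : FactorDiv (Nat.gcd 2 D * D) (G.map (IsLocalRing.residue R)) := by
    intro g hg hgd
    refine hf g hg ?_
    rw [hG, Polynomial.map_mul, map_C] at hgd
    exact ((isUnit_C.2 hur.isUnit).dvd_mul_left).1 hgd
  have hint : IsIntegral K η := Algebra.IsIntegral.isIntegral η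
  have hGmin : G.map (algebraMap R K) = minpoly K η := by
    refine minpoly.eq_of_irreducible_of_monic ?_ ?_ (hGm.map _)
    · rw [hGK, irreducible_isUnit_mul (isUnit_C.2 huK.isUnit)]
      exact hirr
    · rw [hGK, map_mul, hη, mul_zero]
  set pb : PowerBasis K E := PowerBasis.ofAdjoinEqTop hint hadj with hpb
  have hgen : pb.gen = η := PowerBasis.ofAdjoinEqTop_gen _ _
  have hGpb : G.map (algebraMap R K) = minpoly K pb.gen := by rw [hgen, hGmin]
  have hGd : G.natDegree = P.natDegree := by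
    rw [hG, natDegree_C_mul (u⁻¹).isUnit.ne_zero]
  have hfinE : Module.finrank K E = P.natDegree := by
    rw [pb.finrank, ← pb.natDegree_minpoly, ← hGpb, hGm.natDegree_map, hGd]
  exact gen_both (K := K) (L := L) D hD pb G hGm hGpb hGs hGf ϖ t hϖ ht m hm _ ha n q
    hDn (by rw [hnq, hfinE]) A Q hQ htr

/-- norm-form curves -/
theorem good_norm {k : Type} [Field k] [CharZero k] (a : k) (g : k[X]) (h : GoodDvr a g) (D : ℕ)
    (hD : D ≠ 0) (hDd : Nat.gcd 2 D * D ∣ g.natDegree) :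
    NormFine.{0, v, w, x, y} D a g := by
  intro E _ _ _ η hirr hadj hη L _ _ _ m hm n q hDn hnq B Q hQ htr
  obtain ⟨A, _, _, _, _, f, ϖ, t, s, hfr, hfin, hfg, hdeg, hlc, hirr', hϖ, ht, hs, ha, h2⟩ := h
  obtain ⟨tu, rfl⟩ := ht
  have hdr : (f.map (IsLocalRing.residue A)).natDegree = g.natDegree := by
    rw [← hdeg]
    exact natDegree_map_of_leadingCoeff_ne_zero _ (hlc.map _).ne_zero
  have hsep : (f.map (IsLocalRing.residue A)).Separable :=
    PerfectField.separable_of_irreducible hirr'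
  subst hfg
  refine norm_dvr D hD f hlc hsep (factorDiv_of_irreducible _ _ hirr' (by rwa [hdr])) ϖ
    ((tu ^ m : Aˣ) : A) hϖ (tu ^ m).isUnit (s * m) (a ^ m) ?_ η hirr hadj hη ?_ n q hDn
    (by rw [hnq, hdeg]) B Q hQ htr
  · rw [zpow_unit, ha, mul_zpow, ← zpow_mul]
  · intro h3
    apply hm
    rcases hs with rfl | rfl
    · rwa [one_mul] at h3
    · rw [neg_one_mul, neg_mul, dvd_neg] at h3
      exact h3

end Pool.Agent.X281.SE
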