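import Pool.Agent.X281.SE.Typ2

/-!
# Superelliptic curves with given factorisation type: good discrete valuation rings
-/

set_option autoImplicit false

namespace Pool.Agent.X281.SE

open Pool.Agent.W620.SC Pool.Agent.W623.SecC Pool.Agent.TH377.LocG
  Pool.Agent.TH377.NC Pool.Agent.TH377.Loc
open Polynomial
open Pool.Agent.TH377.Sup (pol pol_natDegree pol_leadingCoeff pol_map pol_coeff irr_of_map Irr)

universe u v w x y z

/-- the data of a good discrete valuation ring -/
structure TypA {I : Type} [Fintype I] (d : I → ℕ) (A : Type z) [CommRing A] [IsDomain A]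
    [IsDiscreteValuationRing A] (P : I → A[X]) : Prop where
  deg : ∀ i, (P i).natDegree = d i
  lc : ∀ i, IsUnit (P i).leadingCoeff
  irr : ∀ i, Irreducible ((P i).map (IsLocalRing.residue A))
  degr : ∀ i, ((P i).map (IsLocalRing.residue A)).natDegree = d i
  sep : (X * ∏ i, (P i).map (IsLocalRing.residue A)).Separable

theorem typA_of {I : Type} [Fintype I] (d : I → ℕ) {A : Type} [CommRing A] [IsDomain A]
    [IsDiscreteValuationRing A] (c : (Σ i, Fin (d i + 1)) → A)
    (h : TypC d (IsLocalRing.ResidueField A) fun i => IsLocalRing.residue A (c i)) :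
    TypA d A fun i => pol fun j => c ⟨i, j⟩ := by
  obtain ⟨h1, h2⟩ := h
  have unit_of : ∀ z : A, IsLocalRing.residue A z ≠ 0 → IsUnit z := by
    intro z hz
    by_contra h4
    exact hz ((IsLocalRing.residue_eq_zero_iff _).2 ((IsLocalRing.mem_maximalIdeal _).2 h4))
  have h3 : ∀ i, IsUnit (c ⟨i, Fin.last (d i)⟩) := fun i => unit_of _ (h1 i).1
  refine ⟨fun i => pol_natDegree _ (h3 i).ne_zero, fun i => ?_, fun i => ?_, fun i => ?_, ?_⟩
  · rw [pol_leadingCoeff _ (h3 i).ne_zero]
    exact h3 i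
  · rw [pol_map]
    exact (h1 i).2
  · rw [pol_map]
    exact pol_natDegree _ (h1 i).1
  · simpa only [pol_map] using h2

section

variable {I : Type} [Fintype I] {d : I → ℕ} {A : Type z} [CommRing A] [IsDomain A]
  [IsDiscreteValuationRing A] {P : I → A[X]}

theorem TypA.sep' (h : TypA d A P) : ((∏ i, P i).map (IsLocalRing.residue A)).Separable := by
  rw [Polynomial.map_prod]
  exact h.sep.of_mul_right

theorem TypA.factor (h : TypA d A P) (N : ℕ) (hN : ∀ i, N ∣ d i) :
    FactorDiv N ((∏ i, P i).map (IsLocalRing.residue A)) := by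
  intro g hg hgd
  rw [Polynomial.map_prod] at hgd
  obtain ⟨i, -, hi⟩ := hg.prime.exists_mem_finset_dvd hgd
  exact factorDiv_of_irreducible N _ (h.irr i) (by rw [h.degr]; exact hN i) g hg hi

theorem TypA.irrk (h : TypA d A P) {k : Type u} [Field k] [Algebra A k] [IsFractionRing A k]
    (i : I) : Irreducible ((P i).map (algebraMap A k)) ∧
      ((P i).map (algebraMap A k)).natDegree = d i := by
  obtain ⟨u, hu⟩ := h.lc i
  have hmon : (C ((u⁻¹ : Aˣ) : A) * P i).Monic := by
    rw [Monic, leadingCoeff_mul, leadingCoeff_C, ← hu, Units.inv_mul]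
  have h4 : Irreducible (C ((u⁻¹ : Aˣ) : A) * P i) := by
    refine hmon.irreducible_of_irreducible_map (IsLocalRing.residue A) _ ?_
    rw [Polynomial.map_mul, map_C]
    exact (irreducible_isUnit_mul (isUnit_C.2 ((u⁻¹).isUnit.map _))).2 (h.irr i)
  have h5 := (hmon.irreducible_iff_irreducible_map_fraction_map (K := k)).1 h4
  rw [Polynomial.map_mul, map_C] at h5
  refine ⟨(irreducible_isUnit_mul (isUnit_C.2 ((u⁻¹).isUnit.map _))).1 h5, ?_⟩
  rw [natDegree_map_eq_of_injective (IsFractionRing.injective A k), h.deg]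

theorem TypA.sepk (h : TypA d A P) {k : Type u} [Field k] [CharZero k] [Algebra A k]
    [IsFractionRing A k] : (∏ i, (P i).map (algebraMap A k)).Separable := by
  classical
  have hinj : Function.Injective (algebraMap A k) := IsFractionRing.injective A k
  refine separable_prod' ?_ fun i _ => (h.irrk i).1.separable
  intro i _ j _ hij
  rw [(h.irrk (k := k) i).1.coprime_iff_not_dvd]
  intro hdvd
  obtain ⟨v, hv⟩ := (h.irrk (k := k) i).1.associated_of_dvd (h.irrk (k := k) j).1 hdvd
  obtain ⟨r, hr, hrv⟩ := Polynomial.isUnit_iff.1 v.isUnit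
  obtain ⟨ui, hui⟩ := h.lc i
  obtain ⟨uj, huj⟩ := h.lc j
  -- the factor is a unit of `A`
  have h1 : r = algebraMap A k ((ui⁻¹ * uj : Aˣ) : A) := by
    have h2 := congrArg leadingCoeff hv
    rw [← hrv, leadingCoeff_mul, leadingCoeff_C, leadingCoeff_map_of_injective hinj,
      leadingCoeff_map_of_injective hinj, ← hui, ← huj] at h2
    rw [Units.val_mul, map_mul, ← h2, ← mul_assoc, ← map_mul, Units.inv_mul, map_one, one_mul]
  have h3 : P j = P i * C ((ui⁻¹ * uj : Aˣ) : A) := by
    apply Polynomial.map_injective _ hinj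
    rw [Polynomial.map_mul, map_C, ← h1, hrv, hv]
  have h4 : (P i).map (IsLocalRing.residue A) * (P i).map (IsLocalRing.residue A) ∣
      ∏ i, (P i).map (IsLocalRing.residue A) := by
    have h5 : ∏ l ∈ {i, j}, (P l).map (IsLocalRing.residue A) ∣
        ∏ l, (P l).map (IsLocalRing.residue A) :=
      Finset.prod_dvd_prod_of_subset _ _ _ (Finset.subset_univ _)
    rw [Finset.prod_pair hij] at h5
    refine dvd_trans ?_ h5
    rw [h3, Polynomial.map_mul]
    exact mul_dvd_mul_left _ (dvd_mul_right _ _)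
  exact (h.irr i).not_isUnit (h.sep.of_mul_right.squarefree _ h4)

end

theorem typ_ext {I : Type} [Fintype I] (d : I → ℕ) {k : Type} [Field k] [CharZero k] (q q' : ℕ)
    (a : k) (g : (Σ i, Fin (d i + 1)) → k)
    (h : Pool.Agent.X281.SEI.GoodI (fun κ _ c => TypC d κ c) q q' a g) :
    (∀ i, Irreducible (pol fun j => g ⟨i, j⟩) ∧ (pol fun j => g ⟨i, j⟩).natDegree = d i) ∧
    (∏ i, pol fun j => g ⟨i, j⟩).Separable ∧
    ∀ D : ℕ, D ≠ 0 → (∀ i, Nat.gcd 2 D * D ∣ d i) →
    ∀ (L : Type y) [Field L] [Algebra k L] [FiniteDimensional k L] (m : ℤ),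
      ¬ (D : ℤ) ∣ m * Module.finrank k L → ∀ n : ℕ, D ∣ n → ∀ e : I → ℕ,
      BirFine.{v, w, y} D n (algebraMap k L (a ^ m))
        ((∏ i, pol fun j => g ⟨i, j⟩).map (algebraMap k L))
        ((∏ i, (pol fun j => g ⟨i, j⟩) ^ e i).map (algebraMap k L)) ∧
      ((∀ i, Nat.Coprime D (e i)) → EtFine.{v, w, y} n (algebraMap k L (a ^ m))
        ((∏ i, (pol fun j => g ⟨i, j⟩) ^ e i).map (algebraMap k L))) := by
  obtain ⟨A, _, _, _, _, c, ϖ, t, s, hfr, hfin, hc, hP, hϖ, ht, hs, ha, -, -⟩ := h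
  have hA := typA_of d c hP
  have hk : ∀ i, (pol fun j => c ⟨i, j⟩).map (algebraMap A k) = pol fun j => g ⟨i, j⟩ := by
    intro i
    rw [pol_map]
    congr 1
    funext j
    exact hc _
  simp only [← hk]
  refine ⟨fun i => hA.irrk i, hA.sepk, ?_⟩
  intro D hD hDd L _ _ _ m hm n hDn e
  obtain ⟨tu, rfl⟩ := ht
  refine prod_dvr D hD (fun i => pol fun j => c ⟨i, j⟩) e hA.lc hA.sep' (hA.factor _ hDd) ϖ
    ((tu ^ m : Aˣ) : A) hϖ (tu ^ m).isUnit (s * m) (a ^ m) ?_ ?_ n hDn
  · rw [zpow_unit, ha, mul_zpow, ← zpow_mul]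
  · intro h3
    apply hm
    rcases hs with rfl | rfl
    · rwa [one_mul] at h3
    · rw [neg_one_mul, neg_mul, dvd_neg] at h3
      exact h3

end Pool.Agent.X281.SE
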