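import Pool.Agent.X281.SE.Typ3

/-!
# Superelliptic curves with given factorisation type: density
-/

set_option autoImplicit false

namespace Pool.Agent.X281.SE

open Polynomial
open Pool.Agent.TH377.Sup (pol)
open Pool.Agent.X281.SEI (GoodI GoodV)

theorem typ_density {I : Type} [Fintype I] (d : I → ℕ) (hd : ∀ i, 1 ≤ d i)
    {R k : Type} [CommRing R] [IsDomain R] [CharZero R]
    [Algebra.FiniteType ℤ R] [Field k] [Algebra R k] [IsFractionRing R k] (n : ℕ) (q : ℕ)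
    (hq : q ≠ 0) (ε : ℝ) (hε : 0 < ε) :
    ∃ Q : Fin n → ℕ × ℕ, (∀ j, q ∣ (Q j).1) ∧ (∀ i j, i < j → (Q i).2 ∣ (Q j).1) ∧
      ∃ J : Ideal R, Finite (R ⧸ J) ∧
      (Set.ncard ((fun (c : Option (Σ i, Fin (d i + 1)) → R) i => Ideal.Quotient.mk J (c i)) ''
        {c | ¬ ∀ j, GoodV (fun κ _ c => TypC d κ c) (Q j).1 (Q j).2 k c}) : ℝ) ≤
        ε * (Nat.card (R ⧸ J) : ℝ) ^ Fintype.card (Option (Σ i, Fin (d i + 1))) := by
  have h1 : ∀ i, (1 : ℝ) ≤ d i := fun i => by exact_mod_cast hd i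
  have h2 : (0 : ℝ) < ∏ i, (1 / (4 * (d i : ℝ))) :=
    Finset.prod_pos fun i _ => by have := h1 i; positivity
  have h3 : ∏ i, (1 / (4 * (d i : ℝ))) ≤ 1 := by
    refine Finset.prod_le_one (fun i _ => by have := h1 i; positivity) fun i _ => ?_
    have := h1 i
    rw [div_le_one (by positivity)]
    linarith
  exact Pool.Agent.X281.SEI.density_idx (fun κ _ c => TypC d κ c)
    (fun κ κ' _ _ φ c h => typ_desc d κ κ' φ c h) (1 / 2 * ∏ i, (1 / (4 * (d i : ℝ))))
    (by positivity) (by linarith) (4 * (Fintype.card I + 1) * ∑ i, d i + 2)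
    (fun κ _ _ hκ => typ_many d κ hd hκ) n q hq ε hε

end Pool.Agent.X281.SE
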